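import Pool.Agent.U309.ED.EC2

/-!
# The distribution at the edge is not changed by a factor with a limit
-/

set_option autoImplicit false
set_option linter.unusedSectionVars false
set_option linter.unusedVariables false

namespace Pool.Agent.U309.ED

open Finset Filter Topology
open Pool.Agent.Y722.HS (box)

theorem EdgeAt.mul {ι : Type} [Fintype ι] [DecidableEq ι] {s0 b : ℝ} {X Y : (ι → ℤ) → ℂ → ℂ} (h : EdgeAt s0 b X)
    {F : ℂ → ℂ} {κ : ℂ} (hκ : κ ≠ 0) (hF : Tendsto F (𝓝[{s : ℂ | s0 < s.re}] (s0 : ℂ)) (𝓝 κ))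
    (hY : ∀ (c : ι → ℤ) (s : ℂ), s0 < s.re → Y c s = F s * X c s) : EdgeAt s0 b Y := by
  obtain ⟨Φ, h1, h2, h3, ⟨c, C, B, τ0, hc, hC, hB, h4⟩, h5⟩ := h
  obtain ⟨k, hk⟩ : ∃ k : ℝ, k = ‖κ‖ := ⟨_, rfl⟩
  have hk0 : 0 < k := by
    rw [hk]
    exact norm_pos_iff.mpr hκ
  have hki : 0 < k⁻¹ := by positivity
  have hmap : Set.MapsTo (fun τ : ℝ => τ / k) (Set.Ioi 0) (Set.Ioi 0) := fun τ hτ => div_pos hτ hk0
  refine ⟨fun τ => Φ (τ / k), ?_, ?_, ?_, ⟨c * min (k ^ (1 / b)) (k⁻¹ ^ (1 / b)), C * max (k ^ B) (k⁻¹ ^ B), B,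
    max (max (τ0 / k) (τ0 * k)) 1, ?_, ?_, hB, ?_⟩, ?_⟩
  · exact h1.comp (by fun_prop) hmap
  · intro x hx y hy hxy
    exact h2 (hmap hx) (hmap hy) (div_lt_div_of_pos_right hxy hk0)
  · intro τ hτ
    exact h3 _ (div_pos hτ hk0)
  · positivity
  · positivity
  · intro τ hτ
    have hτ1 : 1 ≤ τ := (le_max_right _ _).trans hτ
    have hτ2 : τ0 / k ≤ τ := ((le_max_left _ _).trans (le_max_left _ _)).trans hτ
    have hτ3 : τ0 * k ≤ τ := ((le_max_right _ _).trans (le_max_left _ _)).trans hτ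
    have hτ0 : 0 < τ := by linarith
    have h6 := h4 (k * τ) (by
      rw [div_le_iff₀ hk0] at hτ2
      linarith)
    have h7 := h4 (k⁻¹ * τ) (by
      rw [inv_mul_eq_div, le_div_iff₀ hk0]
      exact hτ3)
    have e1 : 1 / (k * τ) = 1 / τ / k := by
      field_simp
    have e2 : k⁻¹ * τ = τ / k := by
      field_simp
    rw [e1, Real.mul_rpow hk0.le hτ0.le, Real.mul_rpow hk0.le hτ0.le] at h6
    rw [Real.mul_rpow hki.le hτ0.le, Real.mul_rpow hki.le hτ0.le, e2] at h7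
    have hA : 0 ≤ τ ^ B := by positivity
    have hA' : 0 ≤ τ ^ (1 / b) := by positivity
    have u1 : C * (k ^ B * τ ^ B) ≤ C * max (k ^ B) (k⁻¹ ^ B) * τ ^ B := by
      rw [mul_assoc]
      exact mul_le_mul_of_nonneg_left (mul_le_mul_of_nonneg_right (le_max_left _ _) hA) hC.le
    have u2 : C * (k⁻¹ ^ B * τ ^ B) ≤ C * max (k ^ B) (k⁻¹ ^ B) * τ ^ B := by
      rw [mul_assoc]
      exact mul_le_mul_of_nonneg_left (mul_le_mul_of_nonneg_right (le_max_right _ _) hA) hC.le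
    have v1 : c * min (k ^ (1 / b)) (k⁻¹ ^ (1 / b)) * τ ^ (1 / b) ≤ c * (k ^ (1 / b) * τ ^ (1 / b)) := by
      rw [mul_assoc]
      exact mul_le_mul_of_nonneg_left (mul_le_mul_of_nonneg_right (min_le_left _ _) hA') hc.le
    have v2 : c * min (k ^ (1 / b)) (k⁻¹ ^ (1 / b)) * τ ^ (1 / b) ≤ c * (k⁻¹ ^ (1 / b) * τ ^ (1 / b)) := by
      rw [mul_assoc]
      exact mul_le_mul_of_nonneg_left (mul_le_mul_of_nonneg_right (min_le_right _ _) hA') hc.le
    refine ⟨?_, ?_, ?_, ?_⟩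
    · refine le_trans ?_ h6.1
      exact Real.exp_le_exp.mpr (neg_le_neg (Real.exp_le_exp.mpr u1))
    · refine h6.2.1.trans ?_
      exact Real.exp_le_exp.mpr (neg_le_neg (Real.exp_le_exp.mpr v1))
    · refine le_trans ?_ h7.2.2.1
      exact Real.exp_le_exp.mpr (neg_le_neg (Real.exp_le_exp.mpr u2))
    · refine h7.2.2.2.trans ?_
      exact Real.exp_le_exp.mpr (neg_le_neg (Real.exp_le_exp.mpr v2))
  · intro σ hσ hσl τ hτ
    have hlogN : Tendsto (fun H : ℕ => Real.log H) atTop atTop :=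
      Real.tendsto_log_atTop.comp tendsto_natCast_atTop_atTop
    have hpos : ∀ᶠ H : ℕ in atTop, s0 < (σ H).re := by
      filter_upwards [hσl.eventually_gt_atTop 0, hlogN.eventually_gt_atTop 0] with H h1 h2
      have := pos_of_mul_pos_left h1 h2.le
      linarith
    have hFσ : Tendsto (fun H => ‖F (σ H)‖) atTop (𝓝 k) := by
      rw [hk]
      exact (hF.comp (tendsto_nhdsWithin_iff.mpr ⟨hσ, hpos⟩)).norm
    have hFpos : ∀ᶠ H : ℕ in atTop, 0 < ‖F (σ H)‖ := hFσ.eventually_const_lt hk0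
    have hdiv : Tendsto (fun H => τ / ‖F (σ H)‖) atTop (𝓝 (τ / k)) := tendsto_const_nhds.div hFσ hk0.ne'
    have hτk : 0 < τ / k := div_pos hτ hk0
    have hmono : ∀ (H : ℕ) (x y : ℝ), x ≤ y →
        (((box ι H).filter (fun c => ‖X c (σ H)‖ ≤ x)).card : ℝ) / (box ι H).card ≤
          (((box ι H).filter (fun c => ‖X c (σ H)‖ ≤ y)).card : ℝ) / (box ι H).card := by
      intro H x y hxy
      refine div_le_div_of_nonneg_right ?_ (Nat.cast_nonneg _)
      exact_mod_cast Finset.card_le_card fun c hc => by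
        rw [Finset.mem_filter] at hc ⊢
        exact ⟨hc.1, hc.2.trans hxy⟩
    have heq : ∀ᶠ H : ℕ in atTop, (((box ι H).filter (fun c => ‖Y c (σ H)‖ ≤ τ)).card : ℝ) / (box ι H).card =
        (((box ι H).filter (fun c => ‖X c (σ H)‖ ≤ τ / ‖F (σ H)‖)).card : ℝ) / (box ι H).card := by
      filter_upwards [hpos, hFpos] with H hH hF0
      have hfil : (box ι H).filter (fun c => ‖Y c (σ H)‖ ≤ τ) =
          (box ι H).filter (fun c => ‖X c (σ H)‖ ≤ τ / ‖F (σ H)‖) :=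
        Finset.filter_congr fun c _ => by rw [hY c _ hH, norm_mul, le_div_iff₀ hF0, mul_comm]
      rw [hfil]
    refine (Filter.tendsto_congr' heq).mpr ?_
    have hcont : ContinuousAt Φ (τ / k) := h1.continuousAt (Ioi_mem_nhds hτk)
    rw [tendsto_order]
    constructor
    · intro a ha
      obtain ⟨x, hx0, hx1, hx2⟩ : ∃ x, 0 < x ∧ x < τ / k ∧ a < Φ x := by
        have h8 : ∀ᶠ x in 𝓝 (τ / k), a < Φ x := hcont.eventually_const_lt ha
        have h9 : ∀ᶠ x in 𝓝[<] (τ / k), a < Φ x ∧ 0 < x := (h8.filter_mono nhdsWithin_le_nhds).and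
          ((eventually_gt_nhds hτk).filter_mono nhdsWithin_le_nhds)
        obtain ⟨x, hx, hx'⟩ := (h9.and self_mem_nhdsWithin).exists
        exact ⟨x, hx.2, hx', hx.1⟩
      have h10 := (h5 σ hσ hσl x hx0).eventually_const_lt hx2
      filter_upwards [h10, hdiv.eventually_const_lt hx1] with H h11 h12
      exact h11.trans_le (hmono H _ _ h12.le)
    · intro a ha
      obtain ⟨x, hx1, hx2⟩ : ∃ x, τ / k < x ∧ Φ x < a := by
        have h8 : ∀ᶠ x in 𝓝 (τ / k), Φ x < a := hcont.eventually_lt_const ha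
        have h9 : ∀ᶠ x in 𝓝[>] (τ / k), Φ x < a := h8.filter_mono nhdsWithin_le_nhds
        obtain ⟨x, hx, hx'⟩ := (h9.and self_mem_nhdsWithin).exists
        exact ⟨x, hx', hx⟩
      have h10 := (h5 σ hσ hσl x (hτk.trans hx1)).eventually_lt_const hx2
      filter_upwards [h10, hdiv.eventually_lt_const hx1] with H h11 h12
      exact (hmono H _ _ h12.le).trans_lt h11

end Pool.Agent.U309.ED
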