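import Pool.Agent.U309.ED.HSys2

/-!
# Random members of linear systems of hypersurfaces: Euler products and the distribution at the edge
-/

set_option autoImplicit false
set_option linter.unusedSectionVars false
set_option linter.unusedVariables false

namespace Pool.Agent.U309.ED.Hyp

open Finset Pool.Agent.U309.ED.Sp4
open Pool.Agent.Y722.HS (Mon mev mkMon mkMon_apply EM red EM_mono EM_const IsSmooth)
open Pool.Agent.N534.LL (liftp red_liftp)
open Pool.Agent.N534.PS (trm)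
open scoped LinearAlgebra.Projectivization

variable {w : ℕ} {J : Type} [Fintype J] [DecidableEq J] {d : J → ℕ}

/-- `- log (1 - z)` -/
noncomputable def lg (z : ℂ) : ℂ := -Complex.log (1 - z)

theorem hs_lg {z : ℂ} (hz : ‖z‖ < 1) : HasSum (fun k : ℕ => z ^ (k + 1) / ((k : ℂ) + 1)) (lg z) :=
  Complex.hasSum_taylorSeries_neg_log' hz

theorem lg_le {z : ℂ} (hz : ‖z‖ ≤ 1 / 2) : ‖lg z‖ ≤ 3 / 2 * ‖z‖ := by
  unfold lg
  rw [norm_neg, sub_eq_add_neg]
  refine (Complex.norm_log_one_add_half_le_self (by rw [norm_neg]; exact hz)).trans ?_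
  rw [norm_neg]

theorem exp_lg {z : ℂ} (hz : ‖z‖ < 1) : Complex.exp (lg z) = (1 - z)⁻¹ := by
  have h1 : 1 - z ≠ 0 := by
    intro h
    have h2 : z = 1 := by
      rw [sub_eq_zero] at h
      exact h.symm
    rw [h2, norm_one] at hz
    exact lt_irrefl _ hz
  unfold lg
  rw [Complex.exp_neg, Complex.exp_log h1]

section
variable {g : J → MvPolynomial (Fin (w + 2)) ℤ} {sgn ω : ℝ} {b : ℕ} {α : (Idx (w + 1) d → ℤ) → ℕ → Fin b → ℂ}

/-- `p ^ (w / 2)` -/
noncomputable def Qp (w p : ℕ) : ℂ := (((p : ℝ) ^ ((w : ℝ) / 2) : ℝ) : ℂ)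

theorem Qz_norm (w p : ℕ) (hp : p.Prime) (s : ℂ) : ‖Qp w p * (p : ℂ) ^ (-s)‖ = (p : ℝ) ^ ((w : ℝ) / 2 - s.re) := by
  have hp0 : (0 : ℝ) < p := by exact_mod_cast hp.pos
  unfold Qp
  rw [norm_mul, Complex.norm_real, Complex.norm_natCast_cpow_of_pos hp.pos, Real.norm_of_nonneg (by positivity),
    ← Real.rpow_add hp0, Complex.neg_re]
  rfl

theorem x_small (w p : ℕ) (hp : p.Prime) (s : ℂ) (hs : 1 + (w : ℝ) / 2 < s.re) : (p : ℝ) ^ ((w : ℝ) / 2 - s.re) ≤ 1 / 2 := by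
  have hp2 : (2 : ℝ) ≤ p := by exact_mod_cast hp.two_le
  have h1 : (p : ℝ) ^ ((w : ℝ) / 2 - s.re) ≤ (p : ℝ) ^ (-1 : ℝ) :=
    Real.rpow_le_rpow_of_exponent_le (by linarith) (by linarith)
  rw [Real.rpow_neg_one] at h1
  refine h1.trans ?_
  rw [inv_eq_one_div]
  exact one_div_le_one_div_of_le (by norm_num) hp2

theorem az_le (h : Frob g sgn ω α) (c : Idx (w + 1) d → ℤ) (p : ℕ) (hp : p.Prime) (hsm : SmoothMod (fam g c) p) (s : ℂ) (j : Fin b) :
    ‖α c p j * (p : ℂ) ^ (-s)‖ ≤ (p : ℝ) ^ ((w : ℝ) / 2 - s.re) := by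
  rw [← Qz_norm w p hp s, norm_mul, norm_mul]
  have h1 := h.bound c p hp hsm j
  have h2 : ‖Qp w p‖ = (p : ℝ) ^ ((w : ℝ) / 2) := by
    unfold Qp
    rw [Complex.norm_real, Real.norm_of_nonneg (by positivity)]
  rw [h2]
  gcongr

open Classical in
/-- the logarithm of the Euler factor -/
noncomputable def eL (g : J → MvPolynomial (Fin (w + 2)) ℤ) (α : (Idx (w + 1) d → ℤ) → ℕ → Fin b → ℂ) (c : Idx (w + 1) d → ℤ)
    (s : ℂ) (p : ℕ) : ℂ :=
  if SmoothMod (fam g c) p then ∑ j, lg (α c p j * (p : ℂ) ^ (-s)) else 0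

theorem trm_eq (T : ∀ p : ℕ, ℕ → (Idx (w + 1) d → ZMod p) → ℝ) (p : ℕ) (r : Idx (w + 1) d → ZMod p) (s : ℂ) (k : ℕ) :
    trm w T p r (s - ((1 + (w : ℝ) / 2 : ℝ) : ℂ)) k = (T p (k + 1) r : ℂ) / ((k : ℂ) + 1) * ((p : ℂ) ^ (-s)) ^ (k + 1) := by
  unfold trm
  congr 1
  rw [← Complex.cpow_nat_mul]
  congr 1
  push_cast
  ring

theorem local_sum (h : Frob g sgn ω α) (β : ℕ → ℝ) (c : Idx (w + 1) d → ℤ) (p : ℕ) [hp : Fact p.Prime] (s : ℂ)
    (hs : 1 + (w : ℝ) / 2 < s.re) :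
    lamN w (TH g sgn ω β α) c p (s - ((1 + (w : ℝ) / 2 : ℝ) : ℂ)) =
      eL g α c s p - ω * lg (Qp w p * (p : ℂ) ^ (-s)) - sgn * (β p * (p : ℂ) ^ (-s)) := by
  set z : ℂ := (p : ℂ) ^ (-s) with hz
  have hx := x_small w p hp.out s hs
  have hQ : ‖Qp w p * z‖ < 1 := by
    rw [hz, Qz_norm w p hp.out s]
    linarith
  have e0 : HasSum (fun k : ℕ => (if k + 1 = 1 then (sgn : ℂ) * β p else 0) / ((k : ℂ) + 1) * z ^ (k + 1)) (sgn * (β p * z)) := by
    have h1 : (fun k : ℕ => (if k + 1 = 1 then (sgn : ℂ) * β p else 0) / ((k : ℂ) + 1) * z ^ (k + 1)) =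
        fun k : ℕ => if k = 0 then sgn * (β p * z) else 0 := by
      funext k
      by_cases hk : k = 0
      · rw [hk, if_pos rfl, if_pos rfl]
        push_cast
        ring
      · rw [if_neg (by omega), if_neg hk, zero_div, zero_mul]
    rw [h1]
    exact hasSum_ite_eq 0 _
  have e1 : HasSum (fun k : ℕ => (ω : ℂ) * ((Qp w p * z) ^ (k + 1) / ((k : ℂ) + 1))) (ω * lg (Qp w p * z)) :=
    (hs_lg hQ).mul_left _
  have e2 : HasSum (fun k : ℕ => trm w (TH g sgn ω β α) p (red p c) (s - ((1 + (w : ℝ) / 2 : ℝ) : ℂ)) k)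
      (eL g α c s p - ω * lg (Qp w p * z) - sgn * (β p * z)) := by
    by_cases hsm : SmoothMod (fam g c) p
    · have e3 : HasSum (fun k : ℕ => ∑ j, (α c p j * z) ^ (k + 1) / ((k : ℂ) + 1)) (∑ j, lg (α c p j * z)) := by
        refine hasSum_sum fun j _ => hs_lg ?_
        have := az_le h c p hp.out hsm s j
        linarith
      have e4 := (e3.sub e1).sub e0
      have e5 : eL g α c s p = ∑ j, lg (α c p j * z) := by
        unfold eL
        rw [if_pos hsm]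
      rw [e5]
      have e6 : (fun k : ℕ => trm w (TH g sgn ω β α) p (red p c) (s - ((1 + (w : ℝ) / 2 : ℝ) : ℂ)) k) =
          fun k : ℕ => ∑ j, (α c p j * z) ^ (k + 1) / ((k : ℂ) + 1) - (ω : ℂ) * ((Qp w p * z) ^ (k + 1) / ((k : ℂ) + 1)) -
            (if k + 1 = 1 then (sgn : ℂ) * β p else 0) / ((k : ℂ) + 1) * z ^ (k + 1) := by
        funext k
        rw [trm_eq, TH_good h β c hsm (by omega : 1 ≤ k + 1), ← hz]
        have e7 : ∑ j, (α c p j * z) ^ (k + 1) / ((k : ℂ) + 1) = (∑ j, α c p j ^ (k + 1)) / ((k : ℂ) + 1) * z ^ (k + 1) := by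
          rw [Finset.sum_div, Finset.sum_mul]
          exact Finset.sum_congr rfl fun j _ => by rw [mul_pow]; ring
        rw [e7, mul_pow]
        unfold Qp
        ring
      rw [e6]
      exact e4
    · have e4 := ((hasSum_zero : HasSum (fun _ : ℕ => (0 : ℂ)) 0).sub e1).sub e0
      have e5 : eL g α c s p = 0 := by
        unfold eL
        rw [if_neg hsm]
      rw [e5]
      have e6 : (fun k : ℕ => trm w (TH g sgn ω β α) p (red p c) (s - ((1 + (w : ℝ) / 2 : ℝ) : ℂ)) k) =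
          fun k : ℕ => 0 - (ω : ℂ) * ((Qp w p * z) ^ (k + 1) / ((k : ℂ) + 1)) -
            (if k + 1 = 1 then (sgn : ℂ) * β p else 0) / ((k : ℂ) + 1) * z ^ (k + 1) := by
        funext k
        rw [trm_eq, TH_bad β c hsm (k + 1), ← hz, mul_pow]
        unfold Qp
        ring
      rw [e6]
      exact e4
  unfold lamN
  exact e2.tsum_eq

/-! ### summation over the primes -/

theorem summable_x (w : ℕ) (s : ℂ) (hs : 1 + (w : ℝ) / 2 < s.re) :
    Summable fun p : Nat.Primes => ((p : ℕ) : ℝ) ^ ((w : ℝ) / 2 - s.re) :=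
  Nat.Primes.summable_rpow.mpr (by linarith)

theorem summable_eL (h : Frob g sgn ω α) (c : Idx (w + 1) d → ℤ) (s : ℂ) (hs : 1 + (w : ℝ) / 2 < s.re) :
    Summable fun p : Nat.Primes => eL g α c s (p : ℕ) := by
  refine Summable.of_norm_bounded ((summable_x w s hs).mul_left ((b : ℝ) * (3 / 2))) fun p => ?_
  have hx := x_small w p p.2 s hs
  have hx0 : 0 ≤ ((p : ℕ) : ℝ) ^ ((w : ℝ) / 2 - s.re) := by positivity
  unfold eL
  split_ifs with hsm
  · refine (norm_sum_le _ _).trans ?_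
    have h1 : ∀ j ∈ (Finset.univ : Finset (Fin b)), ‖lg (α c p j * ((p : ℕ) : ℂ) ^ (-s))‖ ≤
        3 / 2 * ((p : ℕ) : ℝ) ^ ((w : ℝ) / 2 - s.re) := by
      intro j _
      have h2 := az_le h c p p.2 hsm s j
      refine (lg_le (by linarith)).trans ?_
      linarith
    refine (Finset.sum_le_sum h1).trans ?_
    rw [Finset.sum_const, nsmul_eq_mul, Finset.card_univ, Fintype.card_fin]
    linarith
  · rw [norm_zero]
    positivity

theorem summable_lg (w : ℕ) (s : ℂ) (hs : 1 + (w : ℝ) / 2 < s.re) :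
    Summable fun p : Nat.Primes => lg (Qp w p * ((p : ℕ) : ℂ) ^ (-s)) := by
  refine Summable.of_norm_bounded ((summable_x w s hs).mul_left (3 / 2)) fun p => ?_
  have hx := x_small w p p.2 s hs
  have h2 := Qz_norm w p p.2 s
  refine (lg_le (by linarith)).trans ?_
  rw [h2]

theorem summable_be {β : ℕ → ℝ} {Cb : ℝ} (hβ0 : ∀ p : ℕ, p.Prime → 0 ≤ β p)
    (hβC : ∀ p : ℕ, p.Prime → β p ≤ Cb * (p : ℝ) ^ ((w : ℝ) / 2)) (s : ℂ) (hs : 1 + (w : ℝ) / 2 < s.re) :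
    Summable fun p : Nat.Primes => (β (p : ℕ) : ℂ) * ((p : ℕ) : ℂ) ^ (-s) := by
  refine Summable.of_norm_bounded ((summable_x w s hs).mul_left Cb) fun p => ?_
  have hp0 : (0 : ℝ) < ((p : ℕ) : ℝ) := by exact_mod_cast p.2.pos
  rw [norm_mul, Complex.norm_real, Complex.norm_natCast_cpow_of_pos p.2.pos, Real.norm_of_nonneg (hβ0 p p.2), Complex.neg_re]
  have h1 := hβC p p.2
  have h2 : ((p : ℕ) : ℝ) ^ ((w : ℝ) / 2 - s.re) = ((p : ℕ) : ℝ) ^ ((w : ℝ) / 2) * ((p : ℕ) : ℝ) ^ (-s.re) := by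
    rw [← Real.rpow_add hp0]
    rfl
  rw [h2]
  calc _ ≤ (Cb * ((p : ℕ) : ℝ) ^ ((w : ℝ) / 2)) * ((p : ℕ) : ℝ) ^ (-s.re) := by gcongr
    _ = _ := by ring

open Classical in
/-- the Euler factor -/
noncomputable def eul (g : J → MvPolynomial (Fin (w + 2)) ℤ) (α : (Idx (w + 1) d → ℤ) → ℕ → Fin b → ℂ) (c : Idx (w + 1) d → ℤ)
    (s : ℂ) (p : ℕ) : ℂ :=
  if SmoothMod (fam g c) p then ∏ j, (1 - α c p j * (p : ℂ) ^ (-s))⁻¹ else 1

theorem exp_eL (h : Frob g sgn ω α) (c : Idx (w + 1) d → ℤ) (s : ℂ) (hs : 1 + (w : ℝ) / 2 < s.re) (p : Nat.Primes) :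
    Complex.exp (eL g α c s (p : ℕ)) = eul g α c s (p : ℕ) := by
  have hx := x_small w p p.2 s hs
  unfold eL eul
  split_ifs with hsm
  · rw [Complex.exp_sum]
    refine Finset.prod_congr rfl fun j _ => exp_lg ?_
    have h2 := az_le h c p p.2 hsm s j
    linarith
  · exact Complex.exp_zero

/-- the product over the primes of good reduction -/
theorem tprod_eul (h : Frob g sgn ω α) (c : Idx (w + 1) d → ℤ) (s : ℂ) (hs : 1 + (w : ℝ) / 2 < s.re) :
    ∏' p : Nat.Primes, eul g α c s (p : ℕ) = Complex.exp (∑' p : Nat.Primes, eL g α c s (p : ℕ)) := by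
  have h1 := (summable_eL h c s hs).hasSum.cexp
  have h2 : (Complex.exp ∘ fun p : Nat.Primes => eL g α c s (p : ℕ)) = fun p : Nat.Primes => eul g α c s (p : ℕ) := by
    funext p
    exact exp_eL h c s hs p
  rw [h2] at h1
  exact h1.tprod_eq

/-- **The distribution at the edge for linear systems of hypersurfaces.** -/
theorem hyp_edge (h : Frob g sgn ω α) (hd : ∀ j, 3 ≤ d j) (hs : sgn = 1 ∨ sgn = -1) (hω : 0 ≤ ω) {β : ℕ → ℝ} {Cb : ℝ} (hCb : 0 ≤ Cb)
    (hβ : ∀ (p : ℕ) [Fact p.Prime], β p = bas (n := w + 1) (ZMod p) g)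
    (hβC : ∀ p : ℕ, p.Prime → β p ≤ Cb * (p : ℝ) ^ ((w : ℝ) / 2))
    {a : J → ℕ} {δ : ℕ} (hg : ∀ j, (g j).IsHomogeneous (a j)) (hδ : ∀ j, a j + d j = δ) (c0 : Idx (w + 1) d → ℤ)
    (hsm : Smooth ℂ (fam g c0)) :
    EdgeAt (1 + (w : ℝ) / 2) (b + ω + Cb + 1) (fun (c : Idx (w + 1) d → ℤ) s =>
      (∏' p : Nat.Primes, eul g α c s (p : ℕ)) * Complex.exp (-(ω * ∑' p : Nat.Primes, lg (Qp w p * ((p : ℕ) : ℂ) ^ (-s))) -
        sgn * ∑' p : Nat.Primes, (β (p : ℕ) : ℂ) * ((p : ℕ) : ℂ) ^ (-s))) := by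
  by_cases hJ : Nonempty J
  swap
  · -- there is no smooth member
    exfalso
    rw [not_nonempty_iff] at hJ
    have h0 : fam g c0 = 0 := by
      unfold fam
      exact Finset.sum_eq_zero fun j _ => (hJ.false j).elim
    obtain ⟨i, hi⟩ := hsm (fun _ => 1) (by
      intro h1
      have := congrFun h1 0
      exact one_ne_zero this) (by rw [h0, map_zero])
    rw [h0, map_zero, map_zero] at hi
    exact hi rfl
  obtain ⟨j0⟩ := hJ
  have hδ1 : 1 ≤ δ := by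
    have := hδ j0
    have := hd j0
    omega
  obtain ⟨P, hP0, hP⟩ := exists_bad hg hδ hδ1 c0 hsm
  have hβ0 : ∀ p : ℕ, p.Prime → 0 ≤ β p := by
    intro p hp
    have := Fact.mk hp
    rw [hβ p]
    positivity
  have hpow := powN h hd hs hω hCb hβ hβC P c0 hP0 hP
  obtain ⟨P1, hP1⟩ := exists_nat_gt (2 * Cb)
  refine hpow.edge (c := 1 / 4) (C4 := 14) (by norm_num) P1 ?_ ?_ ?_
  · intro p hp
    have := Fact.mk p.2
    refine NH_ge g hd hs (p : ℕ) (Cb := Cb) ?_ ?_ hCb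
    · rw [← hβ (p : ℕ)]
      exact hβC p p.2
    · have : (P1 : ℝ) ≤ ((p : ℕ) : ℝ) := by exact_mod_cast hp
      linarith
  · intro p hp
    have := Fact.mk p.2
    exact NH_four g hd hs (p : ℕ)
  · intro c s hs'
    rw [tprod_eul h c s hs', ← Complex.exp_add]
    congr 1
    have h1 := summable_eL h c s hs'
    have h2 := (summable_lg w s hs').mul_left (ω : ℂ)
    have h3 := (summable_be hβ0 hβC s hs').mul_left (sgn : ℂ)
    have h4 : (fun p : Nat.Primes => lamN w (TH g sgn ω β α) c (p : ℕ) (s - ((1 + (w : ℝ) / 2 : ℝ) : ℂ))) =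
        fun p : Nat.Primes => eL g α c s (p : ℕ) - (ω : ℂ) * lg (Qp w p * ((p : ℕ) : ℂ) ^ (-s)) -
          (sgn : ℂ) * ((β (p : ℕ) : ℂ) * ((p : ℕ) : ℂ) ^ (-s)) := by
      funext p
      have := Fact.mk p.2
      exact local_sum h β c (p : ℕ) s hs'
    rw [h4, (h1.sub h2).tsum_sub h3, h1.tsum_sub h2, tsum_mul_left, tsum_mul_left]
    ring

end

end Pool.Agent.U309.ED.Hyp
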