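import Pool.Agent.U309.ED.HC5

/-!
# Products of random hyperelliptic curves, even degree: positivity, and the quotient by the zeta function
-/

set_option autoImplicit false
set_option linter.unusedSectionVars false
set_option linter.unusedVariables false
set_option linter.deprecated false

namespace Pool.Agent.U309.ED

open NumberField IsDedekindDomain Finset Polynomial
open Pool.Agent.H921R2.TatePole (nm two_le_nm below deg nm_eq below_le_nm fiber_card_le below_eq_of_mem)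
open Pool.Agent.H341R2.EC (mk_ne)
open Pool.Agent.Y722.HS (EM red box EM_mono EM_const)
open Pool.Agent.Y722.LS (EM_mul EM_add)
open Pool.Agent.N534.EC
open Pool.Agent.N534.AS
open Pool.Agent.N534.HC
open Pool.Agent.N534.HC.Coh (Hd Hd_eval Hd_hom cohom)
open Pool.Agent.N534.HC.Inst (hasWt_iff tH gH cmpH)
open Pool.Agent.N534.LL (liftp red_liftp)
open Pool.Agent.N534.PS (Pow p_two lamT trm trm_le geo_le x_half x_le)

variable {K : Type} [Field K] [NumberField K] {J : Type} [Fintype J] [DecidableEq J]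
  {R : Type} [Fintype R] [DecidableEq R]

/-- **Positivity of the rank of the nontrivial part.** -/
theorem rk_pos {F : R → (MvPolynomial J (𝓞 K))[X]} (h : ShH F) {a : ℕ} (ha : 1 ≤ a) (ha2 : a + 1 ≤ Fintype.card R) :
    0 < betti (fun j => (F j).natDegree) (2 * a) - ((Fintype.card R).choose a : ℝ) := by
  classical
  have h0 := rk_nonneg h a
  rcases h0.lt_or_eq with h1 | h1
  · exact h1
  exfalso
  set p : Nat.Primes := ⟨3, Nat.prime_three⟩ with hp
  have hf : Fact (p : ℕ).Prime := ⟨p.2⟩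
  have h3 : 3 ≤ (p : ℕ) := le_rfl
  obtain ⟨v⟩ := Pool.Agent.N534.AS.exists_above (K := K) p
  have h2 := diag_tauE h p h3 v ha ha2
  have h4 : (fun r : J → ZMod (p : ℕ) => tau F a v r ^ 2) = fun _ => 0 := by
    funext r
    have h5 := tauE_le h p h3 v a r
    rw [← h1, zero_mul] at h5
    have h6 : tau F a v r = 0 := abs_eq_zero.mp (le_antisymm h5 (abs_nonneg _))
    rw [h6]
    ring
  rw [h4, EM_const] at h2
  have hq : (2 : ℝ) ≤ nm v.1 := by exact_mod_cast two_le_nm v.1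
  have h5 : 0 < ((nm v.1 : ℝ) - 1) ^ 2 * (nm v.1 : ℝ) ^ (2 * a - 2) := by
    have : (0 : ℝ) < (nm v.1 : ℝ) - 1 := by linarith
    positivity
  linarith

/-! ### The Euler factors -/

/-- the terms of the logarithm of an Euler factor -/
noncomputable def tm (t : HeightOneSpectrum (𝓞 K) → ℕ → ℝ) (s : ℂ) (p k : ℕ) : ℂ :=
  (Pool.Agent.N534.HC.St.frobTrace t p (k + 1) : ℂ) / ((k : ℂ) + 1) * (p : ℂ) ^ (-(((k : ℂ) + 1) * s))

theorem frob_tp (Φ : MvPolynomial (Option (R × ℕ)) ℝ) (F : R → (MvPolynomial J (𝓞 K))[X]) (c : J → ℤ) (p : Nat.Primes) (k : ℕ) :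
    Pool.Agent.N534.HC.St.frobTrace (tH Φ F c) (p : ℕ) k = tp Φ F c p k := by
  rw [Pool.Agent.N534.HC.St.frobTrace_eq]
  rfl

theorem tm_le {Φ : MvPolynomial (Option (R × ℕ)) ℝ} {w : ℕ} (hw : HasWt Φ w) {F : R → (MvPolynomial J (𝓞 K))[X]}
    (hF : ∀ i, Adm (F i)) (c : J → ℤ) (s : ℂ) (hs : 1 + (w : ℝ) / 2 < s.re) (p : Nat.Primes)
    (hg : ∀ v : HeightOneSpectrum (𝓞 K), ((p : ℕ) : 𝓞 K) ∈ v.asIdeal → gH F c v) :
    Summable (tm (tH Φ F c) s (p : ℕ)) ∧ ‖∑' k, tm (tH Φ F c) s (p : ℕ) k‖ ≤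
      2 * (dK K * CΦ (fun i => (F i).natDegree) Φ) * ((p : ℕ) : ℝ) ^ (-(s.re - (w : ℝ) / 2)) := by
  classical
  have hfp : Fact (p : ℕ).Prime := ⟨p.2⟩
  have hC := CΦ_nonneg (fun i => (F i).natDegree) Φ
  have hdK := one_le_dK (K := K)
  set D := dK K * CΦ (fun i => (F i).natDegree) Φ with hD
  have hD0 : 0 ≤ D := by positivity
  set u : ℂ := s - (1 + (w : ℂ) / 2) with hu
  have hur : u.re = s.re - (1 + (w : ℝ) / 2) := by
    rw [hu]
    simp
  have hu0 : 0 ≤ u.re := by rw [hur]; linarith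
  have hgd : ∀ (v : {v : HeightOneSpectrum (𝓞 K) // below v = p}) (i : R), Gdv v.1 (rmem (F i) v.1 c) (F i).natDegree :=
    fun v i => hg v.1 (p_mem p v.1 v.2) i
  -- compare with `trm`
  set T : ∀ q : ℕ, ℕ → (J → ZMod q) → ℝ := fun _ k _ => tp Φ F c p k with hT
  have e1 : ∀ k, tm (tH Φ F c) s (p : ℕ) k = trm w T (p : ℕ) (red (p : ℕ) c) u k := by
    intro k
    unfold tm trm
    rw [frob_tp]
    have e2 : (1 + (w : ℂ) / 2 + u) = s := by rw [hu]; ring
    rw [e2]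
  have hb : ∀ k : ℕ, |T (p : ℕ) (k + 1) (red (p : ℕ) c)| ≤ D * ((p : ℕ) : ℝ) ^ (((k + 1 : ℕ) : ℝ) * ((w : ℝ) / 2)) :=
    fun k => tp_le Φ hw F hF c p hgd (k + 1) (by omega)
  have h0 := geo_le (x := ((p : ℕ) : ℝ) ^ (-1 - u.re)) (by positivity) (x_half (p : ℕ) u hu0) 1
  have h1 := h0.1.mul_left D
  have h2 : ∀ k, ‖tm (tH Φ F c) s (p : ℕ) k‖ ≤ D * (((p : ℕ) : ℝ) ^ (-1 - u.re)) ^ (k + 1) := by
    intro k
    rw [e1 k]
    exact trm_le (p : ℕ) (red (p : ℕ) c) k u (hb k) hD0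
  refine ⟨Summable.of_norm_bounded h1 h2, (tsum_of_norm_bounded h1.hasSum h2).trans ?_⟩
  rw [tsum_mul_left]
  have h3 := mul_le_mul_of_nonneg_left h0.2 hD0
  rw [pow_one] at h3
  have e3 : -(s.re - (w : ℝ) / 2) = -1 - u.re := by rw [hur]; ring
  rw [e3]
  linarith

/-- the logarithm of an Euler factor -/
theorem lf_le {Φ : MvPolynomial (Option (R × ℕ)) ℝ} {w : ℕ} (hw : HasWt Φ w) {F : R → (MvPolynomial J (𝓞 K))[X]}
    (hF : ∀ i, Adm (F i)) (c : J → ℤ) (s : ℂ) (hs : 1 + (w : ℝ) / 2 < s.re) :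
    Summable (fun p : Nat.Primes => Pool.Agent.N534.HC.St.logFactor (tH Φ F c) (gH F c) s (p : ℕ)) := by
  classical
  have hC := CΦ_nonneg (fun i => (F i).natDegree) Φ
  have hdK := one_le_dK (K := K)
  have h1 : Summable (fun p : Nat.Primes => ((p : ℕ) : ℝ) ^ (-(s.re - (w : ℝ) / 2))) :=
    (Nat.Primes.summable_rpow).mpr (by linarith)
  refine Summable.of_norm_bounded (h1.mul_left (2 * (dK K * CΦ (fun i => (F i).natDegree) Φ))) fun p => ?_
  unfold Pool.Agent.N534.HC.St.logFactor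
  split_ifs with hb
  · rw [norm_zero]
    positivity
  · push Not at hb
    exact (tm_le hw hF c s hs p hb).2

theorem LSeries_exp {Φ : MvPolynomial (Option (R × ℕ)) ℝ} {w : ℕ} (hw : HasWt Φ w) {F : R → (MvPolynomial J (𝓞 K))[X]}
    (hF : ∀ i, Adm (F i)) (c : J → ℤ) (s : ℂ) (hs : 1 + (w : ℝ) / 2 < s.re) :
    Pool.Agent.N534.HC.St.LSeries (tH Φ F c) (gH F c) s =
      Complex.exp (Pool.Agent.N534.HC.St.logL (tH Φ F c) (gH F c) s) := by
  unfold Pool.Agent.N534.HC.St.LSeries Pool.Agent.N534.HC.St.logL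
  exact (lf_le hw hF c s hs).hasSum.cexp.tprod_eq

/-- the class of an algebraic cycle of codimension `a` -/
noncomputable def tT (a : ℕ) (v : HeightOneSpectrum (𝓞 K)) (k : ℕ) : ℝ := ((nm v : ℝ) ^ k) ^ a

theorem tT_eq (a : ℕ) (F : R → (MvPolynomial J (𝓞 K))[X]) (c : J → ℤ) :
    tT (K := K) a = tH ((MvPolynomial.X none : MvPolynomial (Option (R × ℕ)) ℝ) ^ a) F c := by
  funext v k
  unfold tT tH chv
  rw [map_pow, MvPolynomial.eval_X]
  rfl

theorem X_wt (a : ℕ) : HasWt ((MvPolynomial.X none : MvPolynomial (Option (R × ℕ)) ℝ) ^ a) (2 * a) := by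
  rw [hasWt_iff]
  have h3 := (MvPolynomial.isWeightedHomogeneous_X ℝ (wgt (R := R)) none).pow a
  have e : a • wgt (R := R) none = 2 * a := by
    change a • 2 = 2 * a
    rw [smul_eq_mul, mul_comm]
  rwa [e] at h3

/-- **The quotient of the L-function by the power of the zeta function.** -/
theorem quot_eq {F : R → (MvPolynomial J (𝓞 K))[X]} (h : ShH F) (a : ℕ) (c : J → ℤ) (s : ℂ)
    (hs : 1 + ((2 * a : ℕ) : ℝ) / 2 < s.re) :
    Pool.Agent.N534.HC.St.LSeries (tH (Hc R (2 * a)) F c) (gH F c) s =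
      Pool.Agent.N534.HC.St.LSeries (tT a) (gH F c) s ^ ((Fintype.card R).choose a) *
        Complex.exp (Pool.Agent.N534.HC.St.logL (tH (He R a) F c) (gH F c) s) := by
  classical
  have hF := h.adm
  have s1 := lf_le (Hc_wt (R := R) (2 * a)) hF c s hs
  have s2 := lf_le (X_wt (R := R) a) hF c s hs
  have s3 := lf_le (He_wt (R := R) a) hF c s hs
  rw [tT_eq a F c, LSeries_exp (Hc_wt (R := R) (2 * a)) hF c s hs, LSeries_exp (X_wt (R := R) a) hF c s hs,
    ← Complex.exp_nat_mul, ← Complex.exp_add]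
  congr 1
  unfold Pool.Agent.N534.HC.St.logL
  rw [← tsum_mul_left, ← (s2.mul_left _).tsum_add s3]
  refine tsum_congr fun p => ?_
  unfold Pool.Agent.N534.HC.St.logFactor
  split_ifs with hb
  · simp
  · push Not at hb
    have t1 := (tm_le (Hc_wt (R := R) (2 * a)) hF c s hs p hb).1
    have t2 := (tm_le (X_wt (R := R) a) hF c s hs p hb).1
    have t3 := (tm_le (He_wt (R := R) a) hF c s hs p hb).1
    have e1 : ∀ t : HeightOneSpectrum (𝓞 K) → ℕ → ℝ, (∑' k : ℕ, (Pool.Agent.N534.HC.St.frobTrace t (p : ℕ) (k + 1) : ℂ) / ((k : ℂ) + 1) *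
        ((p : ℕ) : ℂ) ^ (-(((k : ℂ) + 1) * s))) = ∑' k : ℕ, tm t s (p : ℕ) k := fun t => rfl
    rw [e1, e1, e1, ← tsum_mul_left, ← (t2.mul_left _).tsum_add t3]
    refine tsum_congr fun k => ?_
    unfold tm
    rw [frob_tp, frob_tp, frob_tp]
    have e2 : tp (Hc R (2 * a)) F c p (k + 1) = ((Fintype.card R).choose a : ℝ) *
        tp ((MvPolynomial.X none : MvPolynomial (Option (R × ℕ)) ℝ) ^ a) F c p (k + 1) + tp (He R a) F c p (k + 1) := by
      unfold tp
      rw [Finset.mul_sum, ← Finset.sum_add_distrib]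
      refine Finset.sum_congr rfl fun v _ => ?_
      split_ifs with hd
      · rw [chv_He]
        have e3 : chv ((MvPolynomial.X none : MvPolynomial (Option (R × ℕ)) ℝ) ^ a) v.1 (fun i => rmem (F i) v.1 c)
            ((k + 1) / deg v.1) = ((nm v.1 : ℝ) ^ ((k + 1) / deg v.1)) ^ a := by
          unfold chv
          rw [map_pow, MvPolynomial.eval_X]
          rfl
        rw [e3]
        ring
      · ring
    rw [e2]
    push_cast
    ring

end Pool.Agent.U309.ED
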