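import Pool.Agent.U309.ED.Asai2

/-!
# Nonvanishing of the coefficients for most residue classes
-/

set_option autoImplicit false
set_option linter.unusedSectionVars false
set_option linter.unusedVariables false
set_option linter.deprecated false

namespace Pool.Agent.U309.ED

open NumberField IsDedekindDomain Finset
open Pool.Agent.H921R2.TatePole (nm two_le_nm below deg nm_eq below_le_nm fiber_card_le below_eq_of_mem)
open Pool.Agent.Y722.HS (EM red EM_mono EM_const)
open Pool.Agent.N534.EC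
open Pool.Agent.N534.AS
open Pool.Agent.N534.LL (liftp red_liftp)

variable {K : Type} [Field K] [NumberField K] {R : Type} [Fintype R] [DecidableEq R]
variable {ι : Type} [Fintype ι] [DecidableEq ι] {J : Type}

theorem zero_small' (A : MvPolynomial J (𝓞 K)) (hA : A ≠ 0) (φ : J → ι) (hφ : Function.Injective φ) {ε : ℝ} (hε : 0 < ε) :
    ∃ N : ℕ, ∀ p : Nat.Primes, N ≤ (p : ℕ) → ∀ v : {v : HeightOneSpectrum (𝓞 K) // below v = p},
      EM (p : ℕ) (fun r : ι → ZMod (p : ℕ) => open Classical in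
        if MvPolynomial.eval (fun j => ((liftp r (φ j) : ℤ) : 𝓞 K)) A ∈ v.1.asIdeal then (1 : ℝ) else 0) ≤ ε := by
  have h1 : MvPolynomial.rename φ A ≠ 0 := by
    intro h
    apply hA
    apply MvPolynomial.rename_injective φ hφ
    rw [h, map_zero]
  obtain ⟨N, hN⟩ := zero_small (MvPolynomial.rename φ A) h1 hε
  refine ⟨N, fun p hp v => ?_⟩
  have h2 := hN p hp v
  have e : ∀ r : ι → ZMod (p : ℕ), MvPolynomial.eval (fun j => ((liftp r (φ j) : ℤ) : 𝓞 K)) A =
      MvPolynomial.eval (fun j => ((liftp r j : ℤ) : 𝓞 K)) (MvPolynomial.rename φ A) := by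
    intro r
    rw [MvPolynomial.eval_rename]
    rfl
  refine le_trans (le_of_eq ?_) h2
  refine congrArg (EM (p : ℕ)) (funext fun r => ?_)
  rw [e r]

theorem hz_ten [Nonempty R] (A : R → MvPolynomial J (𝓞 K)) (hA : ∀ i, A i ≠ 0) (φ : J → ι) (hφ : Function.Injective φ) :
    ∃ P : ℕ, ∀ p : Nat.Primes, P ≤ (p : ℕ) → ∀ v : {v : HeightOneSpectrum (𝓞 K) // below v = p},
      ∑ i : R, EM (p : ℕ) (fun r : ι → ZMod (p : ℕ) =>
        1 - nz (fun (i : R) (c : ι → ℤ) => MvPolynomial.eval (fun j => ((c (φ j) : ℤ) : 𝓞 K)) (A i)) p v i r) ≤ 1 / 2 := by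
  classical
  have hR : (0 : ℝ) < Fintype.card R := by exact_mod_cast Fintype.card_pos
  choose N hN using fun i => zero_small' (A i) (hA i) φ hφ (ε := 1 / (2 * Fintype.card R)) (by positivity)
  refine ⟨∑ i, N i, fun p hp v => ?_⟩
  have h1 : ∀ i ∈ (Finset.univ : Finset R), EM (p : ℕ) (fun r : ι → ZMod (p : ℕ) =>
        1 - nz (fun (i : R) (c : ι → ℤ) => MvPolynomial.eval (fun j => ((c (φ j) : ℤ) : 𝓞 K)) (A i)) p v i r) ≤
        1 / (2 * Fintype.card R) := by
    intro i hi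
    have h2 := hN i p ((Finset.single_le_sum (f := N) (fun _ _ => Nat.zero_le _) hi).trans hp) v
    refine le_trans (le_of_eq ?_) h2
    congr 1
    funext r
    unfold nz
    by_cases h3 : MvPolynomial.eval (fun j => ((liftp r (φ j) : ℤ) : 𝓞 K)) (A i) ∈ v.1.asIdeal
    · rw [if_pos h3, if_pos h3, sub_zero]
    · rw [if_neg h3, if_neg h3, sub_self]
  refine (Finset.sum_le_sum h1).trans ?_
  rw [Finset.sum_const, nsmul_eq_mul, Finset.card_univ]
  apply le_of_eq
  field_simp

theorem hz_asai (A : MvPolynomial J (𝓞 K)) (hA : A ≠ 0) (φ : J → ι) (hφ : Function.Injective φ) :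
    ∃ P : ℕ, ∀ p : Nat.Primes, P ≤ (p : ℕ) → ∑ v : {v : HeightOneSpectrum (𝓞 K) // below v = p},
      EM (p : ℕ) (fun r : ι → ZMod (p : ℕ) =>
        1 - nzA (fun (c : ι → ℤ) => MvPolynomial.eval (fun j => ((c (φ j) : ℤ) : 𝓞 K)) A) p v r) ≤ 1 / 2 := by
  classical
  have hd := one_le_dK (K := K)
  obtain ⟨N, hN⟩ := zero_small' A hA φ hφ (ε := 1 / (2 * dK K)) (by positivity)
  refine ⟨N, fun p hp => ?_⟩
  have h1 := sum_fib_le (K := K) p (fun v => EM (p : ℕ) (fun r : ι → ZMod (p : ℕ) =>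
        1 - nzA (fun (c : ι → ℤ) => MvPolynomial.eval (fun j => ((c (φ j) : ℤ) : 𝓞 K)) A) p v r)) (1 / (2 * dK K))
        (by positivity) (by
    intro v
    refine le_trans (le_of_eq ?_) (hN p hp v)
    congr 1
    funext r
    unfold nzA
    by_cases h3 : MvPolynomial.eval (fun j => ((liftp r (φ j) : ℤ) : 𝓞 K)) A ∈ v.1.asIdeal
    · rw [if_pos h3, if_pos h3, sub_zero]
    · rw [if_neg h3, if_neg h3, sub_self])
  refine h1.trans (le_of_eq ?_)
  have : dK K ≠ 0 := by linarith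
  field_simp

end Pool.Agent.U309.ED
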