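import Pool.Agent.N534.LL.Limit
import Pool.Agent.Helper256.KM.Mertens

/-!
# Sums of independent random variables over the primes: concentration of the tails

The variables `x p (ω p)`, `p` prime, are bounded by `β / p`, with means `O(p^(-3/2))`.
-/

set_option autoImplicit false
set_option linter.unusedSectionVars false
set_option linter.unusedVariables false
set_option linter.deprecated false

namespace Pool.Agent.U309.ED

open Finset MeasureTheory Filter Topology ProbabilityTheory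
open Pool.Agent.N534.LL (PP PS mem_PS unif)

variable {ι : Type} [Fintype ι] [DecidableEq ι]

omit [Fintype ι] [DecidableEq ι] in
/-- the sum over a finite set of primes -/
noncomputable def S (x : ∀ p : Nat.Primes, (ι → ZMod (p : ℕ)) → ℝ) (T : Finset Nat.Primes)
    (ω : ∀ p : Nat.Primes, ι → ZMod (p : ℕ)) : ℝ :=
  ∑ p ∈ T, x p (ω p)

/-- the mean -/
noncomputable def mn (x : ∀ p : Nat.Primes, (ι → ZMod (p : ℕ)) → ℝ) (p : Nat.Primes) : ℝ := ∫ r, x p r ∂(unif ι p)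

/-- bounded variables of small mean -/
structure Bd (β A : ℝ) (x : ∀ p : Nat.Primes, (ι → ZMod (p : ℕ)) → ℝ) : Prop where
  beta : 0 < β
  A0 : 0 ≤ A
  bd : ∀ p r, |x p r| ≤ β / (p : ℕ)
  mean : ∀ p : Nat.Primes, |mn x p| ≤ A / ((p : ℕ) : ℝ) ^ ((3 : ℝ) / 2)

variable {β A : ℝ} {x : ∀ p : Nat.Primes, (ι → ZMod (p : ℕ)) → ℝ}

theorem indep (x : ∀ p : Nat.Primes, (ι → ZMod (p : ℕ)) → ℝ) :
    iIndepFun (fun (p : Nat.Primes) (ω : ∀ p : Nat.Primes, ι → ZMod (p : ℕ)) => x p (ω p)) (PP ι) :=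
  iIndepFun_infinitePi (P := fun p => unif ι p) (X := x) fun p => measurable_of_finite _

theorem meas_x (p : Nat.Primes) :
    Measurable fun ω : ∀ p : Nat.Primes, ι → ZMod (p : ℕ) => x p (ω p) :=
  (measurable_of_finite (x p)).comp (measurable_pi_apply p)

theorem meas_S (T : Finset Nat.Primes) : Measurable (S x T) := by
  unfold S
  exact Finset.measurable_sum T fun p _ => meas_x p

theorem int_x (p : Nat.Primes) : ∫ ω, x p (ω p) ∂(PP ι) = mn x p := by
  unfold mn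
  have h := measurePreserving_eval_infinitePi (fun p : Nat.Primes => unif ι p) p
  have h1 : ∫ ω, x p (Function.eval p ω) ∂(PP ι) = ∫ r, x p r ∂(Measure.map (Function.eval p) (PP ι)) := by
    rw [integral_map h.measurable.aemeasurable (measurable_of_finite _).aestronglyMeasurable]
  rw [show Measure.map (Function.eval p) (PP ι) = unif ι p from h.map_eq] at h1
  exact h1

theorem p_pos (p : Nat.Primes) : (0 : ℝ) < ((p : ℕ) : ℝ) := by exact_mod_cast p.2.pos

/-- the parameter in Hoeffding's lemma -/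
noncomputable def cc (β : ℝ) (p : Nat.Primes) : NNReal := (‖β / (p : ℕ) - -(β / (p : ℕ))‖₊ / 2) ^ 2

theorem cc_val (hβ : 0 < β) (p : Nat.Primes) : (cc β p : ℝ) = β ^ 2 * (((p : ℕ) : ℝ) ^ 2)⁻¹ := by
  have hp := p_pos p
  unfold cc
  push_cast
  rw [sub_neg_eq_add, Real.norm_eq_abs, abs_of_pos (by positivity)]
  field_simp
  ring

theorem sum_cc (hβ : 0 < β) {T : Finset Nat.Primes} {y : ℕ} (hy : 1 ≤ y) (hT : ∀ p ∈ T, y < (p : ℕ)) :
    ((∑ p ∈ T, cc β p : NNReal) : ℝ) ≤ β ^ 2 / y := by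
  push_cast
  have h1 : ∑ p ∈ T, (cc β p : ℝ) = β ^ 2 * ∑ p ∈ T, (((p : ℕ) : ℝ) ^ 2)⁻¹ := by
    rw [Finset.mul_sum]
    exact Finset.sum_congr rfl fun p _ => cc_val hβ p
  rw [h1, div_eq_mul_inv]
  refine mul_le_mul_of_nonneg_left ?_ (by positivity)
  have h2 : ∑ p ∈ T, (((p : ℕ) : ℝ) ^ 2)⁻¹ = ∑ n ∈ T.image (fun p : Nat.Primes => (p : ℕ)), (((n : ℕ) : ℝ) ^ 2)⁻¹ := by
    rw [Finset.sum_image]
    intro a _ b _ h
    exact Subtype.ext h
  rw [h2]
  set N := max y ((T.image (fun p : Nat.Primes => (p : ℕ))).sup id) with hN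
  have h3 : T.image (fun p : Nat.Primes => (p : ℕ)) ⊆ Finset.Ioc y N := by
    intro n hn
    rw [Finset.mem_Ioc]
    refine ⟨?_, ?_⟩
    · obtain ⟨p, hp, rfl⟩ := Finset.mem_image.mp hn
      exact hT p hp
    · exact (Finset.le_sup (f := id) hn).trans (le_max_right _ _)
  refine (Finset.sum_le_sum_of_subset_of_nonneg h3 fun i _ _ => by positivity).trans ?_
  have h4 := sum_Ioc_inv_sq_le_sub (α := ℝ) (k := y) (n := N) (by omega) (le_max_left _ _)
  refine h4.trans ?_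
  have : (0 : ℝ) ≤ ((N : ℕ) : ℝ)⁻¹ := by positivity
  linarith

theorem subG (h : Bd β A x) (p : Nat.Primes) :
    HasSubgaussianMGF (fun ω : ∀ p : Nat.Primes, ι → ZMod (p : ℕ) => x p (ω p) - mn x p) (cc β p) (PP ι) := by
  have h1 := hasSubgaussianMGF_of_mem_Icc (μ := PP ι) (X := fun ω : ∀ p : Nat.Primes, ι → ZMod (p : ℕ) => x p (ω p))
    (a := -(β / (p : ℕ))) (b := β / (p : ℕ)) (meas_x p).aemeasurable
    (Eventually.of_forall fun ω => by
      have := abs_le.mp (h.bd p (ω p))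
      exact ⟨this.1, this.2⟩)
  rw [int_x] at h1
  exact h1

theorem indep' (x : ∀ p : Nat.Primes, (ι → ZMod (p : ℕ)) → ℝ) :
    iIndepFun (fun (p : Nat.Primes) (ω : ∀ p : Nat.Primes, ι → ZMod (p : ℕ)) => x p (ω p) - mn x p) (PP ι) :=
  iIndepFun_infinitePi (P := fun p => unif ι p) (X := fun p r => x p r - mn x p) fun p => measurable_of_finite _

/-- one side of Hoeffding's inequality -/
theorem hoeff1 (h : Bd β A x) {T : Finset Nat.Primes} {y : ℕ} (hy : 1 ≤ y) (hT : ∀ p ∈ T, y < (p : ℕ)) {ε : ℝ}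
    (hε : 0 < ε) : (PP ι).real {ω | ε ≤ ∑ p ∈ T, (x p (ω p) - mn x p)} ≤ Real.exp (-(ε ^ 2 * y / (2 * β ^ 2))) := by
  have hβ := h.beta
  have hy0 : (0 : ℝ) < y := by exact_mod_cast (by omega : 0 < y)
  rcases T.eq_empty_or_nonempty with rfl | hne
  · have : {ω : ∀ p : Nat.Primes, ι → ZMod (p : ℕ) | ε ≤ ∑ p ∈ (∅ : Finset Nat.Primes), (x p (ω p) - mn x p)} = ∅ := by
      ext ω
      simp only [Finset.sum_empty, Set.mem_setOf_eq, Set.mem_empty_iff_false, iff_false, not_le]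
      exact hε
    rw [this, measureReal_empty]
    positivity
  · have h1 := HasSubgaussianMGF.measure_sum_ge_le_of_iIndepFun (indep' x) (c := cc β) (s := T)
      (fun p _ => subG h p) hε.le
    refine h1.trans (Real.exp_le_exp.mpr ?_)
    have h2 := sum_cc hβ hy hT
    have h3 : (0 : ℝ) < ((∑ p ∈ T, cc β p : NNReal) : ℝ) := by
      push_cast
      refine Finset.sum_pos (fun p _ => ?_) hne
      rw [cc_val hβ]
      have := p_pos p
      positivity
    rw [neg_div, neg_le_neg_iff]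
    push_cast at h2 h3 ⊢
    rw [div_le_div_iff₀ (by positivity) (by positivity)]
    have h4 : (∑ p ∈ T, (cc β p : ℝ)) * y ≤ β ^ 2 := by
      rw [le_div_iff₀ hy0] at h2
      exact h2
    nlinarith [sq_nonneg ε, mul_le_mul_of_nonneg_left h4 (sq_nonneg ε)]

/-- the negative variables -/
theorem Bd.neg (h : Bd β A x) : Bd β A (fun p r => -x p r) where
  beta := h.beta
  A0 := h.A0
  bd := fun p r => by rw [abs_neg]; exact h.bd p r
  mean := fun p => by
    have : mn (fun p r => -x p r) p = -mn x p := integral_neg _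
    rw [this, abs_neg]
    exact h.mean p

theorem hoeff (h : Bd β A x) {T : Finset Nat.Primes} {y : ℕ} (hy : 1 ≤ y) (hT : ∀ p ∈ T, y < (p : ℕ)) {ε : ℝ}
    (hε : 0 < ε) : (PP ι).real {ω | ε ≤ |S x T ω - ∑ p ∈ T, mn x p|} ≤
      2 * Real.exp (-(ε ^ 2 * y / (2 * β ^ 2))) := by
  have h1 := hoeff1 h hy hT hε
  have h2 := hoeff1 h.neg hy hT hε
  have hneg : ∀ p, mn (fun p r => -x p r) p = -mn x p := fun p => integral_neg _
  have hsub : {ω : ∀ p : Nat.Primes, ι → ZMod (p : ℕ) | ε ≤ |S x T ω - ∑ p ∈ T, mn x p|} ⊆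
      {ω | ε ≤ ∑ p ∈ T, (x p (ω p) - mn x p)} ∪ {ω | ε ≤ ∑ p ∈ T, (-x p (ω p) - mn (fun p r => -x p r) p)} := by
    intro ω hω
    simp only [Set.mem_setOf_eq] at hω
    have e1 : S x T ω - ∑ p ∈ T, mn x p = ∑ p ∈ T, (x p (ω p) - mn x p) := by
      unfold S
      rw [Finset.sum_sub_distrib]
    rw [e1] at hω
    rcases le_abs.mp hω with h3 | h3
    · exact Or.inl h3
    · right
      simp only [Set.mem_setOf_eq]
      refine h3.trans (le_of_eq ?_)
      rw [← Finset.sum_neg_distrib]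
      refine Finset.sum_congr rfl fun p _ => ?_
      rw [hneg]
      ring
  refine (measureReal_mono hsub).trans ((measureReal_union_le _ _).trans ?_)
  linarith

/-- the means of the tails are small -/
theorem mean_small (h : Bd β A x) {ε : ℝ} (hε : 0 < ε) : ∃ y0 : ℕ, 1 ≤ y0 ∧ ∀ T : Finset Nat.Primes,
    (∀ p ∈ T, y0 < (p : ℕ)) → |∑ p ∈ T, mn x p| ≤ ε := by
  have hs : Summable fun p : Nat.Primes => A * (1 / ((p : ℕ) : ℝ) ^ ((3 : ℝ) / 2)) := by
    refine Summable.mul_left _ ?_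
    have h1 : Summable fun n : ℕ => 1 / (n : ℝ) ^ ((3 : ℝ) / 2) := Real.summable_one_div_nat_rpow.mpr (by norm_num)
    exact h1.comp_injective (i := fun p : Nat.Primes => (p : ℕ)) Subtype.val_injective
  have hs' : Summable fun p : Nat.Primes => mn x p := by
    refine Summable.of_norm_bounded hs fun p => ?_
    rw [Real.norm_eq_abs, mul_one_div]
    exact h.mean p
  obtain ⟨s, hs2⟩ := summable_iff_vanishing_norm.mp hs' ε hε
  refine ⟨s.sup (fun p : Nat.Primes => (p : ℕ)) + 1, by omega, fun T hT => ?_⟩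
  have hd : Disjoint T s := by
    rw [Finset.disjoint_left]
    intro p hp hps
    have h1 := Finset.le_sup (f := fun p : Nat.Primes => (p : ℕ)) hps
    have h2 := hT p hp
    omega
  have := hs2 T hd
  rw [Real.norm_eq_abs] at this
  exact this.le

/-- **Concentration of the tails.** -/
theorem tail (h : Bd β A x) {ε : ℝ} (hε : 0 < ε) : ∃ y0 : ℕ, 1 ≤ y0 ∧ ∀ y : ℕ, y0 ≤ y → ∀ T : Finset Nat.Primes,
    (∀ p ∈ T, y < (p : ℕ)) → (PP ι).real {ω | ε ≤ |S x T ω|} ≤ 2 * Real.exp (-(ε ^ 2 * y / (8 * β ^ 2))) := by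
  obtain ⟨y0, hy0, h1⟩ := mean_small h (half_pos hε)
  refine ⟨y0, hy0, fun y hy T hT => ?_⟩
  have h2 := h1 T (fun p hp => lt_of_le_of_lt hy (hT p hp))
  have h3 := hoeff h (hy0.trans hy) hT (half_pos hε)
  have hβ := h.beta
  have e1 : (ε / 2) ^ 2 * y / (2 * β ^ 2) = ε ^ 2 * y / (8 * β ^ 2) := by
    field_simp
    ring
  rw [e1] at h3
  refine (measureReal_mono ?_).trans h3
  intro ω hω
  simp only [Set.mem_setOf_eq] at hω ⊢
  have h4 := abs_sub_abs_le_abs_sub (S x T ω) (∑ p ∈ T, mn x p)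
  linarith

/-- The random variable in the limit. -/
structure Lim (x : ∀ p : Nat.Primes, (ι → ZMod (p : ℕ)) → ℝ) (Z : (∀ p : Nat.Primes, ι → ZMod (p : ℕ)) → ℝ) :
    Prop where
  meas : Measurable Z
  int : Integrable Z (PP ι)
  lim : Tendsto (fun z : ℕ => ∫ ω, |S x (PS z) ω - Z ω| ∂(PP ι)) atTop (𝓝 0)

variable {Z : (∀ p : Nat.Primes, ι → ZMod (p : ℕ)) → ℝ}

theorem int_S (T : Finset Nat.Primes) : Integrable (S x T) (PP ι) := by
  unfold S
  refine integrable_finsetSum _ fun p _ => ?_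
  obtain ⟨C, hC⟩ := (Set.finite_range fun r => ‖x p r‖).bddAbove
  exact Integrable.of_bound (meas_x p).aestronglyMeasurable C (Eventually.of_forall fun ω => hC ⟨ω p, rfl⟩)

/-- Markov's inequality for the limit -/
theorem Lim.close (h : Lim x Z) {ε : ℝ} (hε : 0 < ε) :
    Tendsto (fun z : ℕ => (PP ι).real {ω | ε ≤ |S x (PS z) ω - Z ω|}) atTop (𝓝 0) := by
  have h1 : Tendsto (fun z : ℕ => (∫ ω, |S x (PS z) ω - Z ω| ∂(PP ι)) / ε) atTop (𝓝 0) := by
    simpa using h.lim.div_const ε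
  refine squeeze_zero (fun _ => measureReal_nonneg) (fun z => ?_) h1
  have h2 := mul_meas_ge_le_integral_of_nonneg (μ := PP ι) (f := fun ω => |S x (PS z) ω - Z ω|)
    (Eventually.of_forall fun ω => abs_nonneg _) ((int_S (PS z)).sub h.int).abs ε
  rw [le_div_iff₀ hε]
  linarith

theorem S_sub (z y : ℕ) (hzy : y ≤ z) (ω : ∀ p : Nat.Primes, ι → ZMod (p : ℕ)) :
    S x (PS z) ω = S x (PS y) ω + S x ((PS z).filter fun p => y < (p : ℕ)) ω := by
  unfold S
  have h1 : PS y = (PS z).filter fun p : Nat.Primes => ¬ y < (p : ℕ) := by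
    ext p
    rw [Finset.mem_filter, mem_PS, mem_PS, not_lt]
    exact ⟨fun h => ⟨h.trans hzy, h⟩, fun h => h.2⟩
  rw [h1, add_comm, Finset.sum_filter_add_sum_filter_not]

/-- **The limit is close to its partial sums.** -/
theorem Lim.tail (h : Bd β A x) (hZ : Lim x Z) {ε : ℝ} (hε : 0 < ε) : ∃ y0 : ℕ, 1 ≤ y0 ∧ ∀ y : ℕ, y0 ≤ y →
    (PP ι).real {ω | 2 * ε ≤ |Z ω - S x (PS y) ω|} ≤ 2 * Real.exp (-(ε ^ 2 * y / (8 * β ^ 2))) := by
  obtain ⟨y0, hy0, h1⟩ := ED.tail h hε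
  refine ⟨y0, hy0, fun y hy => ?_⟩
  have h2 : Tendsto (fun z : ℕ => 2 * Real.exp (-(ε ^ 2 * y / (8 * β ^ 2))) +
      (PP ι).real {ω | ε ≤ |S x (PS z) ω - Z ω|}) atTop (𝓝 (2 * Real.exp (-(ε ^ 2 * y / (8 * β ^ 2))) + 0)) :=
    (hZ.close hε).const_add _
  rw [add_zero] at h2
  refine ge_of_tendsto h2 ?_
  filter_upwards [eventually_ge_atTop y] with z hz
  have h3 := h1 y hy ((PS z).filter fun p => y < (p : ℕ)) (fun p hp => (Finset.mem_filter.mp hp).2)
  have hsub : {ω : ∀ p : Nat.Primes, ι → ZMod (p : ℕ) | 2 * ε ≤ |Z ω - S x (PS y) ω|} ⊆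
      {ω | ε ≤ |S x ((PS z).filter fun p => y < (p : ℕ)) ω|} ∪ {ω | ε ≤ |S x (PS z) ω - Z ω|} := by
    intro ω hω
    simp only [Set.mem_setOf_eq, Set.mem_union] at hω ⊢
    by_contra hcon
    rw [not_or, not_le, not_le] at hcon
    have e1 := S_sub (x := x) z y hz ω
    have e2 : Z ω - S x (PS y) ω = S x ((PS z).filter fun p => y < (p : ℕ)) ω - (S x (PS z) ω - Z ω) := by
      rw [e1]
      ring
    have h4 := abs_sub (S x ((PS z).filter fun p => y < (p : ℕ)) ω) (S x (PS z) ω - Z ω)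
    rw [← e2] at h4
    linarith
  refine (measureReal_mono hsub).trans ((measureReal_union_le _ _).trans ?_)
  linarith

end Pool.Agent.U309.ED
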