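import Pool.Agent.U309.ED.Ten3

/-!
# Second moments of the traces of random Asai motives
-/

set_option autoImplicit false
set_option linter.unusedSectionVars false
set_option linter.unusedVariables false
set_option linter.deprecated false

namespace Pool.Agent.U309.ED

open NumberField IsDedekindDomain Finset UniqueFactorizationMonoid
open Pool.Agent.H921R2.TatePole (nm two_le_nm below deg nm_eq below_le_nm fiber_card_le below_eq_of_mem)
open Pool.Agent.H341R2.EC (trc csum mk_ne)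
open Pool.Agent.Y722.HS (EM red EM_mono EM_const)
open Pool.Agent.Y722.LS (EM_mul)
open Pool.Agent.N534.EC
open Pool.Agent.N534.AS
open Pool.Agent.N534.LL (liftp red_liftp)
open Pool.Agent.N534.PS (Pow p_two lamT trm)

variable {K : Type} [Field K] [NumberField K]

/-- a prime not dividing the discriminant generates a squarefree ideal -/
theorem squarefree_span (a : ℕ) (ha : a.Prime) (h : ¬ (a : ℤ) ∣ discr K) :
    Squarefree (Ideal.span {(a : 𝓞 K)}) := by
  classical
  have ha' : Prime (a : ℤ) := Nat.prime_iff_prime_int.mp ha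
  have hun := (not_dvd_discr_iff_forall_mem K (𝓞 K) ha').mp h
  have ha0 : (a : 𝓞 K) ≠ 0 := by exact_mod_cast ha.ne_zero
  have hbot : Ideal.span {(a : 𝓞 K)} ≠ 0 := by
    rwa [Ne, Ideal.zero_eq_bot, Ideal.span_singleton_eq_bot]
  have hmap : Ideal.map (algebraMap ℤ (𝓞 K)) (Ideal.span {(a : ℤ)}) = Ideal.span {(a : 𝓞 K)} := by
    rw [Ideal.map_span, Set.image_singleton]
    simp
  rw [squarefree_iff_nodup_normalizedFactors hbot, Multiset.nodup_iff_count_le_one]
  intro P
  by_cases hP : P ∈ normalizedFactors (Ideal.span {(a : 𝓞 K)})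
  · have hPprime : Prime P := prime_of_normalized_factor P hP
    have hPP : P.IsPrime := Ideal.isPrime_of_prime hPprime
    have hP0 : P ≠ ⊥ := by rw [← Ideal.zero_eq_bot]; exact hPprime.ne_zero
    have hle : Ideal.span {(a : 𝓞 K)} ≤ P := Ideal.le_of_dvd (dvd_of_mem_normalizedFactors hP)
    have hamem : ((a : ℤ) : 𝓞 K) ∈ P := by
      rw [Int.cast_natCast]
      exact hle (Ideal.mem_span_singleton_self _)
    have hunr := hun P hPP hamem
    have h1 : Ideal.ramificationIdx P ℤ = 1 := P.ramificationIdx_eq_one ℤ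
    have hlo : P.LiesOver (Ideal.span {(a : ℤ)}) :=
      (Ideal.liesOver_span_iff hPP.ne_top ha').mpr hamem
    have hbZ : (Ideal.span {(a : ℤ)} : Ideal ℤ) ≠ ⊥ := by
      rw [Ne, Ideal.span_singleton_eq_bot]; exact ha'.ne_zero
    have h2 : (Ideal.span {(a : ℤ)} : Ideal ℤ).ramificationIdx' P = P.ramificationIdx ℤ :=
      Ideal.ramificationIdx'_eq_ramificationIdx _ _ hbZ
    have h3 := Ideal.IsDedekindDomain.ramificationIdx'_eq_normalizedFactors_count
      (p := Ideal.span {(a : ℤ)}) (by rw [hmap]; exact hbot) hPP hP0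
    rw [hmap] at h3
    rw [← h3, h2, h1]
  · rw [Multiset.count_eq_zero_of_notMem hP]
    exact zero_le_one

/-- above a prime not dividing the discriminant the norms multiply to the full power -/
theorem prod_nm_ge (p : Nat.Primes) (h : ¬ ((p : ℕ) : ℤ) ∣ discr K) :
    (p : ℕ) ^ Module.finrank ℚ K ≤ ∏ v : {v : HeightOneSpectrum (𝓞 K) // below v = p}, nm v.1 := by
  classical
  set G : Finset (HeightOneSpectrum (𝓞 K)) :=
    (Finset.univ : Finset {v : HeightOneSpectrum (𝓞 K) // below v = p}).map (Function.Embedding.subtype _) with hG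
  have hsq := squarefree_span (K := K) (p : ℕ) p.2 h
  have hp0 : ((p : ℕ) : 𝓞 K) ≠ 0 := by exact_mod_cast p.2.ne_zero
  have hbot : Ideal.span {((p : ℕ) : 𝓞 K)} ≠ 0 := by
    rwa [Ne, Ideal.zero_eq_bot, Ideal.span_singleton_eq_bot]
  have hG0 : (∏ v ∈ G, v.asIdeal) ≠ 0 := Finset.prod_ne_zero_iff.mpr fun v _ => by
    rw [Ne, Ideal.zero_eq_bot]
    exact v.ne_bot
  have hdvd : Ideal.span {(((p : ℕ) : 𝓞 K))} ∣ (∏ v ∈ G, v.asIdeal) := by
    rw [dvd_iff_normalizedFactors_le_normalizedFactors hbot hG0,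
      Multiset.le_iff_subset ((squarefree_iff_nodup_normalizedFactors hbot).mp hsq)]
    intro P hP
    have hPprime : Prime P := prime_of_normalized_factor P hP
    have hPP : P.IsPrime := Ideal.isPrime_of_prime hPprime
    have hP0 : P ≠ ⊥ := by rw [← Ideal.zero_eq_bot]; exact hPprime.ne_zero
    have hle : Ideal.span {((p : ℕ) : 𝓞 K)} ≤ P := Ideal.le_of_dvd (dvd_of_mem_normalizedFactors hP)
    have hmem : ((p : ℕ) : 𝓞 K) ∈ P := hle (Ideal.mem_span_singleton_self _)
    have hb : below (K := K) ⟨P, hPP, hP0⟩ = p := below_eq_of_mem hmem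
    have hin : (⟨P, hPP, hP0⟩ : HeightOneSpectrum (𝓞 K)) ∈ G := by
      rw [hG, Finset.mem_map]
      exact ⟨⟨⟨P, hPP, hP0⟩, hb⟩, Finset.mem_univ _, rfl⟩
    have hPd : P ∣ ∏ v ∈ G, v.asIdeal := Finset.dvd_prod_of_mem (fun v : HeightOneSpectrum (𝓞 K) => v.asIdeal) hin
    rw [mem_normalizedFactors_iff' hG0]
    exact ⟨hPprime.irreducible, normalize_eq _, hPd⟩
  have h2 : Ideal.absNorm (Ideal.span {(((p : ℕ) : 𝓞 K))}) ∣ Ideal.absNorm (∏ v ∈ G, v.asIdeal) :=
    map_dvd Ideal.absNorm hdvd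
  rw [Ideal.absNorm_span_natCast, map_prod, RingOfIntegers.rank] at h2
  have h4 : 0 < ∏ v ∈ G, Ideal.absNorm v.asIdeal := Finset.prod_pos fun v _ => by
    have := two_le_nm v
    have h5 : nm v = Ideal.absNorm v.asIdeal := rfl
    omega
  have h3 := Nat.le_of_dvd h4 h2
  rw [hG, Finset.prod_map] at h3
  exact h3

variable {ι : Type} [Fintype ι] [DecidableEq ι]

open Classical in
/-- the indicator of a nonzero coefficient -/
noncomputable def nzA (a : (ι → ℤ) → 𝓞 K) (p : Nat.Primes) (v : {v : HeightOneSpectrum (𝓞 K) // below v = p})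
    (r : ι → ZMod (p : ℕ)) : ℝ := if a (liftp r) ∈ v.1.asIdeal then 0 else 1

theorem nzA_zero_one (a : (ι → ℤ) → 𝓞 K) (p : Nat.Primes) (v : {v : HeightOneSpectrum (𝓞 K) // below v = p})
    (r : ι → ZMod (p : ℕ)) : nzA a p v r = 0 ∨ nzA a p v r = 1 := by
  unfold nzA
  split_ifs
  · exact Or.inl rfl
  · exact Or.inr rfl

open Classical in
theorem diagA {a b : (ι → ℤ) → 𝓞 K} (h : Shift a b) (p : Nat.Primes)
    [hp : Fact (p : ℕ).Prime] (h5 : 5 ≤ (p : ℕ)) (s : Finset {v : HeightOneSpectrum (𝓞 K) // below v = p}) :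
    EM (p : ℕ) (fun r : ι → ZMod (p : ℕ) => ∏ v : {v : HeightOneSpectrum (𝓞 K) // below v = p},
      if v ∈ s then ((nm v.1 : ℝ) - 3) * nzA a p v r else
        (trc (shm (a (liftp r)) (b (liftp r))) v.1 : ℝ) ^ 2) ≤
    EM (p : ℕ) (fun r => TA a b (p : ℕ) 1 r ^ 2) := by
  classical
  induction s using Finset.induction with
  | empty =>
    apply le_of_eq
    congr 1
    funext r
    rw [TA_prime, ta_one, ← Finset.prod_pow]
    refine Finset.prod_congr rfl fun i _ => ?_
    rw [if_neg (Finset.notMem_empty _)]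
  | insert v s hi0 ih =>
    refine le_trans ?_ ih
    obtain ⟨e, he⟩ := exists_shift h p v
    rw [EM_shift_fam (ι := ι) (p : ℕ) e (fun r : ι → ZMod (p : ℕ) =>
      ∏ v : {v : HeightOneSpectrum (𝓞 K) // below v = p}, if v ∈ s then ((nm v.1 : ℝ) - 3) * nzA a p v r else
        (trc (shm (a (liftp r)) (b (liftp r))) v.1 : ℝ) ^ 2)]
    apply EM_mono
    intro r
    have h6 := six_notMem h5 v.1 v.2
    have h6' : (6 : 𝓞 K ⧸ v.1.asIdeal) ≠ 0 := by
      have := mk_ne h6
      rwa [map_ofNat] at this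
    have hcard : (Fintype.card (𝓞 K ⧸ v.1.asIdeal) : ℝ) = nm v.1 := by
      rw [Pool.Agent.H341R2.card_v]
    have hq5 : ∀ v : {v : HeightOneSpectrum (𝓞 K) // below v = p}, (5 : ℝ) ≤ nm v.1 := fun v =>
      le_trans (by exact_mod_cast h5) (nm_ge v.1 v.2)
    set Z : ℝ := ∏ v' ∈ Finset.univ.erase v, (if v' ∈ s then ((nm v'.1 : ℝ) - 3) * nzA a p v' r else
      (trc (shm (a (liftp r)) (b (liftp r))) v'.1 : ℝ) ^ 2) with hZ
    have hnz : ∀ v r, 0 ≤ nzA a p v r := by
      intro v r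
      rcases nzA_zero_one a p v r with h | h <;> rw [h]
      norm_num
    have hZ0 : 0 ≤ Z := by
      refine Finset.prod_nonneg fun v' _ => ?_
      split_ifs
      · exact mul_nonneg (by linarith [hq5 v']) (hnz v' r)
      · positivity
    have e1 : ∀ y : 𝓞 K ⧸ v.1.asIdeal, (∏ v' : {v : HeightOneSpectrum (𝓞 K) // below v = p},
        if v' ∈ s then ((nm v'.1 : ℝ) - 3) * nzA a p v' (r + e y) else
        (trc (shm (a (liftp (r + e y))) (b (liftp (r + e y)))) v'.1 : ℝ) ^ 2) =
        (csum (-48 * Ideal.Quotient.mk v.1.asIdeal (a (liftp r)))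
          (-864 * (Ideal.Quotient.mk v.1.asIdeal (b (liftp r)) + y)) : ℝ) ^ 2 * Z := by
      intro y
      obtain ⟨g1, g2, g3⟩ := he y r
      rw [← Finset.mul_prod_erase Finset.univ _ (Finset.mem_univ v), if_neg hi0, hZ]
      congr 1
      · rw [trc_mk _ _ v.1 h6, g3, Ideal.Quotient.eq.mpr (g1 v)]
        push_cast
        ring
      · refine Finset.prod_congr rfl fun v' hi => ?_
        have hne := Finset.ne_of_mem_erase hi
        rw [trc_congr v'.1 (g1 v') (g2 v' hne)]
        have e2 : nzA a p v' (r + e y) = nzA a p v' r := by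
          unfold nzA
          have h7 : a (liftp (r + e y)) ∈ v'.1.asIdeal ↔ a (liftp r) ∈ v'.1.asIdeal := by
            constructor
            · intro h8
              have := Ideal.sub_mem _ h8 (g1 v')
              simpa using this
            · intro h8
              have := Ideal.add_mem _ (g1 v') h8
              simpa using this
          simp only [h7]
        rw [e2]
    rw [Finset.sum_congr rfl fun y _ => e1 y, ← Finset.sum_mul, hcard]
    rw [← Finset.mul_prod_erase Finset.univ _ (Finset.mem_univ v), if_pos (Finset.mem_insert_self _ _)]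
    have e3 : ∏ v' ∈ Finset.univ.erase v, (if v' ∈ insert v s then ((nm v'.1 : ℝ) - 3) * nzA a p v' r else
      (trc (shm (a (liftp r)) (b (liftp r))) v'.1 : ℝ) ^ 2) = Z := by
      rw [hZ]
      refine Finset.prod_congr rfl fun v' hi => ?_
      have hne := Finset.ne_of_mem_erase hi
      have : v' ∈ insert v s ↔ v' ∈ s := by
        rw [Finset.mem_insert]
        exact or_iff_right hne
      simp only [this]
    rw [e3, mul_div_right_comm]
    apply mul_le_mul_of_nonneg_right _ hZ0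
    have hq := hq5 v
    rw [le_div_iff₀ (by linarith)]
    unfold nzA
    split_ifs with h7
    · rw [mul_zero, zero_mul]
      exact Finset.sum_nonneg fun y _ => by positivity
    · have h8 : (-48 * Ideal.Quotient.mk v.1.asIdeal (a (liftp r)) : 𝓞 K ⧸ v.1.asIdeal) ≠ 0 := by
        have h9 : Ideal.Quotient.mk v.1.asIdeal (a (liftp r)) ≠ 0 := by
          rw [Ne, Ideal.Quotient.eq_zero_iff_mem]
          exact h7
        have h2 := two_ne_of_six h6'
        have h3 : (-48 : 𝓞 K ⧸ v.1.asIdeal) = -(2 ^ 3 * 6) := by norm_num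
        rw [h3]
        exact mul_ne_zero (neg_ne_zero.mpr (mul_ne_zero (pow_ne_zero _ h2) h6')) h9
      have h10 := csum_second h6' _ (Ideal.Quotient.mk v.1.asIdeal (b (liftp r))) h8
      have h11 : ((Fintype.card (𝓞 K ⧸ v.1.asIdeal) : ℤ) : ℝ) = nm v.1 := by
        push_cast
        exact hcard
      have h12 : ((nm v.1 : ℝ)) * ((nm v.1 : ℝ) - 3) ≤ ∑ y : 𝓞 K ⧸ v.1.asIdeal,
          (csum (-48 * Ideal.Quotient.mk v.1.asIdeal (a (liftp r)))
          (-864 * (Ideal.Quotient.mk v.1.asIdeal (b (liftp r)) + y)) : ℝ) ^ 2 := by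
        rw [← h11]
        exact_mod_cast h10
      linarith

/-- **The second moment of the traces of the Asai motives.** -/
theorem second_TA {a b : (ι → ℤ) → 𝓞 K} (h : Shift a b) (p : Nat.Primes)
    [hp : Fact (p : ℕ).Prime] (h5 : 5 ≤ (p : ℕ)) (hd : ¬ ((p : ℕ) : ℤ) ∣ discr K)
    (hz : ∑ v : {v : HeightOneSpectrum (𝓞 K) // below v = p},
      EM (p : ℕ) (fun r : ι → ZMod (p : ℕ) => 1 - nzA a p v r) ≤ 1 / 2) :
    1 / 2 * (2 / 5 : ℝ) ^ Module.finrank ℚ K * ((p : ℕ) : ℝ) ^ Module.finrank ℚ K ≤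
      EM (p : ℕ) (fun r => TA a b (p : ℕ) 1 r ^ 2) := by
  classical
  refine le_trans ?_ (diagA h p h5 Finset.univ)
  have hp0 : (0 : ℝ) < ((p : ℕ) : ℝ) := by exact_mod_cast p.2.pos
  have hq5 : ∀ v : {v : HeightOneSpectrum (𝓞 K) // below v = p}, (5 : ℝ) ≤ nm v.1 := fun v =>
      le_trans (by exact_mod_cast h5) (nm_ge v.1 v.2)
  set N := ∏ v : {v : HeightOneSpectrum (𝓞 K) // below v = p}, ((nm v.1 : ℝ) - 3) with hN
  have h1 : (fun r : ι → ZMod (p : ℕ) => ∏ v : {v : HeightOneSpectrum (𝓞 K) // below v = p},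
      if v ∈ (Finset.univ : Finset {v : HeightOneSpectrum (𝓞 K) // below v = p}) then ((nm v.1 : ℝ) - 3) * nzA a p v r else
        (trc (shm (a (liftp r)) (b (liftp r))) v.1 : ℝ) ^ 2) =
      fun r => N * ∏ v, nzA a p v r := by
    funext r
    simp only [Finset.mem_univ, if_true]
    rw [Finset.prod_mul_distrib]
  rw [h1, EM_mul]
  have h2 : (fun r : ι → ZMod (p : ℕ) => 1 + (-1) * ∑ v : {v : HeightOneSpectrum (𝓞 K) // below v = p}, (1 - nzA a p v r)) ≤
      fun r => ∏ v, nzA a p v r := by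
    intro r
    simp only
    have h01 := fun v => nzA_zero_one a p v r
    by_cases hall : ∀ v, nzA a p v r = 1
    · simp [hall]
    · rw [not_forall] at hall
      obtain ⟨i1, hi1⟩ := hall
      have h3 : nzA a p i1 r = 0 := (h01 i1).resolve_right hi1
      have h4 : (1 : ℝ) ≤ ∑ v : {v : HeightOneSpectrum (𝓞 K) // below v = p}, (1 - nzA a p v r) := by
        have h5 := Finset.single_le_sum (s := Finset.univ)
          (f := fun v : {v : HeightOneSpectrum (𝓞 K) // below v = p} => 1 - nzA a p v r)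
          (fun v _ => by rcases h01 v with h | h <;> rw [h] <;> norm_num) (Finset.mem_univ i1)
        simp only [h3] at h5
        linarith
      have h6 : 0 ≤ ∏ v, nzA a p v r := Finset.prod_nonneg fun v _ => by
        rcases h01 v with h | h <;> rw [h] <;> norm_num
      linarith
  have h3 := EM_mono (p : ℕ) _ _ h2
  rw [Pool.Agent.Y722.LS.EM_add, EM_mul, EM_const, EM_sum'] at h3
  have h4 : (1 : ℝ) / 2 ≤ EM (p : ℕ) (fun r : ι → ZMod (p : ℕ) => ∏ v, nzA a p v r) := by linarith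
  have h6 : (2 / 5 : ℝ) ^ Module.finrank ℚ K * ((p : ℕ) : ℝ) ^ Module.finrank ℚ K ≤ N := by
    have h7 : ∏ v : {v : HeightOneSpectrum (𝓞 K) // below v = p}, ((2 / 5 : ℝ) * nm v.1) ≤ N := by
      rw [hN]
      refine Finset.prod_le_prod (fun v _ => by positivity) fun v _ => ?_
      linarith [hq5 v]
    refine le_trans ?_ h7
    rw [Finset.prod_mul_distrib, Finset.prod_const, Finset.card_univ]
    have h8 : ((p : ℕ) : ℝ) ^ Module.finrank ℚ K ≤ ∏ v : {v : HeightOneSpectrum (𝓞 K) // below v = p}, (nm v.1 : ℝ) := by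
      exact_mod_cast prod_nm_ge p hd
    have h9 : (2 / 5 : ℝ) ^ Module.finrank ℚ K ≤
        (2 / 5 : ℝ) ^ Fintype.card {v : HeightOneSpectrum (𝓞 K) // below v = p} :=
      pow_le_pow_of_le_one (by norm_num) (by norm_num) (fiber_card_le p)
    exact mul_le_mul h9 h8 (by positivity) (by positivity)
  have h7 : 0 ≤ (2 / 5 : ℝ) ^ Module.finrank ℚ K * ((p : ℕ) : ℝ) ^ Module.finrank ℚ K := by positivity
  nlinarith

theorem ta_abs (a b : 𝓞 K) (p : Nat.Primes) (h5 : 5 ≤ (p : ℕ)) :
    |ta a b p 1| ≤ 2 ^ Module.finrank ℚ K * ((p : ℕ) : ℝ) ^ ((Module.finrank ℚ K : ℝ) / 2) := by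
  have := ta_le a b p h5 1
  rwa [Nat.cast_one, one_mul] at this

/-- **The distribution at the edge for Asai motives.** -/
theorem asai_edge {a b : (ι → ℤ) → 𝓞 K} (h : Shift a b) (S : Finset ℕ)
    (hz : ∃ P : ℕ, ∀ p : Nat.Primes, P ≤ (p : ℕ) → ∑ v : {v : HeightOneSpectrum (𝓞 K) // below v = p},
      EM (p : ℕ) (fun r : ι → ZMod (p : ℕ) => 1 - nzA a p v r) ≤ 1 / 2)
    {X : (ι → ℤ) → ℂ → ℂ} (hX : ∀ (c : ι → ℤ) (s : ℂ), 1 + (Module.finrank ℚ K : ℝ) / 2 < s.re →
      X c s = Complex.exp (∑' p : Nat.Primes, lamT (Module.finrank ℚ K) 5 (TA a b) (BA S a b) c (p : ℕ)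
        (s - (1 + (Module.finrank ℚ K : ℂ) / 2)))) :
    EdgeLaw (Module.finrank ℚ K) (2 ^ Module.finrank ℚ K) X := by
  classical
  obtain ⟨P, hP⟩ := hz
  obtain ⟨M, hM, hd⟩ := mertens
  refine powEdge' (powA h S) (b := 2 ^ Module.finrank ℚ K) (by positivity) ?_
    (c := 1 / 2 * (2 / 5 : ℝ) ^ Module.finrank ℚ K) (by positivity) (Q := Set.univ)
    (max (max 5 P) ((discr K).natAbs + 1)) ?_ ?_
    (η := 1) one_pos hM ?_ hX
  · intro p h5 r
    rw [TA_prime]
    exact ta_abs _ _ p h5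
  · intro p _ hpP
    have : Fact (p : ℕ).Prime := ⟨p.2⟩
    have h5 : 5 ≤ (p : ℕ) := ((le_max_left _ _).trans (le_max_left _ _)).trans hpP
    have hPp : P ≤ (p : ℕ) := ((le_max_right _ _).trans (le_max_left _ _)).trans hpP
    have hdp : (discr K).natAbs + 1 ≤ (p : ℕ) := (le_max_right _ _).trans hpP
    refine second_TA h p h5 ?_ (hP p hPp)
    intro hdvd
    have h1 : (p : ℕ) ∣ (discr K).natAbs := Int.natCast_dvd.mp hdvd
    have h2 := Nat.le_of_dvd (Int.natAbs_pos.mpr (discr_ne_zero K)) h1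
    omega
  · intro p hp
    exact absurd (Set.mem_univ p) hp
  · intro y hy
    have h1 := (abs_le.mp (hd y hy)).1
    simp only [Set.mem_univ, if_true]
    linarith

end Pool.Agent.U309.ED
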