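import Pool.Agent.U309.ED.Mom
import Pool.Agent.H474R2.PG.HomsLower
import Pool.Agent.N534.AS.Ten

/-!
# The primes with a place of degree one
-/

set_option autoImplicit false
set_option linter.unusedSectionVars false
set_option linter.unusedVariables false
set_option linter.deprecated false

namespace Pool.Agent.U309.ED

open Finset NumberField IsDedekindDomain
open Pool.Agent.N534.LL (PP PS mem_PS unif)
open Pool.Agent.H474R2.PG (homs_lower PR)
open Pool.Agent.H921R2.TatePole (nm below deg nm_eq kerPrime kerPrime_bijective)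
open Pool.Agent.N534.EC (dK dK_nonneg one_le_dK card_hom)

variable (K : Type) [Field K] [NumberField K]

/-- the primes with a place of degree one -/
def QK : Set Nat.Primes := {p | ∃ v : HeightOneSpectrum (𝓞 K), below v = p ∧ deg v = 1}

variable {K}

theorem QK_of_card {p : Nat.Primes} (h : Nat.card (𝓞 K →+* ZMod (p : ℕ)) ≠ 0) : p ∈ QK K := by
  have h1 : Nonempty (𝓞 K →+* ZMod (p : ℕ)) := (Nat.card_ne_zero.mp h).1
  obtain ⟨φ⟩ := h1
  exact ⟨(kerPrime p φ).1.1, (kerPrime p φ).1.2, (kerPrime p φ).2⟩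

variable (K)

theorem dens : ∃ M : ℝ, 0 ≤ M ∧ ∀ y : ℕ, 3 ≤ y →
    (1 / dK K) * Real.log (Real.log y) - M ≤
      ∑ p ∈ PS y, (open Classical in if p ∈ QK K then 1 / ((p : ℕ) : ℝ) else 0) := by
  classical
  obtain ⟨C, hC⟩ := homs_lower K
  have hd := one_le_dK (K := K)
  have hd0 : 0 < dK K := by linarith
  refine ⟨|C|, abs_nonneg _, fun y hy => ?_⟩
  have h1 := hC (y : ℝ) (by exact_mod_cast hy)
  have h2 : ∑ p ∈ PR (y : ℝ), (Nat.card (𝓞 K →+* ZMod p) : ℝ) / (p : ℝ) =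
      ∑ p ∈ PS y, (Nat.card (𝓞 K →+* ZMod (p : ℕ)) : ℝ) / ((p : ℕ) : ℝ) := by
    rw [sum_PS' y (fun p => (Nat.card (𝓞 K →+* ZMod p) : ℝ) / (p : ℝ))]
    unfold PR
    rw [Nat.floor_natCast]
  rw [h2] at h1
  have h3 : ∑ p ∈ PS y, (Nat.card (𝓞 K →+* ZMod (p : ℕ)) : ℝ) / ((p : ℕ) : ℝ) ≤
      ∑ p ∈ PS y, dK K * (if p ∈ QK K then 1 / ((p : ℕ) : ℝ) else 0) := by
    refine Finset.sum_le_sum fun p _ => ?_
    have : Fact (p : ℕ).Prime := ⟨p.2⟩
    have hp0 := p_pos p
    by_cases h0 : Nat.card (𝓞 K →+* ZMod (p : ℕ)) = 0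
    · rw [h0, Nat.cast_zero, zero_div]
      split_ifs
      · positivity
      · rw [mul_zero]
    · rw [if_pos (QK_of_card h0)]
      have h4 := card_hom (K := K) (p : ℕ)
      rw [div_eq_mul_one_div]
      exact mul_le_mul_of_nonneg_right h4 (by positivity)
  rw [← Finset.mul_sum] at h3
  have h4 : Real.log (Real.log y) - C ≤ dK K * ∑ p ∈ PS y, (if p ∈ QK K then 1 / ((p : ℕ) : ℝ) else 0) := h1.trans h3
  have h5 : (1 / dK K) * (Real.log (Real.log y) - C) ≤ ∑ p ∈ PS y, (if p ∈ QK K then 1 / ((p : ℕ) : ℝ) else 0) := by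
    rw [one_div, inv_mul_le_iff₀ hd0]
    exact h4
  have h6 : (1 / dK K) * C ≤ |C| := by
    have h7 : 1 / dK K ≤ 1 := by
      rw [div_le_one hd0]
      exact hd
    have h8 : 0 ≤ 1 / dK K := by positivity
    calc (1 / dK K) * C ≤ (1 / dK K) * |C| := mul_le_mul_of_nonneg_left (le_abs_self _) h8
      _ ≤ 1 * |C| := mul_le_mul_of_nonneg_right h7 (abs_nonneg _)
      _ = |C| := one_mul _
  have h9 : (1 / dK K) * (Real.log (Real.log y) - C) = (1 / dK K) * Real.log (Real.log y) - (1 / dK K) * C := by ring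
  linarith

end Pool.Agent.U309.ED
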