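import Pool.Agent.U309.ED.Ten4
import Pool.Agent.N534.AS.Two

/-!
# The distribution at the edge for random elliptic curves over a number field
-/

set_option autoImplicit false
set_option linter.unusedSectionVars false
set_option linter.unusedVariables false
set_option linter.deprecated false

namespace Pool.Agent.U309.ED

open NumberField IsDedekindDomain Finset MeasureTheory Filter Topology
open Pool.Agent.H921R2.TatePole (nm two_le_nm below deg nm_eq below_le_nm fiber_card_le below_eq_of_mem kerPrime kerPrime_bijective)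
open Pool.Agent.H341R2.EC (trc csum mk_ne)
open Pool.Agent.Y722.HS (EM red box card_box EM_mono EM_const)
open Pool.Agent.Y722.LS (EM_mul)
open Pool.Agent.N534.EC
open Pool.Agent.N534.AS
open Pool.Agent.N534.LL (PP PS mem_PS unif Sys Y liftp red_liftp)

/-- The distribution at the point `s0` of the edge. -/
def EdgeAt {ι : Type} [Fintype ι] [DecidableEq ι] (s0 : ℝ) (b : ℝ) (X : (ι → ℤ) → ℂ → ℂ) : Prop :=
  ∃ Φ : ℝ → ℝ, ContinuousOn Φ (Set.Ioi 0) ∧ StrictMonoOn Φ (Set.Ioi 0) ∧ (∀ τ : ℝ, 0 < τ → 0 < Φ τ ∧ Φ τ < 1) ∧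
    (∃ c C B τ0 : ℝ, 0 < c ∧ 0 < C ∧ 0 < B ∧ ∀ τ : ℝ, τ0 ≤ τ →
      Real.exp (-Real.exp (C * τ ^ B)) ≤ Φ (1 / τ) ∧ Φ (1 / τ) ≤ Real.exp (-Real.exp (c * τ ^ (1 / b))) ∧
      Real.exp (-Real.exp (C * τ ^ B)) ≤ 1 - Φ τ ∧ 1 - Φ τ ≤ Real.exp (-Real.exp (c * τ ^ (1 / b)))) ∧
    ∀ σ : ℕ → ℂ, Tendsto σ atTop (𝓝 (s0 : ℂ)) →
      Tendsto (fun H : ℕ => ((σ H).re - s0) * Real.log H) atTop atTop →
      ∀ τ : ℝ, 0 < τ → Tendsto (fun H : ℕ => (((box ι H).filter (fun c => ‖X c (σ H)‖ ≤ τ)).card : ℝ) /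
        (box ι H).card) atTop (𝓝 (Φ τ))

/-- **The distribution at the edge for a system.** -/
theorem sys_edge {ι : Type} [Fintype ι] [DecidableEq ι] {A β : ℝ} {N B : ∀ p : ℕ, (ι → ZMod p) → ℝ}
    {lam : (ι → ℤ) → ℕ → ℂ → ℂ} (h : Sys A β N B lam) (hB : ∀ (p : ℕ) r, B p r = 0 ∨ B p r = 1)
    {D c C η M b C3 : ℝ} (hD : 0 < D) (hc : 0 < c) (hC : 0 ≤ C) (hη : 0 < η) (hM : 0 ≤ M) {Q : Set Nat.Primes} (P : ℕ)
    (hN : ∀ p ∈ Q, ∀ r, |N (p : ℕ) r| ≤ D / (p : ℕ))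
    (hQ : ∀ p ∈ Q, P ≤ (p : ℕ) → c / ((p : ℕ) : ℝ) ^ 2 ≤ EM (p : ℕ) (fun r => N (p : ℕ) r ^ 2))
    (hoff : ∀ p : Nat.Primes, p ∉ Q → ∀ r, |xr lam 0 p r| ≤ C / ((p : ℕ) : ℝ) ^ ((3 : ℝ) / 2))
    (hdens : ∀ y : ℕ, 3 ≤ y → η * Real.log (Real.log y) - M ≤
      ∑ p ∈ PS y, (open Classical in if p ∈ Q then 1 / ((p : ℕ) : ℝ) else 0))
    (hb : 0 < b) (hC3 : 0 ≤ C3) (hx : ∀ p r, |xr lam 0 p r| ≤ b / (p : ℕ) + C3 / ((p : ℕ) : ℝ) ^ ((3 : ℝ) / 2))
    (s0 : ℝ) {X : (ι → ℤ) → ℂ → ℂ} (hX : ∀ (c : ι → ℤ) (s : ℂ), s0 < s.re →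
      X c s = Complex.exp (∑' p : Nat.Primes, lam c (p : ℕ) (s - s0))) : EdgeAt s0 b X := by
  classical
  have hoff' : ∀ p : Nat.Primes, p ∉ {p : Nat.Primes | p ∈ Q ∧ P ≤ (p : ℕ)} → ∀ r, |xr lam 0 p r| ≤
      (b * P + C3 + C) / ((p : ℕ) : ℝ) ^ ((3 : ℝ) / 2) := by
    intro p hp r
    have hp0 := p_pos p
    have hp1 : (1 : ℝ) ≤ ((p : ℕ) : ℝ) := by exact_mod_cast p.2.one_lt.le
    by_cases hpQ : p ∈ Q
    · have h1 : (p : ℕ) < P := by
        by_contra hc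
        exact hp ⟨hpQ, not_lt.mp hc⟩
      refine (hx p r).trans ?_
      rw [add_div, add_div]
      have h5 : ((p : ℕ) : ℝ) ^ ((3 : ℝ) / 2) ≤ ((p : ℕ) : ℝ) ^ (2 : ℝ) :=
        Real.rpow_le_rpow_of_exponent_le hp1 (by norm_num)
      have h6 : ((p : ℕ) : ℝ) ^ (2 : ℝ) = (p : ℕ) * (p : ℕ) := by
        rw [Real.rpow_two, pow_two]
      have h7 : ((p : ℕ) : ℝ) ≤ P := by exact_mod_cast h1.le
      have h8 : ((p : ℕ) : ℝ) ^ ((3 : ℝ) / 2) ≤ P * (p : ℕ) := by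
        rw [h6] at h5
        nlinarith
      have h9 : b / ((p : ℕ) : ℝ) ≤ b * P / ((p : ℕ) : ℝ) ^ ((3 : ℝ) / 2) := by
        rw [div_le_div_iff₀ hp0 (by positivity)]
        nlinarith
      have h10 : 0 ≤ C / ((p : ℕ) : ℝ) ^ ((3 : ℝ) / 2) := by positivity
      linarith
    · refine (hoff p hpQ r).trans ?_
      apply div_le_div_of_nonneg_right _ (by positivity)
      have : 0 ≤ b * (P : ℝ) := by positivity
      linarith
  obtain ⟨M', C2, Q', hs⟩ := sp_of h hB hD hc (C := b * P + C3 + C) (by positivity) hη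
    (M := M + P) (by positivity) (Q := {p : Nat.Primes | p ∈ Q ∧ P ≤ (p : ℕ)})
    (fun p hp r => hN p hp.1 r) (fun p hp => hQ p hp.1 hp.2) hoff' (fun y hy => by
      refine le_trans (dens_trunc (P := P) y (hdens y hy)) (le_of_eq (Finset.sum_congr rfl fun p _ => ?_))
      by_cases hh : p ∈ {p : Nat.Primes | p ∈ Q ∧ P ≤ (p : ℕ)}
      · simp only [if_pos hh]
      · simp only [if_neg hh])
  obtain ⟨Φ, h1, h2, h3, ⟨c1, C1, τ0, hc1, hC1, h4⟩, h5⟩ := edge h (u0 := 0) (by simp) hs hb hC3 hx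
  refine ⟨Φ, h1, h2, h3, ⟨c1, C1, 1 / (c / (8 * D) * η), τ0, hc1, hC1, by positivity, h4⟩, ?_⟩
  intro σ hσ hσl τ hτ
  have hre : ∀ z : ℂ, (z - (s0 : ℂ)).re = z.re - s0 := fun z => by simp
  have hlogN : Tendsto (fun H : ℕ => Real.log H) atTop atTop :=
    Real.tendsto_log_atTop.comp tendsto_natCast_atTop_atTop
  have hpos : ∀ᶠ H : ℕ in atTop, s0 < (σ H).re := by
    filter_upwards [hσl.eventually_gt_atTop 0, hlogN.eventually_gt_atTop 0] with H h1 h2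
    have := pos_of_mul_pos_left h1 h2.le
    linarith
  have h6 : Tendsto (fun H => σ H - (s0 : ℂ)) atTop (𝓝 0) := by
    have := hσ.sub_const (s0 : ℂ)
    rwa [sub_self] at this
  exact h5 (fun H => σ H - (s0 : ℂ)) h6 (by simpa only [hre] using hσl) (fun H c => X c (σ H)) (by
    filter_upwards [hpos] with H hH c _
    rw [hX c _ hH]) τ hτ

variable {K : Type} [Field K] [NumberField K] {I J : Type} [Fintype I] [Fintype J] [DecidableEq I] [DecidableEq J]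

theorem shiftUnit {ι : Type} {a b : (ι → ℤ) → 𝓞 K} (h : Shift a b) :
    ShiftR (R := Unit) (fun _ => a) (fun _ => b) where
  ca := fun _ => h.ca
  cb := fun _ => h.cb
  sh := by
    intro i0 x
    obtain ⟨e, he⟩ := h.sh x
    refine ⟨e, fun c => ⟨fun _ => (he c).1, fun i => ?_⟩⟩
    rw [if_pos (Subsingleton.elim i i0)]
    exact (he c).2

open Classical in
theorem Nf_TR (ω : Module.Basis I ℤ (𝓞 K)) (A B : MvPolynomial J (𝓞 K)) (p : Nat.Primes) (h5 : 5 ≤ (p : ℕ))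
    (r : I ⊕ J → ZMod (p : ℕ)) : Nf (Sf ω A B) 5 (p : ℕ) r =
      TR (R := Unit) (fun _ => ca (I := I) A) (fun _ => cb ω B) (p : ℕ) 1 r / ((p : ℕ) : ℝ) ^ ((3 : ℝ) / 2) := by
  have : Fact (p : ℕ).Prime := ⟨p.2⟩
  have := finite_hom (K := K) (p : ℕ)
  let _ : Fintype (𝓞 K →+* ZMod (p : ℕ)) := Fintype.ofFinite _
  rw [Nf_eq (p : ℕ) h5, TR_prime, tt_one]
  congr 1
  have h1 : ∑ v : {v : HeightOneSpectrum (𝓞 K) // below v = p}, (if deg v.1 = 1 then
      ∏ i : Unit, (trc (shm (ca (I := I) A (liftp r)) (cb ω B (liftp r))) v.1 : ℝ) else 0) =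
      ∑ v ∈ (Finset.univ : Finset {v : HeightOneSpectrum (𝓞 K) // below v = p}).filter (fun v => deg v.1 = 1),
        (trc (shm (ca (I := I) A (liftp r)) (cb ω B (liftp r))) v.1 : ℝ) := by
    rw [Finset.sum_filter]
    refine Finset.sum_congr rfl fun v _ => ?_
    rw [Finset.prod_const, Finset.card_univ, Fintype.card_unit, pow_one]
  rw [h1]
  symm
  refine Finset.sum_bij' (fun v hv => (Equiv.ofBijective _ (kerPrime_bijective (K := K) p)).symm
    ⟨v, (Finset.mem_filter.mp hv).2⟩) (fun φ _ => (kerPrime p φ).1) ?_ ?_ ?_ ?_ ?_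
  · intro v hv
    exact Finset.mem_univ _
  · intro φ _
    rw [Finset.mem_filter]
    exact ⟨Finset.mem_univ _, (kerPrime p φ).2⟩
  · intro v hv
    have := (Equiv.ofBijective _ (kerPrime_bijective (K := K) p)).apply_symm_apply ⟨v, (Finset.mem_filter.mp hv).2⟩
    exact congrArg Subtype.val this
  · intro φ _
    exact (Equiv.ofBijective _ (kerPrime_bijective (K := K) p)).symm_apply_apply φ
  · intro v hv
    set φ := (Equiv.ofBijective _ (kerPrime_bijective (K := K) p)).symm ⟨v, (Finset.mem_filter.mp hv).2⟩ with hφ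
    have h2 : (kerPrime p φ).1 = v := by
      have := (Equiv.ofBijective _ (kerPrime_bijective (K := K) p)).apply_symm_apply ⟨v, (Finset.mem_filter.mp hv).2⟩
      exact congrArg Subtype.val this
    rw [← h2, trc_shm _ _ p h5 φ]
    unfold Sf
    rw [map_ca, map_cb, red_liftp]
    push_cast
    rfl

theorem lg_sharp (a b : 𝓞 K) (v : HeightOneSpectrum (𝓞 K)) :
    ‖lg a b 0 v‖ ≤ 2 / (nm v : ℝ) + 10 / (nm v : ℝ) ^ 2 := by
  have hq : (2 : ℝ) ≤ nm v := by exact_mod_cast two_le_nm v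
  unfold lg
  split_ifs with h
  · rw [norm_zero]
    positivity
  · have h6 := six_of_dd h
    have h1 := ll_near (shm a b) v h6 0 (by simp)
    have h2 := trc_hasse (shm a b) v h6
    have h3 : ‖(trc (shm a b) v : ℂ) * ((nm v : ℕ) : ℂ) ^ (-((3 : ℂ) / 2 + 0))‖ ≤ 2 / (nm v : ℝ) := by
      rw [norm_mul, Complex.norm_natCast_cpow_of_pos (by have := two_le_nm v; omega)]
      have e1 : (-((3 : ℂ) / 2 + 0)).re = -(3 / 2 + 0) := by simp
      rw [e1]
      have e2 : ‖((trc (shm a b) v : ℤ) : ℂ)‖ = |((trc (shm a b) v : ℤ) : ℝ)| := by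
        rw [Complex.norm_intCast]
      rw [e2]
      calc |((trc (shm a b) v : ℤ) : ℝ)| * (nm v : ℝ) ^ (-(3 / 2 + 0) : ℝ) ≤
          (2 * Real.sqrt (nm v)) * (nm v : ℝ) ^ (-(3 / 2 + 0) : ℝ) := by gcongr
        _ = 2 * (nm v : ℝ) ^ (-1 - 0 : ℝ) := by
          rw [mul_assoc, sqrt_mul_rpow _ (by linarith)]
        _ = 2 / (nm v : ℝ) := by
          rw [sub_zero, Real.rpow_neg_one]
          rfl
    have h4 := norm_add_le (ll (shm a b) 0 v - (trc (shm a b) v : ℂ) * ((nm v : ℕ) : ℂ) ^ (-((3 : ℂ) / 2 + 0)))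
      ((trc (shm a b) v : ℂ) * ((nm v : ℕ) : ℂ) ^ (-((3 : ℂ) / 2 + 0)))
    rw [sub_add_cancel] at h4
    have h5 : 10 * (1 / (nm v : ℝ) ^ 2) = 10 / (nm v : ℝ) ^ 2 := by ring
    linarith

/-- **The distribution at the edge for the family `y² = x³ + A(u) x + B(u) + t`.** -/
theorem ec_edge (ω : Module.Basis I ℤ (𝓞 K)) (A B : MvPolynomial J (𝓞 K)) (hA : A ≠ 0)
    {X : (I ⊕ J → ℤ) → ℂ → ℂ} (hX : ∀ (c : I ⊕ J → ℤ) (s : ℂ), 3 / 2 < s.re →
      X c s = Complex.exp (∑' p : Nat.Primes, lamG (ca (I := I) A c) (cb ω B c) (p : ℕ) (s - 3 / 2))) :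
    EdgeAt (3 / 2) (2 * dK K) X := by
  classical
  obtain ⟨P, hP⟩ := hz_ten (K := K) (R := Unit) (fun _ => A) (fun _ => hA) (Sum.inr : J → I ⊕ J) Sum.inr_injective
  obtain ⟨M, hM, hd⟩ := dens K
  have hdK := one_le_dK (K := K)
  have hBf : ∀ (p : ℕ) (r : I ⊕ J → ZMod p), Bf (Df ω A B) 5 p r = 0 ∨ Bf (Df ω A B) 5 p r = 1 := by
    intro p r
    unfold Bf
    split_ifs
    · exact Or.inr rfl
    · exact Or.inl rfl
    · exact Or.inr rfl
  have hx : ∀ (p : Nat.Primes) (r : I ⊕ J → ZMod (p : ℕ)),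
      |xr (fun c => lamG (ca (I := I) A c) (cb ω B c)) 0 p r| ≤
        2 * dK K / (p : ℕ) + 10 * dK K / ((p : ℕ) : ℝ) ^ ((3 : ℝ) / 2) := by
    intro p r
    have hp0 := p_pos p
    have hp1 : (1 : ℝ) ≤ ((p : ℕ) : ℝ) := by exact_mod_cast p.2.one_lt.le
    unfold xr
    refine (Complex.abs_re_le_norm _).trans ?_
    simp only
    rw [lamG_prime]
    refine (norm_sum_le _ _).trans ?_
    have h1 := sum_fib_le (K := K) p (fun v => ‖lg (ca (I := I) A (liftp r)) (cb ω B (liftp r)) 0 v.1‖)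
      (2 / ((p : ℕ) : ℝ) + 10 / ((p : ℕ) : ℝ) ^ ((3 : ℝ) / 2)) (by positivity) (by
      intro v
      refine (lg_sharp _ _ v.1).trans ?_
      have hq := nm_ge v.1 v.2
      have h2 : 2 / (nm v.1 : ℝ) ≤ 2 / ((p : ℕ) : ℝ) := by gcongr
      have h3 : 10 / (nm v.1 : ℝ) ^ 2 ≤ 10 / ((p : ℕ) : ℝ) ^ ((3 : ℝ) / 2) := by
        have h4 : ((p : ℕ) : ℝ) ^ ((3 : ℝ) / 2) ≤ ((p : ℕ) : ℝ) ^ (2 : ℝ) :=
          Real.rpow_le_rpow_of_exponent_le hp1 (by norm_num)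
        rw [Real.rpow_two] at h4
        have h5 : ((p : ℕ) : ℝ) ^ 2 ≤ (nm v.1 : ℝ) ^ 2 := by gcongr
        exact div_le_div_of_nonneg_left (by norm_num) (by positivity) (h4.trans h5)
      linarith)
    refine h1.trans (le_of_eq ?_)
    ring
  refine sys_edge (sys_two ω A B) hBf (D := dK K * 2) (c := 1 / 5) (C := 6 * dK K) (η := 1 / dK K) (M := M)
    (b := 2 * dK K) (C3 := 10 * dK K) (by positivity) (by norm_num) (by positivity) (by positivity) hM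
    (Q := QK K) (max 5 P) ?_ ?_ ?_ hd (by positivity) (by positivity) hx (3 / 2) ?_
  · intro p _ r
    have : Fact (p : ℕ).Prime := ⟨p.2⟩
    exact Nf_abs (trFam ω A B) (p : ℕ) r
  · intro p hp hpP
    have : Fact (p : ℕ).Prime := ⟨p.2⟩
    have hp0 := p_pos p
    have h5 : 5 ≤ (p : ℕ) := (le_max_left _ _).trans hpP
    have h1 := second_TR (shiftUnit (shift_two ω A B)) p h5 hp (hP p ((le_max_right _ _).trans hpP))
    rw [Fintype.card_unit, pow_one, pow_one] at h1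
    have e1 : (fun r => Nf (Sf ω A B) 5 (p : ℕ) r ^ 2) = fun r : I ⊕ J → ZMod (p : ℕ) =>
        (1 / ((p : ℕ) : ℝ) ^ 3) * TR (R := Unit) (fun _ => ca (I := I) A) (fun _ => cb ω B) (p : ℕ) 1 r ^ 2 := by
      funext r
      rw [Nf_TR ω A B p h5 r, div_pow]
      have e2 : (((p : ℕ) : ℝ) ^ ((3 : ℝ) / 2)) ^ 2 = ((p : ℕ) : ℝ) ^ 3 := by
        rw [← Real.rpow_natCast, ← Real.rpow_mul hp0.le, ← Real.rpow_natCast]
        congr 1
        norm_num
      rw [e2]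
      ring
    rw [e1, EM_mul]
    have h3 : 0 < 1 / ((p : ℕ) : ℝ) ^ 3 := by positivity
    have h4 := mul_le_mul_of_nonneg_left h1 h3.le
    refine le_trans (le_of_eq ?_) h4
    field_simp
  · intro p hp r
    have hp0 := p_pos p
    have hp1 : (1 : ℝ) ≤ ((p : ℕ) : ℝ) := by exact_mod_cast p.2.one_lt.le
    unfold xr
    refine (Complex.abs_re_le_norm _).trans ?_
    simp only
    rw [lamG_prime]
    refine (norm_sum_le _ _).trans ?_
    have h1 := sum_fib_le (K := K) p (fun v => ‖lg (ca (I := I) A (liftp r)) (cb ω B (liftp r)) 0 v.1‖)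
      (6 / ((p : ℕ) : ℝ) ^ ((3 : ℝ) / 2)) (by positivity) (by
      intro v
      refine (lg_le _ _ v.1 0 (by simp)).trans ?_
      have hdeg : 2 ≤ deg v.1 := by
        have h2 := (nm_eq v.1).2.1
        have h3 : deg v.1 ≠ 1 := fun h => hp ⟨v.1, v.2, h⟩
        omega
      have hnm : (nm v.1 : ℝ) = ((p : ℕ) : ℝ) ^ deg v.1 := by
        have := (nm_eq v.1).1
        rw [v.2] at this
        exact_mod_cast this
      have h4 : ((p : ℕ) : ℝ) ^ ((3 : ℝ) / 2) ≤ nm v.1 := by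
        rw [hnm]
        have h5 : ((p : ℕ) : ℝ) ^ ((3 : ℝ) / 2) ≤ ((p : ℕ) : ℝ) ^ (2 : ℝ) :=
          Real.rpow_le_rpow_of_exponent_le hp1 (by norm_num)
        rw [Real.rpow_two] at h5
        exact h5.trans (pow_le_pow_right₀ hp1 hdeg)
      have e3 : (-1 - (0 : ℂ).re : ℝ) = -1 := by simp
      rw [e3, Real.rpow_neg_one, ← div_eq_mul_inv]
      exact div_le_div_of_nonneg_left (by norm_num) (by positivity) h4)
    refine h1.trans (le_of_eq ?_)
    ring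
  · intro c s hs
    rw [hX c s hs]
    congr 1
    refine tsum_congr fun p => ?_
    congr 1
    push_cast
    ring

end Pool.Agent.U309.ED
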