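import Pool.Agent.U309.ED.Sys

/-!
# The distribution of the absolute values of Euler products at a point of the edge
-/

set_option autoImplicit false
set_option linter.unusedSectionVars false
set_option linter.unusedVariables false
set_option linter.deprecated false

namespace Pool.Agent.U309.ED

open Finset MeasureTheory Filter Topology ProbabilityTheory
open Pool.Agent.Y722.HS (EM red box card_box EM_mono EM_const)
open Pool.Agent.N534.LL (PP PS mem_PS unif Sys Y liftp red_liftp law)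
open Pool.Agent.N534.PS (Pow lamT trm NT BT)

variable {ι : Type} [Fintype ι] [DecidableEq ι]
variable {A β : ℝ} {N B : ∀ p : ℕ, (ι → ZMod p) → ℝ} {lam : (ι → ℤ) → ℕ → ℂ → ℂ}

/-- **The distribution function.** -/
theorem edge (h : Sys A β N B lam) {u0 : ℂ} (hu0 : 0 ≤ u0.re) {a δ η M C2 : ℝ} {Q : Set Nat.Primes} (hs : Sp a δ η M C2 Q (xr lam u0))
    {b C3 : ℝ} (hb : 0 < b) (hC3 : 0 ≤ C3) (hx : ∀ p r, |xr lam u0 p r| ≤ b / (p : ℕ) + C3 / ((p : ℕ) : ℝ) ^ ((3 : ℝ) / 2)) :
    ∃ Φ : ℝ → ℝ, ContinuousOn Φ (Set.Ioi 0) ∧ StrictMonoOn Φ (Set.Ioi 0) ∧ (∀ τ : ℝ, 0 < τ → 0 < Φ τ ∧ Φ τ < 1) ∧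
      (∃ c C τ0 : ℝ, 0 < c ∧ 0 < C ∧ ∀ τ : ℝ, τ0 ≤ τ →
        Real.exp (-Real.exp (C * τ ^ (1 / (a * η)))) ≤ Φ (1 / τ) ∧ Φ (1 / τ) ≤ Real.exp (-Real.exp (c * τ ^ (1 / b))) ∧
        Real.exp (-Real.exp (C * τ ^ (1 / (a * η)))) ≤ 1 - Φ τ ∧ 1 - Φ τ ≤ Real.exp (-Real.exp (c * τ ^ (1 / b)))) ∧
      ∀ u : ℕ → ℂ, Tendsto u atTop (𝓝 u0) → Tendsto (fun H : ℕ => (u H).re * Real.log H) atTop atTop →
        ∀ X : ℕ → (ι → ℤ) → ℂ, (∀ᶠ H in atTop, ∀ c ∈ box ι H,
          X H c = Complex.exp (∑' p : Nat.Primes, lam c p (u H))) →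
        ∀ τ : ℝ, 0 < τ → Tendsto (fun H : ℕ => (((box ι H).filter (fun c => ‖X H c‖ ≤ τ)).card : ℝ) /
            (box ι H).card) atTop (𝓝 (Φ τ)) := by
  classical
  obtain ⟨Zc, hm, hi, hl, hlaw⟩ := law h (κ := Unit) (fun _ => u0) (fun _ => hu0)
  set Z : (∀ p : Nat.Primes, ι → ZMod (p : ℕ)) → ℝ := fun ω => (Zc () ω).re with hZdef
  have hZ : Lim (xr lam u0) Z := lim_re (hm ()) (hi ()) (hl ())
  have hbd := Sys.bd h hu0
  have hat := no_atoms hbd hZ hs
  have hsup := fun t {ε : ℝ} (hε : 0 < ε) => support hbd hZ hs t hε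
  set F : ℝ → ℝ := fun t => (PP ι).real {ω | Z ω ≤ t} with hF
  have hFc : Continuous F := cont_of_no_atoms (PP ι) Z hZ.meas hat
  have hmeas : ∀ t, MeasurableSet {ω | Z ω ≤ t} := fun t => measurableSet_le hZ.meas measurable_const
  -- strict monotonicity
  have hFs : ∀ s t : ℝ, s < t → F s < F t := by
    intro s t hst
    have h1 := hsup ((s + t) / 2) (ε := (t - s) / 2) (by linarith)
    have hdis : Disjoint {ω | Z ω ≤ s} {ω | |Z ω - (s + t) / 2| < (t - s) / 2} := by
      rw [Set.disjoint_left]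
      intro ω h2 h3
      simp only [Set.mem_setOf_eq] at h2 h3
      have := (abs_lt.mp h3).1
      linarith
    have hsub : {ω | Z ω ≤ s} ∪ {ω | |Z ω - (s + t) / 2| < (t - s) / 2} ⊆ {ω | Z ω ≤ t} := by
      rintro ω (h2 | h2)
      · simp only [Set.mem_setOf_eq] at h2 ⊢
        linarith
      · simp only [Set.mem_setOf_eq] at h2 ⊢
        have := (abs_lt.mp h2).2
        linarith
    have h2 := measureReal_mono (μ := PP ι) hsub
    have hmm : MeasurableSet {ω | |Z ω - (s + t) / 2| < (t - s) / 2} :=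
      measurableSet_lt ((hZ.meas.sub_const _).abs) measurable_const
    rw [measureReal_union hdis hmm] at h2
    rw [hF]
    simp only
    linarith
  have hF0 : ∀ t, 0 < F t := fun t => lt_of_le_of_lt measureReal_nonneg (hFs (t - 1) t (by linarith))
  have hF1 : ∀ t, F t < 1 := fun t => lt_of_lt_of_le (hFs t (t + 1) (by linarith)) measureReal_le_one
  set Φ : ℝ → ℝ := fun τ => F (Real.log τ) with hΦ
  -- the tails
  obtain ⟨C, κ, hC, hκ, hup⟩ := upper hbd hZ hb.le hC3 hx
  obtain ⟨c1, τ1, hc1, ht1⟩ := up_tau hb hC hκ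
  obtain ⟨C', κ', hC', hκ', hlo⟩ := lower1 hbd hZ hs
  obtain ⟨C'', κ'', hC'', hκ'', hlo'⟩ := lower1 hbd.neg hZ.neg hs.neg
  obtain ⟨c2, τ2, hc2, ht2⟩ := lo_tau (mul_pos hs.a0 hs.e0) hC' hκ'
  obtain ⟨c3, τ3, hc3, ht3⟩ := lo_tau (mul_pos hs.a0 hs.e0) hC'' hκ''
  have hcompl : ∀ t, 1 - F t = (PP ι).real {ω | t < Z ω} := by
    intro t
    have h1 := probReal_compl_eq_one_sub (μ := PP ι) (hmeas t)
    rw [hF]
    simp only
    rw [← h1]
    congr 1
    ext ω
    simp
  have hge : ∀ t, (PP ι).real {ω | t ≤ Z ω} ≤ 1 - F t := by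
    intro t
    rw [hcompl]
    have hsub : {ω | t ≤ Z ω} ⊆ {ω | t < Z ω} ∪ {ω | Z ω = t} := by
      intro ω h2
      simp only [Set.mem_setOf_eq, Set.mem_union] at h2 ⊢
      rcases h2.lt_or_eq with h3 | h3
      · exact Or.inl h3
      · exact Or.inr h3.symm
    have h1 := (measureReal_mono (μ := PP ι) hsub).trans (measureReal_union_le _ _)
    rw [hat t] at h1
    linarith
  refine ⟨Φ, ?_, ?_, fun τ _ => ⟨hF0 _, hF1 _⟩, ?_, ?_⟩
  · exact hFc.comp_continuousOn (Real.continuousOn_log.mono fun τ hτ => (Set.mem_Ioi.mp hτ).ne')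
  · intro s hs' t ht hst
    exact hFs _ _ (Real.log_lt_log hs' hst)
  · refine ⟨c1, max c2 c3, max (max τ1 1) (max τ2 τ3), hc1, lt_max_of_lt_left hc2, fun τ hτ => ?_⟩
    have hτ1 : τ1 ≤ τ := ((le_max_left _ _).trans (le_max_left _ _)).trans hτ
    have hτ11 : 1 ≤ τ := ((le_max_right _ _).trans (le_max_left _ _)).trans hτ
    have hτ2 : τ2 ≤ τ := ((le_max_left _ _).trans (le_max_right _ _)).trans hτ
    have hτ3 : τ3 ≤ τ := ((le_max_right _ _).trans (le_max_right _ _)).trans hτ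
    have hτ0 : 0 < τ := by linarith
    have hpa : 0 < τ ^ (1 / (a * η)) := Real.rpow_pos_of_pos hτ0 _
    have hlog : Real.log (1 / τ) = -Real.log τ := by rw [one_div, Real.log_inv]
    obtain ⟨y1, hy1, hy1a, hy1b⟩ := ht1 τ hτ1
    obtain ⟨y2, hy2, hy2a, hy2b⟩ := ht2 τ hτ2
    obtain ⟨y3, hy3, hy3a, hy3b⟩ := ht3 τ hτ3
    have hU := (hup y1 hy1).trans hy1b
    have hL := hy2b.trans (hlo y2 hy2)
    have hL' := hy3b.trans (hlo' y3 hy3)
    have hmono2 : Real.exp (-Real.exp (max c2 c3 * τ ^ (1 / (a * η)))) ≤ Real.exp (-Real.exp (c2 * τ ^ (1 / (a * η)))) := by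
      apply Real.exp_le_exp.mpr
      apply neg_le_neg
      apply Real.exp_le_exp.mpr
      exact mul_le_mul_of_nonneg_right (le_max_left _ _) hpa.le
    have hmono3 : Real.exp (-Real.exp (max c2 c3 * τ ^ (1 / (a * η)))) ≤ Real.exp (-Real.exp (c3 * τ ^ (1 / (a * η)))) := by
      apply Real.exp_le_exp.mpr
      apply neg_le_neg
      apply Real.exp_le_exp.mpr
      exact mul_le_mul_of_nonneg_right (le_max_right _ _) hpa.le
    refine ⟨?_, ?_, ?_, ?_⟩
    · refine hmono3.trans (hL'.trans ?_)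
      rw [hΦ]
      simp only
      rw [hlog, hF]
      refine measureReal_mono fun ω h2 => ?_
      simp only [Set.mem_setOf_eq] at h2 ⊢
      linarith
    · rw [hΦ]
      simp only
      rw [hlog, hF]
      refine le_trans (measureReal_mono fun ω h2 => ?_) hU
      simp only [Set.mem_setOf_eq] at h2 ⊢
      rw [le_abs]
      right
      linarith
    · refine hmono2.trans (hL.trans ?_)
      refine le_trans ?_ (hge (Real.log τ))
      refine measureReal_mono fun ω h2 => ?_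
      simp only [Set.mem_setOf_eq] at h2 ⊢
      linarith
    · rw [hΦ]
      simp only
      rw [hcompl]
      refine le_trans (measureReal_mono fun ω h2 => ?_) hU
      simp only [Set.mem_setOf_eq] at h2 ⊢
      rw [le_abs]
      left
      linarith
  · intro u hu hul X hX τ hτ
    have h1 := (hlaw (fun H _ => u H) (fun _ => hu) (fun _ => hul) (fun H c _ => X H c) (by
      filter_upwards [hX] with H hH c hc _
      exact hH c hc)).2 {v : Unit → ℂ | ‖v ()‖ ≤ τ} (measurableSet_le (by fun_prop) measurable_const) ?_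
    · have e1 : (PP ι).real {ω | (fun k => Complex.exp (Zc k ω)) ∈ {v : Unit → ℂ | ‖v ()‖ ≤ τ}} = Φ τ := by
        rw [hΦ]
        simp only
        rw [hF]
        congr 1
        ext ω
        simp only [Set.mem_setOf_eq, Complex.norm_exp]
        rw [Real.le_log_iff_exp_le hτ]
      rw [e1] at h1
      refine h1.congr fun H => ?_
      congr 3
    · have hcont : Continuous fun v : Unit → ℂ => ‖v ()‖ := by fun_prop
      have h2 := frontier_le_subset_eq hcont (continuous_const (y := τ))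
      have h3 : (PP ι).real {ω | Z ω = Real.log τ} = 0 := hat _
      have h4 : (PP ι) {ω | Z ω = Real.log τ} = 0 := by
        rw [measureReal_def, ENNReal.toReal_eq_zero_iff] at h3
        exact h3.resolve_right (measure_ne_top _ _)
      refine measure_mono_null ?_ h4
      intro ω hω
      simp only [Set.mem_setOf_eq] at hω ⊢
      have h5 := h2 hω
      simp only [Set.mem_setOf_eq, Complex.norm_exp] at h5
      rw [← h5, Real.log_exp]

end Pool.Agent.U309.ED
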