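import Mathlib

/-!
# Second moments of character sums over finite fields
-/

set_option autoImplicit false
set_option linter.unusedSectionVars false

namespace Pool.Agent.U309.ED

open Finset

section
variable {k : Type*} [Field k] [Fintype k] [DecidableEq k]

/-- the correlation sum -/
theorem corr (hk : ringChar k ≠ 2) (a b : k) :
    ∑ s : k, quadraticChar k (a + s) * quadraticChar k (b + s) = (if a = b then (Fintype.card k : ℤ) else 0) - 1 := by
  by_cases hab : a = b
  · subst hab
    rw [if_pos rfl]
    have h1 : ∀ s : k, quadraticChar k (a + s) * quadraticChar k (a + s) = if a + s = 0 then 0 else 1 := by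
      intro s
      split_ifs with h
      · rw [h]; simp
      · have := quadraticChar_sq_one h
        rw [pow_two] at this
        exact this
    rw [Finset.sum_congr rfl fun s _ => h1 s]
    have h2 : ∑ s : k, (if a + s = 0 then (0 : ℤ) else 1) = ∑ s : k, (if s = 0 then (0 : ℤ) else 1) :=
      Fintype.sum_equiv (Equiv.addLeft a) _ _ fun s => rfl
    rw [h2]
    have h3 : ∀ s : k, (if s = 0 then (0 : ℤ) else 1) = 1 - if s = 0 then 1 else 0 := by
      intro s
      split_ifs <;> norm_num
    rw [Finset.sum_congr rfl fun s _ => h3 s, Finset.sum_sub_distrib]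
    simp
  · rw [if_neg hab, zero_sub]
    -- translate: `∑ χ(s) χ(s + d)`
    set d := a - b with hd
    have hd0 : d ≠ 0 := sub_ne_zero.mpr hab
    have h1 : ∑ s : k, quadraticChar k (a + s) * quadraticChar k (b + s) =
        ∑ s : k, quadraticChar k (s + d) * quadraticChar k s := by
      refine Fintype.sum_equiv (Equiv.addLeft b) _ _ fun s => ?_
      simp only [Equiv.coe_addLeft]
      congr 2
      rw [hd]
      ring
    rw [h1]
    have h2 : ∀ s : k, quadraticChar k (s + d) * quadraticChar k s = if s = 0 then 0 else quadraticChar k (1 + d * s⁻¹) := by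
      intro s
      split_ifs with h
      · rw [h]; simp
      · have e : s + d = s * (1 + d * s⁻¹) := by field_simp
        rw [e, map_mul]
        have := quadraticChar_sq_one h
        rw [mul_right_comm, ← pow_two, this, one_mul]
    rw [Finset.sum_congr rfl fun s _ => h2 s, ← Finset.sum_filter_add_sum_filter_not Finset.univ (fun s : k => s = 0)]
    have h3 : ∑ s ∈ Finset.univ.filter (fun s : k => s = 0), (if s = 0 then (0 : ℤ) else quadraticChar k (1 + d * s⁻¹)) = 0 := by
      refine Finset.sum_eq_zero fun s hs => ?_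
      rw [if_pos (Finset.mem_filter.mp hs).2]
    have h4 : ∑ s ∈ Finset.univ.filter (fun s : k => ¬ s = 0), (if s = 0 then (0 : ℤ) else quadraticChar k (1 + d * s⁻¹)) =
        ∑ z ∈ Finset.univ.filter (fun z : k => ¬ z = 1), quadraticChar k z := by
      refine Finset.sum_bij' (fun s _ => 1 + d * s⁻¹) (fun z _ => d * (z - 1)⁻¹) ?_ ?_ ?_ ?_ ?_
      · intro s hs
        rw [Finset.mem_filter] at hs ⊢
        refine ⟨Finset.mem_univ _, fun h => ?_⟩
        have : d * s⁻¹ = 0 := by linear_combination h
        rcases mul_eq_zero.mp this with h5 | h5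
        · exact hd0 h5
        · exact hs.2 (inv_eq_zero.mp h5)
      · intro z hz
        rw [Finset.mem_filter] at hz ⊢
        refine ⟨Finset.mem_univ _, ?_⟩
        exact mul_ne_zero hd0 (inv_ne_zero (sub_ne_zero.mpr hz.2))
      · intro s hs
        have hs0 := (Finset.mem_filter.mp hs).2
        rw [add_sub_cancel_left, mul_inv, inv_inv, ← mul_assoc, mul_inv_cancel₀ hd0, one_mul]
      · intro z hz
        have hz0 := (Finset.mem_filter.mp hz).2
        have : z - 1 ≠ 0 := sub_ne_zero.mpr hz0
        rw [mul_inv, inv_inv, ← mul_assoc, mul_inv_cancel₀ hd0, one_mul]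
        ring
      · intro s hs
        rw [if_neg (Finset.mem_filter.mp hs).2]
    rw [h3, h4, zero_add]
    have h5 := quadraticChar_sum_zero hk
    rw [← Finset.sum_filter_add_sum_filter_not Finset.univ (fun z : k => z = 1)] at h5
    have h6 : ∑ z ∈ Finset.univ.filter (fun z : k => z = 1), quadraticChar k z = 1 := by
      rw [Finset.filter_eq' Finset.univ (1 : k), if_pos (Finset.mem_univ _), Finset.sum_singleton, map_one]
    rw [h6] at h5
    linarith

/-- the second moment under translations -/
theorem second (hk : ringChar k ≠ 2) (h : k → k) :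
    ∑ s : k, (∑ x : k, quadraticChar k (h x + s)) ^ 2 =
      (Fintype.card k : ℤ) * ((Finset.univ.filter fun z : k × k => h z.1 = h z.2).card : ℤ) - (Fintype.card k : ℤ) ^ 2 := by
  have h1 : ∀ s : k, (∑ x : k, quadraticChar k (h x + s)) ^ 2 =
      ∑ z : k × k, quadraticChar k (h z.1 + s) * quadraticChar k (h z.2 + s) := by
    intro s
    rw [pow_two, Finset.sum_mul_sum, ← Finset.univ_product_univ, Finset.sum_product]
  rw [Finset.sum_congr rfl fun s _ => h1 s, Finset.sum_comm, Finset.sum_congr rfl fun z _ => corr hk (h z.1) (h z.2),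
    Finset.sum_sub_distrib, ← Finset.sum_filter, Finset.sum_const, Finset.sum_const, nsmul_eq_mul, nsmul_eq_mul,
    Finset.card_univ, Fintype.card_prod]
  push_cast
  ring

/-- the second moment under translations and changes of the linear coefficient -/
theorem second' (hk : ringChar k ≠ 2) (h : k → k) :
    ∑ u : k, ∑ s : k, (∑ x : k, quadraticChar k (h x + u * x + s)) ^ 2 =
      (Fintype.card k : ℤ) ^ 2 * ((Fintype.card k : ℤ) - 1) := by
  set q : ℤ := (Fintype.card k : ℤ) with hq
  have h1 : ∀ u : k, ∑ s : k, (∑ x : k, quadraticChar k (h x + u * x + s)) ^ 2 =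
      q * (∑ z : k × k, if h z.1 + u * z.1 = h z.2 + u * z.2 then (1 : ℤ) else 0) - q ^ 2 := by
    intro u
    rw [second hk (fun x => h x + u * x), ← Finset.sum_filter, Finset.sum_const, nsmul_eq_mul, mul_one]
  rw [Finset.sum_congr rfl fun u _ => h1 u, Finset.sum_sub_distrib, ← Finset.mul_sum, Finset.sum_comm]
  have h2 : ∀ z : k × k, ∑ u : k, (if h z.1 + u * z.1 = h z.2 + u * z.2 then (1 : ℤ) else 0) =
      1 + if z.1 = z.2 then q - 1 else 0 := by
    intro z
    by_cases hz : z.1 = z.2
    · rw [if_pos hz]
      simp [hz, hq]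
    · rw [if_neg hz, add_zero]
      have hz' : z.1 - z.2 ≠ 0 := sub_ne_zero.mpr hz
      have h3 : ∀ u : k, (h z.1 + u * z.1 = h z.2 + u * z.2) ↔ u = (h z.2 - h z.1) / (z.1 - z.2) := by
        intro u
        rw [eq_div_iff hz']
        constructor
        · intro h4
          linear_combination h4
        · intro h4
          linear_combination h4
      simp only [h3]
      rw [Finset.sum_ite_eq' Finset.univ]
      simp
  rw [Finset.sum_congr rfl fun z _ => h2 z, Finset.sum_add_distrib, ← Finset.univ_product_univ, Finset.sum_product,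
    Finset.sum_product]
  simp only [Finset.sum_ite_eq, Finset.mem_univ, if_true, Finset.sum_const, nsmul_eq_mul, Finset.card_univ, mul_one]
  rw [← hq]
  ring

/-- a quadratic character sum -/
theorem sum_quad (hk : ringChar k ≠ 2) (a b : k) (ha : a ≠ 0) (hb : b ≠ 0) :
    -1 ≤ ∑ x : k, quadraticChar k (a * x ^ 2 + b) := by
  -- the number of solutions of `y² = t` is `1 + χ(t)`
  have h1 : ∑ x : k, quadraticChar k (a * x ^ 2 + b) = ∑ t : k, (1 + quadraticChar k t) * quadraticChar k (a * t + b) := by
    have h2 : ∀ t : k, (1 + quadraticChar k t : ℤ) = ((Finset.univ.filter fun x : k => x ^ 2 = t).card : ℤ) := by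
      intro t
      have := quadraticChar_card_sqrts hk t
      have e : ((Finset.univ.filter fun x : k => x ^ 2 = t).card : ℤ) = ({x : k | x ^ 2 = t}.toFinset.card : ℤ) := by
        congr 2
        ext x
        simp
      rw [e, this]
      ring
    have h3 : ∀ t : k, (1 + quadraticChar k t) * quadraticChar k (a * t + b) =
        ∑ x ∈ Finset.univ.filter (fun x : k => x ^ 2 = t), quadraticChar k (a * x ^ 2 + b) := by
      intro t
      rw [h2 t, ← nsmul_eq_mul, ← Finset.sum_const]
      refine Finset.sum_congr rfl fun x hx => ?_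
      rw [(Finset.mem_filter.mp hx).2]
    rw [Finset.sum_congr rfl fun t _ => h3 t]
    rw [Finset.sum_fiberwise_of_maps_to (fun x _ => Finset.mem_univ _)]
  rw [h1]
  simp only [add_mul, one_mul]
  rw [Finset.sum_add_distrib]
  have h2 : ∑ t : k, quadraticChar k (a * t + b) = 0 := by
    have h3 : ∑ t : k, quadraticChar k (a * t + b) = ∑ t : k, quadraticChar k t :=
      Fintype.sum_equiv ((Equiv.mulLeft₀ a ha).trans (Equiv.addRight b)) _ _ fun s => rfl
    rw [h3]
    exact quadraticChar_sum_zero hk
  rw [h2, zero_add]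
  have h3 : ∀ t : k, quadraticChar k t * quadraticChar k (a * t + b) =
      quadraticChar k a * (quadraticChar k (0 + t) * quadraticChar k (b / a + t)) := by
    intro t
    have e : a * t + b = a * (b / a + t) := by
      field_simp
      ring
    rw [e, map_mul, zero_add]
    ring
  rw [Finset.sum_congr rfl fun t _ => h3 t, ← Finset.mul_sum, corr hk, if_neg (Ne.symm (div_ne_zero hb ha)), zero_sub]
  rcases quadraticChar_dichotomy ha with h4 | h4 <;> rw [h4] <;> norm_num

/-- the pairs with the same value of a cubic polynomial -/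
theorem cubic_pairs (h6 : (6 : k) ≠ 0) (a b : k) (ha : a ≠ 0) :
    2 * (Fintype.card k : ℤ) - 3 ≤
      ((Finset.univ.filter fun z : k × k => z.1 ^ 3 + a * z.1 + b = z.2 ^ 3 + a * z.2 + b).card : ℤ) := by
  have h2 : (2 : k) ≠ 0 := by
    intro h; apply h6
    have : (6 : k) = 3 * 2 := by norm_num
    rw [this, h, mul_zero]
  have h3 : (3 : k) ≠ 0 := by
    intro h; apply h6
    have : (6 : k) = 2 * 3 := by norm_num
    rw [this, h, mul_zero]
  have h4 : (4 : k) ≠ 0 := by
    have : (4 : k) = 2 * 2 := by norm_num
    rw [this]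
    exact mul_ne_zero h2 h2
  have hk : ringChar k ≠ 2 := by
    intro h
    apply h2
    have := ringChar.Nat.cast_ringChar (R := k)
    rw [h] at this
    exact_mod_cast this
  set S := Finset.univ.filter fun z : k × k => z.1 ^ 3 + a * z.1 + b = z.2 ^ 3 + a * z.2 + b with hS
  set Dg := Finset.univ.filter fun z : k × k => z.1 = z.2 with hDg
  set Cn := Finset.univ.filter fun z : k × k => z.1 ^ 2 + z.1 * z.2 + z.2 ^ 2 + a = 0 with hCn
  have h5 : Dg ∪ Cn ⊆ S := by
    intro z hz
    rw [hS, Finset.mem_filter]
    refine ⟨Finset.mem_univ _, ?_⟩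
    rcases Finset.mem_union.mp hz with h | h
    · rw [(Finset.mem_filter.mp h).2]
    · have h7 := (Finset.mem_filter.mp h).2
      linear_combination (z.1 - z.2) * h7
  have hD : (Dg.card : ℤ) = Fintype.card k := by
    have : Dg = Finset.univ.image (fun x : k => (x, x)) := by
      ext z
      rw [hDg, Finset.mem_filter, Finset.mem_image]
      constructor
      · rintro ⟨_, h⟩
        exact ⟨z.1, Finset.mem_univ _, Prod.ext rfl h⟩
      · rintro ⟨x, _, rfl⟩
        exact ⟨Finset.mem_univ _, rfl⟩
    rw [this, Finset.card_image_of_injective _ (fun x y h => (Prod.ext_iff.mp h).1), Finset.card_univ]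
  have hI : ((Dg ∩ Cn).card : ℤ) ≤ 2 := by
    have h7 : Dg ∩ Cn ⊆ (({x : k | x ^ 2 = -a / 3}.toFinset).image fun x => (x, x)) := by
      intro z hz
      obtain ⟨h8, h9⟩ := Finset.mem_inter.mp hz
      have h10 := (Finset.mem_filter.mp h8).2
      have h11 := (Finset.mem_filter.mp h9).2
      rw [Finset.mem_image]
      refine ⟨z.1, ?_, Prod.ext rfl h10⟩
      rw [Set.mem_toFinset, Set.mem_setOf_eq, eq_div_iff h3]
      rw [← h10] at h11
      linear_combination h11
    have h8 := Finset.card_le_card h7
    rw [Finset.card_image_of_injective _ (fun x y h => (Prod.ext_iff.mp h).1)] at h8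
    have h9 := quadraticChar_card_sqrts hk (-a / 3)
    have h10 : quadraticChar k (-a / 3) = 1 ∨ quadraticChar k (-a / 3) = -1 :=
      quadraticChar_dichotomy (div_ne_zero (neg_ne_zero.mpr ha) h3)
    have h11 : (({x : k | x ^ 2 = -a / 3}.toFinset.card : ℕ) : ℤ) ≤ 2 := by
      rw [h9]
      rcases h10 with h | h <;> rw [h] <;> norm_num
    calc ((Dg ∩ Cn).card : ℤ) ≤ (({x : k | x ^ 2 = -a / 3}.toFinset.card : ℕ) : ℤ) := by exact_mod_cast h8
      _ ≤ 2 := h11
  have hC : (Fintype.card k : ℤ) - 1 ≤ (Cn.card : ℤ) := by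
    -- for each `x`, the number of `y` is `1 + χ(-3x² - 4a)`
    have h7 : (Cn.card : ℤ) = ∑ x : k, (1 + quadraticChar k (-3 * x ^ 2 + -4 * a)) := by
      have h8 : ∀ x : k, (1 + quadraticChar k (-3 * x ^ 2 + -4 * a) : ℤ) =
          ((Finset.univ.filter fun y : k => x ^ 2 + x * y + y ^ 2 + a = 0).card : ℤ) := by
        intro x
        have h9 := quadraticChar_card_sqrts hk (-3 * x ^ 2 + -4 * a)
        have h10 : ((Finset.univ.filter fun y : k => x ^ 2 + x * y + y ^ 2 + a = 0).card : ℤ) =
            ({w : k | w ^ 2 = -3 * x ^ 2 + -4 * a}.toFinset.card : ℤ) := by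
          congr 1
          refine Finset.card_bij (fun y _ => 2 * y + x) ?_ ?_ ?_
          · intro y hy
            have h11 := (Finset.mem_filter.mp hy).2
            rw [Set.mem_toFinset, Set.mem_setOf_eq]
            linear_combination 4 * h11
          · intro y _ y' _ h
            have : 2 * y = 2 * y' := by linear_combination h
            exact mul_left_cancel₀ h2 this
          · intro w hw
            rw [Set.mem_toFinset, Set.mem_setOf_eq] at hw
            refine ⟨(w - x) / 2, ?_, by field_simp; ring⟩
            rw [Finset.mem_filter]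
            refine ⟨Finset.mem_univ _, ?_⟩
            have : (4 : k) * (x ^ 2 + x * ((w - x) / 2) + ((w - x) / 2) ^ 2 + a) = 0 := by
              field_simp
              linear_combination 4 * hw
            exact (mul_eq_zero.mp this).resolve_left h4
        rw [h10, h9]
        ring
      rw [Finset.sum_congr rfl fun x _ => h8 x]
      have h11 : Cn.card = ∑ x : k, (Finset.univ.filter fun y : k => x ^ 2 + x * y + y ^ 2 + a = 0).card := by
        rw [hCn, ← Finset.univ_product_univ, Finset.card_filter, Finset.sum_product]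
        refine Finset.sum_congr rfl fun x _ => ?_
        rw [Finset.card_filter]
      rw [h11]
      push_cast
      rfl
    rw [h7, Finset.sum_add_distrib]
    have h8 := sum_quad hk (-3 : k) (-4 * a) (neg_ne_zero.mpr h3) (mul_ne_zero (neg_ne_zero.mpr h4) ha)
    simp only [Finset.sum_const, nsmul_eq_mul, Finset.card_univ, mul_one]
    linarith
  have h7 := Finset.card_le_card h5
  have h8 := Finset.card_union_add_card_inter Dg Cn
  have h9 : ((Dg ∪ Cn).card : ℤ) + ((Dg ∩ Cn).card : ℤ) = (Dg.card : ℤ) + (Cn.card : ℤ) := by exact_mod_cast h8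
  have h10 : ((Dg ∪ Cn).card : ℤ) ≤ (S.card : ℤ) := by exact_mod_cast h7
  linarith

end

end Pool.Agent.U309.ED
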