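import Pool.Agent.U309.ED.Ten3
import Pool.Agent.N534.HC.Coh

/-!
# Products of random hyperelliptic curves: traces and their second moments
-/

set_option autoImplicit false
set_option linter.unusedSectionVars false
set_option linter.unusedVariables false
set_option linter.deprecated false

namespace Pool.Agent.U309.ED

open NumberField IsDedekindDomain Finset Polynomial
open Pool.Agent.H921R2.TatePole (nm two_le_nm below deg nm_eq below_le_nm fiber_card_le below_eq_of_mem)
open Pool.Agent.H341R2.EC (mk_ne)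
open Pool.Agent.Y722.HS (EM red EM_mono EM_const)
open Pool.Agent.Y722.LS (EM_mul EM_add)
open Pool.Agent.N534.EC
open Pool.Agent.N534.AS
open Pool.Agent.N534.HC
open Pool.Agent.N534.LL (liftp red_liftp)
open Pool.Agent.N534.PS (Pow p_two lamT trm)

section
variable {k : Type} [Field k] [Fintype k] [DecidableEq k]

theorem trG_odd (hk : ringChar k ≠ 2) (f : k[X]) (ho : Odd f.natDegree) :
    trG k f 1 1 = -∑ x : k, quadraticChar k (f.eval x) := by
  rw [trG_eq hk f one_ne_zero (m := 1) (E := k) (by rw [pow_one]), if_pos ho]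
  simp

theorem trG_odd_le (hk : ringChar k ≠ 2) (f : k[X]) (ho : Odd f.natDegree) :
    |(trG k f 1 1 : ℝ)| ≤ (f.natDegree - 1) * Real.sqrt (Fintype.card k) := by
  rw [trG_odd hk f ho]
  push_cast
  rw [abs_neg]
  refine Pool.Agent.H341R2.Sharp.weil_sharp hk f ho.pos fun c h hf => ?_
  by_cases hc : c = 0
  · rw [hc, C_0, zero_mul] at hf
    rw [hf, natDegree_zero] at ho
    exact (Nat.not_odd_zero) ho
  · rw [hf, natDegree_C_mul hc, natDegree_pow] at ho
    exact (Nat.not_odd_iff_even.mpr (even_two_mul _)) ho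

theorem nd_shift (g : k[X]) (hg : 2 ≤ g.natDegree) (u s : k) : (g + C u * X + C s).natDegree = g.natDegree := by
  rw [add_assoc]
  apply natDegree_add_eq_left_of_natDegree_lt
  have h1 : (C u * X + C s).natDegree ≤ 1 := natDegree_linear_le
  omega

theorem tr_sum (hk : ringChar k ≠ 2) (g : k[X]) (ho : Odd g.natDegree) (hg : 2 ≤ g.natDegree) :
    ∑ y : k × k, trG k (g + C y.1 * X + C y.2) 1 1 = 0 := by
  rw [← Finset.univ_product_univ, Finset.sum_product]
  refine Finset.sum_eq_zero fun u _ => ?_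
  have h1 : ∀ s : k, trG k (g + C u * X + C s) 1 1 = -∑ x : k, quadraticChar k ((g.eval x + u * x) + 1 * s) := by
    intro s
    rw [trG_odd hk _ (by rw [nd_shift g hg]; exact ho)]
    congr 1
    refine Finset.sum_congr rfl fun x _ => ?_
    simp
  rw [Finset.sum_congr rfl fun s _ => h1 s, Finset.sum_neg_distrib, Finset.sum_comm]
  rw [Finset.sum_eq_zero fun x _ => sum_char hk (g.eval x + u * x) 1 one_ne_zero, neg_zero]

theorem tr_sq (hk : ringChar k ≠ 2) (g : k[X]) (ho : Odd g.natDegree) (hg : 2 ≤ g.natDegree) :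
    ∑ y : k × k, (trG k (g + C y.1 * X + C y.2) 1 1) ^ 2 = (Fintype.card k : ℤ) ^ 2 * ((Fintype.card k : ℤ) - 1) := by
  rw [← second' hk (fun x => g.eval x), ← Finset.univ_product_univ, Finset.sum_product]
  refine Finset.sum_congr rfl fun u _ => Finset.sum_congr rfl fun s _ => ?_
  rw [trG_odd hk _ (by rw [nd_shift g hg]; exact ho), neg_sq]
  congr 1
  refine Finset.sum_congr rfl fun x _ => ?_
  simp

end

/-! ### Power series -/

section
open PowerSeries (coeff)

theorem cf0 (a b : ℝ) (Z : PowerSeries ℝ) :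
    PowerSeries.coeff 0 ((1 + PowerSeries.C a * PowerSeries.X + PowerSeries.C b * PowerSeries.X ^ 2) * Z) =
      PowerSeries.coeff 0 Z := by
  simp [PowerSeries.coeff_zero_eq_constantCoeff]

theorem cf_split (a b : ℝ) (Z : PowerSeries ℝ) (m : ℕ) :
    PowerSeries.coeff m ((1 + PowerSeries.C a * PowerSeries.X + PowerSeries.C b * PowerSeries.X ^ 2) * Z) =
      PowerSeries.coeff m Z + a * PowerSeries.coeff m (PowerSeries.X ^ 1 * Z) + b * PowerSeries.coeff m (PowerSeries.X ^ 2 * Z) := by
  have h1 : (1 + PowerSeries.C a * PowerSeries.X + PowerSeries.C b * PowerSeries.X ^ 2) * Z =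
      Z + PowerSeries.C a * (PowerSeries.X ^ 1 * Z) + PowerSeries.C b * (PowerSeries.X ^ 2 * Z) := by ring
  rw [h1, map_add, map_add, PowerSeries.coeff_C_mul, PowerSeries.coeff_C_mul]

/-- `(1 + q X²)^n` -/
noncomputable def Wn (q : ℝ) (n : ℕ) : PowerSeries ℝ := (1 + PowerSeries.C q * PowerSeries.X ^ 2) ^ n

theorem Wn_succ (q : ℝ) (n m : ℕ) : PowerSeries.coeff m (Wn q (n + 1)) =
    PowerSeries.coeff m (Wn q n) + q * PowerSeries.coeff m (PowerSeries.X ^ 2 * Wn q n) := by
  have h1 := cf_split 0 q (Wn q n) m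
  have h2 : Wn q (n + 1) = (1 + PowerSeries.C 0 * PowerSeries.X + PowerSeries.C q * PowerSeries.X ^ 2) * Wn q n := by
    unfold Wn
    rw [map_zero, zero_mul, add_zero]
    ring
  rw [h2, h1]
  ring

theorem Wn_odd (q : ℝ) (n : ℕ) : ∀ m : ℕ, Odd m → PowerSeries.coeff m (Wn q n) = 0 := by
  induction n with
  | zero =>
    intro m hm
    unfold Wn
    rw [pow_zero, PowerSeries.coeff_one, if_neg]
    rintro rfl
    exact Nat.not_odd_zero hm
  | succ n ih =>
    intro m hm
    rw [Wn_succ, ih m hm, PowerSeries.coeff_X_pow_mul']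
    split_ifs with h2
    · rw [ih (m - 2) (by
        obtain ⟨t, ht⟩ := hm
        exact ⟨t - 1, by omega⟩)]
      ring
    · ring

theorem Wn_nonneg {q : ℝ} (hq : 0 ≤ q) (n : ℕ) : ∀ m : ℕ, 0 ≤ PowerSeries.coeff m (Wn q n) := by
  induction n with
  | zero =>
    intro m
    unfold Wn
    rw [pow_zero, PowerSeries.coeff_one]
    split_ifs <;> norm_num
  | succ n ih =>
    intro m
    rw [Wn_succ, PowerSeries.coeff_X_pow_mul']
    have h1 := ih m
    split_ifs with h2
    · have := mul_nonneg hq (ih (m - 2))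
      linarith
    · linarith

theorem Wn_even {q : ℝ} (hq : 0 ≤ q) (n : ℕ) : ∀ t : ℕ, t ≤ n → q ^ t ≤ PowerSeries.coeff (2 * t) (Wn q n) := by
  induction n with
  | zero =>
    intro t ht
    have : t = 0 := by omega
    subst this
    unfold Wn
    simp
  | succ n ih =>
    intro t ht
    rw [Wn_succ, PowerSeries.coeff_X_pow_mul']
    by_cases h : t ≤ n
    · have h1 := ih t h
      split_ifs with h2
      · have := mul_nonneg hq (Wn_nonneg hq n (2 * t - 2))
        linarith
      · linarith
    · have ht' : t = n + 1 := by omega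
      subst ht'
      rw [if_pos (by omega)]
      have e : 2 * (n + 1) - 2 = 2 * n := by omega
      rw [e]
      have h1 := mul_le_mul_of_nonneg_left (ih n le_rfl) hq
      have h2 := Wn_nonneg hq n (2 * (n + 1))
      rw [pow_succ]
      linarith

/-- the comparison of the coefficients -/
theorem coeff_prod_le {R : Type} (t : Finset R) (a b : R → ℝ) {s q : ℝ} (hs : 0 ≤ s) (hq : q = s ^ 2)
    (hab : ∀ j ∈ t, |a j| ≤ b j * s) (hb : ∀ j ∈ t, 0 ≤ b j) : ∀ m : ℕ,
    0 ≤ PowerSeries.coeff m (∏ j ∈ t, (1 + PowerSeries.C (b j) * PowerSeries.X + PowerSeries.C (1 : ℝ) * PowerSeries.X ^ 2)) ∧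
    |PowerSeries.coeff m (∏ j ∈ t, (1 + PowerSeries.C (a j) * PowerSeries.X + PowerSeries.C q * PowerSeries.X ^ 2))| ≤
      PowerSeries.coeff m (∏ j ∈ t, (1 + PowerSeries.C (b j) * PowerSeries.X + PowerSeries.C (1 : ℝ) * PowerSeries.X ^ 2)) * s ^ m := by
  classical
  induction t using Finset.induction with
  | empty =>
    intro m
    rw [Finset.prod_empty, Finset.prod_empty, PowerSeries.coeff_one]
    split_ifs with h
    · rw [h]; simp
    · simp
  | insert j0 t hj0 ih =>
    have ih' := ih (fun j hj => hab j (Finset.mem_insert_of_mem hj)) (fun j hj => hb j (Finset.mem_insert_of_mem hj))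
    have ha0 := hab j0 (Finset.mem_insert_self _ _)
    have hb0 := hb j0 (Finset.mem_insert_self _ _)
    intro m
    rw [Finset.prod_insert hj0, Finset.prod_insert hj0, cf_split, cf_split]
    set Z := ∏ j ∈ t, (1 + PowerSeries.C (a j) * PowerSeries.X + PowerSeries.C q * PowerSeries.X ^ 2) with hZ
    set W := ∏ j ∈ t, (1 + PowerSeries.C (b j) * PowerSeries.X + PowerSeries.C (1 : ℝ) * PowerSeries.X ^ 2) with hW
    have h0 := ih' m
    have h1 : 0 ≤ PowerSeries.coeff m (PowerSeries.X ^ 1 * W) ∧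
        |a j0 * PowerSeries.coeff m (PowerSeries.X ^ 1 * Z)| ≤ b j0 * PowerSeries.coeff m (PowerSeries.X ^ 1 * W) * s ^ m := by
      rw [PowerSeries.coeff_X_pow_mul', PowerSeries.coeff_X_pow_mul']
      split_ifs with hm
      · obtain ⟨h2, h3⟩ := ih' (m - 1)
        refine ⟨h2, ?_⟩
        rw [abs_mul]
        have e : s ^ m = s * s ^ (m - 1) := by
          rw [← pow_succ']
          congr 1
          omega
        rw [e]
        have h4 : 0 ≤ b j0 * s := by positivity
        calc |a j0| * |PowerSeries.coeff (m - 1) Z| ≤ (b j0 * s) * (PowerSeries.coeff (m - 1) W * s ^ (m - 1)) :=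
              mul_le_mul ha0 h3 (abs_nonneg _) h4
          _ = _ := by ring
      · simp
    have h2 : 0 ≤ PowerSeries.coeff m (PowerSeries.X ^ 2 * W) ∧
        |q * PowerSeries.coeff m (PowerSeries.X ^ 2 * Z)| ≤ 1 * PowerSeries.coeff m (PowerSeries.X ^ 2 * W) * s ^ m := by
      rw [PowerSeries.coeff_X_pow_mul', PowerSeries.coeff_X_pow_mul']
      split_ifs with hm
      · obtain ⟨h2, h3⟩ := ih' (m - 2)
        refine ⟨h2, ?_⟩
        have hq0 : 0 ≤ q := by rw [hq]; positivity
        rw [abs_mul, abs_of_nonneg hq0]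
        have e : s ^ m = s ^ 2 * s ^ (m - 2) := by
          rw [← pow_add]
          congr 1
          omega
        rw [e, hq]
        have := mul_le_mul_of_nonneg_left h3 (by positivity : (0 : ℝ) ≤ s ^ 2)
        linarith
      · simp
    refine ⟨?_, ?_⟩
    · have := mul_nonneg hb0 h1.1
      linarith [h0.1, h2.1]
    · have h3 := abs_add_le (PowerSeries.coeff m Z + a j0 * PowerSeries.coeff m (PowerSeries.X ^ 1 * Z))
        (q * PowerSeries.coeff m (PowerSeries.X ^ 2 * Z))
      have h4 := abs_add_le (PowerSeries.coeff m Z) (a j0 * PowerSeries.coeff m (PowerSeries.X ^ 1 * Z))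
      have h5 := h0.2
      have h6 := h1.2
      have h7 := h2.2
      nlinarith

end

end Pool.Agent.U309.ED
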