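import Pool.Agent.U309.ED.PowEdge

/-!
# The distribution at the edge for Euler products given by power sums: hypotheses for large primes
-/

set_option autoImplicit false
set_option linter.unusedSectionVars false
set_option linter.unusedVariables false
set_option linter.deprecated false

namespace Pool.Agent.U309.ED

open Finset MeasureTheory Filter Topology
open Pool.Agent.Y722.HS (EM red box card_box EM_mono EM_const)
open Pool.Agent.N534.LL (PP PS mem_PS unif Sys Y liftp red_liftp)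
open Pool.Agent.N534.PS (Pow lamT trm NT BT NT_abs)

theorem dens_trunc {Q : Set Nat.Primes} {P : ℕ} {η M : ℝ} (y : ℕ)
    (h3 : η * Real.log (Real.log y) - M ≤ ∑ p ∈ PS y, (open Classical in if p ∈ Q then 1 / ((p : ℕ) : ℝ) else 0)) :
    η * Real.log (Real.log y) - (M + P) ≤
      ∑ p ∈ PS y, (open Classical in if p ∈ {p : Nat.Primes | p ∈ Q ∧ P ≤ (p : ℕ)} then 1 / ((p : ℕ) : ℝ) else 0) := by
  classical
  have h4 : ∑ p ∈ PS y, (if p ∈ Q then 1 / ((p : ℕ) : ℝ) else 0) - P ≤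
      ∑ p ∈ PS y, (if p ∈ {p : Nat.Primes | p ∈ Q ∧ P ≤ (p : ℕ)} then 1 / ((p : ℕ) : ℝ) else 0) := by
    rw [sub_le_iff_le_add]
    have h5 : ∀ p ∈ PS y, (if p ∈ Q then 1 / ((p : ℕ) : ℝ) else 0) ≤
        (if p ∈ {p : Nat.Primes | p ∈ Q ∧ P ≤ (p : ℕ)} then 1 / ((p : ℕ) : ℝ) else 0) +
          (if (p : ℕ) < P then 1 else 0) := by
      intro p _
      have hp0 := p_pos p
      have hp1 : 1 / ((p : ℕ) : ℝ) ≤ 1 := by
        rw [div_le_one hp0]
        exact_mod_cast p.2.one_lt.le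
      have hp2 : 0 ≤ 1 / ((p : ℕ) : ℝ) := by positivity
      by_cases ha : p ∈ Q
      · by_cases hb : P ≤ (p : ℕ)
        · rw [if_pos ha, if_pos (show p ∈ {p : Nat.Primes | p ∈ Q ∧ P ≤ (p : ℕ)} from ⟨ha, hb⟩), if_neg (by omega)]
          linarith
        · rw [if_pos ha, if_neg (fun h : p ∈ {p : Nat.Primes | p ∈ Q ∧ P ≤ (p : ℕ)} => hb h.2), if_pos (by omega)]
          linarith
      · rw [if_neg ha]
        split_ifs <;> linarith
    refine (Finset.sum_le_sum h5).trans ?_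
    rw [Finset.sum_add_distrib]
    have h6 : ∑ p ∈ PS y, (if (p : ℕ) < P then (1 : ℝ) else 0) ≤ P := by
      rw [← Finset.sum_filter, Finset.sum_const, nsmul_eq_mul, mul_one]
      have h9 : ((PS y).filter fun p : Nat.Primes => (p : ℕ) < P).card ≤ (Finset.range P).card := by
        refine Finset.card_le_card_of_injOn (fun p : Nat.Primes => (p : ℕ)) ?_ ?_
        · intro p hp
          rw [Finset.mem_coe, Finset.mem_range]
          exact (Finset.mem_filter.mp hp).2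
        · intro u _ v _ huv
          exact Subtype.ext huv
      rw [Finset.card_range] at h9
      exact_mod_cast h9
    linarith
  have h7 : η * Real.log (Real.log y) - (M + P) ≤
      ∑ p ∈ PS y, (if p ∈ {p : Nat.Primes | p ∈ Q ∧ P ≤ (p : ℕ)} then 1 / ((p : ℕ) : ℝ) else 0) := by
    linarith
  refine le_trans h7 (le_of_eq (Finset.sum_congr rfl fun p _ => ?_))
  by_cases hh : p ∈ {p : Nat.Primes | p ∈ Q ∧ P ≤ (p : ℕ)}
  · simp only [if_pos hh]
  · simp only [if_neg hh]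

variable {ι : Type} [Fintype ι] [DecidableEq ι]
variable {D : ℝ} {w p0 : ℕ} {T : ∀ p : ℕ, ℕ → (ι → ZMod p) → ℝ} {Bad : ∀ p : ℕ, (ι → ZMod p) → Prop}

/-- **The distribution at the edge for Euler products given by power sums.** -/
theorem powEdge' (h : Pow D w p0 T Bad) {b : ℝ} (hb0 : 0 < b)
    (hb : ∀ p : Nat.Primes, p0 ≤ (p : ℕ) → ∀ r, |T (p : ℕ) 1 r| ≤ b * ((p : ℕ) : ℝ) ^ ((w : ℝ) / 2))
    {c : ℝ} (hc : 0 < c) {Q : Set Nat.Primes} (P : ℕ)
    (hQ : ∀ p ∈ Q, P ≤ (p : ℕ) → c * ((p : ℕ) : ℝ) ^ w ≤ EM (p : ℕ) (fun r => T (p : ℕ) 1 r ^ 2))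
    (hoff : ∀ p : Nat.Primes, p ∉ Q → P ≤ (p : ℕ) → ∀ r, T (p : ℕ) 1 r = 0)
    {η M : ℝ} (hη : 0 < η) (hM : 0 ≤ M)
    (hdens : ∀ y : ℕ, 3 ≤ y → η * Real.log (Real.log y) - M ≤
      ∑ p ∈ PS y, (open Classical in if p ∈ Q then 1 / ((p : ℕ) : ℝ) else 0))
    {X : (ι → ℤ) → ℂ → ℂ} (hX : ∀ (c : ι → ℤ) (s : ℂ), 1 + (w : ℝ) / 2 < s.re →
      X c s = Complex.exp (∑' p : Nat.Primes, lamT w p0 T Bad c (p : ℕ) (s - (1 + (w : ℂ) / 2)))) :
    EdgeLaw w b X := by
  classical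
  refine powEdge h hb0 hb hc (Q := {p | p ∈ Q ∧ max p0 P ≤ (p : ℕ)}) (P := max p0 P) ?_ ?_ hη
    (M := M + (max p0 P : ℕ)) (by positivity) ?_ hX
  · rintro p ⟨hp, hpP⟩
    exact ⟨(le_max_left _ _).trans hpP, hQ p hp ((le_max_right _ _).trans hpP)⟩
  · intro p hp
    by_cases hpP : (p : ℕ) < max p0 P
    · exact Or.inl hpP
    · right
      rw [not_lt] at hpP
      exact hoff p (fun hq => hp ⟨hq, hpP⟩) ((le_max_right _ _).trans hpP)
  · intro y hy
    refine le_trans (dens_trunc (P := max p0 P) y (hdens y hy)) (le_of_eq (Finset.sum_congr rfl fun p _ => ?_))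
    by_cases hh : p ∈ {p : Nat.Primes | p ∈ Q ∧ max p0 P ≤ (p : ℕ)}
    · simp only [if_pos hh]
    · simp only [if_neg hh]

end Pool.Agent.U309.ED
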