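import Pool.Agent.U309.ED.HC2
import Pool.Agent.U309.ED.PowEdge2

/-!
# Products of random hyperelliptic curves: averages
-/

set_option autoImplicit false
set_option linter.unusedSectionVars false
set_option linter.unusedVariables false
set_option linter.deprecated false

namespace Pool.Agent.U309.ED

open NumberField IsDedekindDomain Finset Polynomial
open Pool.Agent.H921R2.TatePole (nm two_le_nm below deg nm_eq below_le_nm fiber_card_le below_eq_of_mem)
open Pool.Agent.H341R2.EC (mk_ne)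
open Pool.Agent.Y722.HS (EM red EM_mono EM_const)
open Pool.Agent.Y722.LS (EM_mul EM_add)
open Pool.Agent.N534.EC
open Pool.Agent.N534.AS
open Pool.Agent.N534.HC
open Pool.Agent.N534.LL (liftp red_liftp)
open Pool.Agent.N534.PS (Pow p_two lamT trm)

variable {K : Type} [Field K] [NumberField K] {J : Type} [Fintype J] [DecidableEq J]
  {R : Type} [Fintype R] [DecidableEq R]

/-- families of monic polynomials of odd degree, closed under the independent addition of polynomials of degree one -/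
structure ShH (F : R → (MvPolynomial J (𝓞 K))[X]) : Prop where
  monic : ∀ j, (F j).Monic
  odd : ∀ j, Odd (F j).natDegree
  two : ∀ j, 2 ≤ (F j).natDegree
  sh : ∀ (j0 : R) (x y : 𝓞 K), ∃ e : J → ℤ, ∀ c : J → ℤ,
    mem (F j0) (c + e) = mem (F j0) c + C x * X + C y ∧ ∀ j, j ≠ j0 → mem (F j) (c + e) = mem (F j) c

section
variable {F : R → (MvPolynomial J (𝓞 K))[X]} (h : ShH F)
include h

theorem ShH.nd (j : R) (v : HeightOneSpectrum (𝓞 K)) (c : J → ℤ) : (rmem (F j) v c).natDegree = (F j).natDegree := by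
  unfold rmem mem
  rw [(h.monic j |>.map _).natDegree_map, (h.monic j).natDegree_map]

/-- translations at one place -/
theorem ShH.shift (j0 : R) (p : Nat.Primes) [Fact (p : ℕ).Prime] (v : {v : HeightOneSpectrum (𝓞 K) // below v = p}) :
    ∃ e : (𝓞 K ⧸ v.1.asIdeal) × (𝓞 K ⧸ v.1.asIdeal) → J → ZMod (p : ℕ), ∀ y r,
      rmem (F j0) v.1 (liftp (r + e y)) = rmem (F j0) v.1 (liftp r) + C y.1 * X + C y.2 ∧
      (∀ j, j ≠ j0 → rmem (F j) v.1 (liftp (r + e y)) = rmem (F j) v.1 (liftp r)) ∧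
      ∀ v' : {v : HeightOneSpectrum (𝓞 K) // below v = p}, v' ≠ v →
        ∀ j, rmem (F j) v'.1 (liftp (r + e y)) = rmem (F j) v'.1 (liftp r) := by
  choose x hx hx' using fun y : 𝓞 K ⧸ v.1.asIdeal => exists_elt p v y
  choose e he using fun y : (𝓞 K ⧸ v.1.asIdeal) × (𝓞 K ⧸ v.1.asIdeal) => h.sh j0 (x y.1) (x y.2)
  refine ⟨fun y => red (p : ℕ) (e y), fun y r => ?_⟩
  have h1 := red_shift (p : ℕ) r (e y)
  have h2 : ∀ (v' : {v : HeightOneSpectrum (𝓞 K) // below v = p}) (j : R),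
      rmem (F j) v'.1 (liftp (r + red (p : ℕ) (e y))) = rmem (F j) v'.1 (liftp r + e y) := fun v' j =>
    rmem_congr (F j) p v'.1 v'.2 h1
  obtain ⟨h3, h4⟩ := he y (liftp r)
  refine ⟨?_, fun j hj => ?_, fun v' hv' j => ?_⟩
  · rw [h2 v j0]
    unfold rmem
    rw [h3]
    simp only [Polynomial.map_add, Polynomial.map_mul, map_C, map_X, hx]
  · rw [h2 v j]
    unfold rmem
    rw [h4 j hj]
  · rw [h2 v' j]
    unfold rmem
    by_cases hj : j = j0
    · subst hj
      rw [h3]
      simp only [Polynomial.map_add, Polynomial.map_mul, map_C, map_X]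
      rw [Ideal.Quotient.eq_zero_iff_mem.mpr (hx' y.1 v' hv'), Ideal.Quotient.eq_zero_iff_mem.mpr (hx' y.2 v' hv')]
      simp
    · rw [h4 j hj]

end

/-- the trace of Frobenius of the curve `j` at `v` -/
noncomputable def aj (F : R → (MvPolynomial J (𝓞 K))[X]) {p : Nat.Primes}
    (v : {v : HeightOneSpectrum (𝓞 K) // below v = p}) (j : R) (r : J → ZMod (p : ℕ)) : ℝ :=
  (trv v.1 (rmem (F j) v.1 (liftp r)) 1 : ℝ)

/-- the product of the trace polynomials over `t` -/
noncomputable def ZZ (F : R → (MvPolynomial J (𝓞 K))[X]) {p : Nat.Primes}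
    (v : {v : HeightOneSpectrum (𝓞 K) // below v = p}) (t : Finset R) (r : J → ZMod (p : ℕ)) : PowerSeries ℝ :=
  ∏ j ∈ t, (1 + PowerSeries.C (aj F v j r) * PowerSeries.X + PowerSeries.C (nm v.1 : ℝ) * PowerSeries.X ^ 2)

theorem two_notMem {p : Nat.Primes} (h3 : 3 ≤ (p : ℕ)) (v : HeightOneSpectrum (𝓞 K)) (hv : below v = p) :
    (2 : 𝓞 K) ∉ v.asIdeal := by
  intro h2m
  have h4 := (int_mem_iff p v hv 2).1 (by exact_mod_cast h2m)
  have h5 : (p : ℕ) ∣ 2 := by exact_mod_cast h4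
  have := Nat.le_of_dvd (by norm_num) h5
  omega

section
variable {F : R → (MvPolynomial J (𝓞 K))[X]} (h : ShH F)
include h

theorem aj_sum (p : Nat.Primes) [Fact (p : ℕ).Prime] (h3 : 3 ≤ (p : ℕ))
    (v : {v : HeightOneSpectrum (𝓞 K) // below v = p}) (j0 : R)
    {e : (𝓞 K ⧸ v.1.asIdeal) × (𝓞 K ⧸ v.1.asIdeal) → J → ZMod (p : ℕ)} (r : J → ZMod (p : ℕ))
    (he : ∀ y, rmem (F j0) v.1 (liftp (r + e y)) = rmem (F j0) v.1 (liftp r) + C y.1 * X + C y.2) :
    ∑ y, aj F v j0 (r + e y) = 0 ∧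
      ∑ y, aj F v j0 (r + e y) ^ 2 = (nm v.1 : ℝ) ^ 2 * ((nm v.1 : ℝ) - 1) := by
  classical
  have hk := char_ne (two_notMem h3 v.1 v.2)
  have ho : Odd (rmem (F j0) v.1 (liftp r)).natDegree := by rw [h.nd]; exact h.odd j0
  have h2 : 2 ≤ (rmem (F j0) v.1 (liftp r)).natDegree := by rw [h.nd]; exact h.two j0
  have hcard : (Fintype.card (𝓞 K ⧸ v.1.asIdeal) : ℝ) = nm v.1 := by
    rw [Pool.Agent.H341R2.card_v]
  have e1 : ∀ y, aj F v j0 (r + e y) =
      ((trG (𝓞 K ⧸ v.1.asIdeal) (rmem (F j0) v.1 (liftp r) + C y.1 * X + C y.2) 1 1 : ℤ) : ℝ) := by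
    intro y
    unfold aj trv
    rw [he y]
  constructor
  · rw [Finset.sum_congr rfl fun y _ => e1 y]
    have h4 := tr_sum hk (rmem (F j0) v.1 (liftp r)) ho h2
    exact_mod_cast h4
  · have h4 := tr_sq hk (rmem (F j0) v.1 (liftp r)) ho h2
    rw [Finset.sum_congr rfl fun y _ => by rw [e1 y], ← hcard]
    exact_mod_cast h4

/-- **The average over the translations of the curves in `t` at the place `v`.** -/
theorem avgZ (p : Nat.Primes) [Fact (p : ℕ).Prime] (h3 : 3 ≤ (p : ℕ))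
    (v : {v : HeightOneSpectrum (𝓞 K) // below v = p}) (t : Finset R) :
    ∀ (W : PowerSeries ℝ) (m : ℕ) (g : (J → ZMod (p : ℕ)) → ℝ),
      (∀ r r' : J → ZMod (p : ℕ), (∀ j, j ∉ t → rmem (F j) v.1 (liftp r') = rmem (F j) v.1 (liftp r)) →
        (∀ v' : {v : HeightOneSpectrum (𝓞 K) // below v = p}, v' ≠ v →
          ∀ j, rmem (F j) v'.1 (liftp r') = rmem (F j) v'.1 (liftp r)) → g r' = g r) →
      EM (p : ℕ) (fun r => PowerSeries.coeff m (W * ZZ F v t r) * g r) =
        PowerSeries.coeff m (W * Wn (nm v.1) t.card) * EM (p : ℕ) g := by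
  classical
  induction t using Finset.induction with
  | empty =>
    intro W m g _
    unfold ZZ Wn
    simp only [Finset.prod_empty, mul_one, Finset.card_empty, pow_zero]
    rw [EM_mul]
  | insert j0 t hj0 ih =>
    intro W m g hg
    have hg' : ∀ r r' : J → ZMod (p : ℕ), (∀ j, j ∉ t → rmem (F j) v.1 (liftp r') = rmem (F j) v.1 (liftp r)) →
        (∀ v' : {v : HeightOneSpectrum (𝓞 K) // below v = p}, v' ≠ v →
          ∀ j, rmem (F j) v'.1 (liftp r') = rmem (F j) v'.1 (liftp r)) → g r' = g r := fun r r' h1 h2 =>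
      hg r r' (fun j hj => h1 j fun h => hj (Finset.mem_insert_of_mem h)) h2
    have e1 : (fun r : J → ZMod (p : ℕ) => PowerSeries.coeff m (W * ZZ F v (insert j0 t) r) * g r) = fun r =>
        PowerSeries.coeff m ((W * (1 + PowerSeries.C (nm v.1 : ℝ) * PowerSeries.X ^ 2)) * ZZ F v t r) * g r +
          aj F v j0 r * (PowerSeries.coeff m ((W * PowerSeries.X) * ZZ F v t r) * g r) := by
      funext r
      have e2 : W * ZZ F v (insert j0 t) r = (W * (1 + PowerSeries.C (nm v.1 : ℝ) * PowerSeries.X ^ 2)) * ZZ F v t r +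
          PowerSeries.C (aj F v j0 r) * ((W * PowerSeries.X) * ZZ F v t r) := by
        unfold ZZ
        rw [Finset.prod_insert hj0]
        ring
      rw [e2, map_add, PowerSeries.coeff_C_mul]
      ring
    rw [e1, EM_add, ih _ m g hg']
    have h2 : EM (p : ℕ) (fun r : J → ZMod (p : ℕ) =>
        aj F v j0 r * (PowerSeries.coeff m ((W * PowerSeries.X) * ZZ F v t r) * g r)) = 0 := by
      obtain ⟨e, he⟩ := h.shift j0 p v
      rw [EM_shift_fam (ι := J) (p : ℕ) e]
      have h4 : (fun r : J → ZMod (p : ℕ) => (∑ y : (𝓞 K ⧸ v.1.asIdeal) × (𝓞 K ⧸ v.1.asIdeal),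
          aj F v j0 (r + e y) * (PowerSeries.coeff m ((W * PowerSeries.X) * ZZ F v t (r + e y)) * g (r + e y))) /
          (Fintype.card ((𝓞 K ⧸ v.1.asIdeal) × (𝓞 K ⧸ v.1.asIdeal)) : ℝ)) = fun _ => 0 := by
        funext r
        have h5 : ∀ y, aj F v j0 (r + e y) *
            (PowerSeries.coeff m ((W * PowerSeries.X) * ZZ F v t (r + e y)) * g (r + e y)) =
            aj F v j0 (r + e y) * (PowerSeries.coeff m ((W * PowerSeries.X) * ZZ F v t r) * g r) := by
          intro y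
          obtain ⟨g1, g2, g3⟩ := he y r
          have h6 : ZZ F v t (r + e y) = ZZ F v t r := by
            unfold ZZ
            refine Finset.prod_congr rfl fun j hj => ?_
            have hjne : j ≠ j0 := fun h => hj0 (h ▸ hj)
            unfold aj
            rw [g2 j hjne]
          have h7 : g (r + e y) = g r := by
            refine hg r (r + e y) (fun j hj => g2 j ?_) g3
            rintro rfl
            exact hj (Finset.mem_insert_self _ _)
          rw [h6, h7]
        rw [Finset.sum_congr rfl fun y _ => h5 y, ← Finset.sum_mul,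
          (aj_sum h p h3 v j0 r fun y => (he y r).1).1, zero_mul, zero_div]
      rw [h4, EM_const]
    rw [h2, add_zero, Finset.card_insert_of_notMem hj0]
    congr 2
    unfold Wn
    ring

/-- the trace of the product at `v` in degree `i` -/
theorem mean_tau (p : Nat.Primes) [Fact (p : ℕ).Prime] (h3 : 3 ≤ (p : ℕ))
    (v : {v : HeightOneSpectrum (𝓞 K) // below v = p}) {i : ℕ} (hi : Odd i) :
    EM (p : ℕ) (fun r => PowerSeries.coeff i (ZZ F v Finset.univ r)) = 0 := by
  have h1 := avgZ h p h3 v Finset.univ 1 i (fun _ => 1) (fun _ _ _ _ => rfl)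
  simp only [one_mul, mul_one] at h1
  rw [h1, Wn_odd _ _ i hi, zero_mul]

theorem cross_tau (p : Nat.Primes) [Fact (p : ℕ).Prime] (h3 : 3 ≤ (p : ℕ))
    (v v' : {v : HeightOneSpectrum (𝓞 K) // below v = p}) (hv : v' ≠ v) {i : ℕ} (hi : Odd i) :
    EM (p : ℕ) (fun r => PowerSeries.coeff i (ZZ F v Finset.univ r) * PowerSeries.coeff i (ZZ F v' Finset.univ r)) = 0 := by
  have h1 := avgZ h p h3 v Finset.univ 1 i (fun r => PowerSeries.coeff i (ZZ F v' Finset.univ r)) (by
    intro r r' _ h2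
    have h4 : ZZ F v' Finset.univ r' = ZZ F v' Finset.univ r := by
      unfold ZZ
      refine Finset.prod_congr rfl fun j _ => ?_
      unfold aj
      rw [h2 v' hv j]
    rw [h4])
  simp only [one_mul] at h1
  rw [h1, Wn_odd _ _ i hi, zero_mul]

/-- **The second moment at one place.** -/
theorem diag_tau [Nonempty R] (p : Nat.Primes) [Fact (p : ℕ).Prime] (h3 : 3 ≤ (p : ℕ))
    (v : {v : HeightOneSpectrum (𝓞 K) // below v = p}) {i : ℕ} (hi : Odd i) (hi2 : i + 1 ≤ 2 * Fintype.card R) :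
    ((nm v.1 : ℝ) - 1) * (nm v.1 : ℝ) ^ (i - 1) ≤
      EM (p : ℕ) (fun r => PowerSeries.coeff i (ZZ F v Finset.univ r) ^ 2) := by
  classical
  obtain ⟨j0⟩ := ‹Nonempty R›
  obtain ⟨e, he⟩ := h.shift j0 p v
  have hq : (2 : ℝ) ≤ nm v.1 := by exact_mod_cast two_le_nm v.1
  have hq0 : (0 : ℝ) < nm v.1 := by linarith
  set B : (J → ZMod (p : ℕ)) → ℝ := fun r =>
    PowerSeries.coeff i (PowerSeries.X * ZZ F v (Finset.univ.erase j0) r) with hB
  set A : (J → ZMod (p : ℕ)) → ℝ := fun r => PowerSeries.coeff i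
    ((1 + PowerSeries.C (nm v.1 : ℝ) * PowerSeries.X ^ 2) * ZZ F v (Finset.univ.erase j0) r) with hA
  have hsplit : ∀ r, PowerSeries.coeff i (ZZ F v Finset.univ r) = A r + aj F v j0 r * B r := by
    intro r
    have e2 : ZZ F v Finset.univ r = (1 + PowerSeries.C (nm v.1 : ℝ) * PowerSeries.X ^ 2) * ZZ F v (Finset.univ.erase j0) r +
        PowerSeries.C (aj F v j0 r) * (PowerSeries.X * ZZ F v (Finset.univ.erase j0) r) := by
      unfold ZZ
      rw [← Finset.mul_prod_erase Finset.univ _ (Finset.mem_univ j0)]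
      ring
    rw [e2, map_add, PowerSeries.coeff_C_mul]
  have hinv : ∀ y r, ZZ F v (Finset.univ.erase j0) (r + e y) = ZZ F v (Finset.univ.erase j0) r := by
    intro y r
    unfold ZZ
    refine Finset.prod_congr rfl fun j hj => ?_
    unfold aj
    rw [(he y r).2.1 j (Finset.ne_of_mem_erase hj)]
  have hcard : (Fintype.card ((𝓞 K ⧸ v.1.asIdeal) × (𝓞 K ⧸ v.1.asIdeal)) : ℝ) = (nm v.1 : ℝ) ^ 2 := by
    rw [Fintype.card_prod, Nat.cast_mul, Pool.Agent.H341R2.card_v, pow_two]
  -- the average over the translations of the curve `j0`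
  have h1 : ((nm v.1 : ℝ) - 1) * EM (p : ℕ) (fun r => B r ^ 2) ≤
      EM (p : ℕ) (fun r => PowerSeries.coeff i (ZZ F v Finset.univ r) ^ 2) := by
    rw [← EM_mul, EM_shift_fam (ι := J) (p : ℕ) e (fun r => PowerSeries.coeff i (ZZ F v Finset.univ r) ^ 2)]
    apply EM_mono
    intro r
    obtain ⟨s1, s2⟩ := aj_sum h p h3 v j0 r fun y => (he y r).1
    have h4 : ∀ y, PowerSeries.coeff i (ZZ F v Finset.univ (r + e y)) ^ 2 =
        A r ^ 2 + 2 * A r * B r * aj F v j0 (r + e y) + B r ^ 2 * aj F v j0 (r + e y) ^ 2 := by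
      intro y
      rw [hsplit]
      have hA' : A (r + e y) = A r := by rw [hA]; simp only [hinv y r]
      have hB' : B (r + e y) = B r := by rw [hB]; simp only [hinv y r]
      rw [hA', hB']
      ring
    rw [Finset.sum_congr rfl fun y _ => h4 y, Finset.sum_add_distrib, Finset.sum_add_distrib, ← Finset.mul_sum,
      ← Finset.mul_sum, s1, s2, Finset.sum_const, nsmul_eq_mul, Finset.card_univ, hcard]
    rw [le_div_iff₀ (by positivity)]
    have h5 : 0 ≤ (nm v.1 : ℝ) ^ 2 * A r ^ 2 := by positivity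
    nlinarith
  -- the mean of `B`
  have h2 : EM (p : ℕ) B = PowerSeries.coeff i (PowerSeries.X * Wn (nm v.1) (Fintype.card R - 1)) := by
    have h4 := avgZ h p h3 v (Finset.univ.erase j0) PowerSeries.X i (fun _ => 1) (fun _ _ _ _ => rfl)
    simp only [mul_one] at h4
    rw [EM_const, mul_one, Finset.card_erase_of_mem (Finset.mem_univ j0), Finset.card_univ] at h4
    exact h4
  obtain ⟨t, ht⟩ := hi
  have h5 : (nm v.1 : ℝ) ^ t ≤ EM (p : ℕ) B := by
    rw [h2]
    have e3 : (PowerSeries.X : PowerSeries ℝ) = PowerSeries.X ^ 1 := (pow_one _).symm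
    rw [e3, PowerSeries.coeff_X_pow_mul', if_pos (by omega)]
    have e4 : i - 1 = 2 * t := by omega
    rw [e4]
    exact Wn_even hq0.le _ t (by omega)
  -- Cauchy-Schwarz
  have h6 : (EM (p : ℕ) B) ^ 2 ≤ EM (p : ℕ) (fun r => B r ^ 2) := by
    have h7 := EM_nonneg' (ι := J) (p : ℕ) (fun r => (B r - EM (p : ℕ) B) ^ 2) fun r => sq_nonneg _
    have e5 : (fun r : J → ZMod (p : ℕ) => (B r - EM (p : ℕ) B) ^ 2) = fun r =>
        B r ^ 2 + ((-2 * EM (p : ℕ) B) * B r + (EM (p : ℕ) B) ^ 2) := by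
      funext r
      ring
    rw [e5, EM_add, EM_add, EM_mul, EM_const] at h7
    nlinarith
  refine le_trans ?_ h1
  apply mul_le_mul_of_nonneg_left _ (by linarith)
  refine le_trans ?_ h6
  have e6 : (nm v.1 : ℝ) ^ (i - 1) = ((nm v.1 : ℝ) ^ t) ^ 2 := by
    rw [← pow_mul]
    congr 1
    omega
  rw [e6]
  gcongr

end

end Pool.Agent.U309.ED
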