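import Pool.Agent.U309.ED.HC3

/-!
# Products of random hyperelliptic curves: the distribution at the edge
-/

set_option autoImplicit false
set_option linter.unusedSectionVars false
set_option linter.unusedVariables false
set_option linter.deprecated false

namespace Pool.Agent.U309.ED

open NumberField IsDedekindDomain Finset Polynomial
open Pool.Agent.H921R2.TatePole (nm two_le_nm below deg nm_eq below_le_nm fiber_card_le below_eq_of_mem)
open Pool.Agent.H341R2.EC (mk_ne)
open Pool.Agent.Y722.HS (EM red box EM_mono EM_const)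
open Pool.Agent.Y722.LS (EM_mul EM_add)
open Pool.Agent.N534.EC
open Pool.Agent.N534.AS
open Pool.Agent.N534.HC
open Pool.Agent.N534.HC.Coh (Hd Hd_eval Hd_hom cohom)
open Pool.Agent.N534.HC.Inst (hasWt_iff tH gH cmpH)
open Pool.Agent.N534.LL (liftp red_liftp)
open Pool.Agent.N534.PS (Pow p_two lamT trm)

variable {K : Type} [Field K] [NumberField K] {J : Type} [Fintype J] [DecidableEq J]
  {R : Type} [Fintype R] [DecidableEq R]

/-- the character of the `i`-th cohomology of a product of curves -/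
noncomputable def Hc (R : Type) [Fintype R] (i : ℕ) : MvPolynomial (Option (R × ℕ)) ℝ := Hd (fun _ => false) i

theorem Hc_wt (i : ℕ) : HasWt (Hc R i) i := (hasWt_iff _ _).2 (Hd_hom _ i)

/-- the power sums, without a restriction to the good classes -/
noncomputable def TU (F : R → (MvPolynomial J (𝓞 K))[X]) (i p k : ℕ) (r : J → ZMod p) : ℝ :=
  open Classical in if h : p.Prime then tp (Hc R i) F (liftp r) (mkP p h) k else 0

theorem TU_prime (F : R → (MvPolynomial J (𝓞 K))[X]) (i : ℕ) (p : Nat.Primes) (k : ℕ) (r : J → ZMod (p : ℕ)) :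
    TU F i (p : ℕ) k r = tp (Hc R i) F (liftp r) p k := by
  unfold TU
  rw [dif_pos p.2]
  rfl

theorem chv_one (F : R → (MvPolynomial J (𝓞 K))[X]) (i : ℕ) (p : Nat.Primes)
    (v : {v : HeightOneSpectrum (𝓞 K) // below v = p}) (r : J → ZMod (p : ℕ)) :
    chv (Hc R i) v.1 (fun j => rmem (F j) v.1 (liftp r)) 1 = PowerSeries.coeff i (ZZ F v Finset.univ r) := by
  unfold chv Hc
  rw [Hd_eval (fun _ => false) i _ (fun j l => (trv v.1 (rmem (F j) v.1 (liftp r)) (1 * l) : ℝ)) (fun j l => rfl)]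
  congr 1
  unfold ZZ
  refine Finset.prod_congr rfl fun j _ => ?_
  unfold cohom
  rw [if_neg (by simp)]
  have e1 : vals v.1 (fun j => rmem (F j) v.1 (liftp r)) 1 none = (nm v.1 : ℝ) := by
    change (nm v.1 : ℝ) ^ 1 = _
    rw [pow_one]
  rw [e1]
  rfl

open Classical in
theorem TU_one (F : R → (MvPolynomial J (𝓞 K))[X]) (i : ℕ) (p : Nat.Primes) (r : J → ZMod (p : ℕ)) :
    TU F i (p : ℕ) 1 r = ∑ v : {v : HeightOneSpectrum (𝓞 K) // below v = p},
      if deg v.1 = 1 then PowerSeries.coeff i (ZZ F v Finset.univ r) else 0 := by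
  rw [TU_prime]
  unfold tp
  refine Finset.sum_congr rfl fun v _ => ?_
  by_cases h : deg v.1 = 1
  · rw [h, if_pos (one_dvd 1), if_pos rfl, Nat.cast_one, one_mul, Nat.div_one, chv_one]
  · rw [if_neg (fun h2 => h (Nat.dvd_one.mp h2)), if_neg h]

/-- the Betti number -/
noncomputable def betti (d : R → ℕ) (i : ℕ) : ℝ := PowerSeries.coeff i (∏ j,
  (1 + PowerSeries.C ((d j : ℝ) - 1) * PowerSeries.X + PowerSeries.C (1 : ℝ) * PowerSeries.X ^ 2))

theorem betti_nonneg (d : R → ℕ) (hd : ∀ j, 1 ≤ d j) (i : ℕ) : 0 ≤ betti d i :=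
  (coeff_prod_le Finset.univ (fun _ => 0) (fun j => (d j : ℝ) - 1) (s := 0) (q := 0) le_rfl (by norm_num)
    (fun j _ => by simp) (fun j _ => by
      have : (1 : ℝ) ≤ d j := by exact_mod_cast hd j
      linarith) i).1

theorem betti_pos [Nonempty R] (d : R → ℕ) (hd : ∀ j, 2 ≤ d j) {i : ℕ} (hi : Odd i) (hi2 : i + 1 ≤ 2 * Fintype.card R) :
    0 < betti d i := by
  classical
  obtain ⟨j0⟩ := ‹Nonempty R›
  -- compare with `(1 + X²)^(n-1) * X`
  have hmono : ∀ (t : Finset R) (m : ℕ), PowerSeries.coeff m (Wn 1 t.card) ≤ PowerSeries.coeff m (∏ j ∈ t,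
      (1 + PowerSeries.C ((d j : ℝ) - 1) * PowerSeries.X + PowerSeries.C (1 : ℝ) * PowerSeries.X ^ 2)) := by
    intro t
    induction t using Finset.induction with
    | empty =>
      intro m
      unfold Wn
      simp
    | insert j t hj ih =>
      intro m
      rw [Finset.card_insert_of_notMem hj, Finset.prod_insert hj, cf_split, Wn_succ]
      have h1 := ih m
      have hnn : ∀ m, 0 ≤ PowerSeries.coeff m (∏ j ∈ t,
          (1 + PowerSeries.C ((d j : ℝ) - 1) * PowerSeries.X + PowerSeries.C (1 : ℝ) * PowerSeries.X ^ 2)) := fun m =>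
        (Wn_nonneg zero_le_one _ m).trans (ih m)
      have h2 : 0 ≤ ((d j : ℝ) - 1) * PowerSeries.coeff m (PowerSeries.X ^ 1 * ∏ j ∈ t,
          (1 + PowerSeries.C ((d j : ℝ) - 1) * PowerSeries.X + PowerSeries.C (1 : ℝ) * PowerSeries.X ^ 2)) := by
        have h3 : (2 : ℝ) ≤ d j := by exact_mod_cast hd j
        apply mul_nonneg (by linarith)
        rw [PowerSeries.coeff_X_pow_mul']
        split_ifs
        · exact hnn _
        · exact le_rfl
      have h4 : PowerSeries.coeff m (PowerSeries.X ^ 2 * Wn 1 t.card) ≤ PowerSeries.coeff m (PowerSeries.X ^ 2 * ∏ j ∈ t,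
          (1 + PowerSeries.C ((d j : ℝ) - 1) * PowerSeries.X + PowerSeries.C (1 : ℝ) * PowerSeries.X ^ 2)) := by
        rw [PowerSeries.coeff_X_pow_mul', PowerSeries.coeff_X_pow_mul']
        split_ifs
        · exact ih _
        · exact le_rfl
      linarith
  have hnn : ∀ m, 0 ≤ PowerSeries.coeff m (∏ j ∈ Finset.univ.erase j0,
      (1 + PowerSeries.C ((d j : ℝ) - 1) * PowerSeries.X + PowerSeries.C (1 : ℝ) * PowerSeries.X ^ 2)) := fun m =>
    (Wn_nonneg zero_le_one _ m).trans (hmono _ m)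
  unfold betti
  rw [← Finset.mul_prod_erase Finset.univ _ (Finset.mem_univ j0), cf_split]
  obtain ⟨t, ht⟩ := hi
  have h1 := hmono (Finset.univ.erase j0) (2 * t)
  have h2 := Wn_even zero_le_one (Finset.univ.erase j0).card t (by
    rw [Finset.card_erase_of_mem (Finset.mem_univ j0), Finset.card_univ]
    omega)
  rw [one_pow] at h2
  have h3 : 0 < ((d j0 : ℝ) - 1) * PowerSeries.coeff i (PowerSeries.X ^ 1 * ∏ j ∈ Finset.univ.erase j0,
      (1 + PowerSeries.C ((d j : ℝ) - 1) * PowerSeries.X + PowerSeries.C (1 : ℝ) * PowerSeries.X ^ 2)) := by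
    have h4 : (2 : ℝ) ≤ d j0 := by exact_mod_cast hd j0
    rw [PowerSeries.coeff_X_pow_mul', if_pos (by omega)]
    have e : i - 1 = 2 * t := by omega
    rw [e]
    apply mul_pos (by linarith)
    linarith
  have h4 := hnn i
  have h5 : 0 ≤ PowerSeries.coeff i (PowerSeries.X ^ 2 * ∏ j ∈ Finset.univ.erase j0,
      (1 + PowerSeries.C ((d j : ℝ) - 1) * PowerSeries.X + PowerSeries.C (1 : ℝ) * PowerSeries.X ^ 2)) := by
    rw [PowerSeries.coeff_X_pow_mul']
    split_ifs
    · exact hnn _
    · exact le_rfl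
  linarith

section
variable {F : R → (MvPolynomial J (𝓞 K))[X]} (h : ShH F)
include h

theorem aj_le (p : Nat.Primes) (h3 : 3 ≤ (p : ℕ)) (v : {v : HeightOneSpectrum (𝓞 K) // below v = p}) (j : R)
    (r : J → ZMod (p : ℕ)) : |aj F v j r| ≤ (((F j).natDegree : ℝ) - 1) * Real.sqrt (nm v.1) := by
  classical
  have hk := char_ne (two_notMem h3 v.1 v.2)
  have hcard : (Fintype.card (𝓞 K ⧸ v.1.asIdeal) : ℝ) = nm v.1 := by
    rw [Pool.Agent.H341R2.card_v]
  have h1 := trG_odd_le hk (rmem (F j) v.1 (liftp r)) (by rw [h.nd]; exact h.odd j)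
  rw [h.nd, hcard] at h1
  exact h1

theorem tau_le (p : Nat.Primes) (h3 : 3 ≤ (p : ℕ)) (v : {v : HeightOneSpectrum (𝓞 K) // below v = p}) (i : ℕ)
    (r : J → ZMod (p : ℕ)) : |PowerSeries.coeff i (ZZ F v Finset.univ r)| ≤
      betti (fun j => (F j).natDegree) i * Real.sqrt (nm v.1) ^ i := by
  unfold ZZ betti
  refine (coeff_prod_le Finset.univ (fun j => aj F v j r) (fun j => ((F j).natDegree : ℝ) - 1)
    (s := Real.sqrt (nm v.1)) (q := (nm v.1 : ℝ)) (Real.sqrt_nonneg _) ?_ ?_ ?_ i).2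
  · rw [Real.sq_sqrt (by positivity)]
  · intro j _
    exact aj_le h p h3 v j r
  · intro j _
    have : (2 : ℝ) ≤ (F j).natDegree := by exact_mod_cast h.two j
    linarith

theorem TU_le (p : Nat.Primes) (h3 : 3 ≤ (p : ℕ)) (i : ℕ) (r : J → ZMod (p : ℕ)) :
    |TU F i (p : ℕ) 1 r| ≤ dK K * betti (fun j => (F j).natDegree) i * ((p : ℕ) : ℝ) ^ ((i : ℝ) / 2) := by
  classical
  have hp0 : (0 : ℝ) < (p : ℕ) := by exact_mod_cast p.2.pos
  have hb := betti_nonneg (fun j => (F j).natDegree) (fun j => (h.two j).trans' (by norm_num)) i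
  rw [TU_one]
  refine (Finset.abs_sum_le_sum_abs _ _).trans ?_
  have h1 := sum_fib_le (K := K) p (fun v => |if deg v.1 = 1 then PowerSeries.coeff i (ZZ F v Finset.univ r) else 0|)
    (betti (fun j => (F j).natDegree) i * ((p : ℕ) : ℝ) ^ ((i : ℝ) / 2)) (by positivity) (by
    intro v
    split_ifs with hd
    · refine (tau_le h p h3 v i r).trans ?_
      have hnm : (nm v.1 : ℝ) = (p : ℕ) := by
        have := (nm_eq v.1).1
        rw [hd, pow_one, v.2] at this
        exact_mod_cast this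
      rw [hnm, Real.sqrt_eq_rpow, ← Real.rpow_natCast, ← Real.rpow_mul hp0.le]
      apply le_of_eq
      congr 2
      ring
    · rw [abs_zero]
      positivity)
  refine h1.trans (le_of_eq ?_)
  ring

theorem mean_TU (p : Nat.Primes) [Fact (p : ℕ).Prime] (h3 : 3 ≤ (p : ℕ)) {i : ℕ} (hi : Odd i) :
    EM (p : ℕ) (TU F i (p : ℕ) 1) = 0 := by
  classical
  have e1 : TU F i (p : ℕ) 1 = fun r : J → ZMod (p : ℕ) => ∑ v : {v : HeightOneSpectrum (𝓞 K) // below v = p},
      if deg v.1 = 1 then PowerSeries.coeff i (ZZ F v Finset.univ r) else 0 := by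
    funext r
    exact TU_one F i p r
  rw [e1, EM_sum']
  refine Finset.sum_eq_zero fun v _ => ?_
  by_cases hd : deg v.1 = 1
  · simp only [if_pos hd]
    exact mean_tau h p h3 v hi
  · simp only [if_neg hd]
    rw [EM_const]

theorem second_TU [Nonempty R] (p : Nat.Primes) [Fact (p : ℕ).Prime] (h3 : 3 ≤ (p : ℕ)) {i : ℕ} (hi : Odd i)
    (hi2 : i + 1 ≤ 2 * Fintype.card R) (hQ : p ∈ QK K) :
    2 / 3 * ((p : ℕ) : ℝ) ^ i ≤ EM (p : ℕ) (fun r => TU F i (p : ℕ) 1 r ^ 2) := by
  classical
  have hp0 : (0 : ℝ) < ((p : ℕ) : ℝ) := by exact_mod_cast p.2.pos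
  have hp3 : (3 : ℝ) ≤ ((p : ℕ) : ℝ) := by exact_mod_cast h3
  have e1 : (fun r => TU F i (p : ℕ) 1 r ^ 2) = fun r : J → ZMod (p : ℕ) =>
      (∑ v : {v : HeightOneSpectrum (𝓞 K) // below v = p},
        (if deg v.1 = 1 then PowerSeries.coeff i (ZZ F v Finset.univ r) else 0)) ^ 2 := by
    funext r
    rw [TU_one]
  rw [e1, EM_orth (p : ℕ) (fun (v : {v : HeightOneSpectrum (𝓞 K) // below v = p}) (r : J → ZMod (p : ℕ)) =>
    if deg v.1 = 1 then PowerSeries.coeff i (ZZ F v Finset.univ r) else 0)]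
  · obtain ⟨v0, hv0, hd0⟩ := hQ
    have hnn : ∀ v : {v : HeightOneSpectrum (𝓞 K) // below v = p},
        0 ≤ EM (p : ℕ) (fun r : J → ZMod (p : ℕ) =>
          (if deg v.1 = 1 then PowerSeries.coeff i (ZZ F v Finset.univ r) else 0) ^ 2) := fun v =>
      EM_nonneg' (p : ℕ) _ fun r => sq_nonneg _
    refine le_trans ?_ (Finset.single_le_sum (s := Finset.univ)
      (f := fun v : {v : HeightOneSpectrum (𝓞 K) // below v = p} =>
        EM (p : ℕ) (fun r : J → ZMod (p : ℕ) =>
          (if deg v.1 = 1 then PowerSeries.coeff i (ZZ F v Finset.univ r) else 0) ^ 2))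
      (fun v _ => hnn v) (Finset.mem_univ ⟨v0, hv0⟩))
    simp only [if_pos hd0]
    refine le_trans ?_ (diag_tau h p h3 ⟨v0, hv0⟩ hi hi2)
    have hnm : (nm v0 : ℝ) = (p : ℕ) := by
      have := (nm_eq v0).1
      rw [hd0, pow_one, hv0] at this
      exact_mod_cast this
    rw [hnm]
    obtain ⟨t, ht⟩ := hi
    have e6 : ((p : ℕ) : ℝ) ^ i = (p : ℕ) * ((p : ℕ) : ℝ) ^ (i - 1) := by
      rw [← pow_succ']
      congr 1
      omega
    rw [e6]
    have h6 : 0 < ((p : ℕ) : ℝ) ^ (i - 1) := by positivity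
    nlinarith
  · intro v v' hv
    by_cases h1 : deg v.1 = 1 ∧ deg v'.1 = 1
    · simp only [if_pos h1.1, if_pos h1.2]
      exact cross_tau h p h3 v v' hv.symm hi
    · have e2 : (fun r : J → ZMod (p : ℕ) => (if deg v.1 = 1 then PowerSeries.coeff i (ZZ F v Finset.univ r) else 0) *
          (if deg v'.1 = 1 then PowerSeries.coeff i (ZZ F v' Finset.univ r) else 0)) = fun _ => 0 := by
        funext r
        by_cases h2 : deg v.1 = 1
        · rw [if_neg (fun h3 => h1 ⟨h2, h3⟩), mul_zero]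
        · rw [if_neg h2, zero_mul]
      rw [e2, EM_const]

/-- the family contains nonsingular members -/
theorem ShH.adm (j : R) : Adm (F j) where
  pos := (h.two j).trans' (by norm_num)
  ex := by
    classical
    set L := AlgebraicClosure K with hL
    set f0 : K[X] := (mem (F j) 0).map (algebraMap (𝓞 K) K) with hf0
    have hm0 : (mem (F j) 0).Monic := (h.monic j).map _
    have hmf : f0.Monic := hm0.map _
    have hdeg : f0.natDegree = (F j).natDegree := by
      rw [hf0, hm0.natDegree_map]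
      unfold mem
      rw [(h.monic j).natDegree_map]
    have h2 := h.two j
    have hder : derivative f0 ≠ 0 := by
      intro h0
      have h1 : f0.natDegree = 0 := natDegree_eq_zero_of_derivative_eq_zero h0
      omega
    -- the values of `f0` at the roots of the derivative
    set S : Finset L := ((derivative f0).aroots L).toFinset.image (fun a => -(aeval a f0)) with hS
    obtain ⟨n, hn⟩ : ∃ n : ℕ, (n : L) ∉ S := by
      have hinf : (Set.range (fun n : ℕ => (n : L))).Infinite := Set.infinite_range_of_injective Nat.cast_injective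
      obtain ⟨x, ⟨n, rfl⟩, hx⟩ := hinf.exists_notMem_finset S
      exact ⟨n, hx⟩
    obtain ⟨e, he⟩ := h.sh j 0 ((n : ℕ) : 𝓞 K)
    have h4 := (he 0).1
    rw [zero_add, C_0, zero_mul, add_zero] at h4
    refine ⟨e, ?_, ?_⟩
    · unfold mem
      rw [(h.monic j).natDegree_map]
    · rw [h4, Polynomial.map_add, map_C, ← hf0]
      have e1 : C (algebraMap (𝓞 K) K ((n : ℕ) : 𝓞 K)) = C ((n : ℕ) : K) := by rw [map_natCast]
      rw [e1]
      rw [Polynomial.Separable, derivative_add, derivative_C, add_zero,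
        Polynomial.isCoprime_iff_aeval_ne_zero_of_isAlgClosed K L]
      intro a
      by_cases ha : aeval a (derivative f0) = 0
      · left
        intro h5
        apply hn
        rw [hS, Finset.mem_image]
        refine ⟨a, ?_, ?_⟩
        · rw [Multiset.mem_toFinset, mem_aroots]
          exact ⟨hder, ha⟩
        · rw [map_add, aeval_C, map_natCast] at h5
          linear_combination -h5
      · right
        exact ha

/-- the power sums -/
theorem powU [Nonempty R] {i : ℕ} (hi : Odd i) : ∃ D : ℝ, Pow D i 3 (TU F i) (BH F) := by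
  classical
  obtain ⟨D0, hD0, hbad⟩ := bad_all F h.adm
  have hC := CΦ_nonneg (fun i => (F i).natDegree) (Hc R i)
  have hdK := one_le_dK (K := K)
  have hb := betti_nonneg (fun j => (F j).natDegree) (fun j => (h.two j).trans' (by norm_num)) i
  set D := D0 + dK K * CΦ (fun i => (F i).natDegree) (Hc R i) + dK K * betti (fun j => (F j).natDegree) i with hD
  have hD1 : 0 ≤ dK K * CΦ (fun i => (F i).natDegree) (Hc R i) := by positivity
  have hD2 : 0 ≤ dK K * betti (fun j => (F j).natDegree) i := by positivity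
  refine ⟨D, ?_, ?_, ?_, ?_, ?_⟩
  · rw [hD]; linarith
  · intro p hp _ k hk r hb
    have e1 : TU F i p k r = tp (Hc R i) F (liftp r) (mkP p hp.out) k := TU_prime F i (mkP p hp.out) k r
    rw [e1]
    have hg : ∀ (v : {v : HeightOneSpectrum (𝓞 K) // below v = mkP p hp.out}) (i : R),
        Gdv v.1 (rmem (F i) v.1 (liftp r)) (F i).natDegree := by
      intro v i
      by_contra hn
      exact hb ⟨i, v.1, p_mem (mkP p hp.out) v.1 v.2, hn⟩
    refine (tp_le (Hc R i) (Hc_wt i) F h.adm (liftp r) (mkP p hp.out) hg k hk).trans ?_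
    have e2 : ((mkP p hp.out : Nat.Primes) : ℕ) = p := rfl
    rw [e2]
    gcongr
    rw [hD]
    linarith
  · intro p hp h3 r
    have h1 := TU_le h (mkP p hp.out) h3 i r
    refine h1.trans ?_
    have e2 : ((mkP p hp.out : Nat.Primes) : ℕ) = p := rfl
    rw [e2]
    gcongr
    rw [hD]
    linarith
  · intro p hp h3
    have hfp : Fact ((mkP p hp.out : Nat.Primes) : ℕ).Prime := hp
    have h1 : EM p (TU F i p 1) = 0 := mean_TU h (mkP p hp.out) h3 hi
    rw [h1, abs_zero]
    positivity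
  · intro p hp _
    have hfp : Fact ((mkP p hp.out : Nat.Primes) : ℕ).Prime := hp
    have h1 : EM p (fun r : J → ZMod p => if BH F p r then (1 : ℝ) else 0) ≤ D0 / p := hbad (mkP p hp.out)
    refine h1.trans ?_
    gcongr
    rw [hD]
    linarith

end

/-- the comparison of the local factors -/
theorem cmpU [Nonempty R] (i : ℕ) (F : R → (MvPolynomial J (𝓞 K))[X]) :
    Pool.Agent.N534.HC.St.Cmp i 3 (TU F i) (BH F) (tH (Hc R i) F) (gH F) where
  bad := (cmpH i (Hc R i) F).bad
  val := by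
    intro p c k h1 hb h2
    have e1 := (cmpH i (Hc R i) F).val p c k h1 hb h2
    rw [← e1, TU_prime, TH_prime, if_neg hb]
  small := (cmpH i (Hc R i) F).small

/-- **The distribution at the edge for products of hyperelliptic curves.** -/
theorem prod_edge [Nonempty R] {F : R → (MvPolynomial J (𝓞 K))[X]} (h : ShH F) {i : ℕ} (hi : Odd i)
    (hi2 : i + 1 ≤ 2 * Fintype.card R) {X : (J → ℤ) → ℂ → ℂ} (hX : ∀ (c : J → ℤ) (s : ℂ), 1 + (i : ℝ) / 2 < s.re →
      X c s = Complex.exp (Pool.Agent.N534.HC.St.logL (tH (Hc R i) F c) (gH F c) s)) :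
    EdgeLaw i (dK K * betti (fun j => (F j).natDegree) i) X := by
  classical
  obtain ⟨D, hD⟩ := powU h hi
  obtain ⟨M, hM, hd⟩ := dens K
  have hdK := one_le_dK (K := K)
  have hb := betti_pos (fun j => (F j).natDegree) h.two hi hi2
  refine powEdge' hD (b := dK K * betti (fun j => (F j).natDegree) i) (by positivity) ?_
    (c := 2 / 3) (by norm_num) (Q := QK K) 3 ?_ ?_ (η := 1 / dK K) (by positivity) hM hd ?_
  · intro p h3 r
    exact TU_le h p h3 i r
  · intro p hp h3
    have : Fact (p : ℕ).Prime := ⟨p.2⟩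
    exact second_TU h p h3 hi hi2 hp
  · intro p hp _ r
    rw [TU_one]
    refine Finset.sum_eq_zero fun v _ => ?_
    rw [if_neg]
    intro hd1
    exact hp ⟨v.1, v.2, hd1⟩
  · intro c s hs
    rw [hX c s hs, Pool.Agent.N534.HC.St.logL_eq (cmpU i F)]

end Pool.Agent.U309.ED
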