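import Pool.Agent.U309.ED.HC4

/-!
# Products of random hyperelliptic curves: cohomology of even degree
-/

set_option autoImplicit false
set_option linter.unusedSectionVars false
set_option linter.unusedVariables false
set_option linter.deprecated false

namespace Pool.Agent.U309.ED

open NumberField IsDedekindDomain Finset Polynomial
open Pool.Agent.H921R2.TatePole (nm two_le_nm below deg nm_eq below_le_nm fiber_card_le below_eq_of_mem)
open Pool.Agent.H341R2.EC (mk_ne)
open Pool.Agent.Y722.HS (EM red box EM_mono EM_const)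
open Pool.Agent.Y722.LS (EM_mul EM_add)
open Pool.Agent.N534.EC
open Pool.Agent.N534.AS
open Pool.Agent.N534.HC
open Pool.Agent.N534.HC.Coh (Hd Hd_eval Hd_hom cohom)
open Pool.Agent.N534.HC.Inst (hasWt_iff tH gH cmpH)
open Pool.Agent.N534.LL (liftp red_liftp)
open Pool.Agent.N534.PS (Pow p_two lamT trm trm_le geo_le x_half x_le)

/-! ### Binomial coefficients -/

theorem Wn_choose (q : ℝ) (n : ℕ) : ∀ t : ℕ, PowerSeries.coeff (2 * t) (Wn q n) = (n.choose t : ℝ) * q ^ t := by
  induction n with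
  | zero =>
    intro t
    unfold Wn
    rw [pow_zero, PowerSeries.coeff_one]
    rcases t with _ | t
    · simp
    · rw [if_neg (by omega), Nat.choose_zero_succ]
      simp
  | succ n ih =>
    intro t
    rw [Wn_succ, PowerSeries.coeff_X_pow_mul', ih t]
    rcases t with _ | t
    · simp
    · rw [if_pos (by omega)]
      have e : 2 * (t + 1) - 2 = 2 * t := by omega
      rw [e, ih t, Nat.choose_succ_succ]
      push_cast
      ring

/-- the comparison of the coefficients of the differences -/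
theorem coeff_diff_le {R : Type} (t : Finset R) (a b : R → ℝ) {s q : ℝ} (hs : 0 ≤ s) (hq : q = s ^ 2)
    (hab : ∀ j ∈ t, |a j| ≤ b j * s) (hb : ∀ j ∈ t, 0 ≤ b j) : ∀ m : ℕ,
    0 ≤ PowerSeries.coeff m (∏ j ∈ t, (1 + PowerSeries.C (b j) * PowerSeries.X + PowerSeries.C (1 : ℝ) * PowerSeries.X ^ 2)) -
      PowerSeries.coeff m (Wn 1 t.card) ∧
    |PowerSeries.coeff m (∏ j ∈ t, (1 + PowerSeries.C (a j) * PowerSeries.X + PowerSeries.C q * PowerSeries.X ^ 2)) -
      PowerSeries.coeff m (Wn q t.card)| ≤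
      (PowerSeries.coeff m (∏ j ∈ t, (1 + PowerSeries.C (b j) * PowerSeries.X + PowerSeries.C (1 : ℝ) * PowerSeries.X ^ 2)) -
        PowerSeries.coeff m (Wn 1 t.card)) * s ^ m := by
  classical
  induction t using Finset.induction with
  | empty =>
    intro m
    rw [Finset.prod_empty, Finset.prod_empty, Finset.card_empty]
    unfold Wn
    simp
  | insert j0 t hj0 ih =>
    have ih' := ih (fun j hj => hab j (Finset.mem_insert_of_mem hj)) (fun j hj => hb j (Finset.mem_insert_of_mem hj))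
    have hcp := coeff_prod_le t a b hs hq (fun j hj => hab j (Finset.mem_insert_of_mem hj))
      (fun j hj => hb j (Finset.mem_insert_of_mem hj))
    have ha0 := hab j0 (Finset.mem_insert_self _ _)
    have hb0 := hb j0 (Finset.mem_insert_self _ _)
    intro m
    rw [Finset.prod_insert hj0, Finset.prod_insert hj0, Finset.card_insert_of_notMem hj0, cf_split, cf_split, Wn_succ, Wn_succ]
    set Z := ∏ j ∈ t, (1 + PowerSeries.C (a j) * PowerSeries.X + PowerSeries.C q * PowerSeries.X ^ 2) with hZ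
    set W := ∏ j ∈ t, (1 + PowerSeries.C (b j) * PowerSeries.X + PowerSeries.C (1 : ℝ) * PowerSeries.X ^ 2) with hW
    have h0 := ih' m
    have h1 : 0 ≤ PowerSeries.coeff m (PowerSeries.X ^ 1 * W) ∧
        |a j0 * PowerSeries.coeff m (PowerSeries.X ^ 1 * Z)| ≤ b j0 * PowerSeries.coeff m (PowerSeries.X ^ 1 * W) * s ^ m := by
      rw [PowerSeries.coeff_X_pow_mul', PowerSeries.coeff_X_pow_mul']
      split_ifs with hm
      · obtain ⟨h2, h3⟩ := hcp (m - 1)
        refine ⟨h2, ?_⟩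
        rw [abs_mul]
        have e : s ^ m = s * s ^ (m - 1) := by
          rw [← pow_succ']
          congr 1
          omega
        rw [e]
        have h4 : 0 ≤ b j0 * s := by positivity
        calc |a j0| * |PowerSeries.coeff (m - 1) Z| ≤ (b j0 * s) * (PowerSeries.coeff (m - 1) W * s ^ (m - 1)) :=
              mul_le_mul ha0 h3 (abs_nonneg _) h4
          _ = _ := by ring
      · simp
    have h2 : 0 ≤ PowerSeries.coeff m (PowerSeries.X ^ 2 * W) - PowerSeries.coeff m (PowerSeries.X ^ 2 * Wn 1 t.card) ∧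
        |q * (PowerSeries.coeff m (PowerSeries.X ^ 2 * Z) - PowerSeries.coeff m (PowerSeries.X ^ 2 * Wn q t.card))| ≤
          (PowerSeries.coeff m (PowerSeries.X ^ 2 * W) - PowerSeries.coeff m (PowerSeries.X ^ 2 * Wn 1 t.card)) * s ^ m := by
      rw [PowerSeries.coeff_X_pow_mul', PowerSeries.coeff_X_pow_mul', PowerSeries.coeff_X_pow_mul',
        PowerSeries.coeff_X_pow_mul']
      split_ifs with hm
      · obtain ⟨h2, h3⟩ := ih' (m - 2)
        refine ⟨h2, ?_⟩
        have hq0 : 0 ≤ q := by rw [hq]; positivity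
        rw [abs_mul, abs_of_nonneg hq0]
        have e : s ^ m = s ^ 2 * s ^ (m - 2) := by
          rw [← pow_add]
          congr 1
          omega
        rw [e, hq]
        rw [hq] at h3
        have := mul_le_mul_of_nonneg_left h3 (by positivity : (0 : ℝ) ≤ s ^ 2)
        linarith
      · simp
    refine ⟨?_, ?_⟩
    · have := mul_nonneg hb0 h1.1
      linarith [h0.1, h2.1]
    · have e1 : PowerSeries.coeff m Z + a j0 * PowerSeries.coeff m (PowerSeries.X ^ 1 * Z) +
          q * PowerSeries.coeff m (PowerSeries.X ^ 2 * Z) -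
          (PowerSeries.coeff m (Wn q t.card) + q * PowerSeries.coeff m (PowerSeries.X ^ 2 * Wn q t.card)) =
          (PowerSeries.coeff m Z - PowerSeries.coeff m (Wn q t.card)) + a j0 * PowerSeries.coeff m (PowerSeries.X ^ 1 * Z) +
          q * (PowerSeries.coeff m (PowerSeries.X ^ 2 * Z) - PowerSeries.coeff m (PowerSeries.X ^ 2 * Wn q t.card)) := by ring
      rw [e1]
      have h3 := abs_add_le ((PowerSeries.coeff m Z - PowerSeries.coeff m (Wn q t.card)) +
        a j0 * PowerSeries.coeff m (PowerSeries.X ^ 1 * Z))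
        (q * (PowerSeries.coeff m (PowerSeries.X ^ 2 * Z) - PowerSeries.coeff m (PowerSeries.X ^ 2 * Wn q t.card)))
      have h4 := abs_add_le (PowerSeries.coeff m Z - PowerSeries.coeff m (Wn q t.card))
        (a j0 * PowerSeries.coeff m (PowerSeries.X ^ 1 * Z))
      have h5 := h0.2
      have h6 := h1.2
      have h7 := h2.2
      nlinarith

variable {K : Type} [Field K] [NumberField K] {J : Type} [Fintype J] [DecidableEq J]
  {R : Type} [Fintype R] [DecidableEq R]

/-- the character of the nontrivial part of the cohomology of degree `2 a` of a product of curves -/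
noncomputable def He (R : Type) [Fintype R] (a : ℕ) : MvPolynomial (Option (R × ℕ)) ℝ :=
  Hc R (2 * a) - MvPolynomial.C ((Fintype.card R).choose a : ℝ) * MvPolynomial.X none ^ a

theorem He_wt (a : ℕ) : HasWt (He R a) (2 * a) := by
  rw [hasWt_iff]
  have h1 := (hasWt_iff (Hc R (2 * a)) (2 * a)).1 (Hc_wt (2 * a))
  have h2 : MvPolynomial.IsWeightedHomogeneous (wgt (R := R))
      (MvPolynomial.C ((Fintype.card R).choose a : ℝ) * MvPolynomial.X none ^ a) (2 * a) := by
    refine MvPolynomial.IsWeightedHomogeneous.C_mul ?_ _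
    have h3 := (MvPolynomial.isWeightedHomogeneous_X ℝ (wgt (R := R)) none).pow a
    have e : a • wgt (R := R) none = 2 * a := by
      change a • 2 = 2 * a
      rw [smul_eq_mul, mul_comm]
    rwa [e] at h3
  unfold He
  exact (MvPolynomial.weightedHomogeneousSubmodule ℝ (wgt (R := R)) (2 * a)).sub_mem h1 h2

theorem chv_He (a : ℕ) (v : HeightOneSpectrum (𝓞 K)) (g : R → (𝓞 K ⧸ v.asIdeal)[X]) (k : ℕ) :
    chv (He R a) v g k = chv (Hc R (2 * a)) v g k - ((Fintype.card R).choose a : ℝ) * ((nm v : ℝ) ^ k) ^ a := by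
  unfold chv He
  rw [map_sub, map_mul, map_pow, MvPolynomial.eval_C, MvPolynomial.eval_X]
  rfl

/-- the power sums, without a restriction to the good classes -/
noncomputable def TE (F : R → (MvPolynomial J (𝓞 K))[X]) (a p k : ℕ) (r : J → ZMod p) : ℝ :=
  open Classical in if h : p.Prime then tp (He R a) F (liftp r) (mkP p h) k else 0

theorem TE_prime (F : R → (MvPolynomial J (𝓞 K))[X]) (a : ℕ) (p : Nat.Primes) (k : ℕ) (r : J → ZMod (p : ℕ)) :
    TE F a (p : ℕ) k r = tp (He R a) F (liftp r) p k := by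
  unfold TE
  rw [dif_pos p.2]
  rfl

/-- the trace on the nontrivial part -/
noncomputable def tau (F : R → (MvPolynomial J (𝓞 K))[X]) (a : ℕ) {p : Nat.Primes}
    (v : {v : HeightOneSpectrum (𝓞 K) // below v = p}) (r : J → ZMod (p : ℕ)) : ℝ :=
  PowerSeries.coeff (2 * a) (ZZ F v Finset.univ r) - PowerSeries.coeff (2 * a) (Wn (nm v.1 : ℝ) (Fintype.card R))

open Classical in
theorem TE_one (F : R → (MvPolynomial J (𝓞 K))[X]) (a : ℕ) (p : Nat.Primes) (r : J → ZMod (p : ℕ)) :
    TE F a (p : ℕ) 1 r = ∑ v : {v : HeightOneSpectrum (𝓞 K) // below v = p}, if deg v.1 = 1 then tau F a v r else 0 := by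
  rw [TE_prime]
  unfold tp
  refine Finset.sum_congr rfl fun v _ => ?_
  by_cases h : deg v.1 = 1
  · rw [h, if_pos (one_dvd 1), if_pos rfl, Nat.cast_one, one_mul, Nat.div_one, chv_He, chv_one]
    unfold tau
    rw [Wn_choose, pow_one]
  · rw [if_neg (fun h2 => h (Nat.dvd_one.mp h2)), if_neg h]

section
variable {F : R → (MvPolynomial J (𝓞 K))[X]} (h : ShH F)
include h

/-- the rank of the nontrivial part -/
theorem rk_nonneg (a : ℕ) : 0 ≤ betti (fun j => (F j).natDegree) (2 * a) - ((Fintype.card R).choose a : ℝ) := by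
  have h1 := (coeff_diff_le Finset.univ (fun _ => 0) (fun j => ((F j).natDegree : ℝ) - 1) (s := 0) (q := 0) le_rfl (by norm_num)
    (fun j _ => by simp) (fun j _ => by
      have : (2 : ℝ) ≤ (F j).natDegree := by exact_mod_cast h.two j
      linarith) (2 * a)).1
  rw [Wn_choose, one_pow, mul_one, Finset.card_univ] at h1
  exact h1

theorem tauE_le (p : Nat.Primes) (h3 : 3 ≤ (p : ℕ)) (v : {v : HeightOneSpectrum (𝓞 K) // below v = p}) (a : ℕ)
    (r : J → ZMod (p : ℕ)) : |tau F a v r| ≤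
      (betti (fun j => (F j).natDegree) (2 * a) - ((Fintype.card R).choose a : ℝ)) * Real.sqrt (nm v.1) ^ (2 * a) := by
  have h1 := (coeff_diff_le Finset.univ (fun j => aj F v j r) (fun j => ((F j).natDegree : ℝ) - 1)
    (s := Real.sqrt (nm v.1)) (q := (nm v.1 : ℝ)) (Real.sqrt_nonneg _) (by rw [Real.sq_sqrt (by positivity)])
    (fun j _ => aj_le h p h3 v j r) (fun j _ => by
      have : (2 : ℝ) ≤ (F j).natDegree := by exact_mod_cast h.two j
      linarith) (2 * a)).2
  rw [Wn_choose 1, one_pow, mul_one, Finset.card_univ] at h1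
  exact h1

theorem TE_le (p : Nat.Primes) (h3 : 3 ≤ (p : ℕ)) (a : ℕ) (r : J → ZMod (p : ℕ)) :
    |TE F a (p : ℕ) 1 r| ≤ dK K * (betti (fun j => (F j).natDegree) (2 * a) - ((Fintype.card R).choose a : ℝ)) *
      ((p : ℕ) : ℝ) ^ (((2 * a : ℕ) : ℝ) / 2) := by
  classical
  have hp0 : (0 : ℝ) < (p : ℕ) := by exact_mod_cast p.2.pos
  have hb := rk_nonneg h a
  rw [TE_one]
  refine (Finset.abs_sum_le_sum_abs _ _).trans ?_
  have h1 := sum_fib_le (K := K) p (fun v => |if deg v.1 = 1 then tau F a v r else 0|)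
    ((betti (fun j => (F j).natDegree) (2 * a) - ((Fintype.card R).choose a : ℝ)) *
      ((p : ℕ) : ℝ) ^ (((2 * a : ℕ) : ℝ) / 2)) (by positivity) (by
    intro v
    split_ifs with hd
    · refine (tauE_le h p h3 v a r).trans ?_
      have hnm : (nm v.1 : ℝ) = (p : ℕ) := by
        have := (nm_eq v.1).1
        rw [hd, pow_one, v.2] at this
        exact_mod_cast this
      rw [hnm, Real.sqrt_eq_rpow, ← Real.rpow_natCast, ← Real.rpow_mul hp0.le]
      apply le_of_eq
      congr 2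
      ring
    · rw [abs_zero]
      positivity)
  refine h1.trans (le_of_eq ?_)
  ring

theorem mean_tauE (p : Nat.Primes) [Fact (p : ℕ).Prime] (h3 : 3 ≤ (p : ℕ))
    (v : {v : HeightOneSpectrum (𝓞 K) // below v = p}) (a : ℕ) : EM (p : ℕ) (fun r => tau F a v r) = 0 := by
  have h1 := avgZ h p h3 v Finset.univ 1 (2 * a) (fun _ => 1) (fun _ _ _ _ => rfl)
  simp only [one_mul, mul_one] at h1
  rw [EM_const, mul_one, Finset.card_univ] at h1
  have e1 : (fun r => tau F a v r) = fun r : J → ZMod (p : ℕ) => PowerSeries.coeff (2 * a) (ZZ F v Finset.univ r) +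
      (-1) * PowerSeries.coeff (2 * a) (Wn (nm v.1 : ℝ) (Fintype.card R)) := by
    funext r
    unfold tau
    ring
  rw [e1, EM_add, h1, EM_const]
  ring

theorem mean_TE (p : Nat.Primes) [Fact (p : ℕ).Prime] (h3 : 3 ≤ (p : ℕ)) (a : ℕ) :
    EM (p : ℕ) (TE F a (p : ℕ) 1) = 0 := by
  classical
  have e1 : TE F a (p : ℕ) 1 = fun r : J → ZMod (p : ℕ) => ∑ v : {v : HeightOneSpectrum (𝓞 K) // below v = p},
      if deg v.1 = 1 then tau F a v r else 0 := by
    funext r
    exact TE_one F a p r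
  rw [e1, EM_sum']
  refine Finset.sum_eq_zero fun v _ => ?_
  by_cases hd : deg v.1 = 1
  · simp only [if_pos hd]
    exact mean_tauE h p h3 v a
  · simp only [if_neg hd]
    rw [EM_const]

theorem cross_tauE (p : Nat.Primes) [Fact (p : ℕ).Prime] (h3 : 3 ≤ (p : ℕ))
    (v v' : {v : HeightOneSpectrum (𝓞 K) // below v = p}) (hv : v' ≠ v) (a : ℕ) :
    EM (p : ℕ) (fun r => tau F a v r * tau F a v' r) = 0 := by
  have h1 := avgZ h p h3 v Finset.univ 1 (2 * a) (fun r => tau F a v' r) (by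
    intro r r' _ h2
    have h4 : ZZ F v' Finset.univ r' = ZZ F v' Finset.univ r := by
      unfold ZZ
      refine Finset.prod_congr rfl fun j _ => ?_
      unfold aj
      rw [h2 v' hv j]
    unfold tau
    rw [h4])
  simp only [one_mul] at h1
  rw [mean_tauE h p h3 v' a, mul_zero] at h1
  have e1 : (fun r => tau F a v r * tau F a v' r) = fun r : J → ZMod (p : ℕ) =>
      PowerSeries.coeff (2 * a) (ZZ F v Finset.univ r) * tau F a v' r +
        (-PowerSeries.coeff (2 * a) (Wn (nm v.1 : ℝ) (Fintype.card R))) * tau F a v' r := by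
    funext r
    unfold tau
    ring
  rw [e1, EM_add, h1, EM_mul, mean_tauE h p h3 v' a]
  ring

/-- **The reduction of the second moment to a smaller product.** -/
theorem diag_step (p : Nat.Primes) [Fact (p : ℕ).Prime] (h3 : 3 ≤ (p : ℕ))
    (v : {v : HeightOneSpectrum (𝓞 K) // below v = p}) (t : Finset R) (j0 : R) (hj0 : j0 ∉ t) (W : PowerSeries ℝ) (m : ℕ) (κ : ℝ) :
    ((nm v.1 : ℝ) - 1) * EM (p : ℕ) (fun r => PowerSeries.coeff m ((W * PowerSeries.X) * ZZ F v t r) ^ 2) ≤
      EM (p : ℕ) (fun r => (PowerSeries.coeff m (W * ZZ F v (insert j0 t) r) - κ) ^ 2) := by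
  classical
  obtain ⟨e, he⟩ := h.shift j0 p v
  have hq : (2 : ℝ) ≤ nm v.1 := by exact_mod_cast two_le_nm v.1
  set B : (J → ZMod (p : ℕ)) → ℝ := fun r => PowerSeries.coeff m ((W * PowerSeries.X) * ZZ F v t r) with hB
  set A : (J → ZMod (p : ℕ)) → ℝ := fun r => PowerSeries.coeff m
    ((W * (1 + PowerSeries.C (nm v.1 : ℝ) * PowerSeries.X ^ 2)) * ZZ F v t r) - κ with hA
  have hsplit : ∀ r, PowerSeries.coeff m (W * ZZ F v (insert j0 t) r) - κ = A r + aj F v j0 r * B r := by
    intro r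
    have e2 : W * ZZ F v (insert j0 t) r = (W * (1 + PowerSeries.C (nm v.1 : ℝ) * PowerSeries.X ^ 2)) * ZZ F v t r +
        PowerSeries.C (aj F v j0 r) * ((W * PowerSeries.X) * ZZ F v t r) := by
      unfold ZZ
      rw [Finset.prod_insert hj0]
      ring
    rw [e2, map_add, PowerSeries.coeff_C_mul]
    simp only [hA, hB]
    ring
  have hinv : ∀ y r, ZZ F v t (r + e y) = ZZ F v t r := by
    intro y r
    unfold ZZ
    refine Finset.prod_congr rfl fun j hj => ?_
    unfold aj
    rw [(he y r).2.1 j (fun h => hj0 (h ▸ hj))]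
  have hcard : (Fintype.card ((𝓞 K ⧸ v.1.asIdeal) × (𝓞 K ⧸ v.1.asIdeal)) : ℝ) = (nm v.1 : ℝ) ^ 2 := by
    rw [Fintype.card_prod, Nat.cast_mul, Pool.Agent.H341R2.card_v, pow_two]
  rw [← EM_mul, EM_shift_fam (ι := J) (p : ℕ) e (fun r => (PowerSeries.coeff m (W * ZZ F v (insert j0 t) r) - κ) ^ 2)]
  apply EM_mono
  intro r
  obtain ⟨s1, s2⟩ := aj_sum h p h3 v j0 r fun y => (he y r).1
  have h4 : ∀ y, (PowerSeries.coeff m (W * ZZ F v (insert j0 t) (r + e y)) - κ) ^ 2 =
      A r ^ 2 + 2 * A r * B r * aj F v j0 (r + e y) + B r ^ 2 * aj F v j0 (r + e y) ^ 2 := by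
    intro y
    rw [hsplit]
    have hA' : A (r + e y) = A r := by simp only [hA, hinv y r]
    have hB' : B (r + e y) = B r := by simp only [hB, hinv y r]
    rw [hA', hB']
    ring
  rw [Finset.sum_congr rfl fun y _ => h4 y, Finset.sum_add_distrib, Finset.sum_add_distrib, ← Finset.mul_sum,
    ← Finset.mul_sum, s1, s2, Finset.sum_const, nsmul_eq_mul, Finset.card_univ, hcard]
  rw [le_div_iff₀ (by positivity)]
  have h5 : 0 ≤ (nm v.1 : ℝ) ^ 2 * A r ^ 2 := by positivity
  nlinarith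

/-- **The second moment at one place.** -/
theorem diag_tauE (p : Nat.Primes) [Fact (p : ℕ).Prime] (h3 : 3 ≤ (p : ℕ))
    (v : {v : HeightOneSpectrum (𝓞 K) // below v = p}) {a : ℕ} (ha : 1 ≤ a) (ha2 : a + 1 ≤ Fintype.card R) :
    ((nm v.1 : ℝ) - 1) ^ 2 * (nm v.1 : ℝ) ^ (2 * a - 2) ≤ EM (p : ℕ) (fun r => tau F a v r ^ 2) := by
  classical
  have hq : (2 : ℝ) ≤ nm v.1 := by exact_mod_cast two_le_nm v.1
  have hq0 : (0 : ℝ) < nm v.1 := by linarith
  have hcard2 : 1 < Fintype.card R := by omega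
  obtain ⟨j0, j1, hj⟩ := Fintype.one_lt_card_iff.mp hcard2
  set t : Finset R := (Finset.univ.erase j0).erase j1 with ht
  have hj1t : j1 ∉ t := Finset.notMem_erase _ _
  have hj1 : j1 ∈ Finset.univ.erase j0 := Finset.mem_erase.mpr ⟨hj.symm, Finset.mem_univ _⟩
  have ht1 : insert j1 t = Finset.univ.erase j0 := Finset.insert_erase hj1
  have ht2 : insert j0 (Finset.univ.erase j0) = (Finset.univ : Finset R) := Finset.insert_erase (Finset.mem_univ j0)
  have htc : t.card = Fintype.card R - 2 := by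
    rw [ht, Finset.card_erase_of_mem hj1, Finset.card_erase_of_mem (Finset.mem_univ j0), Finset.card_univ]
    omega
  have h1 := diag_step h p h3 v (Finset.univ.erase j0) j0 (Finset.notMem_erase _ _) 1 (2 * a)
    (PowerSeries.coeff (2 * a) (Wn (nm v.1 : ℝ) (Fintype.card R)))
  rw [ht2] at h1
  simp only [one_mul] at h1
  have h2 := diag_step h p h3 v t j1 hj1t PowerSeries.X (2 * a) 0
  rw [ht1] at h2
  simp only [sub_zero] at h2
  -- the mean of the last coefficient
  set B : (J → ZMod (p : ℕ)) → ℝ := fun r => PowerSeries.coeff (2 * a) ((PowerSeries.X * PowerSeries.X) * ZZ F v t r) with hB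
  have h4 : EM (p : ℕ) B = PowerSeries.coeff (2 * a) ((PowerSeries.X * PowerSeries.X) * Wn (nm v.1 : ℝ) t.card) := by
    have h5 := avgZ h p h3 v t (PowerSeries.X * PowerSeries.X) (2 * a) (fun _ => 1) (fun _ _ _ _ => rfl)
    simp only [mul_one] at h5
    rw [EM_const, mul_one] at h5
    exact h5
  have h5 : (nm v.1 : ℝ) ^ (a - 1) ≤ EM (p : ℕ) B := by
    rw [h4]
    have e3 : (PowerSeries.X * PowerSeries.X : PowerSeries ℝ) = PowerSeries.X ^ 2 := (pow_two _).symm
    rw [e3, PowerSeries.coeff_X_pow_mul', if_pos (by omega)]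
    have e4 : 2 * a - 2 = 2 * (a - 1) := by omega
    rw [e4]
    exact Wn_even hq0.le _ _ (by omega)
  have h6 : (EM (p : ℕ) B) ^ 2 ≤ EM (p : ℕ) (fun r => B r ^ 2) := by
    have h7 := EM_nonneg' (ι := J) (p : ℕ) (fun r => (B r - EM (p : ℕ) B) ^ 2) fun r => sq_nonneg _
    have e5 : (fun r : J → ZMod (p : ℕ) => (B r - EM (p : ℕ) B) ^ 2) = fun r =>
        B r ^ 2 + ((-2 * EM (p : ℕ) B) * B r + (EM (p : ℕ) B) ^ 2) := by
      funext r
      ring
    rw [e5, EM_add, EM_add, EM_mul, EM_const] at h7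
    nlinarith
  have h7 : ((nm v.1 : ℝ) ^ (a - 1)) ^ 2 ≤ EM (p : ℕ) (fun r => B r ^ 2) := by
    refine le_trans ?_ h6
    gcongr
  have h8 : ((nm v.1 : ℝ) ^ (a - 1)) ^ 2 = (nm v.1 : ℝ) ^ (2 * a - 2) := by
    rw [← pow_mul]
    congr 1
    omega
  rw [h8] at h7
  have hq1 : 0 ≤ (nm v.1 : ℝ) - 1 := by linarith
  have h9 := mul_le_mul_of_nonneg_left (h2.trans' (mul_le_mul_of_nonneg_left h7 hq1)) hq1
  refine le_trans (le_of_eq ?_) (h9.trans h1)
  ring

theorem second_TE (p : Nat.Primes) [Fact (p : ℕ).Prime] (h3 : 3 ≤ (p : ℕ)) {a : ℕ} (ha : 1 ≤ a)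
    (ha2 : a + 1 ≤ Fintype.card R) (hQ : p ∈ QK K) :
    4 / 9 * ((p : ℕ) : ℝ) ^ (2 * a) ≤ EM (p : ℕ) (fun r => TE F a (p : ℕ) 1 r ^ 2) := by
  classical
  have hp0 : (0 : ℝ) < ((p : ℕ) : ℝ) := by exact_mod_cast p.2.pos
  have hp3 : (3 : ℝ) ≤ ((p : ℕ) : ℝ) := by exact_mod_cast h3
  have e1 : (fun r => TE F a (p : ℕ) 1 r ^ 2) = fun r : J → ZMod (p : ℕ) =>
      (∑ v : {v : HeightOneSpectrum (𝓞 K) // below v = p}, (if deg v.1 = 1 then tau F a v r else 0)) ^ 2 := by
    funext r
    rw [TE_one]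
  rw [e1, EM_orth (p : ℕ) (fun (v : {v : HeightOneSpectrum (𝓞 K) // below v = p}) (r : J → ZMod (p : ℕ)) =>
    if deg v.1 = 1 then tau F a v r else 0)]
  · obtain ⟨v0, hv0, hd0⟩ := hQ
    have hnn : ∀ v : {v : HeightOneSpectrum (𝓞 K) // below v = p},
        0 ≤ EM (p : ℕ) (fun r : J → ZMod (p : ℕ) => (if deg v.1 = 1 then tau F a v r else 0) ^ 2) := fun v =>
      EM_nonneg' (p : ℕ) _ fun r => sq_nonneg _
    refine le_trans ?_ (Finset.single_le_sum (s := Finset.univ)
      (f := fun v : {v : HeightOneSpectrum (𝓞 K) // below v = p} =>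
        EM (p : ℕ) (fun r : J → ZMod (p : ℕ) => (if deg v.1 = 1 then tau F a v r else 0) ^ 2))
      (fun v _ => hnn v) (Finset.mem_univ ⟨v0, hv0⟩))
    simp only [if_pos hd0]
    refine le_trans ?_ (diag_tauE h p h3 ⟨v0, hv0⟩ ha ha2)
    have hnm : (nm v0 : ℝ) = (p : ℕ) := by
      have := (nm_eq v0).1
      rw [hd0, pow_one, hv0] at this
      exact_mod_cast this
    rw [hnm]
    have e6 : ((p : ℕ) : ℝ) ^ (2 * a) = ((p : ℕ) : ℝ) ^ 2 * ((p : ℕ) : ℝ) ^ (2 * a - 2) := by
      rw [← pow_add]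
      congr 1
      omega
    rw [e6]
    have h6 : 0 < ((p : ℕ) : ℝ) ^ (2 * a - 2) := by positivity
    have h7 : 4 / 9 * ((p : ℕ) : ℝ) ^ 2 ≤ (((p : ℕ) : ℝ) - 1) ^ 2 := by nlinarith
    calc 4 / 9 * (((p : ℕ) : ℝ) ^ 2 * ((p : ℕ) : ℝ) ^ (2 * a - 2)) = (4 / 9 * ((p : ℕ) : ℝ) ^ 2) * ((p : ℕ) : ℝ) ^ (2 * a - 2) := by ring
      _ ≤ _ := mul_le_mul_of_nonneg_right h7 h6.le
  · intro v v' hv
    by_cases h1 : deg v.1 = 1 ∧ deg v'.1 = 1
    · simp only [if_pos h1.1, if_pos h1.2]
      exact cross_tauE h p h3 v v' hv.symm a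
    · have e2 : (fun r : J → ZMod (p : ℕ) => (if deg v.1 = 1 then tau F a v r else 0) *
          (if deg v'.1 = 1 then tau F a v' r else 0)) = fun _ => 0 := by
        funext r
        by_cases h2 : deg v.1 = 1
        · rw [if_neg (fun h3 => h1 ⟨h2, h3⟩), mul_zero]
        · rw [if_neg h2, zero_mul]
      rw [e2, EM_const]

/-- the power sums -/
theorem powE [Nonempty R] (a : ℕ) : ∃ D : ℝ, Pow D (2 * a) 3 (TE F a) (BH F) := by
  classical
  obtain ⟨D0, hD0, hbad⟩ := bad_all F h.adm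
  have hC := CΦ_nonneg (fun i => (F i).natDegree) (He R a)
  have hdK := one_le_dK (K := K)
  have hb := rk_nonneg h a
  set D := D0 + dK K * CΦ (fun i => (F i).natDegree) (He R a) +
    dK K * (betti (fun j => (F j).natDegree) (2 * a) - ((Fintype.card R).choose a : ℝ)) with hD
  have hD1 : 0 ≤ dK K * CΦ (fun i => (F i).natDegree) (He R a) := by positivity
  have hD2 : 0 ≤ dK K * (betti (fun j => (F j).natDegree) (2 * a) - ((Fintype.card R).choose a : ℝ)) := by positivity
  refine ⟨D, ?_, ?_, ?_, ?_, ?_⟩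
  · rw [hD]; linarith
  · intro p hp _ k hk r hb
    have e1 : TE F a p k r = tp (He R a) F (liftp r) (mkP p hp.out) k := TE_prime F a (mkP p hp.out) k r
    rw [e1]
    have hg : ∀ (v : {v : HeightOneSpectrum (𝓞 K) // below v = mkP p hp.out}) (i : R),
        Gdv v.1 (rmem (F i) v.1 (liftp r)) (F i).natDegree := by
      intro v i
      by_contra hn
      exact hb ⟨i, v.1, p_mem (mkP p hp.out) v.1 v.2, hn⟩
    refine (tp_le (He R a) (He_wt a) F h.adm (liftp r) (mkP p hp.out) hg k hk).trans ?_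
    have e2 : ((mkP p hp.out : Nat.Primes) : ℕ) = p := rfl
    rw [e2]
    gcongr
    rw [hD]
    linarith
  · intro p hp h3 r
    have h1 := TE_le h (mkP p hp.out) h3 a r
    refine h1.trans ?_
    have e2 : ((mkP p hp.out : Nat.Primes) : ℕ) = p := rfl
    rw [e2]
    gcongr
    rw [hD]
    linarith
  · intro p hp h3
    have hfp : Fact ((mkP p hp.out : Nat.Primes) : ℕ).Prime := hp
    have h1 : EM p (TE F a p 1) = 0 := mean_TE h (mkP p hp.out) h3 a
    rw [h1, abs_zero]
    positivity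
  · intro p hp _
    have hfp : Fact ((mkP p hp.out : Nat.Primes) : ℕ).Prime := hp
    have h1 : EM p (fun r : J → ZMod p => if BH F p r then (1 : ℝ) else 0) ≤ D0 / p := hbad (mkP p hp.out)
    refine h1.trans ?_
    gcongr
    rw [hD]
    linarith

end

/-- the comparison of the local factors -/
theorem cmpE [Nonempty R] (a : ℕ) (F : R → (MvPolynomial J (𝓞 K))[X]) :
    Pool.Agent.N534.HC.St.Cmp (2 * a) 3 (TE F a) (BH F) (tH (He R a) F) (gH F) where
  bad := (cmpH (2 * a) (He R a) F).bad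
  val := by
    intro p c k h1 hb h2
    have e1 := (cmpH (2 * a) (He R a) F).val p c k h1 hb h2
    rw [← e1, TE_prime, TH_prime, if_neg hb]
  small := (cmpH (2 * a) (He R a) F).small

/-- **The distribution at the edge for the even cohomology of products of hyperelliptic curves.** -/
theorem even_edge [Nonempty R] {F : R → (MvPolynomial J (𝓞 K))[X]} (h : ShH F) {a : ℕ} (ha : 1 ≤ a)
    (ha2 : a + 1 ≤ Fintype.card R) {X : (J → ℤ) → ℂ → ℂ} (hX : ∀ (c : J → ℤ) (s : ℂ), 1 + ((2 * a : ℕ) : ℝ) / 2 < s.re →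
      X c s = Complex.exp (Pool.Agent.N534.HC.St.logL (tH (He R a) F c) (gH F c) s))
    (hb : 0 < betti (fun j => (F j).natDegree) (2 * a) - ((Fintype.card R).choose a : ℝ)) :
    EdgeLaw (2 * a) (dK K * (betti (fun j => (F j).natDegree) (2 * a) - ((Fintype.card R).choose a : ℝ))) X := by
  classical
  obtain ⟨D, hD⟩ := powE h a
  obtain ⟨M, hM, hd⟩ := dens K
  have hdK := one_le_dK (K := K)
  refine powEdge' hD (b := dK K * (betti (fun j => (F j).natDegree) (2 * a) - ((Fintype.card R).choose a : ℝ)))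
    (by positivity) ?_ (c := 4 / 9) (by norm_num) (Q := QK K) 3 ?_ ?_ (η := 1 / dK K) (by positivity) hM hd ?_
  · intro p h3 r
    exact TE_le h p h3 a r
  · intro p hp h3
    have : Fact (p : ℕ).Prime := ⟨p.2⟩
    exact second_TE h p h3 ha ha2 hp
  · intro p hp _ r
    rw [TE_one]
    refine Finset.sum_eq_zero fun v _ => ?_
    rw [if_neg]
    intro hd1
    exact hp ⟨v.1, v.2, hd1⟩
  · intro c s hs
    rw [hX c s hs, Pool.Agent.N534.HC.St.logL_eq (cmpE a F)]

end Pool.Agent.U309.ED
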