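import Pool.Agent.U309.ED.Sys4
import Pool.Agent.N534.PS.Gen

/-!
# Euler products given by power sums, close to functions with small moments
-/

set_option autoImplicit false
set_option linter.unusedSectionVars false
set_option linter.unusedVariables false

namespace Pool.Agent.U309.ED

open Finset Filter Topology
open Pool.Agent.Y722.HS (EM red EM_mono EM_const p_pos)
open Pool.Agent.Y722.LS (Fam bb EM_mul EM_add)
open Pool.Agent.N534.LF (Loc)
open Pool.Agent.N534.LL (Sys liftp red_liftp)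
open Pool.Agent.N534.PS (trm trm_le p_two x_le x_half geo_le)

variable {ι : Type} [Fintype ι] [DecidableEq ι]

/-- Power sums `T p k` of weight `w`; outside the exceptional classes (`B = 1`) the first one is close to `N`. -/
structure PowN (A D : ℝ) (w : ℕ) (T : ∀ p : ℕ, ℕ → (ι → ZMod p) → ℝ) (N B : ∀ p : ℕ, (ι → ZMod p) → ℝ) : Prop where
  D1 : 1 ≤ D
  bdk : ∀ (p : ℕ) [Fact p.Prime], ∀ k : ℕ, 1 ≤ k → ∀ r, |T p k r| ≤ D * (p : ℝ) ^ ((k : ℝ) * ((w : ℝ) / 2))
  near : ∀ (p : ℕ) [Fact p.Prime], ∀ r, B p r = 0 → |T p 1 r / (p : ℝ) ^ (1 + (w : ℝ) / 2) - N p r| ≤ D / (p : ℝ) ^ 2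
  hB : ∀ p r, B p r = 0 ∨ B p r = 1
  fam : Fam A N B

/-- the logarithm of the Euler factor -/
noncomputable def lamN (w : ℕ) (T : ∀ p : ℕ, ℕ → (ι → ZMod p) → ℝ) (c : ι → ℤ) (p : ℕ) (u : ℂ) : ℂ :=
  ∑' k : ℕ, trm w T p (red p c) u k

variable {A D : ℝ} {w : ℕ} {T : ∀ p : ℕ, ℕ → (ι → ZMod p) → ℝ} {N B : ∀ p : ℕ, (ι → ZMod p) → ℝ}

section
variable (h : PowN A D w T N B)
include h

theorem PowN.summable (p : ℕ) [hp : Fact p.Prime] (r : ι → ZMod p) (u : ℂ) (hu : 0 ≤ u.re) :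
    Summable (trm w T p r u) := by
  have h1 := (geo_le (by positivity) (x_half p u hu) 1).1.mul_left D
  refine Summable.of_norm_bounded h1 fun k => ?_
  exact trm_le p r k u (h.bdk p (k + 1) (by omega) r) (by linarith [h.D1])

theorem PowN.tsum_le (p : ℕ) [hp : Fact p.Prime] (r : ι → ZMod p) (u : ℂ) (hu : 0 ≤ u.re) :
    ‖∑' k : ℕ, trm w T p r u k‖ ≤ 2 * D * (p : ℝ) ^ (-1 - u.re) := by
  have h0 := geo_le (x := (p : ℝ) ^ (-1 - u.re)) (by positivity) (x_half p u hu) 1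
  have h1 := h0.1.mul_left D
  refine (tsum_of_norm_bounded h1.hasSum fun k =>
    trm_le p r k u (h.bdk p (k + 1) (by omega) r) (by linarith [h.D1])).trans ?_
  rw [tsum_mul_left]
  have h2 := mul_le_mul_of_nonneg_left h0.2 (by linarith [h.D1] : (0 : ℝ) ≤ D)
  rw [pow_one] at h2
  linarith

theorem PowN.tail_le (p : ℕ) [hp : Fact p.Prime] (r : ι → ZMod p) (u : ℂ)
    (hu : 0 ≤ u.re) : ‖(∑' k : ℕ, trm w T p r u k) - trm w T p r u 0‖ ≤ 2 * D * (1 / (p : ℝ) ^ 2) := by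
  have hs := h.summable p r u hu
  have h0 := geo_le (x := (p : ℝ) ^ (-1 - u.re)) (by positivity) (x_half p u hu) 2
  have h1 := h0.1.mul_left D
  rw [hs.tsum_eq_zero_add, add_sub_cancel_left]
  refine (tsum_of_norm_bounded h1.hasSum fun k => ?_).trans ?_
  · exact trm_le p r (k + 1) u (h.bdk p (k + 1 + 1) (by omega) r) (by linarith [h.D1])
  · rw [tsum_mul_left]
    have h2 := mul_le_mul_of_nonneg_left h0.2 (by linarith [h.D1] : (0 : ℝ) ≤ D)
    have h3 : ((p : ℝ) ^ (-1 - u.re)) ^ 2 ≤ (1 / (p : ℝ)) ^ 2 := by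
      have := x_le p u hu
      gcongr
    rw [div_pow, one_pow] at h3
    have h4 := mul_le_mul_of_nonneg_left h3 (by linarith [h.D1] : (0 : ℝ) ≤ D)
    linarith

omit h in
theorem trm_zero' (p : ℕ) [hp : Fact p.Prime] (r : ι → ZMod p) (u : ℂ) :
    trm w T p r u 0 = (p : ℂ) ^ (-u) * ((T p 1 r / (p : ℝ) ^ (1 + (w : ℝ) / 2) : ℝ) : ℂ) := by
  have hp0 : (0 : ℝ) < p := by have := p_two p; linarith
  have hpc : (p : ℂ) ≠ 0 := by exact_mod_cast hp.out.ne_zero
  unfold trm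
  have e1 : (-((((0 : ℕ) : ℂ) + 1) * (1 + (w : ℂ) / 2 + u))) = -u + -(1 + (w : ℂ) / 2) := by
    push_cast
    ring
  rw [e1, Complex.cpow_add _ _ hpc]
  have e2 : (p : ℂ) ^ (-(1 + (w : ℂ) / 2)) = (((p : ℝ) ^ (1 + (w : ℝ) / 2))⁻¹ : ℝ) := by
    rw [← Real.rpow_neg hp0.le, Complex.ofReal_cpow hp0.le]
    push_cast
    rfl
  rw [e2]
  push_cast
  simp only [zero_add, div_one]
  ring

omit h in
theorem pow_32 (p : ℕ) [hp : Fact p.Prime] : 1 / (p : ℝ) ^ 2 ≤ 1 / (p : ℝ) ^ ((3 : ℝ) / 2) := by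
  have hp2 := p_two p
  apply one_div_le_one_div_of_le (by positivity)
  rw [← Real.rpow_natCast]
  exact Real.rpow_le_rpow_of_exponent_le (by linarith) (by norm_num)

theorem PowN.trm0_le (p : ℕ) [hp : Fact p.Prime] (r : ι → ZMod p) : |T p 1 r / (p : ℝ) ^ (1 + (w : ℝ) / 2)| ≤ D / p := by
  have hp0 : (0 : ℝ) < p := by have := p_two p; linarith
  have h1 := h.bdk p 1 le_rfl r
  rw [Nat.cast_one, one_mul] at h1
  rw [abs_div, abs_of_pos (by positivity : (0 : ℝ) < (p : ℝ) ^ (1 + (w : ℝ) / 2)), div_le_div_iff₀ (by positivity) hp0]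
  have h2 : (p : ℝ) ^ (1 + (w : ℝ) / 2) = p * (p : ℝ) ^ ((w : ℝ) / 2) := by
    rw [Real.rpow_add hp0, Real.rpow_one]
  rw [h2]
  have := mul_le_mul_of_nonneg_right h1 hp0.le
  linarith

theorem PowN.loc (c : ι → ℤ) : Loc (4 * D) N B c (lamN w T c) where
  near := by
    intro p hp u hu
    have hfp : Fact p.Prime := ⟨hp⟩
    have hp2 := p_two p
    have hp0 : (0 : ℝ) < p := by linarith
    have hD := h.D1
    have hpu : ‖(p : ℂ) ^ (-u)‖ ≤ 1 := by
      rw [Complex.norm_natCast_cpow_of_pos hp.pos]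
      exact Real.rpow_le_one_of_one_le_of_nonpos (by linarith) (by simpa using hu)
    have h9 : 0 ≤ bb N B (4 * D) p (red p c) := h.fam.bb_nonneg (by linarith) p _
    rcases h.hB p (red p c) with hb | hb
    · have h1 := h.tail_le p (red p c) u hu
      have h2 := h.near p (red p c) hb
      have h3 : ‖trm w T p (red p c) u 0 - (p : ℂ) ^ (-u) * (N p (red p c) : ℂ)‖ ≤ D / (p : ℝ) ^ 2 := by
        rw [trm_zero', ← mul_sub, ← Complex.ofReal_sub, norm_mul, Complex.norm_real, Real.norm_eq_abs]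
        calc _ ≤ 1 * (D / (p : ℝ) ^ 2) := by gcongr
          _ = _ := one_mul _
      have h4 : lamN w T c p u - (p : ℂ) ^ (-u) * (N p (red p c) : ℂ) =
          ((∑' k : ℕ, trm w T p (red p c) u k) - trm w T p (red p c) u 0) +
            (trm w T p (red p c) u 0 - (p : ℂ) ^ (-u) * (N p (red p c) : ℂ)) := by
        unfold lamN
        ring
      rw [h4]
      have h5 := norm_add_le ((∑' k : ℕ, trm w T p (red p c) u k) - trm w T p (red p c) u 0)
        (trm w T p (red p c) u 0 - (p : ℂ) ^ (-u) * (N p (red p c) : ℂ))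
      have h6 := mul_le_mul_of_nonneg_left (pow_32 p) (by linarith : (0 : ℝ) ≤ 4 * D)
      have h7 : D / (p : ℝ) ^ 2 = D * (1 / (p : ℝ) ^ 2) := by ring
      have h8 : 0 ≤ 1 / (p : ℝ) ^ 2 := by positivity
      rw [h7] at h3
      nlinarith
    · have h1 := h.tsum_le p (red p c) u hu
      have h3 : ‖(p : ℂ) ^ (-u) * (N p (red p c) : ℂ)‖ ≤ |N p (red p c)| := by
        rw [norm_mul, Complex.norm_real, Real.norm_eq_abs]
        calc _ ≤ 1 * |N p (red p c)| := by gcongr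
          _ = _ := one_mul _
      have h5 := norm_sub_le (∑' k : ℕ, trm w T p (red p c) u k) ((p : ℂ) ^ (-u) * (N p (red p c) : ℂ))
      have h6 := x_le p u hu
      have h7 : 2 * D * (p : ℝ) ^ (-1 - u.re) ≤ 2 * D * (1 / p) := by gcongr
      have e2 : bb N B (4 * D) p (red p c) = |N p (red p c)| + 4 * D / p := by
        unfold bb
        rw [hb, one_mul]
      rw [e2]
      have h8 : 2 * D * (1 / (p : ℝ)) ≤ 4 * D / p := by
        have : 0 ≤ D / (p : ℝ) := by positivity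
        have e3 : 2 * D * (1 / (p : ℝ)) = 2 * (D / p) := by ring
        have e4 : 4 * D / (p : ℝ) = 4 * (D / p) := by ring
        rw [e3, e4]
        linarith
      have h10 : 0 ≤ 4 * D * (1 / (p : ℝ) ^ ((3 : ℝ) / 2)) := by positivity
      have e5 : lamN w T c p u = ∑' k : ℕ, trm w T p (red p c) u k := rfl
      rw [e5]
      linarith
  bound := by
    intro p hp u hu
    have hfp : Fact p.Prime := ⟨hp⟩
    have hD := h.D1
    have h1 := h.tsum_le p (red p c) u hu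
    have e5 : lamN w T c p u = ∑' k : ℕ, trm w T p (red p c) u k := rfl
    rw [e5]
    refine h1.trans ?_
    have h3 : 0 ≤ (p : ℝ) ^ (-1 - u.re) := by positivity
    nlinarith

/-- **The system.** -/
theorem PowN.sys : Sys A (4 * D) N B (lamN w T) where
  fam := h.fam
  beta := by linarith [h.D1]
  loc := h.loc
  red := by
    intro p hp c c' hcc
    funext u
    unfold lamN
    rw [hcc]
  cont := by
    intro p hp c
    have hfp : Fact p.Prime := ⟨hp⟩
    have hD := h.D1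
    have h1 := (geo_le (x := (1 / 2 : ℝ)) (by norm_num) le_rfl 1).1.mul_left D
    have e1 : lamN w T c p = fun u => ∑' k : ℕ, trm w T p (red p c) u k := rfl
    rw [e1]
    refine continuousOn_tsum (fun k => ?_) h1 fun k u hu => ?_
    · unfold trm
      have hpc : (p : ℂ) ≠ 0 := by exact_mod_cast hp.ne_zero
      refine Continuous.continuousOn (continuous_const.mul ?_)
      exact Continuous.const_cpow (by fun_prop) (Or.inl hpc)
    · refine (trm_le p (red p c) k u (h.bdk p (k + 1) (by omega) (red p c)) (by linarith)).trans ?_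
      have h2 := x_half p u hu
      have h3 : 0 ≤ (p : ℝ) ^ (-1 - u.re) := by positivity
      gcongr

theorem PowN.xr_le (p : Nat.Primes) (r : ι → ZMod (p : ℕ)) :
    |xr (lamN w T) 0 p r| ≤ D / (p : ℕ) + 2 * D / ((p : ℕ) : ℝ) ^ ((3 : ℝ) / 2) := by
  have hfp : Fact (p : ℕ).Prime := ⟨p.2⟩
  have hD := h.D1
  have hred : red (p : ℕ) (liftp r) = r := red_liftp _ _
  have h1 := h.tail_le (p : ℕ) r 0 (by simp)
  have h2 : ‖trm w T (p : ℕ) r 0 0‖ ≤ D / (p : ℕ) := by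
    rw [trm_zero', neg_zero, Complex.cpow_zero, one_mul, Complex.norm_real, Real.norm_eq_abs]
    exact h.trm0_le _ _
  have e1 : xr (lamN w T) 0 p r = (∑' k : ℕ, trm w T (p : ℕ) r 0 k).re := by
    unfold xr lamN
    rw [hred]
  rw [e1]
  refine (Complex.abs_re_le_norm _).trans ?_
  have h3 := norm_add_le ((∑' k : ℕ, trm w T (p : ℕ) r 0 k) - trm w T (p : ℕ) r 0 0) (trm w T (p : ℕ) r 0 0)
  rw [sub_add_cancel] at h3
  have h6 := mul_le_mul_of_nonneg_left (pow_32 (p : ℕ)) (by linarith : (0 : ℝ) ≤ 2 * D)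
  have h7 : 2 * D / ((p : ℕ) : ℝ) ^ ((3 : ℝ) / 2) = 2 * D * (1 / ((p : ℕ) : ℝ) ^ ((3 : ℝ) / 2)) := by ring
  rw [h7]
  linarith

/-- **The distribution at the edge.** -/
theorem PowN.edge {c C4 : ℝ} (hc : 0 < c) (P : ℕ)
    (h2 : ∀ p : Nat.Primes, P ≤ (p : ℕ) → c / ((p : ℕ) : ℝ) ^ 2 ≤ EM (p : ℕ) (fun r => N (p : ℕ) r ^ 2))
    (h4 : ∀ p : Nat.Primes, P ≤ (p : ℕ) → EM (p : ℕ) (fun r => N (p : ℕ) r ^ 4) ≤ C4 / ((p : ℕ) : ℝ) ^ 4)
    {X : (ι → ℤ) → ℂ → ℂ} (hX : ∀ (c : ι → ℤ) (s : ℂ), 1 + (w : ℝ) / 2 < s.re →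
      X c s = Complex.exp (∑' p : Nat.Primes, lamN w T c (p : ℕ) (s - ((1 + (w : ℝ) / 2 : ℝ) : ℂ)))) :
    EdgeAt (1 + (w : ℝ) / 2) D X :=
  sys_edge4 h.sys h.hB hc P h2 h4 (by linarith [h.D1]) (by linarith [h.D1]) h.xr_le (1 + (w : ℝ) / 2) hX

end

end Pool.Agent.U309.ED
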