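import Pool.Agent.U309.ED.HSep
import Pool.Agent.Y722.LS.Bad

/-!
# Points of random members of linear systems of hypersurfaces over the field with `p` elements

Adapted from the library file `Q285/HS/Pts` (without its imports).
-/

set_option autoImplicit false
set_option linter.unusedSectionVars false

namespace Pool.Agent.U309.ED.Hyp

open Finset Pool.Agent.U309.ED.Sp4
open Pool.Agent.Y722.HS (Mon mev mkMon mkMon_apply)
open scoped LinearAlgebra.Projectivization

variable {n : ℕ}

/-- the exponent vector of a monomial -/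
noncomputable def toFs {D : ℕ} (ν : Mon n D) : Fin (n + 1) →₀ ℕ := Finsupp.equivFunOnFinite.symm (fun i => (ν.1 i : ℕ))

lemma toFs_inj {D : ℕ} : Function.Injective (toFs (n := n) (D := D)) := by
  intro μ ν h
  have h1 := Finsupp.equivFunOnFinite.symm.injective h
  apply Subtype.ext
  funext i
  exact Fin.ext (congrFun h1 i)

/-- the value of a form, by its coefficients -/
lemma eval_hom {D : ℕ} {R : Type*} [CommRing R] (P : MvPolynomial (Fin (n + 1)) R) (hP : P.IsHomogeneous D) (x : Fin (n + 1) → R) :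
    MvPolynomial.eval x P = ∑ ν : Mon n D, P.coeff (toFs ν) * mev x ν := by
  classical
  rw [MvPolynomial.eval_eq']
  have h1 : ∀ ν : Mon n D, P.coeff (toFs ν) * mev x ν =
      (fun m : Fin (n + 1) →₀ ℕ => P.coeff m * ∏ i, x i ^ m i) (toFs ν) := by
    intro ν
    simp [mev, toFs]
  rw [Finset.sum_congr rfl fun ν _ => h1 ν, ← Finset.sum_image (s := Finset.univ)
    (f := fun m : Fin (n + 1) →₀ ℕ => P.coeff m * ∏ i, x i ^ m i)
    (g := toFs (n := n) (D := D)) (fun a _ b _ h => toFs_inj h)]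
  apply Finset.sum_subset
  · intro m hm
    rw [Finset.mem_image]
    have h2 : ∑ i, m i = D := by
      have h3 := hP (MvPolynomial.mem_support_iff.mp hm)
      rw [Finsupp.weight_apply, Finsupp.sum_fintype _ _ (fun i => by simp)] at h3
      simpa using h3
    refine ⟨mkMon (fun i => m i) h2, Finset.mem_univ _, ?_⟩
    ext i
    simp [toFs]
  · intro m _ hm
    rw [MvPolynomial.notMem_support_iff.mp hm]
    simp

section

variable {F : Type} [Field F]

/-- different points have non-proportional coordinates -/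
lemma rep_ne {P Q : ℙ F (Fin (n + 1) → F)} (h : P ≠ Q) : ∃ i j, P.rep i * Q.rep j ≠ P.rep j * Q.rep i := by
  by_contra hcon
  push Not at hcon
  apply h
  obtain ⟨k, hk⟩ : ∃ k, Q.rep k ≠ 0 := Function.ne_iff.mp Q.rep_nonzero
  have h1 : P.rep = (P.rep k / Q.rep k) • Q.rep := by
    funext i
    rw [Pi.smul_apply, smul_eq_mul, div_mul_eq_mul_div, eq_div_iff hk]
    exact hcon i k
  rw [← P.mk_rep, ← Q.mk_rep, Projectivization.mk_eq_mk_iff']
  exact ⟨_, h1.symm⟩

/-- forms of degree `D` separate `D + 1` points -/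
lemma exists_form {D : ℕ} (a : ℙ F (Fin (n + 1) → F)) (T : Finset (ℙ F (Fin (n + 1) → F))) (hT : T.card ≤ D) (ha : a ∉ T) :
    ∃ c : Mon n D → F, ∑ ν, c ν * mev a.rep ν ≠ 0 ∧ ∀ t ∈ T, ∑ ν, c ν * mev t.rep ν = 0 := by
  classical
  have hne : ∀ t : T, ∃ i j, a.rep i * t.1.rep j ≠ a.rep j * t.1.rep i := fun t => rep_ne fun h => ha (h ▸ t.2)
  choose i j hij using hne
  obtain ⟨k, hk⟩ : ∃ k, a.rep k ≠ 0 := Function.ne_iff.mp a.rep_nonzero
  obtain ⟨P, hP⟩ : ∃ P : MvPolynomial (Fin (n + 1)) F, P = (∏ t : T, (MvPolynomial.C (t.1.rep (j t)) * MvPolynomial.X (i t) -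
    MvPolynomial.C (t.1.rep (i t)) * MvPolynomial.X (j t))) * MvPolynomial.X k ^ (D - T.card) := ⟨_, rfl⟩
  have hhom : P.IsHomogeneous D := by
    have h1 : (∏ t : T, (MvPolynomial.C (t.1.rep (j t)) * MvPolynomial.X (i t) -
        MvPolynomial.C (t.1.rep (i t)) * MvPolynomial.X (j t)) : MvPolynomial (Fin (n + 1)) F).IsHomogeneous (∑ _t : T, 1) := by
      refine MvPolynomial.IsHomogeneous.prod _ _ _ fun t _ => ?_
      refine MvPolynomial.IsHomogeneous.sub ?_ ?_
      · exact MvPolynomial.isHomogeneous_C_mul_X _ _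
      · exact MvPolynomial.isHomogeneous_C_mul_X _ _
    have h2 := h1.mul (MvPolynomial.isHomogeneous_X_pow (R := F) k (D - T.card))
    rw [hP]
    have h3 : (∑ _t : T, 1) + (D - T.card) = D := by
      rw [sum_const, card_univ, Fintype.card_coe, smul_eq_mul, mul_one]
      omega
    rwa [h3] at h2
  refine ⟨fun ν => P.coeff (toFs ν), ?_, fun t ht => ?_⟩
  · rw [← eval_hom P hhom, hP, map_mul, map_prod, map_pow, MvPolynomial.eval_X]
    refine mul_ne_zero (prod_ne_zero_iff.2 fun t _ => ?_) (pow_ne_zero _ hk)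
    rw [map_sub, map_mul, map_mul, MvPolynomial.eval_C, MvPolynomial.eval_C, MvPolynomial.eval_X, MvPolynomial.eval_X, sub_ne_zero]
    intro h
    apply hij t
    rw [mul_comm, h, mul_comm]
  · rw [← eval_hom P hhom, hP, map_mul, map_prod]
    rw [prod_eq_zero (mem_univ (⟨t, ht⟩ : T)), zero_mul]
    rw [map_sub, map_mul, map_mul, MvPolynomial.eval_C, MvPolynomial.eval_C, MvPolynomial.eval_X, MvPolynomial.eval_X]
    ring

end

/-! ### the family -/

/-- the indices of the coefficients -/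
abbrev Idx {J : Type} (n : ℕ) (d : J → ℕ) : Type := Σ j : J, Mon n (d j)

/-- the form `∑ g_j h_j`, `h_j` the form of degree `d_j` with the coefficients `c (j, ·)` -/
noncomputable def fam {J : Type} [Fintype J] {d : J → ℕ} (g : J → MvPolynomial (Fin (n + 1)) ℤ) (c : Idx n d → ℤ) :
    MvPolynomial (Fin (n + 1)) ℤ :=
  ∑ j, g j * ∑ ν : Mon n (d j), MvPolynomial.C (c ⟨j, ν⟩) * ∏ i, MvPolynomial.X i ^ (ν.1 i : ℕ)

/-- the number of the points of the hypersurface `F = 0` over the field `L` -/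
noncomputable def cnt (L : Type) [Field L] (F : MvPolynomial (Fin (n + 1)) ℤ) : ℕ :=
  Nat.card {P : ℙ L (Fin (n + 1) → L) // MvPolynomial.aeval P.rep F = 0}

/-- the number of the points of the base locus over the field `L` -/
noncomputable def bas {J : Type} (L : Type) [Field L] (g : J → MvPolynomial (Fin (n + 1)) ℤ) : ℕ :=
  Nat.card {P : ℙ L (Fin (n + 1) → L) // ∀ j, MvPolynomial.aeval P.rep (g j) = 0}

section

variable {J : Type} [Fintype J] {d : J → ℕ} (g : J → MvPolynomial (Fin (n + 1)) ℤ)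

section

variable (p : ℕ) [hp : Fact p.Prime]

noncomputable instance : Fintype (ℙ (ZMod p) (Fin (n + 1) → ZMod p)) := Fintype.ofFinite _

/-- the value at a point as a homomorphism -/
noncomputable def ev (P : ℙ (ZMod p) (Fin (n + 1) → ZMod p)) : (Idx n d → ZMod p) →+ ZMod p where
  toFun c := ∑ j, MvPolynomial.aeval P.rep (g j) * ∑ ν : Mon n (d j), c ⟨j, ν⟩ * mev P.rep ν
  map_zero' := by simp
  map_add' a b := by
    simp only [Pi.add_apply, add_mul, sum_add_distrib, mul_add]

lemma ev_sum (P : ℙ (ZMod p) (Fin (n + 1) → ZMod p)) (c : Idx n d → ZMod p) :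
    ev (d := d) g p P c = ∑ x : Idx n d, c x * (MvPolynomial.aeval P.rep (g x.1) * mev P.rep x.2) := by
  rw [Fintype.sum_sigma]
  show ∑ j, MvPolynomial.aeval P.rep (g j) * ∑ ν : Mon n (d j), c ⟨j, ν⟩ * mev P.rep ν = _
  refine sum_congr rfl fun j _ => ?_
  rw [mul_sum]
  exact sum_congr rfl fun ν _ => by ring

open Classical in
/-- the points outside the base locus -/
noncomputable def AA : Finset (ℙ (ZMod p) (Fin (n + 1) → ZMod p)) :=
  univ.filter fun P => ∃ j, MvPolynomial.aeval P.rep (g j) ≠ 0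

variable {g} in
lemma mem_AA {P : ℙ (ZMod p) (Fin (n + 1) → ZMod p)} :
    P ∈ AA g p ↔ ∃ j, MvPolynomial.aeval P.rep (g j) ≠ 0 := by
  classical
  unfold AA
  rw [mem_filter]
  exact ⟨fun h => h.2, fun h => ⟨mem_univ _, h⟩⟩

/-- the values at few points are arbitrary -/
lemma sep_AA {m : ℕ} (hm : ∀ j, m ≤ d j + 1) : Sep (ev (d := d) g p) (AA g p) m := by
  classical
  refine sep_of fun a ha T hT hc haT b => ?_
  obtain ⟨j, hj⟩ := (mem_AA p).1 ha
  obtain ⟨c, hc1, hc2⟩ := exists_form (D := d j) a T (by have := hm j; omega) haT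
  obtain ⟨s, hs⟩ : ∃ s : ZMod p, s = b / (MvPolynomial.aeval a.rep (g j) * ∑ ν, c ν * mev a.rep ν) := ⟨_, rfl⟩
  obtain ⟨z, hz⟩ : ∃ z : Idx n d → ZMod p, z = fun x => ∑ ν : Mon n (d j), if x = ⟨j, ν⟩ then s * c ν else 0 := ⟨_, rfl⟩
  have key : ∀ P : ℙ (ZMod p) (Fin (n + 1) → ZMod p), ev (d := d) g p P z = s * (MvPolynomial.aeval P.rep (g j) * ∑ ν, c ν * mev P.rep ν) := by
    intro P
    rw [ev_sum, hz]
    simp only [sum_mul, ite_mul, zero_mul]
    rw [sum_comm]
    simp only [sum_ite_eq', mem_univ, if_true]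
    rw [mul_sum, mul_sum]
    exact sum_congr rfl fun ν _ => by ring
  refine ⟨z, ?_, fun t ht => ?_⟩
  · rw [key, hs, div_mul_cancel₀ _ (mul_ne_zero hj hc1)]
  · rw [key, hc2 t ht, mul_zero, mul_zero]

/-- the centred indicator function of zero -/
noncomputable def ph (w : ZMod p) : ℝ := (if w = 0 then 1 else 0) - 1 / p

lemma ph_abs (w : ZMod p) : |ph p w| ≤ 1 := by
  have hp1 : (1 : ℝ) ≤ p := by exact_mod_cast hp.out.one_lt.le
  have h1 : 1 / (p : ℝ) ≤ 1 := by
    rw [div_le_one (by linarith)]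
    exact hp1
  have h2 : 0 ≤ 1 / (p : ℝ) := by positivity
  unfold ph
  split_ifs <;> rw [abs_le] <;> constructor <;> linarith

lemma ph_one : av (ph p) = 0 := by
  have hp0 : (p : ℝ) ≠ 0 := by exact_mod_cast hp.out.ne_zero
  unfold av ph
  rw [sum_sub_distrib, sum_ite_eq' univ 0 (fun _ => (1 : ℝ)), sum_const, card_univ, ZMod.card]
  simp only [mem_univ, if_true, nsmul_eq_mul]
  field_simp
  simp

lemma ph_two : av (fun w => ph p w ^ 2) = 1 / p * (1 - 1 / p) := by
  have hp0 : (p : ℝ) ≠ 0 := by exact_mod_cast hp.out.ne_zero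
  have h1 : ∀ w : ZMod p, ph p w ^ 2 = (if w = 0 then (1 - 2 / (p : ℝ)) else 0) + 1 / (p : ℝ) ^ 2 := by
    intro w
    unfold ph
    split_ifs
    · field_simp
      ring
    · field_simp
      ring
  unfold av
  rw [sum_congr rfl fun w _ => h1 w, sum_add_distrib, sum_ite_eq' univ 0 (fun _ => (1 - 2 / (p : ℝ))), sum_const, card_univ, ZMod.card]
  simp only [mem_univ, if_true, nsmul_eq_mul]
  field_simp
  ring

lemma ph_high (j : ℕ) (hj : 2 ≤ j) : |av (fun w => ph p w ^ j)| ≤ 1 / p := by
  have hp0 : (0 : ℝ) < p := by exact_mod_cast hp.out.pos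
  have h1 : |av (fun w => ph p w ^ j)| ≤ av (fun w => ph p w ^ 2) := by
    unfold av
    rw [abs_div, Nat.abs_cast]
    refine div_le_div_of_nonneg_right ((abs_sum_le_sum_abs _ _).trans (sum_le_sum fun w _ => ?_)) (Nat.cast_nonneg _)
    rw [abs_pow, ← sq_abs]
    exact pow_le_pow_of_le_one (abs_nonneg _) (ph_abs p w) hj
  refine h1.trans ?_
  rw [ph_two]
  have h2 : 0 ≤ 1 / (p : ℝ) := by positivity
  nlinarith



lemma card_AA : ((AA g p).card : ℝ) = (Nat.card (ℙ (ZMod p) (Fin (n + 1) → ZMod p)) : ℝ) - bas (ZMod p) g := by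
  classical
  have h1 : Nat.card (ℙ (ZMod p) (Fin (n + 1) → ZMod p)) = (AA g p).card + bas (ZMod p) g := by
    unfold bas
    rw [Nat.card_eq_fintype_card, Nat.card_eq_fintype_card, Fintype.card_subtype]
    rw [← card_univ, ← card_filter_add_card_filter_not (s := univ) (fun P : ℙ (ZMod p) (Fin (n + 1) → ZMod p) =>
      ∃ j, MvPolynomial.aeval P.rep (g j) ≠ 0)]
    congr 1
    congr 1
    ext P
    simp
  rw [h1]
  push_cast
  ring

/-- the deviation of the number of the points from its mean -/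
noncomputable def HH (c : Idx n d → ZMod p) : ℝ := sm (ev (d := d) g p) (AA g p) (fun _ => ph p) c

/-- the number of the points -/
lemma cnt_eq (t : Idx n d → ℤ) : (cnt (ZMod p) (fam g t) : ℝ) = bas (ZMod p) g + ((AA g p).card : ℝ) / p +
    HH g p (fun x => (t x : ZMod p)) := by
  classical
  have hp0 : (0 : ℝ) < p := by exact_mod_cast hp.out.pos
  have hev : ∀ P : ℙ (ZMod p) (Fin (n + 1) → ZMod p), MvPolynomial.aeval P.rep (fam g t) = ev (d := d) g p P (fun x => (t x : ZMod p)) := by
    intro P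
    show _ = ∑ j, MvPolynomial.aeval P.rep (g j) * ∑ ν : Mon n (d j), ((t ⟨j, ν⟩ : ℤ) : ZMod p) * mev P.rep ν
    unfold fam
    rw [map_sum]
    refine sum_congr rfl fun j _ => ?_
    rw [map_mul, map_sum]
    congr 1
    refine sum_congr rfl fun ν _ => ?_
    rw [map_mul, map_prod]
    congr 1
    · simp
    · unfold mev
      exact prod_congr rfl fun i _ => by rw [map_pow, MvPolynomial.aeval_X]
  have e2 : HH g p (fun x => (t x : ZMod p)) =
      ((AA g p).filter fun P => ev (d := d) g p P (fun x => (t x : ZMod p)) = 0).card - (AA g p).card / p := by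
    unfold HH sm ph
    rw [sum_sub_distrib, sum_const, nsmul_eq_mul, card_filter]
    push_cast
    ring
  have e3 : cnt (ZMod p) (fam g t) = bas (ZMod p) g +
      ((AA g p).filter fun P => ev (d := d) g p P (fun x => (t x : ZMod p)) = 0).card := by
    unfold cnt bas
    rw [Nat.card_eq_fintype_card, Nat.card_eq_fintype_card, Fintype.card_subtype, Fintype.card_subtype, ← card_union_of_disjoint]
    · congr 1
      ext P
      simp only [mem_filter, mem_univ, true_and, mem_union, mem_AA]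
      rw [hev]
      constructor
      · intro h
        by_cases h' : ∃ j, MvPolynomial.aeval P.rep (g j) ≠ 0
        · exact Or.inr ⟨h', h⟩
        · push Not at h'
          exact Or.inl h'
      · rintro (h | h)
        · rw [ev_sum]
          refine sum_eq_zero fun x _ => ?_
          rw [h x.1, zero_mul, mul_zero]
        · exact h.2
    · rw [disjoint_left]
      intro P hP hP'
      obtain ⟨j, hj⟩ := (mem_AA p).1 (mem_filter.1 hP').1
      exact hj ((mem_filter.1 hP).2 j)
  rw [e2, e3]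
  push_cast
  ring

end

end

end Pool.Agent.U309.ED.Hyp
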