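import Mathlib

/-!
# Sums of functions of values which are independent in small numbers

Self-contained version of the library files `Q285/HS/Sep` and (part of) `Q282/CL/Abs`, `Q285/NG/Ind` (without their imports).
-/

set_option autoImplicit false
set_option linter.unusedSectionVars false

namespace Pool.Agent.U309.ED.Sp4

open Finset

section av
variable {α : Type} [Fintype α]

/-- the average -/
noncomputable def av (f : α → ℝ) : ℝ := (∑ a, f a) / (Fintype.card α : ℝ)

lemma av_add (f g : α → ℝ) : av (fun a => f a + g a) = av f + av g := by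
  unfold av
  rw [sum_add_distrib, add_div]

lemma av_mul (c : ℝ) (f : α → ℝ) : av (fun a => c * f a) = c * av f := by
  unfold av
  rw [← mul_sum, mul_div_assoc]

lemma av_sum {ι : Type} (s : Finset ι) (f : ι → α → ℝ) : av (fun a => ∑ i ∈ s, f i a) = ∑ i ∈ s, av (f i) := by
  unfold av
  rw [sum_comm, sum_div]

lemma av_const [Nonempty α] (c : ℝ) : av (fun _ : α => c) = c := by
  unfold av
  rw [sum_const, card_univ, nsmul_eq_mul, mul_div_assoc, mul_comm, div_mul_cancel₀]
  exact_mod_cast Fintype.card_ne_zero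

lemma av_pi {ι : Type} [Fintype ι] [DecidableEq ι] {Ω : ι → Type} [∀ i, Fintype (Ω i)] (f : ∀ i, Ω i → ℝ) :
    av (fun ω : ∀ i, Ω i => ∏ i, f i (ω i)) = ∏ i, av (f i) := by
  unfold av
  rw [Fintype.card_pi, Nat.cast_prod, prod_div_distrib, Fintype.prod_sum]

lemma av_hom {A B : Type} [AddGroup A] [AddGroup B] [Fintype A] [Fintype B] [DecidableEq B] (φ : A →+ B) (hφ : Function.Surjective φ)
    (G : B → ℝ) : av (fun a => G (φ a)) = av G := by
  classical
  obtain ⟨m, hm⟩ : ∃ m : ℕ, ∀ b : B, (univ.filter fun a => φ a = b).card = m :=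
    ⟨(univ.filter fun a => φ a = 0).card, fun b => AddMonoidHom.card_fiber_eq_of_mem_range φ (hφ b) (hφ 0)⟩
  have hA : (Fintype.card A : ℝ) = m * Fintype.card B := by
    have h1 : Fintype.card A = ∑ b : B, (univ.filter fun a => φ a = b).card := by
      rw [← card_univ]
      exact card_eq_sum_card_fiberwise fun a _ => mem_univ (φ a)
    rw [h1, sum_congr rfl fun b _ => hm b, sum_const, card_univ, smul_eq_mul]
    push_cast
    ring
  have hm0 : (m : ℝ) ≠ 0 := by
    intro h0
    rw [h0, zero_mul] at hA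
    have : 0 < Fintype.card A := Fintype.card_pos
    have : (0 : ℝ) < Fintype.card A := by exact_mod_cast this
    linarith
  have hs : ∑ a : A, G (φ a) = m * ∑ b : B, G b := by
    rw [← sum_fiberwise_of_maps_to (fun a _ => mem_univ (φ a)) (fun a => G (φ a)), mul_sum]
    refine sum_congr rfl fun b _ => ?_
    have h1 : ∀ a ∈ univ.filter (fun a => φ a = b), G (φ a) = G b := fun a ha => by rw [(mem_filter.1 ha).2]
    rw [sum_congr rfl h1, sum_const, hm b, nsmul_eq_mul]
  unfold av
  rw [hs, hA, mul_div_mul_left _ _ hm0]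

end av

section

variable {ι K B : Type} [AddCommGroup K] [Fintype K] [AddCommGroup B] [Fintype B] [DecidableEq B]

/-- any values at `m` of the points are possible -/
def Sep (e : ι → K →+ B) (A : Finset ι) (m : ℕ) : Prop := ∀ S ⊆ A, S.card ≤ m → ∀ z : ι → B, ∃ c : K, ∀ t ∈ S, e t c = z t

lemma Sep.mono {e : ι → K →+ B} {A A' : Finset ι} {m m' : ℕ} (h : Sep e A m) (hA : A' ⊆ A) (hm : m' ≤ m) : Sep e A' m' :=
  fun S hS hc => h S (hS.trans hA) (hc.trans hm)

lemma sep_of {e : ι → K →+ B} {A : Finset ι} {m : ℕ} (h : ∀ a ∈ A, ∀ T ⊆ A, T.card + 1 ≤ m → a ∉ T → ∀ b : B, ∃ c : K, e a c = b ∧ ∀ t ∈ T, e t c = 0) :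
    Sep e A m := by
  classical
  intro S hS hc z
  have h1 : ∀ a : S, ∃ c : K, e a c = z a ∧ ∀ t ∈ S.erase a, e t c = 0 := fun a =>
    h a (hS a.2) (S.erase a) ((erase_subset _ _).trans hS) (by rw [card_erase_of_mem a.2]; have := card_pos.2 ⟨(a : ι), a.2⟩; omega)
      (notMem_erase _ _) (z a)
  choose c hc1 hc2 using h1
  refine ⟨∑ a : S, c a, fun t ht => ?_⟩
  rw [map_sum, ← hc1 ⟨t, ht⟩]
  refine sum_eq_single (⟨t, ht⟩ : S) (fun a _ ha => ?_) (fun h => absurd (mem_univ _) h)
  exact hc2 a t (mem_erase.2 ⟨fun h => ha (Subtype.ext h.symm), ht⟩)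

variable {e : ι → K →+ B} {A : Finset ι} {m : ℕ}

/-- the values at few points are independent -/
lemma av_ind (h : Sep e A m) (S : Finset ι) (hS : S ⊆ A) (hc : S.card ≤ m) (f : ι → B → ℝ) :
    av (fun c : K => ∏ t ∈ S, f t (e t c)) = ∏ t ∈ S, av (f t) := by
  classical
  obtain ⟨φ, hφ⟩ : ∃ φ : K →+ (S → B), ∀ c t, φ c t = e t c :=
    ⟨{ toFun := fun c t => e t c, map_zero' := by funext t; simp, map_add' := fun a b => by funext t; simp }, fun _ _ => rfl⟩
  have hsurj : Function.Surjective φ := by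
    intro z
    obtain ⟨c, hc⟩ := h S hS hc fun t => if h : t ∈ S then z ⟨t, h⟩ else 0
    refine ⟨c, ?_⟩
    funext t
    rw [hφ, hc t t.2, dif_pos t.2]
  have h1 : (fun c : K => ∏ t ∈ S, f t (e t c)) = fun c => (fun z : S → B => ∏ t : S, f t (z t)) (φ c) := by
    funext c
    rw [← Finset.prod_coe_sort S fun t => f t (e t c)]
    exact prod_congr rfl fun t _ => by rw [hφ]
  rw [h1, av_hom φ hsurj (fun z : S → B => ∏ t : S, f t (z t)), av_pi (fun (t : S) => f t)]
  exact Finset.prod_coe_sort S fun t => av (f t)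

/-- the value at `a` is independent of the values at few other points -/
lemma av_sep (h : Sep e A m) (a : ι) (ha : a ∈ A) (g : B → ℝ) (ψ : ι → B → ℝ) {k : ℕ} (hk : k + 1 ≤ m) (b : Fin k → ι)
    (hbA : ∀ j, b j ∈ A) (hb : ∀ j, b j ≠ a) :
    av (fun c : K => g (e a c) * ∏ j, ψ (b j) (e (b j) c)) = av g * av (fun c : K => ∏ j, ψ (b j) (e (b j) c)) := by
  classical
  obtain ⟨S, hS⟩ : ∃ S : Finset ι, S = univ.image b := ⟨_, rfl⟩
  have hScard : S.card ≤ k := by
    rw [hS]
    exact card_image_le.trans (by rw [card_univ, Fintype.card_fin])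
  have hSA : S ⊆ A := by
    intro t ht
    rw [hS, mem_image] at ht
    obtain ⟨j, _, rfl⟩ := ht
    exact hbA j
  have haS : a ∉ S := by
    rw [hS, mem_image]
    rintro ⟨j, _, hj⟩
    exact hb j hj
  obtain ⟨q, hq⟩ : ∃ q : ι → ℕ, ∀ t, q t = (univ.filter fun j => b j = t).card := ⟨_, fun _ => rfl⟩
  have hfib : ∀ h : ι → ℝ, ∏ j, h (b j) = ∏ t ∈ S, h t ^ q t := by
    intro h
    have h1 : ∀ j ∈ (univ : Finset (Fin k)), b j ∈ S := fun j _ => by
      rw [hS]
      exact mem_image_of_mem b (mem_univ j)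
    rw [← prod_fiberwise_of_maps_to h1]
    refine prod_congr rfl fun t _ => ?_
    have h2 : ∀ j ∈ univ.filter (fun j => b j = t), h (b j) = h t := fun j hj => by rw [(mem_filter.1 hj).2]
    rw [prod_congr rfl h2, prod_const, hq]
  have h1 : (fun c : K => ∏ j, ψ (b j) (e (b j) c)) = fun c => ∏ t ∈ S, (fun t z => ψ t z ^ q t) t (e t c) := by
    funext c
    exact hfib fun t => ψ t (e t c)
  have h2 : (fun c : K => g (e a c) * ∏ j, ψ (b j) (e (b j) c)) =
      fun c => ∏ t ∈ insert a S, (fun t z => if t = a then g z else ψ t z ^ q t) t (e t c) := by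
    funext c
    rw [prod_insert haS, hfib fun t => ψ t (e t c)]
    show _ = (if a = a then g (e a c) else ψ a (e a c) ^ q a) * _
    rw [if_pos rfl]
    congr 1
    refine prod_congr rfl fun t ht => ?_
    show _ = if t = a then g (e t c) else ψ t (e t c) ^ q t
    have hta : t ≠ a := fun h => haS (h ▸ ht)
    rw [if_neg hta]
  rw [h1, h2, av_ind h S hSA (by omega) (fun t z => ψ t z ^ q t),
    av_ind h (insert a S) (insert_subset ha hSA) (by rw [card_insert_of_notMem haS]; omega)
      (fun t z => if t = a then g z else ψ t z ^ q t), prod_insert haS]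
  congr 1
  · refine congrArg av ?_
    funext z
    rw [if_pos rfl]
  · refine prod_congr rfl fun t ht => congrArg av ?_
    funext z
    have hta : t ≠ a := fun h => haS (h ▸ ht)
    show (if t = a then g z else ψ t z ^ q t) = _
    rw [if_neg hta]

/-- the sum over the points of `A` -/
noncomputable def sm (e : ι → K →+ B) (A : Finset ι) (ψ : ι → B → ℝ) (c : K) : ℝ := ∑ t ∈ A, ψ t (e t c)

lemma sm_sep (h : Sep e A m) (a : ι) (ha : a ∈ A) (g : B → ℝ) (ψ : ι → B → ℝ) {k : ℕ} (hk : k + 1 ≤ m) (A' : Finset ι) (hA' : A' ⊆ A)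
    (haA : a ∉ A') : av (fun c : K => g (e a c) * sm e A' ψ c ^ k) = av g * av (fun c : K => sm e A' ψ c ^ k) := by
  classical
  have hexp : ∀ c : K, sm e A' ψ c ^ k = ∑ b ∈ Fintype.piFinset fun _ : Fin k => A', ∏ j, ψ (b j) (e (b j) c) := by
    intro c
    have h2 := prod_univ_sum (fun _ : Fin k => A') (fun _ t => ψ t (e t c))
    rw [prod_const, card_univ, Fintype.card_fin] at h2
    unfold sm
    rw [h2]
  simp only [hexp, mul_sum]
  rw [av_sum, av_sum, mul_sum]
  refine sum_congr rfl fun b hb => ?_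
  rw [Fintype.mem_piFinset] at hb
  exact av_sep h a ha g ψ hk b (fun j => hA' (hb j)) fun j h => haA (h ▸ hb j)

/-- the mean of a function of one value -/
lemma av_one (h : Sep e A m) (hm : 1 ≤ m) (a : ι) (ha : a ∈ A) (g : B → ℝ) : av (fun c : K => g (e a c)) = av g := by
  have h1 := av_ind h {a} (singleton_subset_iff.2 ha) (by rw [card_singleton]; exact hm) fun _ => g
  simp only [prod_singleton] at h1
  exact h1

lemma sm_one (h : Sep e A m) (hm : 1 ≤ m) (ψ : ι → B → ℝ) (h0 : ∀ t ∈ A, av (ψ t) = 0) : av (fun c : K => sm e A ψ c) = 0 := by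
  unfold sm
  rw [av_sum]
  exact sum_eq_zero fun t ht => by rw [av_one h hm t ht, h0 t ht]

lemma sm_two (h : Sep e A m) (hm : 2 ≤ m) (ψ : ι → B → ℝ) (h0 : ∀ t ∈ A, av (ψ t) = 0) :
    av (fun c : K => sm e A ψ c ^ 2) = ∑ t ∈ A, av (fun z => ψ t z ^ 2) := by
  classical
  induction A using Finset.induction_on with
  | empty =>
    simp only [sm, sum_empty]
    rw [zero_pow two_ne_zero, av_const]
  | insert a A ha ih =>
    have h1 : (fun c : K => sm e (insert a A) ψ c ^ 2) =
        fun c => ψ a (e a c) ^ 2 + (2 * (ψ a (e a c) * sm e A ψ c ^ 1) + sm e A ψ c ^ 2) := by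
      funext c
      have : sm e (insert a A) ψ c = ψ a (e a c) + sm e A ψ c := by
        unfold sm
        rw [sum_insert ha]
      rw [this]
      ring
    have haI := mem_insert_self a A
    rw [h1, av_add, av_add, av_mul, sm_sep h a haI (ψ a) ψ (by omega) A (subset_insert a A) ha, h0 a haI,
      av_one h (by omega) a haI (fun z => ψ a z ^ 2), ih (h.mono (subset_insert a A) le_rfl) fun t ht => h0 t (mem_insert_of_mem ht),
      sum_insert ha]
    ring

lemma sm_four (h : Sep e A m) (hm : 4 ≤ m) (ψ : ι → B → ℝ) (h0 : ∀ t ∈ A, av (ψ t) = 0) :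
    av (fun c : K => sm e A ψ c ^ 4) ≤
      ∑ t ∈ A, av (fun z => ψ t z ^ 4) + 3 * (∑ t ∈ A, av (fun z => ψ t z ^ 2)) ^ 2 := by
  classical
  induction A using Finset.induction_on with
  | empty =>
    simp only [sm, sum_empty]
    rw [zero_pow (by norm_num), av_const]
    norm_num
  | insert a A ha ih =>
    have h1 : (fun c : K => sm e (insert a A) ψ c ^ 4) =
        fun c => ψ a (e a c) ^ 4 + (4 * (ψ a (e a c) ^ 3 * sm e A ψ c ^ 1) + (6 * (ψ a (e a c) ^ 2 * sm e A ψ c ^ 2) +
          (4 * (ψ a (e a c) * sm e A ψ c ^ 3) + sm e A ψ c ^ 4))) := by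
      funext c
      have : sm e (insert a A) ψ c = ψ a (e a c) + sm e A ψ c := by
        unfold sm
        rw [sum_insert ha]
      rw [this]
      ring
    have haI := mem_insert_self a A
    have hsub := subset_insert a A
    have h' : Sep e A m := h.mono hsub le_rfl
    have h0' : ∀ t ∈ A, av (ψ t) = 0 := fun t ht => h0 t (mem_insert_of_mem ht)
    have h2 : av (fun c : K => sm e A ψ c ^ 1) = 0 := by
      simp only [pow_one]
      exact sm_one h' (by omega) ψ h0'
    rw [h1, av_add, av_add, av_add, av_add, av_mul, av_mul, av_mul, sm_sep h a haI (fun z => ψ a z ^ 3) ψ (by omega) A hsub ha,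
      sm_sep h a haI (fun z => ψ a z ^ 2) ψ (by omega) A hsub ha, sm_sep h a haI (ψ a) ψ (by omega) A hsub ha, h0 a haI, h2,
      av_one h (by omega) a haI (fun z => ψ a z ^ 4), sm_two h' (by omega) ψ h0', sum_insert ha, sum_insert ha]
    have h3 := sq_nonneg (av (fun z => ψ a z ^ 2))
    have := ih h' h0'
    nlinarith

end


end Pool.Agent.U309.ED.Sp4
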