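import Pool.Agent.U309.ED.HPow
import Pool.Agent.U309.ED.HPts

/-!
# Random members of linear systems of hypersurfaces: the system
-/

set_option autoImplicit false
set_option linter.unusedSectionVars false
set_option linter.unusedVariables false

namespace Pool.Agent.U309.ED.Hyp

open Finset Pool.Agent.U309.ED.Sp4
open Pool.Agent.Y722.HS (Mon mev mkMon mkMon_apply EM red EM_mono EM_const IsSmooth)
open Pool.Agent.Y722.LS (Fam EM_mul EM_add exists_disc card_zeros lform zform lform_cast)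
open Pool.Agent.N534.LL (liftp red_liftp)
open scoped LinearAlgebra.Projectivization

/-! ### smoothness -/

/-- the hypersurface `F = 0` is smooth over the field `K` -/
def Smooth {w : ℕ} (K : Type) [Field K] (F : MvPolynomial (Fin (w + 2)) ℤ) : Prop :=
  ∀ x : Fin (w + 2) → K, x ≠ 0 → MvPolynomial.aeval x F = 0 → ∃ i, MvPolynomial.aeval x (MvPolynomial.pderiv i F) ≠ 0

/-- the hypersurface `F = 0` is smooth modulo `p` -/
def SmoothMod {w : ℕ} (F : MvPolynomial (Fin (w + 2)) ℤ) (p : ℕ) : Prop :=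
  ∀ (K : Type) [Field K] [CharP K p], Smooth K F

theorem aeval_map {w : ℕ} (K : Type) [Field K] (F : MvPolynomial (Fin (w + 2)) ℤ) (x : Fin (w + 2) → K) :
    MvPolynomial.aeval x F = MvPolynomial.eval x (MvPolynomial.map (Int.castRingHom K) F) := by
  rw [MvPolynomial.eval_map, MvPolynomial.aeval_def]
  rfl

theorem aeval_pderiv {w : ℕ} (K : Type) [Field K] (F : MvPolynomial (Fin (w + 2)) ℤ) (x : Fin (w + 2) → K) (i : Fin (w + 2)) :
    MvPolynomial.aeval x (MvPolynomial.pderiv i F) =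
      MvPolynomial.eval x (MvPolynomial.pderiv i (MvPolynomial.map (Int.castRingHom K) F)) := by
  rw [aeval_map, MvPolynomial.pderiv_map]

theorem smooth_iff {w : ℕ} (K : Type) [Field K] (F : MvPolynomial (Fin (w + 2)) ℤ) :
    Smooth K F ↔ IsSmooth (n := w + 1) (MvPolynomial.map (Int.castRingHom K) F) := by
  unfold Smooth IsSmooth
  constructor
  · intro h x hx h0
    obtain ⟨i, hi⟩ := h x hx (by rw [aeval_map]; exact h0)
    exact ⟨i, by rw [← aeval_pderiv]; exact hi⟩
  · intro h x hx h0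
    obtain ⟨i, hi⟩ := h x hx (by rw [← aeval_map]; exact h0)
    exact ⟨i, by rw [aeval_pderiv]; exact hi⟩

variable {w : ℕ} {J : Type} [Fintype J] [DecidableEq J] {d : J → ℕ}

/-- the members of the basis of the linear system -/
noncomputable def bs (g : J → MvPolynomial (Fin (w + 2)) ℤ) (x : Idx (w + 1) d) : MvPolynomial (Fin (w + 2)) ℤ :=
  g x.1 * ∏ i, MvPolynomial.X i ^ (x.2.1 i : ℕ)

theorem fam_eq (g : J → MvPolynomial (Fin (w + 2)) ℤ) (c : Idx (w + 1) d → ℤ) : fam g c = zform (n := w + 1) (bs g) c := by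
  unfold fam zform bs
  rw [Fintype.sum_sigma]
  refine Finset.sum_congr rfl fun j _ => ?_
  rw [Finset.mul_sum]
  exact Finset.sum_congr rfl fun ν _ => by ring

theorem bs_hom {g : J → MvPolynomial (Fin (w + 2)) ℤ} {a : J → ℕ} {δ : ℕ} (hg : ∀ j, (g j).IsHomogeneous (a j))
    (hδ : ∀ j, a j + d j = δ) (x : Idx (w + 1) d) : (bs g x).IsHomogeneous δ := by
  unfold bs
  rw [← hδ x.1]
  refine (hg x.1).mul ?_
  have h1 : (∏ i, MvPolynomial.X i ^ (x.2.1 i : ℕ) : MvPolynomial (Fin (w + 2)) ℤ).IsHomogeneous (∑ i, (x.2.1 i : ℕ)) :=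
    MvPolynomial.IsHomogeneous.prod _ _ _ fun i _ => MvPolynomial.isHomogeneous_X_pow i _
  rwa [x.2.2] at h1

theorem map_fam (g : J → MvPolynomial (Fin (w + 2)) ℤ) (K : Type) [Field K] (c : Idx (w + 1) d → ℤ) :
    MvPolynomial.map (Int.castRingHom K) (fam g c) = lform (n := w + 1) (bs g) (fun x => (c x : K)) := by
  rw [fam_eq, lform_cast]

theorem cast_eq {p : ℕ} (K : Type) [Field K] [CharP K p] {ι : Type} {c c' : ι → ℤ} (h : red p c = red p c') :
    (fun x => (c x : K)) = fun x => (c' x : K) := by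
  funext x
  have h1 := congrFun h x
  unfold red at h1
  rw [ZMod.intCast_eq_intCast_iff_dvd_sub] at h1
  have h2 := (CharP.intCast_eq_zero_iff K p (c' x - c x)).mpr h1
  push_cast at h2
  exact (sub_eq_zero.mp h2).symm

theorem map_fam_eq (g : J → MvPolynomial (Fin (w + 2)) ℤ) {p : ℕ} (K : Type) [Field K] [CharP K p]
    {c c' : Idx (w + 1) d → ℤ} (h : red p c = red p c') :
    MvPolynomial.map (Int.castRingHom K) (fam g c) = MvPolynomial.map (Int.castRingHom K) (fam g c') := by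
  rw [map_fam, map_fam, cast_eq K h]

theorem smoothMod_eq (g : J → MvPolynomial (Fin (w + 2)) ℤ) {p : ℕ} {c c' : Idx (w + 1) d → ℤ} (h : red p c = red p c') :
    SmoothMod (fam g c) p ↔ SmoothMod (fam g c') p := by
  unfold SmoothMod
  constructor
  · intro h1 K _ _
    rw [smooth_iff, ← map_fam_eq g K h, ← smooth_iff]
    exact h1 K
  · intro h1 K _ _
    rw [smooth_iff, map_fam_eq g K h, ← smooth_iff]
    exact h1 K

theorem cnt_cong (g : J → MvPolynomial (Fin (w + 2)) ℤ) {p : ℕ} (K : Type) [Field K] [CharP K p]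
    {c c' : Idx (w + 1) d → ℤ} (h : red p c = red p c') : cnt K (fam g c) = cnt K (fam g c') := by
  unfold cnt
  have h1 : ∀ P : ℙ K (Fin (w + 2) → K), MvPolynomial.aeval P.rep (fam g c) = MvPolynomial.aeval P.rep (fam g c') := by
    intro P
    rw [aeval_map, aeval_map, map_fam_eq g K h]
  simp only [h1]

/-! ### the discriminant -/

theorem exists_bad {g : J → MvPolynomial (Fin (w + 2)) ℤ} {a : J → ℕ} {δ : ℕ} (hg : ∀ j, (g j).IsHomogeneous (a j))
    (hδ : ∀ j, a j + d j = δ) (hδ1 : 1 ≤ δ) (c0 : Idx (w + 1) d → ℤ) (hs : Smooth ℂ (fam g c0)) :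
    ∃ P : MvPolynomial (Idx (w + 1) d) ℤ, MvPolynomial.eval c0 P ≠ 0 ∧ ∀ (p : ℕ) [Fact p.Prime] (c : Idx (w + 1) d → ℤ),
      MvPolynomial.eval₂ (Int.castRingHom (ZMod p)) (red p c) P ≠ 0 → SmoothMod (fam g c) p := by
  obtain ⟨P, hP0, hP⟩ := exists_disc (n := w + 1) (bs g) hδ1 (bs_hom hg hδ) c0 (by
    rw [← map_fam, ← smooth_iff]
    exact hs)
  refine ⟨P, hP0, fun p _ c hc K _ _ => ?_⟩
  rw [smooth_iff, map_fam]
  apply hP
  have h2 : MvPolynomial.eval₂ (Int.castRingHom K) (fun x => (c x : K)) P =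
      ZMod.castHom (dvd_refl p) K (MvPolynomial.eval₂ (Int.castRingHom (ZMod p)) (red p c) P) := by
    rw [MvPolynomial.eval₂_comp_left, RingHom.ext_int ((ZMod.castHom (dvd_refl p) K).comp (Int.castRingHom (ZMod p)))
      (Int.castRingHom K)]
    congr 1
    funext x
    simp [red]
  rw [h2]
  intro h3
  exact hc ((map_eq_zero _).mp h3)

open Classical in
/-- the indicator of the bad classes -/
noncomputable def BH (P : MvPolynomial (Idx (w + 1) d) ℤ) (p : ℕ) (r : Idx (w + 1) d → ZMod p) : ℝ :=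
  if MvPolynomial.eval₂ (Int.castRingHom (ZMod p)) r P = 0 then 1 else 0

open Classical in
/-- the main term -/
noncomputable def NH (g : J → MvPolynomial (Fin (w + 2)) ℤ) (sgn : ℝ) (p : ℕ) (r : Idx (w + 1) d → ZMod p) : ℝ :=
  if hp : p.Prime then (sgn / (p : ℝ) ^ (1 + (w : ℝ) / 2)) * (haveI := Fact.mk hp; HH g p r) else 0

theorem NH_eq (g : J → MvPolynomial (Fin (w + 2)) ℤ) (sgn : ℝ) (p : ℕ) [hp : Fact p.Prime] (r : Idx (w + 1) d → ZMod p) :
    NH g sgn p r = (sgn / (p : ℝ) ^ (1 + (w : ℝ) / 2)) * HH g p r := by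
  unfold NH
  rw [dif_pos hp.out]

/-! ### moments -/

theorem EM_av {ι : Type} [Fintype ι] [DecidableEq ι] (p : ℕ) [hp : Fact p.Prime] (f : (ι → ZMod p) → ℝ) : EM p f = av f := by
  unfold EM av
  rw [Fintype.card_fun, ZMod.card]
  push_cast
  rfl

theorem card_proj (p : ℕ) [hp : Fact p.Prime] :
    (Nat.card (ℙ (ZMod p) (Fin (w + 2) → ZMod p)) : ℝ) = ∑ i ∈ Finset.range (w + 2), (p : ℝ) ^ i := by
  rw [Projectivization.card_of_finrank (ZMod p) (Fin (w + 2) → ZMod p) (n := w + 2) (by simp), Nat.card_zmod]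
  push_cast
  rfl

theorem card_le (g : J → MvPolynomial (Fin (w + 2)) ℤ) (p : ℕ) [hp : Fact p.Prime] :
    ((AA (n := w + 1) g p).card : ℝ) ≤ 2 * (p : ℝ) ^ (w + 1) := by
  have hp2 : (2 : ℝ) ≤ p := by exact_mod_cast hp.out.two_le
  rw [card_AA (n := w + 1), card_proj]
  have h1 : (0 : ℝ) ≤ (bas (n := w + 1) (ZMod p) g : ℝ) := Nat.cast_nonneg _
  have h2 : ∀ m : ℕ, ∑ i ∈ Finset.range (m + 1), (p : ℝ) ^ i ≤ 2 * (p : ℝ) ^ m := by
    intro m
    induction m with
    | zero => simp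
    | succ m ih =>
      rw [Finset.sum_range_succ, pow_succ]
      have : 0 < (p : ℝ) ^ m := by positivity
      nlinarith
  have h3 := h2 (w + 1)
  linarith

theorem card_ge (g : J → MvPolynomial (Fin (w + 2)) ℤ) (p : ℕ) [hp : Fact p.Prime] :
    (p : ℝ) ^ (w + 1) - (bas (n := w + 1) (ZMod p) g : ℝ) ≤ ((AA (n := w + 1) g p).card : ℝ) := by
  rw [card_AA (n := w + 1), card_proj, Finset.sum_range_succ]
  have h1 : (0 : ℝ) ≤ ∑ i ∈ Finset.range (w + 1), (p : ℝ) ^ i := by positivity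
  linarith

section
variable (g : J → MvPolynomial (Fin (w + 2)) ℤ) (hd : ∀ j, 3 ≤ d j) (p : ℕ) [hp : Fact p.Prime]
include hd

theorem HH_one : av (fun r : Idx (w + 1) d → ZMod p => HH g p r) = 0 :=
  sm_one (sep_AA (d := d) g p (m := 4) fun j => by have := hd j; omega) (by norm_num) (fun _ => ph p) fun _ _ => ph_one p

theorem HH_two : av (fun r : Idx (w + 1) d → ZMod p => HH g p r ^ 2) = ((AA (n := w + 1) g p).card : ℝ) * (1 / p * (1 - 1 / p)) := by
  have h1 := sm_two (sep_AA (d := d) g p (m := 4) fun j => by have := hd j; omega) (by norm_num) (fun _ => ph p) fun _ _ => ph_one p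
  rw [Finset.sum_congr rfl fun _ _ => ph_two p, Finset.sum_const, nsmul_eq_mul] at h1
  exact h1

theorem HH_four : av (fun r : Idx (w + 1) d → ZMod p => HH g p r ^ 4) ≤
    ((AA (n := w + 1) g p).card : ℝ) * (1 / p) + 3 * (((AA (n := w + 1) g p).card : ℝ) * (1 / p)) ^ 2 := by
  have hp0 : (0 : ℝ) < p := by exact_mod_cast hp.out.pos
  have h1 := sm_four (sep_AA (d := d) g p (m := 4) fun j => by have := hd j; omega) (by norm_num) (fun _ => ph p) fun _ _ => ph_one p
  have h2 : av (fun z => ph p z ^ 4) ≤ 1 / p := (le_abs_self _).trans (ph_high p 4 (by norm_num))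
  have h3 : av (fun z => ph p z ^ 2) ≤ 1 / p := (le_abs_self _).trans (ph_high p 2 (by norm_num))
  have h4 : 0 ≤ av (fun z => ph p z ^ 2) := by
    unfold av
    positivity
  rw [Finset.sum_const, Finset.sum_const, nsmul_eq_mul, nsmul_eq_mul] at h1
  refine h1.trans ?_
  gcongr

end

end Pool.Agent.U309.ED.Hyp
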