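import Pool.Agent.U309.ED.HSys

/-!
# Random members of linear systems of hypersurfaces: moments and power sums
-/

set_option autoImplicit false
set_option linter.unusedSectionVars false
set_option linter.unusedVariables false

namespace Pool.Agent.U309.ED.Hyp

open Finset Pool.Agent.U309.ED.Sp4
open Pool.Agent.Y722.HS (Mon mev mkMon mkMon_apply EM red EM_mono EM_const IsSmooth)
open Pool.Agent.Y722.LS (Fam EM_mul EM_add exists_disc card_zeros lform zform lform_cast)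
open Pool.Agent.N534.LL (liftp red_liftp)
open scoped LinearAlgebra.Projectivization

variable {w : ℕ} {J : Type} [Fintype J] [DecidableEq J] {d : J → ℕ}

theorem qq (w p : ℕ) [hp : Fact p.Prime] : ((p : ℝ) ^ (1 + (w : ℝ) / 2)) ^ 2 = (p : ℝ) ^ (w + 2) := by
  have hp0 : (0 : ℝ) < p := by exact_mod_cast hp.out.pos
  rw [← Real.rpow_natCast, ← Real.rpow_mul hp0.le, ← Real.rpow_natCast]
  congr 1
  push_cast
  ring

theorem sgn_sq {sgn : ℝ} (hs : sgn = 1 ∨ sgn = -1) : sgn ^ 2 = 1 := by rcases hs with rfl | rfl <;> norm_num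

section
variable (g : J → MvPolynomial (Fin (w + 2)) ℤ) (hd : ∀ j, 3 ≤ d j) {sgn : ℝ} (hs : sgn = 1 ∨ sgn = -1)
include hd hs

theorem NH_two (p : ℕ) [hp : Fact p.Prime] : EM p (fun r : Idx (w + 1) d → ZMod p => NH g sgn p r ^ 2) =
    (((AA (n := w + 1) g p).card : ℝ) * (1 / p * (1 - 1 / p))) / (p : ℝ) ^ (w + 2) := by
  have e1 : (fun r : Idx (w + 1) d → ZMod p => NH g sgn p r ^ 2) =
      fun r => (1 / (p : ℝ) ^ (w + 2)) * HH g p r ^ 2 := by
    funext r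
    rw [NH_eq, mul_pow, div_pow, sgn_sq hs, qq]
  rw [e1, EM_mul, EM_av, HH_two g hd p]
  ring

theorem NH_le (p : ℕ) [hp : Fact p.Prime] : EM p (fun r : Idx (w + 1) d → ZMod p => NH g sgn p r ^ 2) ≤ 2 / (p : ℝ) ^ 2 := by
  have hp2 : (2 : ℝ) ≤ p := by exact_mod_cast hp.out.two_le
  have hp0 : (0 : ℝ) < p := by linarith
  rw [NH_two g hd hs p]
  have h1 := card_le g p
  have h2 : 1 / (p : ℝ) * (1 - 1 / p) ≤ 1 / p := by
    have : 0 ≤ 1 / (p : ℝ) := by positivity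
    nlinarith
  have h3 : 0 ≤ 1 / (p : ℝ) * (1 - 1 / p) := by
    have h4 : 1 / (p : ℝ) ≤ 1 / 2 := one_div_le_one_div_of_le (by norm_num) hp2
    have : 0 ≤ 1 / (p : ℝ) := by positivity
    nlinarith
  calc _ ≤ (2 * (p : ℝ) ^ (w + 1) * (1 / p)) / (p : ℝ) ^ (w + 2) :=
        div_le_div_of_nonneg_right (mul_le_mul h1 h2 h3 (by positivity)) (by positivity)
    _ = 2 / (p : ℝ) ^ 2 := by
      field_simp
      ring

theorem NH_ge {Cb : ℝ} (p : ℕ) [hp : Fact p.Prime] (hb : (bas (n := w + 1) (ZMod p) g : ℝ) ≤ Cb * (p : ℝ) ^ ((w : ℝ) / 2))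
    (hpC : 2 * Cb ≤ p) (hC0 : 0 ≤ Cb) :
    1 / 4 / (p : ℝ) ^ 2 ≤ EM p (fun r : Idx (w + 1) d → ZMod p => NH g sgn p r ^ 2) := by
  have hp2 : (2 : ℝ) ≤ p := by exact_mod_cast hp.out.two_le
  have hp0 : (0 : ℝ) < p := by linarith
  rw [NH_two g hd hs p]
  have h1 := card_ge g p
  have h2 : 1 / (p : ℝ) * (1 / 2) ≤ 1 / (p : ℝ) * (1 - 1 / p) := by
    have h3 : 1 / (p : ℝ) ≤ 1 / 2 := one_div_le_one_div_of_le (by norm_num) hp2
    have : 0 ≤ 1 / (p : ℝ) := by positivity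
    nlinarith
  have h4 : (p : ℝ) ^ ((w : ℝ) / 2) ≤ (p : ℝ) ^ w := by
    rw [← Real.rpow_natCast]
    refine Real.rpow_le_rpow_of_exponent_le (by linarith) ?_
    have : (0 : ℝ) ≤ w := by positivity
    linarith
  have h5 : 0 < (p : ℝ) ^ w := by positivity
  have h6 : (p : ℝ) ^ (w + 1) / 2 ≤ ((AA (n := w + 1) g p).card : ℝ) := by
    have h7 : (p : ℝ) ^ (w + 1) = (p : ℝ) ^ w * p := pow_succ _ _
    have h8 : Cb * (p : ℝ) ^ ((w : ℝ) / 2) ≤ Cb * (p : ℝ) ^ w := by gcongr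
    have h9 : Cb * (p : ℝ) ^ w ≤ (p : ℝ) ^ (w + 1) / 2 := by
      rw [h7]
      nlinarith
    linarith
  calc 1 / 4 / (p : ℝ) ^ 2 = ((p : ℝ) ^ (w + 1) / 2 * (1 / p * (1 / 2))) / (p : ℝ) ^ (w + 2) := by
        field_simp
        ring
    _ ≤ _ := by gcongr

theorem NH_four (p : ℕ) [hp : Fact p.Prime] : EM p (fun r : Idx (w + 1) d → ZMod p => NH g sgn p r ^ 4) ≤ 14 / (p : ℝ) ^ 4 := by
  have hp2 : (2 : ℝ) ≤ p := by exact_mod_cast hp.out.two_le
  have hp0 : (0 : ℝ) < p := by linarith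
  have e1 : (fun r : Idx (w + 1) d → ZMod p => NH g sgn p r ^ 4) =
      fun r => (1 / ((p : ℝ) ^ (w + 2)) ^ 2) * HH g p r ^ 4 := by
    funext r
    have e2 : NH g sgn p r ^ 4 = (NH g sgn p r ^ 2) ^ 2 := by ring
    rw [e2, NH_eq, mul_pow, div_pow, sgn_sq hs, qq]
    ring
  rw [e1, EM_mul, EM_av]
  have h1 := HH_four g hd p
  have h2 := card_le g p
  have h3 : ((AA (n := w + 1) g p).card : ℝ) * (1 / p) ≤ 2 * (p : ℝ) ^ w := by
    calc _ ≤ 2 * (p : ℝ) ^ (w + 1) * (1 / p) := by gcongr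
      _ = _ := by
        rw [pow_succ]
        field_simp
  have h4 : (1 : ℝ) ≤ (p : ℝ) ^ w := one_le_pow₀ (by linarith)
  have h5 : 0 ≤ ((AA (n := w + 1) g p).card : ℝ) * (1 / p) := by positivity
  have h6 : av (fun r : Idx (w + 1) d → ZMod p => HH g p r ^ 4) ≤ 14 * ((p : ℝ) ^ w) ^ 2 := by
    have h7 : (((AA (n := w + 1) g p).card : ℝ) * (1 / p)) ^ 2 ≤ (2 * (p : ℝ) ^ w) ^ 2 := by gcongr
    nlinarith
  calc _ ≤ (1 / ((p : ℝ) ^ (w + 2)) ^ 2) * (14 * ((p : ℝ) ^ w) ^ 2) := by gcongr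
    _ = _ := by
      field_simp
      ring

theorem fam_NH (P : MvPolynomial (Idx (w + 1) d) ℤ) (c0 : Idx (w + 1) d → ℤ) (hP : MvPolynomial.eval c0 P ≠ 0) :
    Fam (2 + P.totalDegree + |(MvPolynomial.eval c0 P : ℝ)|) (NH g sgn) (BH P) := by
  classical
  have hdeg0 : (0 : ℝ) ≤ P.totalDegree := by positivity
  have hev0 : (0 : ℝ) ≤ |(MvPolynomial.eval c0 P : ℝ)| := abs_nonneg _
  refine ⟨by linarith, ?_, ?_, ?_, ?_, ?_⟩
  · intro p hpF
    have hp0 : (0 : ℝ) < p := by exact_mod_cast hpF.out.pos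
    refine (NH_le g hd hs p).trans ?_
    gcongr
    linarith
  · intro p hpF
    have hp0 : (0 : ℝ) < p := by exact_mod_cast hpF.out.pos
    have e1 : (fun r : Idx (w + 1) d → ZMod p => NH g sgn p r) = fun r => (sgn / (p : ℝ) ^ (1 + (w : ℝ) / 2)) * HH g p r := by
      funext r
      exact NH_eq g sgn p r
    rw [e1, EM_mul, EM_av, HH_one g hd p, mul_zero, abs_zero]
    positivity
  · intro p c
    unfold BH
    split_ifs <;> norm_num
  · intro p c
    unfold BH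
    split_ifs <;> norm_num
  · intro p hpF
    have hp := hpF.out
    have hp0 : (0 : ℝ) < p := by exact_mod_cast hp.pos
    have hle1 : EM p (fun c : Idx (w + 1) d → ZMod p => BH P p c) ≤ 1 := by
      rw [← EM_const (ι := Idx (w + 1) d) p 1]
      apply EM_mono
      intro c
      unfold BH
      split_ifs <;> norm_num
    by_cases hdvd : (p : ℤ) ∣ MvPolynomial.eval c0 P
    · refine hle1.trans ?_
      rw [le_div_iff₀ hp0, one_mul]
      have h1 : (p : ℤ) ≤ |MvPolynomial.eval c0 P| :=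
        Int.le_of_dvd (abs_pos.mpr hP) ((dvd_abs _ _).mpr hdvd)
      have h2 : (p : ℝ) ≤ |(MvPolynomial.eval c0 P : ℝ)| := by exact_mod_cast h1
      linarith
    · have h1 := card_zeros P c0 p hdvd
      have h2 : ∑ c : Idx (w + 1) d → ZMod p, BH P p c = ((Nat.card {c : Idx (w + 1) d → ZMod p //
          MvPolynomial.eval₂ (Int.castRingHom (ZMod p)) c P = 0} : ℕ) : ℝ) := by
        rw [Nat.card_eq_fintype_card, Fintype.card_subtype]
        simp [BH]
      have hM : (0 : ℝ) < (p : ℝ) ^ Fintype.card (Idx (w + 1) d) := by positivity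
      unfold EM
      rw [h2, div_le_div_iff₀ hM hp0]
      refine h1.trans ?_
      gcongr
      linarith

end

/-! ### power sums -/

/-- the eigenvalues of the Frobenius at the primes of good reduction -/
structure Frob (g : J → MvPolynomial (Fin (w + 2)) ℤ) (sgn ω : ℝ) {b : ℕ}
    (α : (Idx (w + 1) d → ℤ) → ℕ → Fin b → ℂ) : Prop where
  bound : ∀ c p, p.Prime → SmoothMod (fam g c) p → ∀ j, ‖α c p j‖ ≤ (p : ℝ) ^ ((w : ℝ) / 2)
  count : ∀ c p, p.Prime → SmoothMod (fam g c) p → ∀ k : ℕ, 1 ≤ k → ∀ (L : Type) [Field L], Nat.card L = p ^ k →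
    ∑ j, α c p j ^ k = ((sgn * ((cnt (n := w + 1) L (fam g c) : ℝ) - ∑ i ∈ Finset.range (w + 1), ((p : ℝ) ^ k) ^ i) +
      ω * (p : ℝ) ^ ((k : ℝ) * ((w : ℝ) / 2)) : ℝ) : ℂ)

open Classical in
/-- the traces, without their means -/
noncomputable def TH (g : J → MvPolynomial (Fin (w + 2)) ℤ) (sgn ω : ℝ) (β : ℕ → ℝ) {b : ℕ}
    (α : (Idx (w + 1) d → ℤ) → ℕ → Fin b → ℂ) (p k : ℕ) (r : Idx (w + 1) d → ZMod p) : ℝ :=
  (if SmoothMod (fam g (liftp r)) p then (∑ j, α (liftp r) p j ^ k).re else 0) - ω * (p : ℝ) ^ ((k : ℝ) * ((w : ℝ) / 2)) -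
    (if k = 1 then sgn * β p else 0)

section
variable {g : J → MvPolynomial (Fin (w + 2)) ℤ} {sgn ω : ℝ} {b : ℕ} {α : (Idx (w + 1) d → ℤ) → ℕ → Fin b → ℂ}

theorem charP_of_card {p k : ℕ} (hp : p.Prime) (hk : 1 ≤ k) (L : Type) [Field L] (hL : Nat.card L = p ^ k) : CharP L p := by
  have h0 : Nat.card L ≠ 0 := by
    rw [hL]
    exact pow_ne_zero _ hp.ne_zero
  have hfin : Finite L := Nat.finite_of_card_ne_zero h0
  have hft : Fintype L := Fintype.ofFinite L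
  obtain ⟨q, hq⟩ := CharP.exists L
  have hqp : q.Prime := (CharP.char_is_prime_or_zero L q).resolve_right (by
    rintro rfl
    have := CharP.charP_to_charZero L
    exact (Infinite.not_finite (α := L)) hfin)
  have hF : Fact q.Prime := ⟨hqp⟩
  obtain ⟨n, hn1, hn2⟩ := FiniteField.card L q
  have h1 : q ∣ p ^ k := by
    rw [← hL, Nat.card_eq_fintype_card, hn2]
    exact dvd_pow_self q n.ne_zero
  have h2 : q = p := (Nat.prime_dvd_prime_iff_eq hqp hp).mp (hqp.dvd_of_dvd_pow h1)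
  rw [← h2]
  exact hq

/-- the power sums depend on the residue class -/
theorem sum_pow_eq (h : Frob g sgn ω α) {p : ℕ} [hp : Fact p.Prime] {c c' : Idx (w + 1) d → ℤ} (hc : red p c = red p c')
    (hsm : SmoothMod (fam g c) p) {k : ℕ} (hk : 1 ≤ k) : ∑ j, α c p j ^ k = ∑ j, α c' p j ^ k := by
  have hcard : Nat.card (GaloisField p k) = p ^ k := GaloisField.card p k (by omega)
  have hchar := charP_of_card hp.out hk (GaloisField p k) hcard
  rw [h.count c p hp.out hsm k hk (GaloisField p k) hcard,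
    h.count c' p hp.out ((smoothMod_eq g hc).mp hsm) k hk (GaloisField p k) hcard, cnt_cong g (GaloisField p k) hc]

theorem TH_good (h : Frob g sgn ω α) (β : ℕ → ℝ) {p : ℕ} [hp : Fact p.Prime] (c : Idx (w + 1) d → ℤ)
    (hsm : SmoothMod (fam g c) p) {k : ℕ} (hk : 1 ≤ k) : (TH g sgn ω β α p k (red p c) : ℂ) =
      ∑ j, α c p j ^ k - ω * (((p : ℝ) ^ ((w : ℝ) / 2) : ℝ) : ℂ) ^ k - (if k = 1 then (sgn : ℂ) * β p else 0) := by
  have hp0 : (0 : ℝ) < p := by exact_mod_cast hp.out.pos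
  have hred : red p c = red p (liftp (red p c)) := (red_liftp p _).symm
  have hsm' := (smoothMod_eq g hred).mp hsm
  have hcard : Nat.card (GaloisField p k) = p ^ k := GaloisField.card p k (by omega)
  unfold TH
  rw [if_pos hsm', ← sum_pow_eq h hred hsm hk, h.count c p hp.out hsm k hk (GaloisField p k) hcard, Complex.ofReal_re]
  have e1 : (((p : ℝ) ^ ((k : ℝ) * ((w : ℝ) / 2)) : ℝ) : ℂ) = (((p : ℝ) ^ ((w : ℝ) / 2) : ℝ) : ℂ) ^ k := by
    rw [← Complex.ofReal_pow, ← Real.rpow_natCast, ← Real.rpow_mul hp0.le]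
    congr 2
    ring
  rw [← e1]
  split_ifs <;> push_cast <;> ring

theorem TH_bad (β : ℕ → ℝ) {p : ℕ} [hp : Fact p.Prime] (c : Idx (w + 1) d → ℤ)
    (hsm : ¬ SmoothMod (fam g c) p) (k : ℕ) : (TH g sgn ω β α p k (red p c) : ℂ) =
      - ω * (((p : ℝ) ^ ((w : ℝ) / 2) : ℝ) : ℂ) ^ k - (if k = 1 then (sgn : ℂ) * β p else 0) := by
  have hp0 : (0 : ℝ) < p := by exact_mod_cast hp.out.pos
  have hred : red p c = red p (liftp (red p c)) := (red_liftp p _).symm
  have hsm' : ¬ SmoothMod (fam g (liftp (red p c))) p := fun h => hsm ((smoothMod_eq g hred).mpr h)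
  unfold TH
  rw [if_neg hsm']
  have e1 : (((p : ℝ) ^ ((k : ℝ) * ((w : ℝ) / 2)) : ℝ) : ℂ) = (((p : ℝ) ^ ((w : ℝ) / 2) : ℝ) : ℂ) ^ k := by
    rw [← Complex.ofReal_pow, ← Real.rpow_natCast, ← Real.rpow_mul hp0.le]
    congr 2
    ring
  rw [← e1]
  split_ifs <;> push_cast <;> ring

open Classical in
/-- **The power sums.** -/
theorem powN (h : Frob g sgn ω α) (hd : ∀ j, 3 ≤ d j) (hs : sgn = 1 ∨ sgn = -1) (hω : 0 ≤ ω) {β : ℕ → ℝ} {Cb : ℝ} (hCb : 0 ≤ Cb)
    (hβ : ∀ (p : ℕ) [Fact p.Prime], β p = bas (n := w + 1) (ZMod p) g)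
    (hβC : ∀ p : ℕ, p.Prime → β p ≤ Cb * (p : ℝ) ^ ((w : ℝ) / 2))
    (P : MvPolynomial (Idx (w + 1) d) ℤ) (c0 : Idx (w + 1) d → ℤ) (hP : MvPolynomial.eval c0 P ≠ 0)
    (hP2 : ∀ (p : ℕ) [Fact p.Prime] (c : Idx (w + 1) d → ℤ),
      MvPolynomial.eval₂ (Int.castRingHom (ZMod p)) (red p c) P ≠ 0 → SmoothMod (fam g c) p) :
    PowN (2 + P.totalDegree + |(MvPolynomial.eval c0 P : ℝ)|) (b + ω + Cb + 1) w (TH g sgn ω β α) (NH g sgn) (BH P) where
  D1 := by
    have : (0 : ℝ) ≤ b := by positivity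
    linarith
  bdk := by
    intro p hp k hk r
    have hp0 : (0 : ℝ) < p := by exact_mod_cast hp.out.pos
    have hp1 : (1 : ℝ) ≤ p := by exact_mod_cast hp.out.one_lt.le
    have hQ : 0 < (p : ℝ) ^ ((k : ℝ) * ((w : ℝ) / 2)) := by positivity
    have h1 : |(if SmoothMod (fam g (liftp r)) p then (∑ j, α (liftp r) p j ^ k).re else 0 : ℝ)| ≤
        b * (p : ℝ) ^ ((k : ℝ) * ((w : ℝ) / 2)) := by
      split_ifs with hsm
      · refine (Complex.abs_re_le_norm _).trans ((norm_sum_le _ _).trans ?_)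
        have h2 : ∀ j ∈ (Finset.univ : Finset (Fin b)), ‖α (liftp r) p j ^ k‖ ≤ (p : ℝ) ^ ((k : ℝ) * ((w : ℝ) / 2)) := by
          intro j _
          rw [norm_pow]
          have h3 := h.bound (liftp r) p hp.out hsm j
          calc _ ≤ ((p : ℝ) ^ ((w : ℝ) / 2)) ^ k := by gcongr
            _ = _ := by
              rw [← Real.rpow_natCast, ← Real.rpow_mul hp0.le]
              congr 1
              ring
        refine (Finset.sum_le_sum h2).trans ?_
        rw [Finset.sum_const, nsmul_eq_mul, Finset.card_univ, Fintype.card_fin]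
      · rw [abs_zero]
        positivity
    have hβ0 : 0 ≤ β p := by
      rw [hβ p]
      positivity
    have h2 : |(if k = 1 then sgn * β p else 0 : ℝ)| ≤ Cb * (p : ℝ) ^ ((k : ℝ) * ((w : ℝ) / 2)) := by
      split_ifs with hk1
      · have h3 : |sgn| = 1 := by rcases hs with rfl | rfl <;> norm_num
        rw [abs_mul, h3, one_mul, abs_of_nonneg hβ0, hk1, Nat.cast_one, one_mul]
        exact hβC p hp.out
      · rw [abs_zero]
        positivity
    have h3 : |ω * (p : ℝ) ^ ((k : ℝ) * ((w : ℝ) / 2))| = ω * (p : ℝ) ^ ((k : ℝ) * ((w : ℝ) / 2)) :=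
      abs_of_nonneg (by positivity)
    unfold TH
    refine (abs_sub _ _).trans ?_
    have h4 := abs_sub (if SmoothMod (fam g (liftp r)) p then (∑ j, α (liftp r) p j ^ k).re else 0 : ℝ)
      (ω * (p : ℝ) ^ ((k : ℝ) * ((w : ℝ) / 2)))
    have h5 : ((b : ℝ) + ω + Cb + 1) * (p : ℝ) ^ ((k : ℝ) * ((w : ℝ) / 2)) = b * (p : ℝ) ^ ((k : ℝ) * ((w : ℝ) / 2)) +
      ω * (p : ℝ) ^ ((k : ℝ) * ((w : ℝ) / 2)) + Cb * (p : ℝ) ^ ((k : ℝ) * ((w : ℝ) / 2)) +
      (p : ℝ) ^ ((k : ℝ) * ((w : ℝ) / 2)) := by ring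
    rw [h5]
    linarith
  near := by
    intro p hp r hr
    have hp0 : (0 : ℝ) < p := by exact_mod_cast hp.out.pos
    have hp1 : (1 : ℝ) ≤ p := by exact_mod_cast hp.out.one_lt.le
    have hred : red p (liftp r) = r := red_liftp p r
    have hne : MvPolynomial.eval₂ (Int.castRingHom (ZMod p)) r P ≠ 0 := by
      intro h0
      unfold BH at hr
      rw [if_pos h0] at hr
      exact one_ne_zero hr
    have hsm : SmoothMod (fam g (liftp r)) p := hP2 p (liftp r) (by rw [hred]; exact hne)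
    have hT := h.count (liftp r) p hp.out hsm 1 le_rfl (ZMod p) (by rw [Nat.card_zmod, pow_one])
    have hcnt := cnt_eq (n := w + 1) g p (liftp r)
    have hred' : (fun x : Idx (w + 1) d => ((liftp r x : ℤ) : ZMod p)) = r := hred
    rw [hred'] at hcnt
    have hcard := card_AA (n := w + 1) g p
    rw [card_proj] at hcard
    unfold TH
    rw [if_pos hsm, if_pos rfl, hT, Complex.ofReal_re, NH_eq, hβ p]
    have hsum : ∑ i ∈ Finset.range (w + 2), (p : ℝ) ^ i = 1 + p * ∑ i ∈ Finset.range (w + 1), (p : ℝ) ^ i := by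
      rw [Finset.sum_range_succ' _ (w + 1), Finset.mul_sum]
      simp only [pow_succ, pow_zero]
      rw [add_comm]
      congr 1
      exact Finset.sum_congr rfl fun i _ => by ring
    set S := ∑ i ∈ Finset.range (w + 1), (p : ℝ) ^ i with hS
    set bb0 : ℝ := (bas (n := w + 1) (ZMod p) g : ℝ) with hbb
    have e0 : ∑ i ∈ Finset.range (w + 1), ((p : ℝ) ^ 1) ^ i = S := by
      rw [pow_one]
    rw [e0]
    have e1 : (cnt (n := w + 1) (ZMod p) (fam g (liftp r)) : ℝ) - S = HH g p r + (1 - bb0) / p + bb0 := by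
      rw [hcnt, hcard, hsum]
      field_simp
      ring
    rw [e1]
    have e2 : (sgn * (HH g p r + (1 - bb0) / p + bb0) + ω * (p : ℝ) ^ (((1 : ℕ) : ℝ) * ((w : ℝ) / 2)) -
        ω * (p : ℝ) ^ (((1 : ℕ) : ℝ) * ((w : ℝ) / 2)) - sgn * bb0) / (p : ℝ) ^ (1 + (w : ℝ) / 2) -
        sgn / (p : ℝ) ^ (1 + (w : ℝ) / 2) * HH g p r = sgn * (1 - bb0) / (p * (p : ℝ) ^ (1 + (w : ℝ) / 2)) := by
      have hne' : (p : ℝ) ^ (1 + (w : ℝ) / 2) ≠ 0 := by positivity
      field_simp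
      ring
    rw [e2, abs_div, abs_of_pos (by positivity : (0 : ℝ) < p * (p : ℝ) ^ (1 + (w : ℝ) / 2))]
    have hbb0 : 0 ≤ bb0 := by positivity
    have hbb1 : bb0 ≤ Cb * (p : ℝ) ^ ((w : ℝ) / 2) := by
      rw [hbb, ← hβ p]
      exact hβC p hp.out
    have hQ : 1 ≤ (p : ℝ) ^ ((w : ℝ) / 2) := Real.one_le_rpow hp1 (by positivity)
    have h3 : |sgn| = 1 := by rcases hs with rfl | rfl <;> norm_num
    have h4 : |sgn * (1 - bb0)| ≤ (Cb + 1) * (p : ℝ) ^ ((w : ℝ) / 2) := by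
      rw [abs_mul, h3, one_mul, abs_le]
      constructor <;> nlinarith
    have h5 : (p : ℝ) ^ (1 + (w : ℝ) / 2) = p * (p : ℝ) ^ ((w : ℝ) / 2) := by
      rw [Real.rpow_add hp0, Real.rpow_one]
    rw [h5, div_le_div_iff₀ (by positivity) (by positivity)]
    have hb0 : (0 : ℝ) ≤ b := by positivity
    calc |sgn * (1 - bb0)| * (p : ℝ) ^ 2 ≤ ((Cb + 1) * (p : ℝ) ^ ((w : ℝ) / 2)) * (p : ℝ) ^ 2 := by gcongr
      _ ≤ (((b : ℝ) + ω + Cb + 1) * (p : ℝ) ^ ((w : ℝ) / 2)) * (p : ℝ) ^ 2 := by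
        gcongr
        linarith
      _ = _ := by ring
  hB := by
    intro p r
    unfold BH
    split_ifs
    · exact Or.inr rfl
    · exact Or.inl rfl
  fam := fam_NH g hd hs P c0 hP

end

end Pool.Agent.U309.ED.Hyp
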