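import Pool.Agent.U309.ED.Edge

/-!
# Large values of both signs from the first two moments
-/

set_option autoImplicit false
set_option linter.unusedSectionVars false
set_option linter.unusedVariables false
set_option linter.deprecated false

namespace Pool.Agent.U309.ED

open Finset MeasureTheory Filter Topology ProbabilityTheory
open Pool.Agent.Y722.HS (EM red EM_mono EM_const)
open Pool.Agent.Y722.LS (Fam bb EM_mul EM_add EM_nonneg)
open Pool.Agent.N534.LL (PP PS mem_PS unif Sys Y liftp red_liftp)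
open Pool.Agent.N534.PS (Pow lamT trm NT BT)

variable {ι : Type} [Fintype ι] [DecidableEq ι]

theorem large_of_moments (p : ℕ) [NeZero p] (f : (ι → ZMod p) → ℝ) {D c : ℝ} (hD : 0 < D) (hc : 0 < c)
    (hb : ∀ r, |f r| ≤ D) (hm : |EM p f| ≤ c / (4 * D)) (h2 : c ≤ EM p (fun r => f r ^ 2)) :
    c / (8 * D ^ 2) ≤ EM p (fun r => open Classical in if c / (4 * D) ≤ f r then (1 : ℝ) else 0) := by
  classical
  set t := c / (4 * D) with ht
  have ht0 : 0 < t := by positivity
  set P := EM p (fun r => if t ≤ f r then (1 : ℝ) else 0) with hP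
  have h3 : EM p (fun r => f r ^ 2) ≤ EM p (fun r => D * |f r|) := by
    apply EM_mono
    intro r
    rw [← sq_abs, pow_two]
    exact mul_le_mul_of_nonneg_right (hb r) (abs_nonneg _)
  rw [EM_mul] at h3
  have h4 : c / D ≤ EM p (fun r => |f r|) := by
    rw [div_le_iff₀ hD]
    linarith
  have h5 : EM p (fun r => |f r| + f r) ≤ EM p (fun r => 2 * t + 2 * D * (if t ≤ f r then (1 : ℝ) else 0)) := by
    apply EM_mono
    intro r
    have h6 := hb r
    split_ifs with h7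
    · rw [abs_of_nonneg (by linarith)] at h6 ⊢
      linarith
    · rw [not_le] at h7
      rcases le_total 0 (f r) with h8 | h8
      · rw [abs_of_nonneg h8]
        linarith
      · rw [abs_of_nonpos h8]
        linarith
  rw [EM_add, EM_add, EM_const, EM_mul, ← hP] at h5
  have h6 := (abs_le.mp hm).1
  have h7 : c / D = 4 * t := by
    rw [ht]
    field_simp
  have h8 : c / (8 * D ^ 2) = t / (2 * D) := by
    rw [ht]
    field_simp
    ring
  rw [h8, div_le_iff₀ (by positivity)]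
  have h9 : EM p f = EM p (fun r => f r) := rfl
  rw [← h9] at h5
  nlinarith

variable {A β : ℝ} {N B : ∀ p : ℕ, (ι → ZMod p) → ℝ} {lam : (ι → ℤ) → ℕ → ℂ → ℂ}

/-- one side of the criterion -/
theorem side (h : Sys A β N B lam) (hB : ∀ (p : ℕ) r, B p r = 0 ∨ B p r = 1) {D c : ℝ} (hD : 0 < D) (hc : 0 < c)
    (σ : ℝ) (hσ : σ = 1 ∨ σ = -1) : ∃ p1 : ℕ, ∀ p : Nat.Primes, p1 ≤ (p : ℕ) → (∀ r, |N p r| ≤ D / (p : ℕ)) →
      c / ((p : ℕ) : ℝ) ^ 2 ≤ EM (p : ℕ) (fun r => N (p : ℕ) r ^ 2) →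
      c / (16 * D ^ 2) ≤ (unif ι p).real {r | c / (8 * D) / (p : ℕ) ≤ σ * xr lam 0 p r} := by
  classical
  have hA := h.fam.A0
  have hβ := h.beta
  obtain ⟨p1, hp1⟩ : ∃ p1 : ℕ, 4 * D * A / c + 16 * D ^ 2 * A / c + (8 * D * β / c) ^ 2 + 1 < p1 := exists_nat_gt _
  refine ⟨p1, fun p hp hN h2 => ?_⟩
  have : Fact (p : ℕ).Prime := ⟨p.2⟩
  have hp0 := p_pos p
  have hpp : 4 * D * A / c + 16 * D ^ 2 * A / c + (8 * D * β / c) ^ 2 + 1 < ((p : ℕ) : ℝ) :=
    lt_of_lt_of_le hp1 (by exact_mod_cast hp)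
  have e1 : 0 ≤ 4 * D * A / c := by positivity
  have e2 : 0 ≤ 16 * D ^ 2 * A / c := by positivity
  have e3 : 0 ≤ (8 * D * β / c) ^ 2 := by positivity
  have hσ2 : |σ| = 1 := by rcases hσ with rfl | rfl <;> norm_num
  have hσσ : σ ^ 2 = 1 := by rcases hσ with rfl | rfl <;> norm_num
  -- the moments of `f = σ p N`
  have h3 := large_of_moments (p : ℕ) (fun r => σ * (((p : ℕ) : ℝ) * N (p : ℕ) r)) hD hc (fun r => by
      rw [abs_mul, hσ2, one_mul, abs_mul, abs_of_pos hp0]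
      have := hN r
      rw [le_div_iff₀ hp0] at this
      linarith) (by
      have h4 := h.fam.mean (p : ℕ)
      have h5 : EM (p : ℕ) (fun r => σ * (((p : ℕ) : ℝ) * N (p : ℕ) r)) =
          σ * (((p : ℕ) : ℝ) * EM (p : ℕ) (fun r => N (p : ℕ) r)) := by rw [EM_mul, EM_mul]
      rw [h5, abs_mul, hσ2, one_mul, abs_mul, abs_of_pos hp0]
      have h6 : ((p : ℕ) : ℝ) * |EM (p : ℕ) (fun r => N (p : ℕ) r)| ≤ ((p : ℕ) : ℝ) * (A / ((p : ℕ) : ℝ) ^ 2) :=
        mul_le_mul_of_nonneg_left h4 hp0.le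
      refine h6.trans ?_
      have h7 : ((p : ℕ) : ℝ) * (A / ((p : ℕ) : ℝ) ^ 2) = A / (p : ℕ) := by field_simp
      rw [h7, div_le_div_iff₀ hp0 (by positivity)]
      have h8 : 4 * D * A / c ≤ (p : ℕ) := by linarith
      rw [div_le_iff₀ hc] at h8
      linarith) (by
      have h5 : EM (p : ℕ) (fun r => (σ * (((p : ℕ) : ℝ) * N (p : ℕ) r)) ^ 2) =
          ((p : ℕ) : ℝ) ^ 2 * EM (p : ℕ) (fun r => N (p : ℕ) r ^ 2) := by
        rw [← EM_mul]
        congr 1
        funext r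
        rw [mul_pow, hσσ, one_mul, mul_pow]
      rw [h5]
      rw [div_le_iff₀ (by positivity)] at h2
      linarith)
  -- the exceptional classes
  have h4 := h.fam.bad (p : ℕ)
  have h5 : EM (p : ℕ) (fun r => if c / (4 * D) ≤ σ * (((p : ℕ) : ℝ) * N (p : ℕ) r) then (1 : ℝ) else 0) ≤
      EM (p : ℕ) (fun r => (if r ∈ {r | c / (8 * D) / (p : ℕ) ≤ σ * xr lam 0 p r} then (1 : ℝ) else 0) + B (p : ℕ) r) := by
    apply EM_mono
    intro r
    have hB0 := h.fam.nonneg (p : ℕ) r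
    split_ifs with h6 h7 h7
    · linarith
    · rcases hB (p : ℕ) r with h8 | h8
      · exfalso
        apply h7
        simp only [Set.mem_setOf_eq]
        have h9 := xr_near h (u := 0) (by simp) p r
        have h10 : bb N B β (p : ℕ) r = 0 := by
          unfold bb
          rw [h8, zero_mul]
        have h11 : (((p : ℕ) : ℂ) ^ (-(0 : ℂ))).re = 1 := by simp
        rw [h10, h11, zero_add, one_mul] at h9
        have h12 : |σ * xr lam 0 p r - σ * N (p : ℕ) r| ≤ β * (1 / ((p : ℕ) : ℝ) ^ ((3 : ℝ) / 2)) := by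
          rw [← mul_sub, abs_mul, hσ2, one_mul]
          exact h9
        have h13 := (abs_le.mp h12).1
        have h14 : β * (1 / ((p : ℕ) : ℝ) ^ ((3 : ℝ) / 2)) ≤ c / (8 * D) / (p : ℕ) := by
          have h15 : ((p : ℕ) : ℝ) ^ ((3 : ℝ) / 2) = (p : ℕ) * Real.sqrt (p : ℕ) := by
            rw [Real.sqrt_eq_rpow]
            nth_rewrite 2 [← Real.rpow_one ((p : ℕ) : ℝ)]
            rw [← Real.rpow_add hp0]
            norm_num
          have hs : 0 < Real.sqrt ((p : ℕ) : ℝ) := Real.sqrt_pos.mpr hp0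
          have h16 : 8 * D * β / c ≤ Real.sqrt (p : ℕ) := by
            apply Real.le_sqrt_of_sq_le
            linarith
          rw [h15, mul_one_div, div_le_div_iff₀ (by positivity) hp0]
          rw [div_le_iff₀ hc] at h16
          have h17 : β ≤ c / (8 * D) * Real.sqrt (p : ℕ) := by
            rw [div_mul_eq_mul_div, le_div_iff₀ (by positivity)]
            linarith
          nlinarith
        have h15 : c / (4 * D) / (p : ℕ) ≤ σ * N (p : ℕ) r := by
          rw [div_le_iff₀ hp0]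
          linarith
        have h16 : c / (4 * D) / (p : ℕ) = 2 * (c / (8 * D) / (p : ℕ)) := by
          field_simp
          ring
        linarith
      · rw [h8]
        norm_num
    · linarith
    · linarith
  rw [EM_add, ← prob_eq] at h5
  have h6 : A / (p : ℕ) ≤ c / (16 * D ^ 2) := by
    rw [div_le_div_iff₀ hp0 (by positivity)]
    have h8 : 16 * D ^ 2 * A / c ≤ (p : ℕ) := by linarith
    rw [div_le_iff₀ hc] at h8
    linarith
  have h7 : c / (8 * D ^ 2) = 2 * (c / (16 * D ^ 2)) := by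
    field_simp
    ring
  have h8 : EM (p : ℕ) (fun r => B (p : ℕ) r) = EM (p : ℕ) (B (p : ℕ)) := rfl
  linarith

/-- **The criterion.** -/
theorem sp_of (h : Sys A β N B lam) (hB : ∀ (p : ℕ) r, B p r = 0 ∨ B p r = 1) {D c C η M : ℝ} (hD : 0 < D)
    (hc : 0 < c) (hC : 0 ≤ C) (hη : 0 < η) (hM : 0 ≤ M) {Q : Set Nat.Primes}
    (hN : ∀ p ∈ Q, ∀ r, |N (p : ℕ) r| ≤ D / (p : ℕ))
    (hQ : ∀ p ∈ Q, c / ((p : ℕ) : ℝ) ^ 2 ≤ EM (p : ℕ) (fun r => N (p : ℕ) r ^ 2))
    (hoff : ∀ p : Nat.Primes, p ∉ Q → ∀ r, |xr lam 0 p r| ≤ C / ((p : ℕ) : ℝ) ^ ((3 : ℝ) / 2))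
    (hdens : ∀ y : ℕ, 3 ≤ y → η * Real.log (Real.log y) - M ≤
      ∑ p ∈ PS y, (open Classical in if p ∈ Q then 1 / ((p : ℕ) : ℝ) else 0)) :
    ∃ M' C2 : ℝ, ∃ Q' : Set Nat.Primes, Sp (c / (8 * D)) (c / (16 * D ^ 2)) η M' C2 Q' (xr lam 0) := by
  classical
  obtain ⟨p1, h1⟩ := side h hB hD hc 1 (Or.inl rfl)
  obtain ⟨p2, h2⟩ := side h hB hD hc (-1) (Or.inr rfl)
  have hβ := h.beta
  set P := max p1 p2 with hP
  refine ⟨M + P, C + (β + 1) * P, {p | p ∈ Q ∧ P ≤ (p : ℕ)}, ?_⟩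
  refine ⟨by positivity, by positivity, hη, by positivity, by positivity, ?_, ?_, ?_, ?_⟩
  · rintro p ⟨hp, hpP⟩
    have h3 := h1 p ((le_max_left _ _).trans hpP) (hN p hp) (hQ p hp)
    simpa only [one_mul] using h3
  · rintro p ⟨hp, hpP⟩
    have h3 := h2 p ((le_max_right _ _).trans hpP) (hN p hp) (hQ p hp)
    have e1 : {r : ι → ZMod (p : ℕ) | xr lam 0 p r ≤ -(c / (8 * D) / (p : ℕ))} =
        {r | c / (8 * D) / (p : ℕ) ≤ -1 * xr lam 0 p r} := by
      ext r
      simp only [Set.mem_setOf_eq]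
      constructor <;> intro h <;> linarith
    rw [e1]
    exact h3
  · intro p hp r
    have hp0 := p_pos p
    by_cases hpQ : p ∈ Q
    · have hpP : (p : ℕ) < P := by
        by_contra hc
        exact hp ⟨hpQ, not_lt.mp hc⟩
      have h3 := (Sys.bd h (u := 0) (by simp)).bd p r
      refine h3.trans ?_
      have h4 : (β + 1) / ((p : ℕ) : ℝ) ≤ (β + 1) * P / ((p : ℕ) : ℝ) ^ ((3 : ℝ) / 2) := by
        have hp1 : (1 : ℝ) ≤ ((p : ℕ) : ℝ) := by exact_mod_cast p.2.one_lt.le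
        have h5 : ((p : ℕ) : ℝ) ^ ((3 : ℝ) / 2) ≤ ((p : ℕ) : ℝ) ^ (2 : ℝ) :=
          Real.rpow_le_rpow_of_exponent_le hp1 (by norm_num)
        have h6 : ((p : ℕ) : ℝ) ^ (2 : ℝ) = (p : ℕ) * (p : ℕ) := by
          rw [Real.rpow_two, pow_two]
        have h7 : ((p : ℕ) : ℝ) ≤ P := by exact_mod_cast hpP.le
        rw [div_le_div_iff₀ hp0 (by positivity)]
        have h8 : ((p : ℕ) : ℝ) ^ ((3 : ℝ) / 2) ≤ P * (p : ℕ) := by
          rw [h6] at h5
          nlinarith
        have h9 : 0 ≤ β + 1 := by linarith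
        nlinarith
      refine h4.trans ?_
      apply div_le_div_of_nonneg_right _ (by positivity)
      linarith
    · refine (hoff p hpQ r).trans ?_
      apply div_le_div_of_nonneg_right _ (by positivity)
      have : 0 ≤ (β + 1) * (P : ℝ) := by positivity
      linarith
  · intro y hy
    have h3 := hdens y hy
    have h4 : ∑ p ∈ PS y, (if p ∈ Q then 1 / ((p : ℕ) : ℝ) else 0) - P ≤
        ∑ p ∈ PS y, (if p ∈ {p : Nat.Primes | p ∈ Q ∧ P ≤ (p : ℕ)} then 1 / ((p : ℕ) : ℝ) else 0) := by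
      rw [sub_le_iff_le_add]
      have h5 : ∀ p ∈ PS y, (if p ∈ Q then 1 / ((p : ℕ) : ℝ) else 0) ≤
          (if p ∈ {p : Nat.Primes | p ∈ Q ∧ P ≤ (p : ℕ)} then 1 / ((p : ℕ) : ℝ) else 0) +
            (if (p : ℕ) < P then 1 else 0) := by
        intro p _
        have hp0 := p_pos p
        have hp1 : 1 / ((p : ℕ) : ℝ) ≤ 1 := by
          rw [div_le_one hp0]
          exact_mod_cast p.2.one_lt.le
        have hp2 : 0 ≤ 1 / ((p : ℕ) : ℝ) := by positivity
        by_cases ha : p ∈ Q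
        · by_cases hb : P ≤ (p : ℕ)
          · rw [if_pos ha, if_pos (show p ∈ {p : Nat.Primes | p ∈ Q ∧ P ≤ (p : ℕ)} from ⟨ha, hb⟩), if_neg (by omega)]
            linarith
          · rw [if_pos ha, if_neg (fun h : p ∈ {p : Nat.Primes | p ∈ Q ∧ P ≤ (p : ℕ)} => hb h.2), if_pos (by omega)]
            linarith
        · rw [if_neg ha]
          split_ifs <;> linarith
      refine (Finset.sum_le_sum h5).trans ?_
      rw [Finset.sum_add_distrib]
      have h6 : ∑ p ∈ PS y, (if (p : ℕ) < P then (1 : ℝ) else 0) ≤ P := by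
        rw [← Finset.sum_filter, Finset.sum_const, nsmul_eq_mul, mul_one]
        have h9 : ((PS y).filter fun p : Nat.Primes => (p : ℕ) < P).card ≤ (Finset.range P).card := by
          refine Finset.card_le_card_of_injOn (fun p : Nat.Primes => (p : ℕ)) ?_ ?_
          · intro p hp
            rw [Finset.mem_coe, Finset.mem_range]
            exact (Finset.mem_filter.mp hp).2
          · intro u _ v _ huv
            exact Subtype.ext huv
        rw [Finset.card_range] at h9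
        exact_mod_cast h9
      linarith
    have h7 : η * Real.log (Real.log y) - (M + P) ≤
        ∑ p ∈ PS y, (if p ∈ {p : Nat.Primes | p ∈ Q ∧ P ≤ (p : ℕ)} then 1 / ((p : ℕ) : ℝ) else 0) := by
      linarith
    refine le_trans h7 (le_of_eq (Finset.sum_congr rfl fun p _ => ?_))
    by_cases hh : p ∈ {p : Nat.Primes | p ∈ Q ∧ P ≤ (p : ℕ)}
    · simp only [if_pos hh]
    · simp only [if_neg hh]

end Pool.Agent.U309.ED
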