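import Pool.Agent.U309.ED.Edge
import Pool.Agent.U309.ED.Mom

/-!
# The distribution at the edge for Euler products given by power sums
-/

set_option autoImplicit false
set_option linter.unusedSectionVars false
set_option linter.unusedVariables false
set_option linter.deprecated false

namespace Pool.Agent.U309.ED

open Finset MeasureTheory Filter Topology
open Pool.Agent.Y722.HS (EM red box card_box EM_mono EM_const)
open Pool.Agent.Y722.LS (EM_mul)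
open Pool.Agent.N534.LL (PP PS mem_PS unif Sys Y liftp red_liftp)
open Pool.Agent.N534.PS (Pow lamT trm NT BT NT_abs)

variable {ι : Type} [Fintype ι] [DecidableEq ι]

/-- The distribution at the point `1 + w/2` of the edge. -/
def EdgeLaw (w : ℕ) (b : ℝ) (X : (ι → ℤ) → ℂ → ℂ) : Prop :=
  ∃ Φ : ℝ → ℝ, ContinuousOn Φ (Set.Ioi 0) ∧ StrictMonoOn Φ (Set.Ioi 0) ∧ (∀ τ : ℝ, 0 < τ → 0 < Φ τ ∧ Φ τ < 1) ∧
    (∃ c C B τ0 : ℝ, 0 < c ∧ 0 < C ∧ 0 < B ∧ ∀ τ : ℝ, τ0 ≤ τ →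
      Real.exp (-Real.exp (C * τ ^ B)) ≤ Φ (1 / τ) ∧ Φ (1 / τ) ≤ Real.exp (-Real.exp (c * τ ^ (1 / b))) ∧
      Real.exp (-Real.exp (C * τ ^ B)) ≤ 1 - Φ τ ∧ 1 - Φ τ ≤ Real.exp (-Real.exp (c * τ ^ (1 / b)))) ∧
    ∀ σ : ℕ → ℂ, Tendsto σ atTop (𝓝 (1 + (w : ℂ) / 2)) →
      Tendsto (fun H : ℕ => ((σ H).re - (1 + (w : ℝ) / 2)) * Real.log H) atTop atTop →
      ∀ τ : ℝ, 0 < τ → Tendsto (fun H : ℕ => (((box ι H).filter (fun c => ‖X c (σ H)‖ ≤ τ)).card : ℝ) /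
        (box ι H).card) atTop (𝓝 (Φ τ))

variable {D : ℝ} {w p0 : ℕ} {T : ∀ p : ℕ, ℕ → (ι → ZMod p) → ℝ} {Bad : ∀ p : ℕ, (ι → ZMod p) → Prop}

theorem Pow_xr_le (h : Pow D w p0 T Bad) {u : ℂ} (hu : 0 ≤ u.re) (p : Nat.Primes) (r : ι → ZMod (p : ℕ)) {b : ℝ}
    (hb0 : 0 ≤ b) (hb : p0 ≤ (p : ℕ) → |T (p : ℕ) 1 r| ≤ b * ((p : ℕ) : ℝ) ^ ((w : ℝ) / 2)) :
    |xr (lamT w p0 T Bad) u p r| ≤ b / (p : ℕ) + 2 * D / ((p : ℕ) : ℝ) ^ ((3 : ℝ) / 2) := by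
  classical
  have : Fact (p : ℕ).Prime := ⟨p.2⟩
  have hp0 := p_pos p
  have hp1 : (1 : ℝ) ≤ ((p : ℕ) : ℝ) := by exact_mod_cast p.2.one_lt.le
  have hD := h.D1
  have hnn : 0 ≤ b / ((p : ℕ) : ℝ) + 2 * D / ((p : ℕ) : ℝ) ^ ((3 : ℝ) / 2) := by positivity
  unfold xr lamT
  rw [red_liftp]
  by_cases hb' : (p : ℕ).Prime ∧ p0 ≤ (p : ℕ) ∧ ¬ Bad (p : ℕ) r
  · rw [if_pos hb']
    have h1 := h.tail_le (p : ℕ) hb'.2.1 r hb'.2.2 u hu
    have h2 := h.trm_zero (p : ℕ) hb'.2.1 r u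
    have h3 : ‖trm w T (p : ℕ) r u 0‖ ≤ b / (p : ℕ) := by
      rw [h2, norm_mul, Complex.norm_real, Real.norm_eq_abs]
      have hpu : ‖((p : ℕ) : ℂ) ^ (-u)‖ ≤ 1 := by
        rw [Complex.norm_natCast_cpow_of_pos p.2.pos]
        exact Real.rpow_le_one_of_one_le_of_nonpos hp1 (by simpa using hu)
      have h4 := NT_abs (w := w) (p0 := p0) (T := T) (p : ℕ) r hb0 hb
      have h5 : 0 ≤ b / ((p : ℕ) : ℝ) := by positivity
      calc ‖((p : ℕ) : ℂ) ^ (-u)‖ * |NT w p0 T (p : ℕ) r| ≤ 1 * (b / (p : ℕ)) := by gcongr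
        _ = b / (p : ℕ) := one_mul _
    have h8 : 1 / ((p : ℕ) : ℝ) ^ 2 ≤ 1 / ((p : ℕ) : ℝ) ^ ((3 : ℝ) / 2) := by
      apply one_div_le_one_div_of_le (by positivity)
      rw [← Real.rpow_natCast]
      exact Real.rpow_le_rpow_of_exponent_le hp1 (by norm_num)
    have h9 := mul_le_mul_of_nonneg_left h8 (by linarith : (0 : ℝ) ≤ 2 * D)
    refine (Complex.abs_re_le_norm _).trans ?_
    have h10 := norm_add_le ((∑' k : ℕ, trm w T (p : ℕ) r u k) - trm w T (p : ℕ) r u 0) (trm w T (p : ℕ) r u 0)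
    rw [sub_add_cancel] at h10
    have h11 : 2 * D / ((p : ℕ) : ℝ) ^ ((3 : ℝ) / 2) = 2 * D * (1 / ((p : ℕ) : ℝ) ^ ((3 : ℝ) / 2)) := by ring
    rw [h11]
    linarith
  · rw [if_neg hb', Complex.zero_re, abs_zero]
    exact hnn

theorem re_sub' (s : ℂ) (w : ℕ) : (s - (1 + (w : ℂ) / 2)).re = s.re - (1 + (w : ℝ) / 2) := by
  simp

/-- **The distribution at the edge for Euler products given by power sums.** -/
theorem powEdge (h : Pow D w p0 T Bad) {b : ℝ} (hb0 : 0 < b)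
    (hb : ∀ p : Nat.Primes, p0 ≤ (p : ℕ) → ∀ r, |T (p : ℕ) 1 r| ≤ b * ((p : ℕ) : ℝ) ^ ((w : ℝ) / 2))
    {c : ℝ} (hc : 0 < c) {Q : Set Nat.Primes} {P : ℕ}
    (hQ : ∀ p ∈ Q, p0 ≤ (p : ℕ) ∧ c * ((p : ℕ) : ℝ) ^ w ≤ EM (p : ℕ) (fun r => T (p : ℕ) 1 r ^ 2))
    (hoff : ∀ p : Nat.Primes, p ∉ Q → (p : ℕ) < P ∨ ∀ r, T (p : ℕ) 1 r = 0)
    {η M : ℝ} (hη : 0 < η) (hM : 0 ≤ M)
    (hdens : ∀ y : ℕ, 3 ≤ y → η * Real.log (Real.log y) - M ≤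
      ∑ p ∈ PS y, (open Classical in if p ∈ Q then 1 / ((p : ℕ) : ℝ) else 0))
    {X : (ι → ℤ) → ℂ → ℂ} (hX : ∀ (c : ι → ℤ) (s : ℂ), 1 + (w : ℝ) / 2 < s.re →
      X c s = Complex.exp (∑' p : Nat.Primes, lamT w p0 T Bad c (p : ℕ) (s - (1 + (w : ℂ) / 2)))) :
    EdgeLaw w b X := by
  classical
  have hD := h.D1
  have hD0 : 0 < D := by linarith
  have hB : ∀ (p : ℕ) r, BT p0 Bad p r = 0 ∨ BT (ι := ι) p0 Bad p r = 1 := by
    intro p r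
    unfold BT
    split_ifs
    · exact Or.inl rfl
    · exact Or.inr rfl
  have hN : ∀ p ∈ Q, ∀ r, |NT w p0 T (p : ℕ) r| ≤ D / (p : ℕ) := by
    intro p hp r
    have : Fact (p : ℕ).Prime := ⟨p.2⟩
    exact NT_abs (w := w) (p0 := p0) (T := T) (p : ℕ) r hD0.le fun hpp => h.bd1 (p : ℕ) hpp r
  have hQ' : ∀ p ∈ Q, c / ((p : ℕ) : ℝ) ^ 2 ≤ EM (p : ℕ) (fun r => NT w p0 T (p : ℕ) r ^ 2) := by
    intro p hp
    have : Fact (p : ℕ).Prime := ⟨p.2⟩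
    have hp0 := p_pos p
    obtain ⟨h1, h2⟩ := hQ p hp
    have e1 : (fun r => NT w p0 T (p : ℕ) r ^ 2) = fun r : ι → ZMod (p : ℕ) =>
        (1 / ((p : ℕ) : ℝ) ^ (2 + w)) * T (p : ℕ) 1 r ^ 2 := by
      funext r
      unfold NT
      rw [if_pos ⟨p.2, h1⟩, div_pow]
      have e2 : (((p : ℕ) : ℝ) ^ (1 + (w : ℝ) / 2)) ^ 2 = ((p : ℕ) : ℝ) ^ (2 + w) := by
        rw [← Real.rpow_natCast, ← Real.rpow_mul hp0.le, ← Real.rpow_natCast]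
        congr 1
        push_cast
        ring
      rw [e2]
      ring
    rw [e1, EM_mul]
    have h3 : 0 < 1 / ((p : ℕ) : ℝ) ^ (2 + w) := by positivity
    have h4 := mul_le_mul_of_nonneg_left h2 h3.le
    refine le_trans (le_of_eq ?_) h4
    rw [pow_add]
    field_simp
  have hoff' : ∀ p : Nat.Primes, p ∉ Q → ∀ r, |xr (lamT w p0 T Bad) 0 p r| ≤
      (D * P + 2 * D) / ((p : ℕ) : ℝ) ^ ((3 : ℝ) / 2) := by
    intro p hp r
    have : Fact (p : ℕ).Prime := ⟨p.2⟩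
    have hp0 := p_pos p
    have hp1 : (1 : ℝ) ≤ ((p : ℕ) : ℝ) := by exact_mod_cast p.2.one_lt.le
    rcases hoff p hp with h1 | h1
    · have h2 := Pow_xr_le h (u := 0) (by simp) p r hD0.le (fun hpp => h.bd1 (p : ℕ) hpp r)
      refine h2.trans ?_
      rw [add_div]
      apply add_le_add _ le_rfl
      have h5 : ((p : ℕ) : ℝ) ^ ((3 : ℝ) / 2) ≤ ((p : ℕ) : ℝ) ^ (2 : ℝ) :=
        Real.rpow_le_rpow_of_exponent_le hp1 (by norm_num)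
      have h6 : ((p : ℕ) : ℝ) ^ (2 : ℝ) = (p : ℕ) * (p : ℕ) := by
        rw [Real.rpow_two, pow_two]
      have h7 : ((p : ℕ) : ℝ) ≤ P := by exact_mod_cast h1.le
      rw [div_le_div_iff₀ hp0 (by positivity)]
      have h8 : ((p : ℕ) : ℝ) ^ ((3 : ℝ) / 2) ≤ P * (p : ℕ) := by
        rw [h6] at h5
        nlinarith
      nlinarith
    · have h2 := Pow_xr_le h (u := 0) (by simp) p r (b := 0) le_rfl (fun _ => by rw [h1 r, abs_zero, zero_mul])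
      rw [zero_div, zero_add] at h2
      refine h2.trans ?_
      apply div_le_div_of_nonneg_right _ (by positivity)
      have : 0 ≤ D * (P : ℝ) := by positivity
      linarith
  obtain ⟨M', C2, Q', hs⟩ := sp_of h.sys hB hD0 hc (C := D * P + 2 * D) (by positivity) hη hM hN hQ' hoff' hdens
  have hx : ∀ p r, |xr (lamT w p0 T Bad) 0 p r| ≤ b / (p : ℕ) + 2 * D / ((p : ℕ) : ℝ) ^ ((3 : ℝ) / 2) := fun p r =>
    Pow_xr_le h (u := 0) (by simp) p r hb0.le (fun hpp => hb p hpp r)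
  obtain ⟨Φ, h1, h2, h3, ⟨c1, C1, τ0, hc1, hC1, h4⟩, h5⟩ := edge h.sys (u0 := 0) (by simp) hs hb0 (C3 := 2 * D)
    (by positivity) hx
  refine ⟨Φ, h1, h2, h3, ⟨c1, C1, 1 / (c / (8 * D) * η), τ0, hc1, hC1, by positivity, h4⟩, ?_⟩
  intro σ hσ hσl τ hτ
  have hre : ∀ z : ℂ, (z - (1 + (w : ℂ) / 2)).re = z.re - (1 + (w : ℝ) / 2) := fun z => re_sub' z w
  have hlogN : Tendsto (fun H : ℕ => Real.log H) atTop atTop :=
    Real.tendsto_log_atTop.comp tendsto_natCast_atTop_atTop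
  have hpos : ∀ᶠ H : ℕ in atTop, 1 + (w : ℝ) / 2 < (σ H).re := by
    filter_upwards [hσl.eventually_gt_atTop 0, hlogN.eventually_gt_atTop 0] with H h1 h2
    have := pos_of_mul_pos_left h1 h2.le
    linarith
  have h6 : Tendsto (fun H => σ H - (1 + (w : ℂ) / 2)) atTop (𝓝 0) := by
    have := hσ.sub_const (1 + (w : ℂ) / 2)
    rwa [sub_self] at this
  exact h5 (fun H => σ H - (1 + (w : ℂ) / 2)) h6 (by simpa only [hre] using hσl) (fun H c => X c (σ H)) (by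
    filter_upwards [hpos] with H hH c _
    rw [hX c _ hH]) τ hτ

end Pool.Agent.U309.ED
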