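import Pool.Agent.U309.ED.Two

/-!
# Sums of independent random variables over the primes: full support and no atoms
-/

set_option autoImplicit false
set_option linter.unusedSectionVars false
set_option linter.unusedVariables false
set_option linter.deprecated false

namespace Pool.Agent.U309.ED

open Finset MeasureTheory Filter Topology ProbabilityTheory
open Pool.Agent.N534.LL (PP PS mem_PS unif)

variable {ι : Type} [Fintype ι] [DecidableEq ι]

variable {β A a δ η M C2 : ℝ} {Q : Set Nat.Primes} {x : ∀ p : Nat.Primes, (ι → ZMod (p : ℕ)) → ℝ}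
variable {Z : (∀ p : Nat.Primes, ι → ZMod (p : ℕ)) → ℝ}

/-- the probability of a residue class is positive -/
theorem unif_pos (p : Nat.Primes) (r : ι → ZMod (p : ℕ)) : 0 < (unif ι p).real {r} := by
  have h2 : (unif ι p) {r} = ((Fintype.card (ι → ZMod (p : ℕ)) : ENNReal))⁻¹ := by
    unfold unif
    rw [PMF.toMeasure_apply_singleton _ _ (measurableSet_singleton _), PMF.uniformOfFintype_apply]
  rw [measureReal_def, h2, ENNReal.toReal_inv, ENNReal.toReal_natCast]
  have : 0 < Fintype.card (ι → ZMod (p : ℕ)) := Fintype.card_pos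
  positivity

theorem PS_succ (n : ℕ) : (∃ q : Nat.Primes, (q : ℕ) = n + 1 ∧ PS (n + 1) = insert q (PS n) ∧ q ∉ PS n) ∨
    PS (n + 1) = PS n := by
  by_cases h : (n + 1).Prime
  · left
    obtain ⟨q, hq⟩ : ∃ q : Nat.Primes, (q : ℕ) = n + 1 := ⟨⟨n + 1, h⟩, rfl⟩
    refine ⟨q, hq, ?_, ?_⟩
    · ext p
      rw [Finset.mem_insert, mem_PS, mem_PS]
      constructor
      · intro h1
        rcases Nat.lt_or_ge (p : ℕ) (n + 1) with h2 | h2
        · exact Or.inr (by omega)
        · exact Or.inl (Subtype.ext (by omega))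
      · rintro (h1 | h1)
        · rw [h1]
          omega
        · omega
    · rw [mem_PS]
      omega
  · right
    ext p
    rw [mem_PS, mem_PS]
    constructor
    · intro h1
      have : (p : ℕ) ≠ n + 1 := fun h2 => h (by rw [← h2]; exact p.2)
      omega
    · intro h1
      omega

/-- sums which go to infinity in small steps come close to every number above the start -/
theorem approach (f : ℕ → ℝ) (y : ℕ) (t η : ℝ) (hη : 0 < η) (h0 : f y ≤ t) (hstep : ∀ n, y ≤ n → f (n + 1) ≤ f n + η)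
    (hinf : ∃ n, y ≤ n ∧ t ≤ f n) : ∃ n, y ≤ n ∧ |f n - t| ≤ η := by
  classical
  by_contra hcon
  push Not at hcon
  have key : ∀ k, f (y + k) < t := by
    intro k
    induction k with
    | zero =>
      have h1 := hcon y le_rfl
      rw [add_zero]
      rcases h0.lt_or_eq with h2 | h2
      · exact h2
      · rw [h2, sub_self, abs_zero] at h1
        linarith
    | succ k ih =>
      by_contra hk
      rw [not_lt] at hk
      have h1 := hstep (y + k) (by omega)
      have h2 := hcon (y + k) (by omega)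
      have h3 := hcon (y + (k + 1)) (by omega)
      rw [abs_of_neg (by linarith)] at h2
      rw [abs_of_nonneg (by linarith)] at h3
      have e : y + k + 1 = y + (k + 1) := by ring
      rw [e] at h1
      linarith
  obtain ⟨n, hn, hn2⟩ := hinf
  have := key (n - y)
  rw [show y + (n - y) = n by omega] at this
  linarith

/-- the sums of the reciprocals of the primes of `Q` diverge -/
theorem diverge (hs : Sp a δ η M C2 Q x) (y : ℕ) (B : ℝ) : ∃ n, y ≤ n ∧
    B ≤ ∑ p ∈ PS n, (open Classical in if p ∈ Q then 1 / ((p : ℕ) : ℝ) else 0) := by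
  have h1 : Tendsto (fun n : ℕ => η * Real.log (Real.log n) - M) atTop atTop := by
    have h2 : Tendsto (fun n : ℕ => Real.log (Real.log n)) atTop atTop :=
      Real.tendsto_log_atTop.comp (Real.tendsto_log_atTop.comp tendsto_natCast_atTop_atTop)
    exact tendsto_atTop_add_const_right _ _ (h2.const_mul_atTop hs.e0)
  obtain ⟨n, hn⟩ := ((h1.eventually_ge_atTop B).and (eventually_ge_atTop (max y 3))).exists
  exact ⟨n, (le_max_left _ _).trans hn.2, hn.1.trans (hs.dens n ((le_max_right _ _).trans hn.2))⟩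

theorem choose_up (hs : Sp a δ η M C2 Q x) (p : Nat.Primes) : ∃ r : ι → ZMod (p : ℕ), p ∈ Q → a / (p : ℕ) ≤ x p r := by
  by_cases hp : p ∈ Q
  · have h1 := hs.up p hp
    have h2 : {r : ι → ZMod (p : ℕ) | a / (p : ℕ) ≤ x p r}.Nonempty := by
      rw [Set.nonempty_iff_ne_empty]
      intro h3
      rw [h3, measureReal_empty] at h1
      linarith [hs.d0]
    obtain ⟨r, hr⟩ := h2
    exact ⟨r, fun _ => hr⟩
  · exact ⟨fun _ => 0, fun h => absurd h hp⟩

/-- sums above every bound, after a given start -/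
theorem climb (hs : Sp a δ η M C2 Q x) {g : ∀ p : Nat.Primes, ι → ZMod (p : ℕ)} (y : ℕ)
    (hg : ∀ p : Nat.Primes, y < (p : ℕ) → p ∈ Q → a / (p : ℕ) ≤ x p (g p)) (t : ℝ) :
    ∃ n, y ≤ n ∧ t ≤ S x (PS n) g := by
  classical
  have ha := hs.a0
  obtain ⟨n, hn, hB⟩ := diverge hs y ((t - S x (PS y) g + C2 * S0) / a + ∑ p ∈ PS y, (if p ∈ Q then 1 / ((p : ℕ) : ℝ) else 0))
  refine ⟨n, hn, ?_⟩
  have hrec : ∑ p ∈ PS n, (if p ∈ Q then 1 / ((p : ℕ) : ℝ) else 0) =
      ∑ p ∈ PS y, (if p ∈ Q then 1 / ((p : ℕ) : ℝ) else 0) +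
        ∑ p ∈ (PS n).filter (fun p : Nat.Primes => y < (p : ℕ)), (if p ∈ Q then 1 / ((p : ℕ) : ℝ) else 0) :=
    S_sub (ι := ι) (x := fun p _ => if p ∈ Q then 1 / ((p : ℕ) : ℝ) else 0) n y hn (fun p _ => 0)
  rw [hrec] at hB
  have h3 : (t - S x (PS y) g + C2 * S0) / a ≤
      ∑ p ∈ (PS n).filter (fun p : Nat.Primes => y < (p : ℕ)), (if p ∈ Q then 1 / ((p : ℕ) : ℝ) else 0) := by
    linarith
  rw [div_le_iff₀ ha, Finset.sum_mul] at h3
  have h4 : ∑ p ∈ (PS n).filter (fun p : Nat.Primes => y < (p : ℕ)),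
      ((if p ∈ Q then 1 / ((p : ℕ) : ℝ) else 0) * a - C2 * (1 / ((p : ℕ) : ℝ) ^ ((3 : ℝ) / 2))) ≤
      ∑ p ∈ (PS n).filter (fun p : Nat.Primes => y < (p : ℕ)), x p (g p) := by
    refine Finset.sum_le_sum fun p hp => ?_
    have hpp := p_pos p
    have hc0 := hs.c0
    have h7 : 0 ≤ C2 * (1 / ((p : ℕ) : ℝ) ^ ((3 : ℝ) / 2)) := by positivity
    by_cases hc : p ∈ Q
    · have := hg p (Finset.mem_filter.mp hp).2 hc
      rw [if_pos hc]
      have e1 : 1 / ((p : ℕ) : ℝ) * a = a / (p : ℕ) := by ring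
      rw [e1]
      linarith
    · rw [if_neg hc]
      have h8 := (abs_le.mp (hs.off p hc (g p))).1
      have h9 : C2 * (1 / ((p : ℕ) : ℝ) ^ ((3 : ℝ) / 2)) = C2 / ((p : ℕ) : ℝ) ^ ((3 : ℝ) / 2) := by ring
      linarith
  rw [Finset.sum_sub_distrib, ← Finset.mul_sum] at h4
  have h5 := mul_le_mul_of_nonneg_left (sum_32 ((PS n).filter (fun p : Nat.Primes => y < (p : ℕ)))) hs.c0
  have h6 : S x (PS n) g = S x (PS y) g + ∑ p ∈ (PS n).filter (fun p : Nat.Primes => y < (p : ℕ)), x p (g p) :=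
    S_sub (x := x) n y hn g
  rw [h6]
  linarith

/-- classes with a given sum -/
theorem classes (h : Bd β A x) (hs : Sp a δ η M C2 Q x) (t ε : ℝ) (hε : 0 < ε) (y0 : ℕ) :
    ∃ y : ℕ, y0 ≤ y ∧ ∃ r : ∀ p : Nat.Primes, ι → ZMod (p : ℕ), |S x (PS y) r - t| ≤ ε := by
  classical
  have hβ := h.beta
  have ha := hs.a0
  choose ru hru using fun p => choose_up hs p
  choose rd hrd using fun p => choose_up hs.neg p
  -- the start
  obtain ⟨y1, hy1⟩ : ∃ y1 : ℕ, β / ε < y1 := exists_nat_gt _
  set y := max (max y0 y1) 1 with hy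
  have hyy0 : y0 ≤ y := (le_max_left _ _).trans (le_max_left _ _)
  have hyy1 : y1 ≤ y := (le_max_right _ _).trans (le_max_left _ _)
  have hsmall : ∀ (p : Nat.Primes) (r : ι → ZMod (p : ℕ)), y < (p : ℕ) → |x p r| ≤ ε := by
    intro p r hp
    refine (h.bd p r).trans ?_
    have hpp := p_pos p
    rw [div_le_iff₀ hpp]
    rw [div_lt_iff₀ hε] at hy1
    have h2 : (y1 : ℝ) ≤ ((p : ℕ) : ℝ) := by exact_mod_cast (hyy1.trans hp.le)
    nlinarith
  -- a general sequence of classes
  have hgen : ∀ g : ∀ p : Nat.Primes, ι → ZMod (p : ℕ), ∀ n, y ≤ n → |S x (PS (n + 1)) g - S x (PS n) g| ≤ ε := by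
    intro g n hn
    rcases PS_succ n with ⟨q, hq, h1, h2⟩ | h1
    · rw [h1]
      unfold S
      rw [Finset.sum_insert h2, add_sub_cancel_right]
      exact hsmall _ _ (by omega)
    · rw [h1, sub_self, abs_zero]
      exact hε.le
  rcases le_total (S x (PS y) ru) t with hst | hst
  · -- upwards
    obtain ⟨n, hn, hn2⟩ := approach (fun n => S x (PS n) ru) y t ε hε hst
      (fun n hn => by have := (abs_le.mp (hgen ru n hn)).2; linarith)
      (climb hs y (fun p _ hp => hru p hp) t)
    exact ⟨n, hyy0.trans hn, ru, hn2⟩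
  · -- downwards
    obtain ⟨g, hg1, hg2⟩ : ∃ g : ∀ p : Nat.Primes, ι → ZMod (p : ℕ), (∀ p : Nat.Primes, (p : ℕ) ≤ y → g p = ru p) ∧
        ∀ p : Nat.Primes, y < (p : ℕ) → g p = rd p :=
      ⟨fun p => if (p : ℕ) ≤ y then ru p else rd p, fun p hp => if_pos hp, fun p hp => if_neg (by omega)⟩
    obtain ⟨n, hn, hn2⟩ := approach (fun n => -S x (PS n) g) y (-t) ε hε
      (by
        have e1 : S x (PS y) g = S x (PS y) ru := by
          unfold S
          refine Finset.sum_congr rfl fun p hp => ?_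
          rw [hg1 p (mem_PS.mp hp)]
        rw [e1]
        linarith)
      (fun n hn => by have := (abs_le.mp (hgen g n hn)).1; linarith)
      (by
        obtain ⟨n, hn, h3⟩ := climb hs.neg (g := g) y (fun p hpy hp => by
          rw [hg2 p hpy]
          exact hrd p hp) (-t)
        refine ⟨n, hn, h3.trans (le_of_eq ?_)⟩
        unfold S
        rw [Finset.sum_neg_distrib])
    refine ⟨n, hyy0.trans hn, g, ?_⟩
    rw [← abs_neg]
    convert hn2 using 2
    ring

/-- **Full support.** -/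
theorem support (h : Bd β A x) (hZ : Lim x Z) (hs : Sp a δ η M C2 Q x) (t : ℝ) {ε : ℝ} (hε : 0 < ε) :
    0 < (PP ι).real {ω | |Z ω - t| < ε} := by
  obtain ⟨y0, _, h1⟩ := reach h hZ (by linarith : (0 : ℝ) < ε / 4)
  obtain ⟨y, hy, r, hr⟩ := classes h hs t (ε / 4) (by linarith) y0
  have h2 := h1 y hy (fun p => {r p})
  have h3 : 0 < ∏ p ∈ PS y, (unif ι p).real {r p} := Finset.prod_pos fun p _ => unif_pos p (r p)
  have hsub : {ω : ∀ p : Nat.Primes, ι → ZMod (p : ℕ) | (∀ p ∈ PS y, ω p ∈ ({r p} : Set (ι → ZMod (p : ℕ)))) ∧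
      |Z ω - S x (PS y) ω| < 2 * (ε / 4)} ⊆ {ω | |Z ω - t| < ε} := by
    rintro ω ⟨hω1, hω2⟩
    simp only [Set.mem_setOf_eq]
    have e1 : S x (PS y) ω = S x (PS y) r := by
      unfold S
      refine Finset.sum_congr rfl fun p hp => ?_
      have := hω1 p hp
      rw [Set.mem_singleton_iff] at this
      rw [this]
    rw [e1] at hω2
    have h4 := abs_sub_le (Z ω) (S x (PS y) r) t
    linarith
  have h4 := measureReal_mono (μ := PP ι) hsub
  have h5 : 0 < (∏ p ∈ PS y, (unif ι p).real {r p}) * (1 / 2) := by positivity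
  linarith

/-! ### No atoms -/

theorem pos_lower (D : Finset ℝ) : (∀ d ∈ D, 0 < d) → ∃ γ : ℝ, 0 < γ ∧ ∀ d ∈ D, γ < d := by
  classical
  induction D using Finset.induction with
  | empty => exact fun _ => ⟨1, one_pos, by simp⟩
  | insert d D' _ ih =>
    intro hpos
    obtain ⟨γ, h1, h2⟩ := ih fun d hd => hpos d (Finset.mem_insert_of_mem hd)
    have hd0 := hpos d (Finset.mem_insert_self _ _)
    refine ⟨min γ (d / 2), lt_min h1 (by linarith), ?_⟩
    intro e he
    rcases Finset.mem_insert.mp he with rfl | he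
    · exact lt_of_le_of_lt (min_le_right _ _) (by linarith)
    · exact lt_of_le_of_lt (min_le_left _ _) (h2 e he)

theorem gap (F : Finset ℝ) : ∃ γ : ℝ, 0 < γ ∧ ∀ v ∈ F, ∀ w ∈ F, |v - w| ≤ γ → v = w := by
  classical
  obtain ⟨γ, hγ, hγ2⟩ := pos_lower (((F ×ˢ F).filter fun q => q.1 ≠ q.2).image (fun q => |q.1 - q.2|)) (by
    intro d hd
    obtain ⟨q, hq, rfl⟩ := Finset.mem_image.mp hd
    exact abs_pos.mpr (sub_ne_zero.mpr (Finset.mem_filter.mp hq).2))
  refine ⟨γ, hγ, fun v hv w hw hvw => ?_⟩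
  by_contra hne
  have := hγ2 |v - w| (Finset.mem_image.mpr ⟨(v, w), Finset.mem_filter.mpr ⟨Finset.mem_product.mpr ⟨hv, hw⟩, hne⟩, rfl⟩)
  linarith

theorem finite_values (T : Finset Nat.Primes) : ∃ F : Finset ℝ, ∀ ω, S x T ω ∈ F := by
  classical
  refine ⟨Finset.univ.image fun r : ∀ p : T, ι → ZMod ((p : Nat.Primes) : ℕ) => ∑ p : T, x p (r p), fun ω => ?_⟩
  refine Finset.mem_image.mpr ⟨fun p => ω p, Finset.mem_univ _, ?_⟩
  unfold S
  exact Finset.sum_coe_sort T (fun p => x p (ω p))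

theorem indep_sums (T T' : Finset Nat.Primes) (hd : Disjoint T T') :
    IndepFun (S x T) (S x T') (PP ι) := by
  classical
  have h1 := (indep x).indepFun_finset T T' hd (fun p => meas_x p)
  have h2 := h1.comp (φ := fun v : T → ℝ => ∑ q : T, v q) (ψ := fun v : T' → ℝ => ∑ q : T', v q) (by fun_prop) (by fun_prop)
  have e1 : ∀ T : Finset Nat.Primes, S x T = (fun v : T → ℝ => ∑ q : T, v q) ∘
      (fun (ω : ∀ p : Nat.Primes, ι → ZMod (p : ℕ)) (i : T) => x i (ω i)) := by
    intro T
    funext ω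
    unfold S
    exact (Finset.sum_coe_sort T (fun p => x p (ω p))).symm
  rw [e1 T, e1 T']
  exact h2

theorem indep_sum (T : Finset Nat.Primes) (p : Nat.Primes) (hp : p ∉ T) :
    IndepFun (S x T) (fun ω : ∀ p : Nat.Primes, ι → ZMod (p : ℕ) => x p (ω p)) (PP ι) := by
  classical
  have h1 := indep_sums (x := x) T {p} (by simpa using hp)
  have e1 : S x {p} = fun ω : ∀ p : Nat.Primes, ι → ZMod (p : ℕ) => x p (ω p) := by
    funext ω
    unfold S
    exact Finset.sum_singleton _ _
  rw [e1] at h1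
  exact h1

/-- **Small concentration.** -/
theorem conc (h : Bd β A x) (hs : Sp a δ η M C2 Q x) (n : ℕ) : ∃ T : Finset Nat.Primes, ∃ ε : ℝ, 0 < ε ∧ ∀ c : ℝ,
    (PP ι).real {ω | |S x T ω - c| ≤ ε} ≤ (1 - δ) ^ n := by
  classical
  have hβ := h.beta
  have ha := hs.a0
  have hd := hs.d0
  have hd1 := hs.d1
  induction n with
  | zero => exact ⟨∅, 1, one_pos, fun c => by rw [pow_zero]; exact measureReal_le_one⟩
  | succ n ih =>
    obtain ⟨T, ε, hε, hT⟩ := ih
    obtain ⟨F, hF⟩ := finite_values (x := x) T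
    obtain ⟨γ, hγ, hγ2⟩ := gap F
    obtain ⟨y1, hy1⟩ : ∃ y1 : ℕ, 4 * β / γ < y1 := exists_nat_gt _
    obtain ⟨p, hpp1, hq⟩ := hs.inf (max y1 (T.sup (fun p : Nat.Primes => (p : ℕ)) + 1))
    have hpy1 : y1 ≤ (p : ℕ) := (le_max_left _ _).trans hq
    have hpT : p ∉ T := by
      intro h1
      have h2 := Finset.le_sup (f := fun p : Nat.Primes => (p : ℕ)) h1
      have h3 := (le_max_right _ _).trans hq
      omega
    have hp0 := p_pos p
    have hbp : β / (p : ℕ) ≤ γ / 4 := by
      rw [div_le_iff₀ hp0]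
      rw [div_lt_iff₀ hγ] at hy1
      have h2 : (y1 : ℝ) ≤ ((p : ℕ) : ℝ) := by exact_mod_cast hpy1
      nlinarith
    set ε' : ℝ := min (γ / 4) (a / (2 * (p : ℕ))) with hε'
    have hε'0 : 0 < ε' := lt_min (by linarith) (by positivity)
    have hε'1 : ε' ≤ γ / 4 := min_le_left _ _
    have hε'2 : ε' < a / (p : ℕ) := by
      refine lt_of_le_of_lt (min_le_right _ _) ?_
      apply div_lt_div_of_pos_left ha hp0
      linarith
    refine ⟨insert p T, ε', hε'0, fun c => ?_⟩
    have hS : ∀ ω, S x (insert p T) ω = x p (ω p) + S x T ω := by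
      intro ω
      unfold S
      rw [Finset.sum_insert hpT]
    rcases Set.eq_empty_or_nonempty {ω : ∀ p : Nat.Primes, ι → ZMod (p : ℕ) | |S x (insert p T) ω - c| ≤ ε'} with he | ⟨ω0, hω0⟩
    · rw [he, measureReal_empty]
      exact pow_nonneg (by linarith) _
    · set v := S x T ω0 with hv
      have hval : ∀ ω, |S x (insert p T) ω - c| ≤ ε' → S x T ω = v := by
        intro ω hω
        apply hγ2 _ (hF ω) _ (hF ω0)
        simp only [Set.mem_setOf_eq] at hω0
        rw [hS] at hω hω0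
        have h1 := h.bd p (ω p)
        have h2 := h.bd p (ω0 p)
        rw [abs_le] at hω hω0 h1 h2 ⊢
        constructor <;> linarith
      have hsub : {ω : ∀ p : Nat.Primes, ι → ZMod (p : ℕ) | |S x (insert p T) ω - c| ≤ ε'} ⊆
          (S x T) ⁻¹' {t | |t - v| ≤ ε} ∩ (fun ω : ∀ p : Nat.Primes, ι → ZMod (p : ℕ) => x p (ω p)) ⁻¹' {t | |t - (c - v)| ≤ ε'} := by
        intro ω hω
        have h1 := hval ω hω
        simp only [Set.mem_setOf_eq] at hω
        refine ⟨?_, ?_⟩
        · simp only [Set.mem_preimage, Set.mem_setOf_eq]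
          rw [h1, sub_self, abs_zero]
          exact hε.le
        · simp only [Set.mem_preimage, Set.mem_setOf_eq]
          rw [hS, h1] at hω
          convert hω using 2
          ring
      have hm1 : MeasurableSet {t : ℝ | |t - v| ≤ ε} := measurableSet_le (by fun_prop) measurable_const
      have hm2 : MeasurableSet {t : ℝ | |t - (c - v)| ≤ ε'} := measurableSet_le (by fun_prop) measurable_const
      have h1 := (indep_sum (x := x) T p hpT).measure_inter_preimage_eq_mul _ _ hm1 hm2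
      refine (measureReal_mono (μ := PP ι) hsub).trans ?_
      rw [measureReal_def, h1, ENNReal.toReal_mul, pow_succ]
      refine mul_le_mul (hT v) ?_ ENNReal.toReal_nonneg (pow_nonneg (by linarith) _)
      -- the single variable
      have h2 : (PP ι) ((fun ω : ∀ p : Nat.Primes, ι → ZMod (p : ℕ) => x p (ω p)) ⁻¹' {t | |t - (c - v)| ≤ ε'}) =
          unif ι p {r | |x p r - (c - v)| ≤ ε'} := law_coord p {r | |x p r - (c - v)| ≤ ε'}
      rw [h2]
      change (unif ι p).real _ ≤ _
      rcases le_total 0 (c - v) with hc | hc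
      · have h3 : {r : ι → ZMod (p : ℕ) | |x p r - (c - v)| ≤ ε'} ⊆ {r | x p r ≤ -(a / (p : ℕ))}ᶜ := by
          intro r hr
          simp only [Set.mem_setOf_eq, Set.mem_compl_iff, not_le] at hr ⊢
          have := (abs_le.mp hr).1
          linarith
        refine (measureReal_mono h3).trans ?_
        rw [probReal_compl_eq_one_sub MeasurableSet.of_discrete]
        have := hs.dn p hpp1
        linarith
      · have h3 : {r : ι → ZMod (p : ℕ) | |x p r - (c - v)| ≤ ε'} ⊆ {r | a / (p : ℕ) ≤ x p r}ᶜ := by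
          intro r hr
          simp only [Set.mem_setOf_eq, Set.mem_compl_iff, not_le] at hr ⊢
          have := (abs_le.mp hr).2
          linarith
        refine (measureReal_mono h3).trans ?_
        rw [probReal_compl_eq_one_sub MeasurableSet.of_discrete]
        have := hs.up p hpp1
        linarith

/-- adding an independent variable does not increase the concentration -/
theorem smooth {Ω : Type*} [MeasurableSpace Ω] {μ : Measure Ω} [IsProbabilityMeasure μ] {U V : Ω → ℝ} (hU : Measurable U)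
    (hV : Measurable V) (hUV : IndepFun U V μ) {ε q : ℝ} (hq : 0 ≤ q) (h : ∀ c, μ.real {ω | |U ω - c| ≤ ε} ≤ q) (c : ℝ) :
    μ.real {ω | |U ω + V ω - c| ≤ ε} ≤ q := by
  have h1 := (indepFun_iff_map_prod_eq_prod_map_map hU.aemeasurable hV.aemeasurable).mp hUV
  have hms : MeasurableSet {z : ℝ × ℝ | |z.1 + z.2 - c| ≤ ε} := measurableSet_le (by fun_prop) measurable_const
  have h2 : μ {ω | |U ω + V ω - c| ≤ ε} = (μ.map fun ω => (U ω, V ω)) {z : ℝ × ℝ | |z.1 + z.2 - c| ≤ ε} := by
    rw [Measure.map_apply (hU.prodMk hV) hms]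
    rfl
  have : IsProbabilityMeasure (μ.map U) := Measure.isProbabilityMeasure_map hU.aemeasurable
  have : IsProbabilityMeasure (μ.map V) := Measure.isProbabilityMeasure_map hV.aemeasurable
  have h3 : μ {ω | |U ω + V ω - c| ≤ ε} ≤ ENNReal.ofReal q := by
    rw [h2, h1, Measure.prod_apply_symm hms]
    have h4 : ∀ v : ℝ, (μ.map U) ((fun u => (u, v)) ⁻¹' {z : ℝ × ℝ | |z.1 + z.2 - c| ≤ ε}) ≤ ENNReal.ofReal q := by
      intro v
      have e1 : (fun u => (u, v)) ⁻¹' {z : ℝ × ℝ | |z.1 + z.2 - c| ≤ ε} = {u : ℝ | |u - (c - v)| ≤ ε} := by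
        ext u
        simp only [Set.mem_preimage, Set.mem_setOf_eq]
        rw [show u + v - c = u - (c - v) by ring]
      rw [e1, Measure.map_apply hU (measurableSet_le (by fun_prop) measurable_const)]
      have h5 := h (c - v)
      rw [measureReal_def] at h5
      exact (ENNReal.le_ofReal_iff_toReal_le (measure_ne_top _ _) hq).mpr h5
    refine (lintegral_mono h4).trans ?_
    rw [lintegral_const, measure_univ, mul_one]
  rw [measureReal_def]
  exact ENNReal.toReal_le_of_le_ofReal hq h3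

/-- **No atoms.** -/
theorem no_atoms (h : Bd β A x) (hZ : Lim x Z) (hs : Sp a δ η M C2 Q x) (t : ℝ) :
    (PP ι).real {ω | Z ω = t} = 0 := by
  classical
  have hd := hs.d0
  have hd1 := hs.d1
  have key : ∀ n : ℕ, (PP ι).real {ω | Z ω = t} ≤ (1 - δ) ^ n := by
    intro n
    obtain ⟨T, ε, hε, hT⟩ := conc h hs n
    have h5 : Tendsto (fun z : ℕ => (1 - δ) ^ n + (PP ι).real {ω | ε ≤ |S x (PS z) ω - Z ω|}) atTop
        (𝓝 ((1 - δ) ^ n + 0)) := (hZ.close hε).const_add _
    rw [add_zero] at h5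
    refine ge_of_tendsto h5 ?_
    filter_upwards [eventually_ge_atTop (T.sup fun p : Nat.Primes => (p : ℕ))] with z hz
    have hTz : T ⊆ PS z := by
      intro p hp
      rw [mem_PS]
      exact (Finset.le_sup (f := fun p : Nat.Primes => (p : ℕ)) hp).trans hz
    have hsub : {ω : ∀ p : Nat.Primes, ι → ZMod (p : ℕ) | Z ω = t} ⊆
        {ω | |S x T ω + S x (PS z \ T) ω - t| ≤ ε} ∪ {ω | ε ≤ |S x (PS z) ω - Z ω|} := by
      intro ω hω
      simp only [Set.mem_setOf_eq] at hω
      have e1 : S x T ω + S x (PS z \ T) ω = S x (PS z) ω := by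
        unfold S
        rw [add_comm, Finset.sum_sdiff hTz]
      by_cases hc : ε ≤ |S x (PS z) ω - Z ω|
      · exact Or.inr hc
      · left
        rw [not_le] at hc
        simp only [Set.mem_setOf_eq]
        rw [e1, ← hω]
        exact hc.le
    refine (measureReal_mono (μ := PP ι) hsub).trans ((measureReal_union_le _ _).trans ?_)
    have h6 := smooth (meas_S (x := x) T) (meas_S (x := x) (PS z \ T)) (indep_sums T (PS z \ T) Finset.disjoint_sdiff)
      (pow_nonneg (by linarith) n) hT t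
    linarith
  have hlim : Tendsto (fun n : ℕ => (1 - δ) ^ n) atTop (𝓝 0) :=
    tendsto_pow_atTop_nhds_zero_of_lt_one (by linarith) (by linarith)
  exact le_antisymm (ge_of_tendsto' hlim key) measureReal_nonneg

end Pool.Agent.U309.ED
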