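import Pool.Agent.U309.ED.Supp
import Pool.Agent.N534.PS.Main

/-!
# The limit law of Euler products at the edge: from the local factors to the distribution function
-/

set_option autoImplicit false
set_option linter.unusedSectionVars false
set_option linter.unusedVariables false
set_option linter.deprecated false

namespace Pool.Agent.U309.ED

open Finset MeasureTheory Filter Topology ProbabilityTheory
open Pool.Agent.Y722.HS (EM red EM_mono EM_const)
open Pool.Agent.Y722.LS (Fam bb EM_mul EM_add EM_nonneg)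
open Pool.Agent.N534.LL (PP PS mem_PS unif Sys Y liftp red_liftp)
open Pool.Agent.N534.PS (Pow lamT trm NT BT)

variable {ι : Type} [Fintype ι] [DecidableEq ι]

theorem mn_eq (x : ∀ p : Nat.Primes, (ι → ZMod (p : ℕ)) → ℝ) (p : Nat.Primes) :
    mn x p = EM (p : ℕ) (x p) := by
  unfold mn EM
  rw [integral_fintype (hf := Integrable.of_finite), Finset.sum_div]
  refine Finset.sum_congr rfl fun r _ => ?_
  have h1 : (unif ι p).real {r} = (((p : ℕ) : ℝ) ^ Fintype.card ι)⁻¹ := by
    have h2 : (unif ι p) {r} = ((Fintype.card (ι → ZMod (p : ℕ)) : ENNReal))⁻¹ := by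
      unfold unif
      rw [PMF.toMeasure_apply_singleton _ _ (measurableSet_singleton _), PMF.uniformOfFintype_apply]
    rw [measureReal_def, h2, ENNReal.toReal_inv, ENNReal.toReal_natCast, Fintype.card_fun, ZMod.card]
    push_cast
    rfl
  rw [h1, smul_eq_mul]
  ring

theorem prob_eq (p : Nat.Primes) (G : Set (ι → ZMod (p : ℕ))) [DecidablePred (· ∈ G)] :
    (unif ι p).real G = EM (p : ℕ) (fun r => if r ∈ G then (1 : ℝ) else 0) := by
  have h1 := mn_eq (ι := ι) (fun p' r => open Classical in if h : p' = p then (if (h ▸ r) ∈ G then (1 : ℝ) else 0) else 0) p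
  have h2 : mn (ι := ι) (fun p' r => open Classical in if h : p' = p then (if (h ▸ r) ∈ G then (1 : ℝ) else 0) else 0) p =
      (unif ι p).real G := by
    unfold mn
    have e1 : (fun r : ι → ZMod (p : ℕ) => (open Classical in if h : p = p then (if (h ▸ r) ∈ G then (1 : ℝ) else 0) else 0)) =
        G.indicator 1 := by
      funext r
      simp [Set.indicator_apply]
    rw [e1, integral_indicator_one MeasurableSet.of_discrete]
  rw [← h2, h1]
  congr 1
  funext r
  simp

variable {A β : ℝ} {N B : ∀ p : ℕ, (ι → ZMod p) → ℝ} {lam : (ι → ℤ) → ℕ → ℂ → ℂ}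

/-- the real part of the local logarithm -/
noncomputable def xr (lam : (ι → ℤ) → ℕ → ℂ → ℂ) (u : ℂ) (p : Nat.Primes) (r : ι → ZMod (p : ℕ)) : ℝ :=
  (lam (liftp r) (p : ℕ) u).re

theorem xr_near (h : Sys A β N B lam) {u : ℂ} (hu : 0 ≤ u.re) (p : Nat.Primes) (r : ι → ZMod (p : ℕ)) :
    |xr lam u p r - (((p : ℕ) : ℂ) ^ (-u)).re * N (p : ℕ) r| ≤
      bb N B β (p : ℕ) r + β * (1 / ((p : ℕ) : ℝ) ^ ((3 : ℝ) / 2)) := by
  have h1 := (h.loc (liftp r)).near (p : ℕ) p.2 u hu
  rw [red_liftp] at h1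
  refine le_trans ?_ h1
  have e1 : xr lam u p r - (((p : ℕ) : ℂ) ^ (-u)).re * N (p : ℕ) r =
      (lam (liftp r) (p : ℕ) u - ((p : ℕ) : ℂ) ^ (-u) * (N (p : ℕ) r : ℂ)).re := by
    unfold xr
    simp
  rw [e1]
  exact Complex.abs_re_le_norm _

theorem Sys.bd (h : Sys A β N B lam) {u : ℂ} (hu : 0 ≤ u.re) :
    Bd (β + 1) (A + (2 + β) * A + β) (xr lam u) where
  beta := by linarith [h.beta]
  A0 := by
    have := h.fam.A0
    have := h.beta
    positivity
  bd := by
    intro p r
    have hp := p_pos p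
    have hp1 : (1 : ℝ) ≤ ((p : ℕ) : ℝ) := by exact_mod_cast p.2.one_lt.le
    have hβ := h.beta
    have h1 := (h.loc (liftp r)).bound (p : ℕ) p.2 u hu
    have h2 : |xr lam u p r| ≤ ‖lam (liftp r) (p : ℕ) u‖ := Complex.abs_re_le_norm _
    have h3 : ((p : ℕ) : ℝ) ^ (-1 - u.re) ≤ ((p : ℕ) : ℝ)⁻¹ := by
      rw [← Real.rpow_neg_one]
      exact Real.rpow_le_rpow_of_exponent_le hp1 (by linarith)
    refine h2.trans (h1.trans ((mul_le_mul_of_nonneg_left h3 hβ).trans ?_))
    rw [div_eq_mul_inv]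
    have : 0 ≤ ((p : ℕ) : ℝ)⁻¹ := by positivity
    nlinarith
  mean := by
    intro p
    have : Fact (p : ℕ).Prime := ⟨p.2⟩
    have hp := p_pos p
    have hp1 : (1 : ℝ) ≤ ((p : ℕ) : ℝ) := by exact_mod_cast p.2.one_lt.le
    have hβ := h.beta
    have hA := h.fam.A0
    rw [mn_eq]
    set κ : ℝ := (((p : ℕ) : ℂ) ^ (-u)).re with hκ
    have hκ1 : |κ| ≤ 1 := by
      refine (Complex.abs_re_le_norm _).trans ?_
      rw [Complex.norm_natCast_cpow_of_pos p.2.pos]
      exact Real.rpow_le_one_of_one_le_of_nonpos hp1 (by simpa using hu)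
    set T : ℝ := 1 / ((p : ℕ) : ℝ) ^ ((3 : ℝ) / 2) with hT
    have hT0 : 0 < T := by positivity
    have hT2 : 1 / ((p : ℕ) : ℝ) ^ 2 ≤ T := by
      apply one_div_le_one_div_of_le (by positivity)
      rw [← Real.rpow_natCast]
      exact Real.rpow_le_rpow_of_exponent_le hp1 (by norm_num)
    have h1 := h.fam.EM_bb hβ (p : ℕ)
    rw [← hT] at h1
    have h2 := h.fam.mean (p : ℕ)
    have h3 : |κ * EM (p : ℕ) (fun c => N (p : ℕ) c)| ≤ A * T := by
      rw [abs_mul]
      have h4 : A / ((p : ℕ) : ℝ) ^ 2 ≤ A * T := by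
        rw [div_eq_mul_one_div]
        exact mul_le_mul_of_nonneg_left hT2 (by linarith)
      calc |κ| * |EM (p : ℕ) (fun c => N (p : ℕ) c)| ≤ 1 * |EM (p : ℕ) (fun c => N (p : ℕ) c)| := by gcongr
        _ ≤ A * T := by linarith
    have hup : EM (p : ℕ) (xr lam u p) ≤ EM (p : ℕ) (fun c => κ * N (p : ℕ) c + (bb N B β (p : ℕ) c + β * T)) :=
      EM_mono _ _ _ fun c => by
        have := (abs_le.mp (xr_near h hu p c)).2
        linarith
    have hlo : EM (p : ℕ) (fun c => κ * N (p : ℕ) c + (-1) * (bb N B β (p : ℕ) c + β * T)) ≤ EM (p : ℕ) (xr lam u p) :=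
      EM_mono _ _ _ fun c => by
        have := (abs_le.mp (xr_near h hu p c)).1
        linarith
    rw [EM_add, EM_mul, EM_mul, EM_add, EM_const] at hlo
    rw [EM_add, EM_mul, EM_add, EM_const] at hup
    have h5 := abs_le.mp h3
    have h6 : (A + (2 + β) * A + β) / ((p : ℕ) : ℝ) ^ ((3 : ℝ) / 2) = A * T + (2 + β) * A * T + β * T := by
      rw [hT]
      ring
    rw [h6, abs_le]
    constructor <;> linarith

theorem S_re (u : ℂ) (z : ℕ) (ω : ∀ p : Nat.Primes, ι → ZMod (p : ℕ)) : S (xr lam u) (PS z) ω = (Y lam z u ω).re := by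
  unfold S Y xr
  rw [Complex.re_sum]

theorem lim_re {u : ℂ} {Z : (∀ p : Nat.Primes, ι → ZMod (p : ℕ)) → ℂ} (hm : Measurable Z) (hi : Integrable Z (PP ι))
    (hl : Tendsto (fun z : ℕ => ∫ ω, ‖Y lam z u ω - Z ω‖ ∂(PP ι)) atTop (𝓝 0)) :
    Lim (xr lam u) (fun ω => (Z ω).re) where
  meas := Complex.measurable_re.comp hm
  int := hi.re
  lim := by
    refine squeeze_zero (fun z => integral_nonneg fun _ => abs_nonneg _) (fun z => ?_) hl
    refine integral_mono (((int_S (PS z)).sub hi.re).abs) (((Pool.Agent.N534.LL.Y_integrable z u).sub hi).norm) fun ω => ?_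
    change |S (xr lam u) (PS z) ω - (Z ω).re| ≤ ‖Y lam z u ω - Z ω‖
    rw [S_re, ← Complex.sub_re]
    exact Complex.abs_re_le_norm _

/-! ### From `y` to `τ` -/

theorem up_tau {b C κ : ℝ} (hb : 0 < b) (hC : 1 ≤ C) (hκ : 0 < κ) : ∃ c τ0 : ℝ, 0 < c ∧ ∀ τ : ℝ, τ0 ≤ τ →
    ∃ y : ℕ, 3 ≤ y ∧ b * Real.log (Real.log y) + C ≤ Real.log τ ∧
      C * Real.exp (-(κ * y)) ≤ Real.exp (-Real.exp (c * τ ^ (1 / b))) := by
  set c : ℝ := Real.exp (-(C / b)) / 2 with hc
  have hc0 : 0 < c := by positivity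
  have hu : Tendsto (fun τ : ℝ => c * τ ^ (1 / b)) atTop atTop :=
    (tendsto_rpow_atTop (by positivity)).const_mul_atTop hc0
  have hv : Tendsto (fun τ : ℝ => Real.exp (c * τ ^ (1 / b))) atTop atTop := Real.tendsto_exp_atTop.comp hu
  obtain ⟨τ0, hτ0⟩ := eventually_atTop.mp ((hv.eventually_ge_atTop (4 / κ + C + 4)).and (eventually_gt_atTop (0 : ℝ)))
  refine ⟨c, τ0, hc0, fun τ hτ => ?_⟩
  obtain ⟨hv4, hτp⟩ := hτ0 τ hτ
  set v : ℝ := Real.exp (c * τ ^ (1 / b)) with hvdef
  have hκ4 : 0 < 4 / κ := by positivity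
  have hv1 : 4 ≤ v := by linarith
  have hv2 : C ≤ v := by linarith
  have hv3 : 4 / κ ≤ v := by linarith
  -- `exp (2 * c * τ^(1/b)) = v ^ 2`
  set u : ℝ := 2 * (c * τ ^ (1 / b)) with hudef
  have hvu : Real.exp u = v ^ 2 := by
    rw [hudef, hvdef, ← Real.exp_nat_mul]
    norm_num
  have hu0 : 0 < u := by rw [hudef]; positivity
  set y : ℕ := ⌊Real.exp u⌋₊ with hy
  have hy1 : (y : ℝ) ≤ Real.exp u := Nat.floor_le (Real.exp_pos _).le
  have hy2 : Real.exp u < y + 1 := Nat.lt_floor_add_one _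
  have hv16 : 16 ≤ v ^ 2 := by nlinarith
  have hy3 : (3 : ℝ) < y := by rw [hvu] at hy2; linarith
  have hy3' : 3 ≤ y := by
    have : (3 : ℕ) < y := by exact_mod_cast hy3
    omega
  refine ⟨y, hy3', ?_, ?_⟩
  · have h1 : Real.log y ≤ u := by
      rw [Real.log_le_iff_le_exp (by linarith)]
      exact hy1
    have hlogy : 0 < Real.log y := Real.log_pos (by linarith)
    have h2 : Real.log (Real.log y) ≤ Real.log u := Real.log_le_log hlogy h1
    have h3 : Real.log u = -(C / b) + 1 / b * Real.log τ := by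
      have e1 : u = Real.exp (-(C / b)) * τ ^ (1 / b) := by
        rw [hudef, hc]
        ring
      rw [e1, Real.log_mul (Real.exp_pos _).ne' (Real.rpow_pos_of_pos hτp _).ne', Real.log_exp, Real.log_rpow hτp]
    have h4 : b * Real.log u = Real.log τ - C := by
      rw [h3]
      field_simp
      ring
    nlinarith
  · have h1 : v ^ 2 / 2 ≤ y := by
      rw [hvu] at hy2
      linarith
    have h2 : C * Real.exp (-(κ * y)) ≤ C * Real.exp (-(κ * (v ^ 2 / 2))) := by
      apply mul_le_mul_of_nonneg_left _ (by linarith)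
      apply Real.exp_le_exp.mpr
      nlinarith
    refine h2.trans ?_
    have h3 : C * Real.exp (-(κ * (v ^ 2 / 2))) = Real.exp (Real.log C - κ * (v ^ 2 / 2)) := by
      rw [sub_eq_add_neg, Real.exp_add, Real.exp_log (by linarith)]
    rw [h3]
    apply Real.exp_le_exp.mpr
    have h4 : Real.log C ≤ v := (Real.log_le_sub_one_of_pos (by linarith)).trans (by linarith)
    have h5 : 4 ≤ κ * v := by
      rw [div_le_iff₀ hκ] at hv3
      linarith
    nlinarith

theorem lo_tau {a C κ : ℝ} (ha : 0 < a) (hC : 1 ≤ C) (hκ : 0 < κ) : ∃ c τ0 : ℝ, 0 < c ∧ ∀ τ : ℝ, τ0 ≤ τ →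
    ∃ y : ℕ, 3 ≤ y ∧ Real.log τ ≤ a * Real.log (Real.log y) - C ∧
      Real.exp (-Real.exp (c * τ ^ (1 / a))) ≤ Real.exp (-(κ * y)) / C := by
  set c : ℝ := Real.exp (C / a) with hc
  have hc0 : 0 < c := Real.exp_pos _
  have hu : Tendsto (fun τ : ℝ => c * τ ^ (1 / a)) atTop atTop :=
    (tendsto_rpow_atTop (by positivity)).const_mul_atTop hc0
  have hv : Tendsto (fun τ : ℝ => Real.exp (c * τ ^ (1 / a))) atTop atTop := Real.tendsto_exp_atTop.comp hu
  obtain ⟨τ0, hτ0⟩ := eventually_atTop.mp ((hv.eventually_ge_atTop (2 * κ + C + 4)).and (eventually_gt_atTop (0 : ℝ)))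
  refine ⟨2 * c, τ0, by positivity, fun τ hτ => ?_⟩
  obtain ⟨hv4, hτp⟩ := hτ0 τ hτ
  set u : ℝ := c * τ ^ (1 / a) with hudef
  set v : ℝ := Real.exp u with hvdef
  have hu0 : 0 < u := by rw [hudef]; positivity
  set y : ℕ := ⌈v⌉₊ with hy
  have hy1 : v ≤ y := Nat.le_ceil _
  have hy2 : (y : ℝ) < v + 1 := Nat.ceil_lt_add_one (Real.exp_pos _).le
  have hy3 : (3 : ℝ) < y := by linarith
  have hy3' : 3 ≤ y := by
    have : (3 : ℕ) < y := by exact_mod_cast hy3
    omega
  refine ⟨y, hy3', ?_, ?_⟩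
  · have h1 : u ≤ Real.log y := by
      rw [Real.le_log_iff_exp_le (by linarith)]
      exact hy1
    have h2 : Real.log u ≤ Real.log (Real.log y) := Real.log_le_log hu0 h1
    have h3 : Real.log u = C / a + 1 / a * Real.log τ := by
      rw [hudef, Real.log_mul hc0.ne' (Real.rpow_pos_of_pos hτp _).ne', hc, Real.log_exp, Real.log_rpow hτp]
    have h4 : a * Real.log u = Real.log τ + C := by
      rw [h3]
      field_simp
      ring
    nlinarith
  · have hCpos : 0 < C := by linarith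
    have h1 : (y : ℝ) ≤ 2 * v := by linarith
    have h2 : Real.exp (-(κ * (2 * v))) / C ≤ Real.exp (-(κ * y)) / C := by
      apply div_le_div_of_nonneg_right _ hCpos.le
      apply Real.exp_le_exp.mpr
      nlinarith
    refine le_trans ?_ h2
    have h3 : Real.exp (-(κ * (2 * v))) / C = Real.exp (-(κ * (2 * v)) - Real.log C) := by
      rw [Real.exp_sub, Real.exp_log hCpos]
    rw [h3]
    apply Real.exp_le_exp.mpr
    have h4 : Real.exp (2 * c * τ ^ (1 / a)) = v ^ 2 := by
      rw [hvdef, ← Real.exp_nat_mul, hudef]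
      congr 1
      push_cast
      ring
    rw [h4]
    have h5 : Real.log C ≤ C := (Real.log_le_sub_one_of_pos hCpos).trans (by linarith)
    nlinarith

/-- the distribution function -/
theorem cont_of_no_atoms {Ω : Type*} [MeasurableSpace Ω] (μ : Measure Ω) [IsProbabilityMeasure μ] (W : Ω → ℝ)
    (hW : Measurable W) (h0 : ∀ t, μ.real {ω | W ω = t} = 0) : Continuous fun t : ℝ => μ.real {ω | W ω ≤ t} := by
  have : IsProbabilityMeasure (μ.map W) := Measure.isProbabilityMeasure_map hW.aemeasurable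
  have e1 : (fun t : ℝ => μ.real {ω | W ω ≤ t}) = fun t => cdf (μ.map W) t := by
    funext t
    rw [cdf_eq_real, measureReal_def, measureReal_def, Measure.map_apply hW measurableSet_Iic]
    rfl
  rw [e1, continuous_iff_continuousAt]
  intro t
  have hmono : Monotone (cdf (μ.map W)) := (cdf (μ.map W)).mono
  rw [hmono.continuousAt_iff_leftLim_eq_rightLim, StieltjesFunction.rightLim_eq]
  have h1 := (cdf (μ.map W)).measure_singleton t
  rw [measure_cdf, Measure.map_apply hW (measurableSet_singleton t)] at h1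
  have h2 : μ (W ⁻¹' {t}) = 0 := by
    have := h0 t
    rw [measureReal_def, ENNReal.toReal_eq_zero_iff] at this
    exact this.resolve_right (measure_ne_top _ _)
  rw [h2] at h1
  have h3 : cdf (μ.map W) t - Function.leftLim (cdf (μ.map W)) t ≤ 0 := by
    rw [← ENNReal.ofReal_eq_zero]
    exact h1.symm
  exact le_antisymm (hmono.leftLim_le le_rfl) (by linarith)

end Pool.Agent.U309.ED
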