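import Pool.Agent.U309.ED.EC2

/-!
# The distribution at the edge from the second and the fourth moment
-/

set_option autoImplicit false
set_option linter.unusedSectionVars false
set_option linter.unusedVariables false
set_option linter.deprecated false

namespace Pool.Agent.U309.ED

open Finset MeasureTheory Filter Topology ProbabilityTheory
open Pool.Agent.Y722.HS (EM red box card_box EM_mono EM_const)
open Pool.Agent.Y722.LS (Fam bb EM_mul EM_add EM_nonneg)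
open Pool.Agent.N534.LL (PP PS mem_PS unif Sys Y liftp red_liftp)

variable {ι : Type} [Fintype ι] [DecidableEq ι]
variable {A β : ℝ} {N B : ∀ p : ℕ, (ι → ZMod p) → ℝ} {lam : (ι → ℤ) → ℕ → ℂ → ℂ}

/-- the second moment of the real part of the local logarithm -/
theorem second_xr (h : Sys A β N B lam) (hB : ∀ (p : ℕ) r, B p r = 0 ∨ B p r = 1) {c C4 : ℝ} (p : Nat.Primes)
    (h2 : c / ((p : ℕ) : ℝ) ^ 2 ≤ EM (p : ℕ) (fun r => N (p : ℕ) r ^ 2))
    (h4 : EM (p : ℕ) (fun r => N (p : ℕ) r ^ 4) ≤ C4 / ((p : ℕ) : ℝ) ^ 4) :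
    c / ((p : ℕ) : ℝ) ^ 2 - ((C4 + A) / 2 + β * (A + 1)) / (((p : ℕ) : ℝ) ^ 2 * Real.sqrt (p : ℕ)) ≤
      EM (p : ℕ) (fun r => xr lam 0 p r ^ 2) := by
  have : Fact (p : ℕ).Prime := ⟨p.2⟩
  have hp0 := p_pos p
  have hA := h.fam.A0
  have hβ := h.beta
  have hs : 0 < Real.sqrt ((p : ℕ) : ℝ) := Real.sqrt_pos.mpr hp0
  have hss : Real.sqrt ((p : ℕ) : ℝ) * Real.sqrt ((p : ℕ) : ℝ) = (p : ℕ) := Real.mul_self_sqrt hp0.le
  have h15 : ((p : ℕ) : ℝ) ^ ((3 : ℝ) / 2) = (p : ℕ) * Real.sqrt (p : ℕ) := by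
    rw [Real.sqrt_eq_rpow]
    nth_rewrite 2 [← Real.rpow_one ((p : ℕ) : ℝ)]
    rw [← Real.rpow_add hp0]
    norm_num
  set P : ℝ := ((p : ℕ) : ℝ) with hP
  set q : ℝ := Real.sqrt P with hq
  set t : ℝ := β / (P * q) with ht
  have ht0 : 0 ≤ t := by positivity
  have hpt : ∀ r, N (p : ℕ) r ^ 2 + ((-1 / 2 * (P * q)) * N (p : ℕ) r ^ 4 + ((-1 / (2 * (P * q))) * B (p : ℕ) r +
      (-(t * P)) * N (p : ℕ) r ^ 2)) + (-(t / P)) ≤ xr lam 0 p r ^ 2 := by
    intro r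
    have h9 := xr_near h (u := 0) (by simp) p r
    have h11 : (((p : ℕ) : ℂ) ^ (-(0 : ℂ))).re = 1 := by simp
    rw [h11, one_mul, h15] at h9
    have hN4 : 0 ≤ (P * q) * N (p : ℕ) r ^ 4 := by positivity
    have ht2 : 0 ≤ t / P := by positivity
    have ht3 : 0 ≤ t * P * N (p : ℕ) r ^ 2 := by positivity
    rcases hB (p : ℕ) r with h8 | h8
    · have h10 : bb N B β (p : ℕ) r = 0 := by
        unfold bb
        rw [h8, zero_mul]
      rw [h10, zero_add, mul_one_div, ← ht] at h9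
      rw [h8, mul_zero]
      set x := xr lam 0 p r
      set y := N (p : ℕ) r
      -- `x² ≥ y² - 2 |y| t`, `2 |y| ≤ P y² + 1 / P`
      have h12 : y ^ 2 - 2 * |y| * t ≤ x ^ 2 := by
        have h13 : x ^ 2 = y ^ 2 + 2 * y * (x - y) + (x - y) ^ 2 := by ring
        have h14 : -(2 * |y| * t) ≤ 2 * y * (x - y) := by
          have h16 : |2 * y * (x - y)| ≤ 2 * |y| * t := by
            rw [abs_mul, abs_mul, abs_two]
            exact mul_le_mul_of_nonneg_left h9 (by positivity)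
          exact (abs_le.mp h16).1
        have h17 := sq_nonneg (x - y)
        linarith
      have h18 : 2 * |y| * t ≤ t * P * y ^ 2 + t / P := by
        have h19 : 2 * |y| ≤ P * y ^ 2 + 1 / P := by
          have h20 := sq_nonneg (P * |y| - 1)
          have h21 : (P * |y| - 1) ^ 2 = P * (P * y ^ 2 + 1 / P - 2 * |y|) := by
            have : y ^ 2 = |y| ^ 2 := (sq_abs y).symm
            rw [this]
            field_simp
            ring
          rw [h21] at h20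
          have := nonneg_of_mul_nonneg_right h20 hp0
          linarith
        calc 2 * |y| * t ≤ (P * y ^ 2 + 1 / P) * t := mul_le_mul_of_nonneg_right h19 ht0
          _ = _ := by ring
      nlinarith
    · rw [h8, mul_one]
      have h12 : N (p : ℕ) r ^ 2 ≤ 1 / 2 * (P * q) * N (p : ℕ) r ^ 4 + 1 / (2 * (P * q)) := by
        have hPq : 0 < P * q := by positivity
        have h20 := sq_nonneg (P * q * N (p : ℕ) r ^ 2 - 1)
        have h21 : (P * q * N (p : ℕ) r ^ 2 - 1) ^ 2 = (2 * (P * q)) * (1 / 2 * (P * q) * N (p : ℕ) r ^ 4 + 1 / (2 * (P * q)) - N (p : ℕ) r ^ 2) := by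
          field_simp
          ring
        rw [h21] at h20
        have := nonneg_of_mul_nonneg_right h20 (by positivity)
        linarith
      have h13 := sq_nonneg (xr lam 0 p r)
      have h14 : -1 / (2 * (P * q)) = -(1 / (2 * (P * q))) := by ring
      rw [h14]
      nlinarith
  have h5 := EM_mono (p : ℕ) _ _ hpt
  rw [EM_add, EM_add, EM_add, EM_add, EM_mul, EM_mul, EM_mul, EM_const] at h5
  have h6 := h.fam.sq (p : ℕ)
  have h7 := h.fam.bad (p : ℕ)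
  rw [← hP] at h6 h7
  set M2 := EM (p : ℕ) (fun r => N (p : ℕ) r ^ 2)
  set M4 := EM (p : ℕ) (fun r => N (p : ℕ) r ^ 4)
  set MB := EM (p : ℕ) (fun r => B (p : ℕ) r)
  have e1 : 1 / 2 * (P * q) * M4 ≤ C4 / 2 / (P ^ 2 * q) := by
    calc 1 / 2 * (P * q) * M4 ≤ 1 / 2 * (P * q) * (C4 / P ^ 4) := mul_le_mul_of_nonneg_left h4 (by positivity)
      _ = C4 / 2 * (q * q) / (P ^ 3 * q) := by field_simp
      _ = _ := by
        rw [hss]
        field_simp
  have e2 : 1 / (2 * (P * q)) * MB ≤ A / 2 / (P ^ 2 * q) := by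
    calc 1 / (2 * (P * q)) * MB ≤ 1 / (2 * (P * q)) * (A / P) := mul_le_mul_of_nonneg_left h7 (by positivity)
      _ = _ := by field_simp
  have e3 : t * P * M2 ≤ β * A / (P ^ 2 * q) := by
    calc t * P * M2 ≤ t * P * (A / P ^ 2) := mul_le_mul_of_nonneg_left h6 (by positivity)
      _ = _ := by rw [ht]; field_simp
  have e4 : t / P = β / (P ^ 2 * q) := by
    rw [ht]
    field_simp
  have e5 : ((C4 + A) / 2 + β * (A + 1)) / (P ^ 2 * q) = C4 / 2 / (P ^ 2 * q) + A / 2 / (P ^ 2 * q) + β * A / (P ^ 2 * q) +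
      β / (P ^ 2 * q) := by ring
  rw [e5]
  have e6 : -1 / 2 * (P * q) * M4 = -(1 / 2 * (P * q) * M4) := by ring
  have e7 : -1 / (2 * (P * q)) * MB = -(1 / (2 * (P * q)) * MB) := by ring
  have e8 : -(t * P) * M2 = -(t * P * M2) := by ring
  rw [e6, e7, e8] at h5
  linarith

/-- one side of the criterion -/
theorem side4 (h : Sys A β N B lam) (hB : ∀ (p : ℕ) r, B p r = 0 ∨ B p r = 1) {c C4 : ℝ} (hc : 0 < c) (σ : ℝ)
    (hσ : σ = 1 ∨ σ = -1) : ∃ p1 : ℕ, ∀ p : Nat.Primes, p1 ≤ (p : ℕ) →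
      c / ((p : ℕ) : ℝ) ^ 2 ≤ EM (p : ℕ) (fun r => N (p : ℕ) r ^ 2) →
      EM (p : ℕ) (fun r => N (p : ℕ) r ^ 4) ≤ C4 / ((p : ℕ) : ℝ) ^ 4 →
      c / 2 / (8 * (β + 1) ^ 2) ≤ (unif ι p).real {r | c / 2 / (4 * (β + 1)) / (p : ℕ) ≤ σ * xr lam 0 p r} := by
  classical
  have hA := h.fam.A0
  have hβ := h.beta
  set D := β + 1 with hD
  have hD0 : 0 < D := by linarith
  set K := (C4 + A) / 2 + β * (A + 1) with hK
  set K2 := A + (2 + β) * A + β with hK2
  obtain ⟨p1, hp1⟩ : ∃ p1 : ℕ, (2 * K / c) ^ 2 + (8 * D * K2 / c) ^ 2 + 1 < p1 := exists_nat_gt _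
  refine ⟨p1, fun p hp h2 h4 => ?_⟩
  have : Fact (p : ℕ).Prime := ⟨p.2⟩
  have hp0 := p_pos p
  have hpp : (2 * K / c) ^ 2 + (8 * D * K2 / c) ^ 2 + 1 < ((p : ℕ) : ℝ) := lt_of_lt_of_le hp1 (by exact_mod_cast hp)
  have hs : 0 < Real.sqrt ((p : ℕ) : ℝ) := Real.sqrt_pos.mpr hp0
  have hss : Real.sqrt ((p : ℕ) : ℝ) * Real.sqrt ((p : ℕ) : ℝ) = (p : ℕ) := Real.mul_self_sqrt hp0.le
  have hq1 : 2 * K / c ≤ Real.sqrt (p : ℕ) := by
    refine (le_abs_self _).trans (Real.abs_le_sqrt ?_)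
    have := sq_nonneg (8 * D * K2 / c)
    linarith
  have hq2 : 8 * D * K2 / c ≤ Real.sqrt (p : ℕ) := by
    refine (le_abs_self _).trans (Real.abs_le_sqrt ?_)
    have := sq_nonneg (2 * K / c)
    linarith
  have h15 : ((p : ℕ) : ℝ) ^ ((3 : ℝ) / 2) = (p : ℕ) * Real.sqrt (p : ℕ) := by
    rw [Real.sqrt_eq_rpow]
    nth_rewrite 2 [← Real.rpow_one ((p : ℕ) : ℝ)]
    rw [← Real.rpow_add hp0]
    norm_num
  have hbd := Sys.bd h (u := 0) (by simp)
  have hσ2 : |σ| = 1 := by rcases hσ with rfl | rfl <;> norm_num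
  have hσσ : σ ^ 2 = 1 := by rcases hσ with rfl | rfl <;> norm_num
  have hsec := second_xr h hB p h2 h4
  rw [← hK] at hsec
  have h3 := large_of_moments (p : ℕ) (fun r => σ * (((p : ℕ) : ℝ) * xr lam 0 p r)) hD0 (half_pos hc) (fun r => by
      rw [abs_mul, hσ2, one_mul, abs_mul, abs_of_pos hp0]
      have := hbd.bd p r
      rw [le_div_iff₀ hp0] at this
      linarith) (by
      have h5 := hbd.mean p
      rw [mn_eq, h15, ← hK2] at h5
      have h6 : EM (p : ℕ) (fun r => σ * (((p : ℕ) : ℝ) * xr lam 0 p r)) =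
          σ * (((p : ℕ) : ℝ) * EM (p : ℕ) (xr lam 0 p)) := by rw [EM_mul, EM_mul]
      rw [h6, abs_mul, hσ2, one_mul, abs_mul, abs_of_pos hp0]
      have h7 : ((p : ℕ) : ℝ) * |EM (p : ℕ) (xr lam 0 p)| ≤ ((p : ℕ) : ℝ) * (K2 / ((p : ℕ) * Real.sqrt (p : ℕ))) :=
        mul_le_mul_of_nonneg_left h5 hp0.le
      refine h7.trans ?_
      have h8 : ((p : ℕ) : ℝ) * (K2 / ((p : ℕ) * Real.sqrt (p : ℕ))) = K2 / Real.sqrt (p : ℕ) := by field_simp
      rw [h8, div_div, div_le_div_iff₀ hs (by positivity)]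
      rw [div_le_iff₀ hc] at hq2
      linarith) (by
      have h5 : EM (p : ℕ) (fun r => (σ * (((p : ℕ) : ℝ) * xr lam 0 p r)) ^ 2) =
          ((p : ℕ) : ℝ) ^ 2 * EM (p : ℕ) (fun r => xr lam 0 p r ^ 2) := by
        rw [← EM_mul]
        congr 1
        funext r
        rw [mul_pow, hσσ, one_mul, mul_pow]
      rw [h5]
      have h6 := mul_le_mul_of_nonneg_left hsec (by positivity : (0 : ℝ) ≤ ((p : ℕ) : ℝ) ^ 2)
      refine le_trans ?_ h6
      have h7 : ((p : ℕ) : ℝ) ^ 2 * (c / ((p : ℕ) : ℝ) ^ 2 - K / (((p : ℕ) : ℝ) ^ 2 * Real.sqrt (p : ℕ))) =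
          c - K / Real.sqrt (p : ℕ) := by field_simp
      rw [h7]
      have h8 : K / Real.sqrt (p : ℕ) ≤ c / 2 := by
        rw [div_le_iff₀ hs]
        rw [div_le_iff₀ hc] at hq1
        linarith
      linarith)
  refine h3.trans (le_of_eq ?_)
  rw [prob_eq]
  congr 1
  funext r
  have e1 : (c / 2 / (4 * D) ≤ σ * (((p : ℕ) : ℝ) * xr lam 0 p r)) ↔ r ∈ {r | c / 2 / (4 * D) / (p : ℕ) ≤ σ * xr lam 0 p r} := by
    rw [Set.mem_setOf_eq, div_le_iff₀ hp0]
    constructor <;> intro h' <;> linarith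
  by_cases h9 : c / 2 / (4 * D) ≤ σ * (((p : ℕ) : ℝ) * xr lam 0 p r)
  · rw [if_pos h9, if_pos (e1.mp h9)]
  · rw [if_neg h9, if_neg (fun h' => h9 (e1.mpr h'))]

/-- **The distribution at the edge for a system, from the second and fourth moments.** -/
theorem sys_edge4 (h : Sys A β N B lam) (hB : ∀ (p : ℕ) r, B p r = 0 ∨ B p r = 1) {c C4 b C3 : ℝ} (hc : 0 < c) (P : ℕ)
    (h2 : ∀ p : Nat.Primes, P ≤ (p : ℕ) → c / ((p : ℕ) : ℝ) ^ 2 ≤ EM (p : ℕ) (fun r => N (p : ℕ) r ^ 2))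
    (h4 : ∀ p : Nat.Primes, P ≤ (p : ℕ) → EM (p : ℕ) (fun r => N (p : ℕ) r ^ 4) ≤ C4 / ((p : ℕ) : ℝ) ^ 4)
    (hb : 0 < b) (hC3 : 0 ≤ C3) (hx : ∀ p r, |xr lam 0 p r| ≤ b / (p : ℕ) + C3 / ((p : ℕ) : ℝ) ^ ((3 : ℝ) / 2))
    (s0 : ℝ) {X : (ι → ℤ) → ℂ → ℂ} (hX : ∀ (c : ι → ℤ) (s : ℂ), s0 < s.re →
      X c s = Complex.exp (∑' p : Nat.Primes, lam c (p : ℕ) (s - s0))) : EdgeAt s0 b X := by
  classical
  have hβ := h.beta
  obtain ⟨p1, h1⟩ := side4 h hB (C4 := C4) hc 1 (Or.inl rfl)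
  obtain ⟨p2, h1'⟩ := side4 h hB (C4 := C4) hc (-1) (Or.inr rfl)
  set P' := max P (max p1 p2) with hP'
  have hPP : P ≤ P' := le_max_left _ _
  have hP1 : p1 ≤ P' := (le_max_left _ _).trans (le_max_right _ _)
  have hP2 : p2 ≤ P' := (le_max_right _ _).trans (le_max_right _ _)
  obtain ⟨M, hM, hmer⟩ := mertens
  have hs : Sp (c / 2 / (4 * (β + 1))) (c / 2 / (8 * (β + 1) ^ 2)) 1 (M + P') ((β + 1) * P')
      {p : Nat.Primes | p ∈ (Set.univ : Set Nat.Primes) ∧ P' ≤ (p : ℕ)} (xr lam 0) := by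
    refine ⟨by positivity, by positivity, one_pos, by positivity, by positivity, ?_, ?_, ?_, ?_⟩
    · rintro p ⟨_, hp⟩
      have h3 := h1 p (hP1.trans hp) (h2 p (hPP.trans hp)) (h4 p (hPP.trans hp))
      simpa only [one_mul] using h3
    · rintro p ⟨_, hp⟩
      have h3 := h1' p (hP2.trans hp) (h2 p (hPP.trans hp)) (h4 p (hPP.trans hp))
      have e1 : {r : ι → ZMod (p : ℕ) | xr lam 0 p r ≤ -(c / 2 / (4 * (β + 1)) / (p : ℕ))} =
          {r | c / 2 / (4 * (β + 1)) / (p : ℕ) ≤ -1 * xr lam 0 p r} := by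
        ext r
        simp only [Set.mem_setOf_eq]
        constructor <;> intro h <;> linarith
      rw [e1]
      exact h3
    · intro p hp r
      have hp0 := p_pos p
      have hpP : (p : ℕ) < P' := by
        by_contra hcon
        exact hp ⟨trivial, not_lt.mp hcon⟩
      have h3 := (Sys.bd h (u := 0) (by simp)).bd p r
      refine h3.trans ?_
      have hp1 : (1 : ℝ) ≤ ((p : ℕ) : ℝ) := by exact_mod_cast p.2.one_lt.le
      have h5 : ((p : ℕ) : ℝ) ^ ((3 : ℝ) / 2) ≤ ((p : ℕ) : ℝ) ^ (2 : ℝ) :=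
        Real.rpow_le_rpow_of_exponent_le hp1 (by norm_num)
      have h6 : ((p : ℕ) : ℝ) ^ (2 : ℝ) = (p : ℕ) * (p : ℕ) := by
        rw [Real.rpow_two, pow_two]
      have h7 : ((p : ℕ) : ℝ) ≤ P' := by exact_mod_cast hpP.le
      rw [div_le_div_iff₀ hp0 (by positivity)]
      have h8 : ((p : ℕ) : ℝ) ^ ((3 : ℝ) / 2) ≤ P' * (p : ℕ) := by
        rw [h6] at h5
        nlinarith
      have h9 : 0 ≤ β + 1 := by linarith
      nlinarith
    · intro y hy
      have h3 := (abs_le.mp (hmer y hy)).1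
      refine le_trans (dens_trunc (Q := Set.univ) (P := P') (M := M) (η := 1) y ?_) (le_of_eq (Finset.sum_congr rfl fun p _ => ?_))
      · simp only [Set.mem_univ, if_true]
        linarith
      · by_cases hh : p ∈ {p : Nat.Primes | p ∈ (Set.univ : Set Nat.Primes) ∧ P' ≤ (p : ℕ)}
        · rw [if_pos hh, if_pos hh]
        · rw [if_neg hh, if_neg hh]
  obtain ⟨Φ, g1, g2, g3, ⟨c1, C1, τ0, hc1, hC1, g4⟩, g5⟩ := edge h (u0 := 0) (by simp) hs hb hC3 hx
  refine ⟨Φ, g1, g2, g3, ⟨c1, C1, 1 / (c / 2 / (4 * (β + 1)) * 1), τ0, hc1, hC1, by positivity, g4⟩, ?_⟩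
  intro σ hσ hσl τ hτ
  have hre : ∀ z : ℂ, (z - (s0 : ℂ)).re = z.re - s0 := fun z => by simp
  have hlogN : Tendsto (fun H : ℕ => Real.log H) atTop atTop :=
    Real.tendsto_log_atTop.comp tendsto_natCast_atTop_atTop
  have hpos : ∀ᶠ H : ℕ in atTop, s0 < (σ H).re := by
    filter_upwards [hσl.eventually_gt_atTop 0, hlogN.eventually_gt_atTop 0] with H h1 h2
    have := pos_of_mul_pos_left h1 h2.le
    linarith
  have h6 : Tendsto (fun H => σ H - (s0 : ℂ)) atTop (𝓝 0) := by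
    have := hσ.sub_const (s0 : ℂ)
    rwa [sub_self] at this
  exact g5 (fun H => σ H - (s0 : ℂ)) h6 (by simpa only [hre] using hσl) (fun H c => X c (σ H)) (by
    filter_upwards [hpos] with H hH c _
    rw [hX c _ hH]) τ hτ

end Pool.Agent.U309.ED
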