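import Pool.Agent.U309.ED.FF
import Pool.Agent.U309.ED.Dens
import Pool.Agent.U309.ED.PowEdge

/-!
# Second moments of the traces of tensor products of random elliptic curves
-/

set_option autoImplicit false
set_option linter.unusedSectionVars false
set_option linter.unusedVariables false
set_option linter.deprecated false

namespace Pool.Agent.U309.ED

open NumberField IsDedekindDomain Finset
open Pool.Agent.H921R2.TatePole (nm two_le_nm below deg nm_eq below_le_nm fiber_card_le below_eq_of_mem)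
open Pool.Agent.H341R2.EC (trc csum mk_ne)
open Pool.Agent.Y722.HS (EM red EM_mono EM_const)
open Pool.Agent.Y722.LS (EM_mul)
open Pool.Agent.N534.EC
open Pool.Agent.N534.AS
open Pool.Agent.N534.LL (liftp red_liftp)
open Pool.Agent.N534.PS (Pow p_two lamT trm)

section
variable {k : Type*} [Field k] [Fintype k] [DecidableEq k]

theorem two_ne_of_six (h6 : (6 : k) ≠ 0) : (2 : k) ≠ 0 := by
  intro h; apply h6
  have : (6 : k) = 3 * 2 := by norm_num
  rw [this, h, mul_zero]

theorem ringChar_ne_of_six (h6 : (6 : k) ≠ 0) : ringChar k ≠ 2 := by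
  intro h
  apply two_ne_of_six h6
  have := ringChar.Nat.cast_ringChar (R := k)
  rw [h] at this
  exact_mod_cast this

theorem csum_second (h6 : (6 : k) ≠ 0) (P b : k) (hP : P ≠ 0) :
    (Fintype.card k : ℤ) * ((Fintype.card k : ℤ) - 3) ≤ ∑ s : k, csum P (-864 * (b + s)) ^ 2 := by
  have h2 := two_ne_of_six h6
  have hk := ringChar_ne_of_six h6
  have h3 : (3 : k) ≠ 0 := by
    intro h; apply h6
    have : (6 : k) = 2 * 3 := by norm_num
    rw [this, h, mul_zero]
  have h27 : (-27 * P : k) ≠ 0 := by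
    have : (-27 : k) = -(3 ^ 3) := by norm_num
    rw [this]
    exact mul_ne_zero (neg_ne_zero.mpr (pow_ne_zero _ h3)) hP
  have h66 : (46656 : k) ≠ 0 := by
    have : (46656 : k) = 6 ^ 6 := by norm_num
    rw [this]
    exact pow_ne_zero _ h6
  have h1 : ∑ s : k, csum P (-864 * (b + s)) ^ 2 =
      ∑ s : k, (∑ x : k, quadraticChar k ((x ^ 3 + (-27 * P) * x + 46656 * b) + s)) ^ 2 := by
    refine Fintype.sum_equiv (Equiv.mulLeft₀ (46656 : k) h66) _ _ fun s => ?_
    congr 1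
    unfold csum
    refine Finset.sum_congr rfl fun x _ => ?_
    rw [Pool.Agent.H341R2.EC.cub_eval]
    congr 1
    simp only [Equiv.mulLeft₀_apply]
    ring
  rw [h1, second hk (fun x => x ^ 3 + (-27 * P) * x + 46656 * b)]
  have h4 := cubic_pairs h6 (-27 * P) (46656 * b) h27
  have h5 : (0 : ℤ) ≤ (Fintype.card k : ℤ) := by positivity
  nlinarith

end

section
variable {ι : Type} [Fintype ι] [DecidableEq ι]

theorem EM_nonneg' (p : ℕ) [Fact p.Prime] (f : (ι → ZMod p) → ℝ) (h : ∀ r, 0 ≤ f r) : 0 ≤ EM p f := by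
  have h1 := EM_mono p (fun _ => 0) f h
  rwa [EM_const] at h1

/-- the second moment of a sum of orthogonal functions -/
theorem EM_orth {V : Type*} [Fintype V] [DecidableEq V] (p : ℕ) [Fact p.Prime] (f : V → (ι → ZMod p) → ℝ)
    (h : ∀ v v', v ≠ v' → EM p (fun r => f v r * f v' r) = 0) :
    EM p (fun r => (∑ v, f v r) ^ 2) = ∑ v, EM p (fun r => f v r ^ 2) := by
  have h1 : (fun r => (∑ v, f v r) ^ 2) = fun r : ι → ZMod p => ∑ v, ∑ v', f v r * f v' r := by
    funext r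
    rw [pow_two, Finset.sum_mul_sum]
  rw [h1, EM_sum']
  refine Finset.sum_congr rfl fun v _ => ?_
  rw [EM_sum', Finset.sum_eq_single v]
  · congr 1
    funext r
    rw [pow_two]
  · intro v' _ hv'
    exact h v v' hv'.symm
  · intro h
    exact absurd (Finset.mem_univ v) h

end

variable {K : Type} [Field K] [NumberField K] {R : Type} [Fintype R] [DecidableEq R]

section
variable {ι : Type} [Fintype ι] [DecidableEq ι]

/-- translations which change one coefficient at one place above `p` only -/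
theorem exists_shift2 {a b : R → (ι → ℤ) → 𝓞 K} (h : ShiftR a b) (i0 : R) (p : Nat.Primes) [Fact (p : ℕ).Prime]
    (v : {v : HeightOneSpectrum (𝓞 K) // below v = p}) :
    ∃ e : (𝓞 K ⧸ v.1.asIdeal) → ι → ZMod (p : ℕ), ∀ (y : 𝓞 K ⧸ v.1.asIdeal) (r : ι → ZMod (p : ℕ)),
      (∀ i, a i (liftp (r + e y)) - a i (liftp r) ∈ v.1.asIdeal) ∧
      (∀ i, i ≠ i0 → b i (liftp (r + e y)) - b i (liftp r) ∈ v.1.asIdeal) ∧
      Ideal.Quotient.mk v.1.asIdeal (b i0 (liftp (r + e y))) =
        Ideal.Quotient.mk v.1.asIdeal (b i0 (liftp r)) + y ∧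
      ∀ v' : {v : HeightOneSpectrum (𝓞 K) // below v = p}, v' ≠ v →
        (∀ i, a i (liftp (r + e y)) - a i (liftp r) ∈ v'.1.asIdeal) ∧
        (∀ i, b i (liftp (r + e y)) - b i (liftp r) ∈ v'.1.asIdeal) := by
  choose x hx hx' using fun y : 𝓞 K ⧸ v.1.asIdeal => exists_elt p v y
  choose e he using fun y => h.sh i0 (x y)
  refine ⟨fun y => red (p : ℕ) (e y), fun y r => ?_⟩
  have hmem : ∀ v' : {v : HeightOneSpectrum (𝓞 K) // below v = p}, ((p : ℕ) : 𝓞 K) ∈ v'.1.asIdeal := by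
    intro v'
    have := (nm_eq v'.1).2.2
    rwa [v'.2] at this
  have h1 := red_shift (p : ℕ) r (e y)
  obtain ⟨h2, h3⟩ := he y (liftp r)
  refine ⟨fun i => ?_, fun i hi => ?_, ?_, fun v' hv' => ⟨fun i => ?_, fun i => ?_⟩⟩
  · have h4 := h.ca i (p : ℕ) _ _ h1
    rw [h2 i] at h4
    exact Ideal.mem_of_dvd _ h4 (hmem v)
  · have h4 := h.cb i (p : ℕ) _ _ h1
    rw [h3 i, if_neg hi, add_zero] at h4
    exact Ideal.mem_of_dvd _ h4 (hmem v)
  · have h4 := h.cb i0 (p : ℕ) _ _ h1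
    rw [h3 i0, if_pos rfl] at h4
    have h5 : Ideal.Quotient.mk v.1.asIdeal (b i0 (liftp (r + red (p : ℕ) (e y)))) =
        Ideal.Quotient.mk v.1.asIdeal (b i0 (liftp r) + x y) :=
      Ideal.Quotient.eq.mpr (Ideal.mem_of_dvd _ h4 (hmem v))
    rw [h5, map_add, hx y]
  · have h4 := h.ca i (p : ℕ) _ _ h1
    rw [h2 i] at h4
    exact Ideal.mem_of_dvd _ h4 (hmem v')
  · have h4 := h.cb i (p : ℕ) _ _ h1
    have h5 := Ideal.mem_of_dvd _ h4 (hmem v')
    rw [h3 i] at h5
    have h6 : b i (liftp (r + red (p : ℕ) (e y))) - b i (liftp r) =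
        (b i (liftp (r + red (p : ℕ) (e y))) - (b i (liftp r) + if i = i0 then x y else 0)) + (if i = i0 then x y else 0) := by
      ring
    rw [h6]
    refine Ideal.add_mem _ h5 ?_
    split_ifs
    · exact hx' y v' hv'
    · exact Ideal.zero_mem _

/-- the local trace of the tensor product at `v` -/
noncomputable def ft (a b : R → (ι → ℤ) → 𝓞 K) (p : Nat.Primes) (v : {v : HeightOneSpectrum (𝓞 K) // below v = p})
    (r : ι → ZMod (p : ℕ)) : ℝ := ∏ i, (trc (shm (a i (liftp r)) (b i (liftp r))) v.1 : ℝ)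

theorem ft_shift {a b : R → (ι → ℤ) → 𝓞 K} (p : Nat.Primes) [hp : Fact (p : ℕ).Prime] (h5 : 5 ≤ (p : ℕ))
    (v : {v : HeightOneSpectrum (𝓞 K) // below v = p}) (i0 : R) (y : 𝓞 K ⧸ v.1.asIdeal) (r r' : ι → ZMod (p : ℕ))
    (g1 : ∀ i, a i (liftp r') - a i (liftp r) ∈ v.1.asIdeal)
    (g2 : ∀ i, i ≠ i0 → b i (liftp r') - b i (liftp r) ∈ v.1.asIdeal)
    (g3 : Ideal.Quotient.mk v.1.asIdeal (b i0 (liftp r')) = Ideal.Quotient.mk v.1.asIdeal (b i0 (liftp r)) + y) :
    ft a b p v r' = -(csum (-48 * Ideal.Quotient.mk v.1.asIdeal (a i0 (liftp r)))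
          (-864 * (Ideal.Quotient.mk v.1.asIdeal (b i0 (liftp r)) + y)) : ℝ) *
        ∏ i ∈ Finset.univ.erase i0, (trc (shm (a i (liftp r)) (b i (liftp r))) v.1 : ℝ) := by
  have h6 := six_notMem h5 v.1 v.2
  unfold ft
  rw [← Finset.mul_prod_erase Finset.univ _ (Finset.mem_univ i0)]
  congr 1
  · rw [trc_mk _ _ v.1 h6, g3, Ideal.Quotient.eq.mpr (g1 i0)]
    push_cast
    rfl
  · refine Finset.prod_congr rfl fun i hi => ?_
    rw [trc_congr v.1 (g1 i) (g2 i (Finset.ne_of_mem_erase hi))]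

theorem cross [Nonempty R] {a b : R → (ι → ℤ) → 𝓞 K} (h : ShiftR a b) (p : Nat.Primes)
    [hp : Fact (p : ℕ).Prime] (h5 : 5 ≤ (p : ℕ)) (v v' : {v : HeightOneSpectrum (𝓞 K) // below v = p}) (hv : v' ≠ v) :
    EM (p : ℕ) (fun r => ft a b p v r * ft a b p v' r) = 0 := by
  classical
  obtain ⟨i0⟩ := ‹Nonempty R›
  obtain ⟨e, he⟩ := exists_shift2 h i0 p v
  rw [EM_shift_fam (ι := ι) (p : ℕ) e]
  have h6 := six_notMem h5 v.1 v.2
  have h6' : (6 : 𝓞 K ⧸ v.1.asIdeal) ≠ 0 := by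
    have := mk_ne h6
    rwa [map_ofNat] at this
  have h2 : (fun r : ι → ZMod (p : ℕ) => (∑ y : 𝓞 K ⧸ v.1.asIdeal,
      ft a b p v (r + e y) * ft a b p v' (r + e y)) /
      (Fintype.card (𝓞 K ⧸ v.1.asIdeal) : ℝ)) = fun _ => 0 := by
    funext r
    have h3 : ∀ y : 𝓞 K ⧸ v.1.asIdeal, ft a b p v (r + e y) * ft a b p v' (r + e y) =
        -(csum (-48 * Ideal.Quotient.mk v.1.asIdeal (a i0 (liftp r)))
          (-864 * (Ideal.Quotient.mk v.1.asIdeal (b i0 (liftp r)) + y)) : ℝ) *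
        ((∏ i ∈ Finset.univ.erase i0, (trc (shm (a i (liftp r)) (b i (liftp r))) v.1 : ℝ)) * ft a b p v' r) := by
      intro y
      obtain ⟨g1, g2, g3, g4⟩ := he y r
      obtain ⟨g5, g6⟩ := g4 v' hv
      have e1 : ft a b p v' (r + e y) = ft a b p v' r := by
        unfold ft
        refine Finset.prod_congr rfl fun i _ => ?_
        rw [trc_congr v'.1 (g5 i) (g6 i)]
      rw [e1, ft_shift p h5 v i0 y r (r + e y) g1 g2 g3, mul_assoc]
    rw [Finset.sum_congr rfl fun y _ => h3 y, ← Finset.sum_mul, Finset.sum_neg_distrib]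
    have h4 := csum_sum h6' (-48 * Ideal.Quotient.mk v.1.asIdeal (a i0 (liftp r)))
      (Ideal.Quotient.mk v.1.asIdeal (b i0 (liftp r)))
    have h5 : (∑ y : 𝓞 K ⧸ v.1.asIdeal, (csum (-48 * Ideal.Quotient.mk v.1.asIdeal (a i0 (liftp r)))
          (-864 * (Ideal.Quotient.mk v.1.asIdeal (b i0 (liftp r)) + y)) : ℝ)) = 0 := by
      rw [← Int.cast_sum, h4, Int.cast_zero]
    rw [h5, neg_zero, zero_mul, zero_div]
  rw [h2, EM_const]

open Classical in
/-- the indicator of a nonzero coefficient -/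
noncomputable def nz (a : R → (ι → ℤ) → 𝓞 K) (p : Nat.Primes) (v : {v : HeightOneSpectrum (𝓞 K) // below v = p})
    (i : R) (r : ι → ZMod (p : ℕ)) : ℝ := if a i (liftp r) ∈ v.1.asIdeal then 0 else 1

theorem diag {a b : R → (ι → ℤ) → 𝓞 K} (h : ShiftR a b) (p : Nat.Primes)
    [hp : Fact (p : ℕ).Prime] (h5 : 5 ≤ (p : ℕ)) (v : {v : HeightOneSpectrum (𝓞 K) // below v = p}) (s : Finset R) :
    EM (p : ℕ) (fun r : ι → ZMod (p : ℕ) => ∏ i, if i ∈ s then ((nm v.1 : ℝ) - 3) * nz a p v i r else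
      (trc (shm (a i (liftp r)) (b i (liftp r))) v.1 : ℝ) ^ 2) ≤
    EM (p : ℕ) (fun r => ft a b p v r ^ 2) := by
  classical
  induction s using Finset.induction with
  | empty =>
    apply le_of_eq
    congr 1
    funext r
    unfold ft
    rw [← Finset.prod_pow]
    refine Finset.prod_congr rfl fun i _ => ?_
    rw [if_neg (Finset.notMem_empty _)]
  | insert i0 s hi0 ih =>
    refine le_trans ?_ ih
    obtain ⟨e, he⟩ := exists_shift2 h i0 p v
    rw [EM_shift_fam (ι := ι) (p : ℕ) e (fun r : ι → ZMod (p : ℕ) => ∏ i, if i ∈ s then ((nm v.1 : ℝ) - 3) * nz a p v i r else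
      (trc (shm (a i (liftp r)) (b i (liftp r))) v.1 : ℝ) ^ 2)]
    apply EM_mono
    intro r
    have h6 := six_notMem h5 v.1 v.2
    have h6' : (6 : 𝓞 K ⧸ v.1.asIdeal) ≠ 0 := by
      have := mk_ne h6
      rwa [map_ofNat] at this
    have hcard : (Fintype.card (𝓞 K ⧸ v.1.asIdeal) : ℝ) = nm v.1 := by
      rw [Pool.Agent.H341R2.card_v]
    have hq : ((p : ℕ) : ℝ) ≤ nm v.1 := nm_ge v.1 v.2
    have hq5 : (5 : ℝ) ≤ nm v.1 := le_trans (by exact_mod_cast h5) hq
    set Z : ℝ := ∏ i ∈ Finset.univ.erase i0, (if i ∈ s then ((nm v.1 : ℝ) - 3) * nz a p v i r else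
      (trc (shm (a i (liftp r)) (b i (liftp r))) v.1 : ℝ) ^ 2) with hZ
    have hnz : ∀ i r, 0 ≤ nz a p v i r := by
      intro i r
      unfold nz
      split_ifs <;> norm_num
    have hZ0 : 0 ≤ Z := by
      refine Finset.prod_nonneg fun i _ => ?_
      split_ifs
      · exact mul_nonneg (by linarith) (hnz i r)
      · positivity
    have e1 : ∀ y : 𝓞 K ⧸ v.1.asIdeal, (∏ i, if i ∈ s then ((nm v.1 : ℝ) - 3) * nz a p v i (r + e y) else
        (trc (shm (a i (liftp (r + e y))) (b i (liftp (r + e y)))) v.1 : ℝ) ^ 2) =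
        (csum (-48 * Ideal.Quotient.mk v.1.asIdeal (a i0 (liftp r)))
          (-864 * (Ideal.Quotient.mk v.1.asIdeal (b i0 (liftp r)) + y)) : ℝ) ^ 2 * Z := by
      intro y
      obtain ⟨g1, g2, g3, g4⟩ := he y r
      rw [← Finset.mul_prod_erase Finset.univ _ (Finset.mem_univ i0), if_neg hi0, hZ]
      congr 1
      · rw [trc_mk _ _ v.1 h6, g3, Ideal.Quotient.eq.mpr (g1 i0)]
        push_cast
        ring
      · refine Finset.prod_congr rfl fun i hi => ?_
        have hne := Finset.ne_of_mem_erase hi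
        rw [trc_congr v.1 (g1 i) (g2 i hne)]
        have e2 : nz a p v i (r + e y) = nz a p v i r := by
          unfold nz
          have h7 : a i (liftp (r + e y)) ∈ v.1.asIdeal ↔ a i (liftp r) ∈ v.1.asIdeal := by
            constructor
            · intro h8
              have := Ideal.sub_mem _ h8 (g1 i)
              simpa using this
            · intro h8
              have := Ideal.add_mem _ (g1 i) h8
              simpa using this
          simp only [h7]
        rw [e2]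
    rw [Finset.sum_congr rfl fun y _ => e1 y, ← Finset.sum_mul, hcard]
    rw [← Finset.mul_prod_erase Finset.univ _ (Finset.mem_univ i0), if_pos (Finset.mem_insert_self _ _)]
    have e3 : ∏ i ∈ Finset.univ.erase i0, (if i ∈ insert i0 s then ((nm v.1 : ℝ) - 3) * nz a p v i r else
      (trc (shm (a i (liftp r)) (b i (liftp r))) v.1 : ℝ) ^ 2) = Z := by
      rw [hZ]
      refine Finset.prod_congr rfl fun i hi => ?_
      have hne := Finset.ne_of_mem_erase hi
      have : i ∈ insert i0 s ↔ i ∈ s := by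
        rw [Finset.mem_insert]
        exact or_iff_right hne
      simp only [this]
    rw [e3, mul_div_right_comm]
    apply mul_le_mul_of_nonneg_right _ hZ0
    rw [le_div_iff₀ (by linarith)]
    unfold nz
    split_ifs with h7
    · rw [mul_zero, zero_mul]
      exact Finset.sum_nonneg fun y _ => by positivity
    · have h8 : (-48 * Ideal.Quotient.mk v.1.asIdeal (a i0 (liftp r)) : 𝓞 K ⧸ v.1.asIdeal) ≠ 0 := by
        have h9 : Ideal.Quotient.mk v.1.asIdeal (a i0 (liftp r)) ≠ 0 := by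
          rw [Ne, Ideal.Quotient.eq_zero_iff_mem]
          exact h7
        have h2 := two_ne_of_six h6'
        have h3 : (-48 : 𝓞 K ⧸ v.1.asIdeal) = -(2 ^ 3 * 6) := by norm_num
        rw [h3]
        exact mul_ne_zero (neg_ne_zero.mpr (mul_ne_zero (pow_ne_zero _ h2) h6')) h9
      have h10 := csum_second h6' _ (Ideal.Quotient.mk v.1.asIdeal (b i0 (liftp r))) h8
      have h11 : ((Fintype.card (𝓞 K ⧸ v.1.asIdeal) : ℤ) : ℝ) = nm v.1 := by
        push_cast
        exact hcard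
      have h12 : ((nm v.1 : ℝ)) * ((nm v.1 : ℝ) - 3) ≤ ∑ y : 𝓞 K ⧸ v.1.asIdeal,
          (csum (-48 * Ideal.Quotient.mk v.1.asIdeal (a i0 (liftp r)))
          (-864 * (Ideal.Quotient.mk v.1.asIdeal (b i0 (liftp r)) + y)) : ℝ) ^ 2 := by
        rw [← h11]
        exact_mod_cast h10
      linarith

/-- **The second moment at one place.** -/
theorem diag' {a b : R → (ι → ℤ) → 𝓞 K} (h : ShiftR a b) (p : Nat.Primes)
    [hp : Fact (p : ℕ).Prime] (h5 : 5 ≤ (p : ℕ)) (v : {v : HeightOneSpectrum (𝓞 K) // below v = p})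
    (hz : ∑ i : R, EM (p : ℕ) (fun r : ι → ZMod (p : ℕ) => 1 - nz a p v i r) ≤ 1 / 2) :
    1 / 2 * ((nm v.1 : ℝ) - 3) ^ Fintype.card R ≤ EM (p : ℕ) (fun r => ft a b p v r ^ 2) := by
  classical
  refine le_trans ?_ (diag h p h5 v Finset.univ)
  have hq : ((p : ℕ) : ℝ) ≤ nm v.1 := nm_ge v.1 v.2
  have hq5 : (5 : ℝ) ≤ nm v.1 := le_trans (by exact_mod_cast h5) hq
  have h1 : (fun r : ι → ZMod (p : ℕ) => ∏ i, if i ∈ (Finset.univ : Finset R) then ((nm v.1 : ℝ) - 3) * nz a p v i r else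
      (trc (shm (a i (liftp r)) (b i (liftp r))) v.1 : ℝ) ^ 2) =
      fun r => ((nm v.1 : ℝ) - 3) ^ Fintype.card R * ∏ i, nz a p v i r := by
    funext r
    simp only [Finset.mem_univ, if_true]
    rw [Finset.prod_mul_distrib, Finset.prod_const, Finset.card_univ]
  rw [h1, EM_mul]
  have h2 : (fun r : ι → ZMod (p : ℕ) => 1 + (-1) * ∑ i : R, (1 - nz a p v i r)) ≤ fun r => ∏ i, nz a p v i r := by
    intro r
    simp only
    have h01 : ∀ i, nz a p v i r = 0 ∨ nz a p v i r = 1 := by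
      intro i
      unfold nz
      split_ifs
      · exact Or.inl rfl
      · exact Or.inr rfl
    by_cases hall : ∀ i, nz a p v i r = 1
    · simp [hall]
    · push_neg at hall
      obtain ⟨i1, hi1⟩ := hall
      have h3 : nz a p v i1 r = 0 := (h01 i1).resolve_right hi1
      have h4 : (1 : ℝ) ≤ ∑ i : R, (1 - nz a p v i r) := by
        have h5 := Finset.single_le_sum (s := Finset.univ) (f := fun i : R => 1 - nz a p v i r)
          (fun i _ => by rcases h01 i with h | h <;> rw [h] <;> norm_num) (Finset.mem_univ i1)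
        simp only [h3] at h5
        linarith
      have h6 : 0 ≤ ∏ i, nz a p v i r := Finset.prod_nonneg fun i _ => by
        rcases h01 i with h | h <;> rw [h] <;> norm_num
      linarith
  have h3 := EM_mono (p : ℕ) _ _ h2
  rw [Pool.Agent.Y722.LS.EM_add, EM_mul, EM_const, EM_sum'] at h3
  have h4 : (1 : ℝ) / 2 ≤ EM (p : ℕ) (fun r : ι → ZMod (p : ℕ) => ∏ i, nz a p v i r) := by linarith
  rw [mul_comm]
  exact mul_le_mul_of_nonneg_left h4 (pow_nonneg (by linarith) _)

/-- **The second moment of the traces of the tensor product.** -/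
theorem second_TR [Nonempty R] {a b : R → (ι → ℤ) → 𝓞 K} (h : ShiftR a b) (p : Nat.Primes)
    [hp : Fact (p : ℕ).Prime] (h5 : 5 ≤ (p : ℕ)) (hQ : p ∈ QK K)
    (hz : ∀ v : {v : HeightOneSpectrum (𝓞 K) // below v = p},
      ∑ i : R, EM (p : ℕ) (fun r : ι → ZMod (p : ℕ) => 1 - nz a p v i r) ≤ 1 / 2) :
    1 / 2 * (2 / 5 : ℝ) ^ Fintype.card R * ((p : ℕ) : ℝ) ^ Fintype.card R ≤
      EM (p : ℕ) (fun r => TR a b (p : ℕ) 1 r ^ 2) := by
  classical
  have hp0 : (0 : ℝ) < ((p : ℕ) : ℝ) := by exact_mod_cast p.2.pos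
  have hp5 : (5 : ℝ) ≤ ((p : ℕ) : ℝ) := by exact_mod_cast h5
  have e1 : (fun r => TR a b (p : ℕ) 1 r ^ 2) = fun r : ι → ZMod (p : ℕ) =>
      (∑ v : {v : HeightOneSpectrum (𝓞 K) // below v = p}, (if deg v.1 = 1 then ft a b p v r else 0)) ^ 2 := by
    funext r
    rw [TR_prime, tt_one]
    rfl
  rw [e1, EM_orth (p : ℕ) (fun (v : {v : HeightOneSpectrum (𝓞 K) // below v = p}) (r : ι → ZMod (p : ℕ)) =>
    if deg v.1 = 1 then ft a b p v r else 0)]
  · obtain ⟨v0, hv0, hd0⟩ := hQ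
    have hnn : ∀ v : {v : HeightOneSpectrum (𝓞 K) // below v = p},
        0 ≤ EM (p : ℕ) (fun r : ι → ZMod (p : ℕ) => (if deg v.1 = 1 then ft a b p v r else 0) ^ 2) := fun v =>
      EM_nonneg' (p : ℕ) _ fun r => sq_nonneg _
    refine le_trans ?_ (Finset.single_le_sum (s := Finset.univ)
      (f := fun v : {v : HeightOneSpectrum (𝓞 K) // below v = p} =>
        EM (p : ℕ) (fun r : ι → ZMod (p : ℕ) => (if deg v.1 = 1 then ft a b p v r else 0) ^ 2))
      (fun v _ => hnn v) (Finset.mem_univ ⟨v0, hv0⟩))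
    simp only [if_pos hd0]
    refine le_trans ?_ (diag' h p h5 ⟨v0, hv0⟩ (hz ⟨v0, hv0⟩))
    rw [mul_assoc, ← mul_pow]
    have hnm : (nm v0 : ℝ) = (p : ℕ) := by
      have := (nm_eq v0).1
      rw [hd0, pow_one, hv0] at this
      exact_mod_cast this
    rw [hnm]
    have h6 : (2 / 5 : ℝ) * ((p : ℕ) : ℝ) ≤ ((p : ℕ) : ℝ) - 3 := by linarith
    have h7 : 0 ≤ (2 / 5 : ℝ) * ((p : ℕ) : ℝ) := by positivity
    gcongr
  · intro v v' hv
    by_cases h1 : deg v.1 = 1 ∧ deg v'.1 = 1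
    · simp only [if_pos h1.1, if_pos h1.2]
      exact cross h p h5 v v' hv.symm
    · have e2 : (fun r : ι → ZMod (p : ℕ) => (if deg v.1 = 1 then ft a b p v r else 0) *
          (if deg v'.1 = 1 then ft a b p v' r else 0)) = fun _ => 0 := by
        funext r
        by_cases h2 : deg v.1 = 1
        · rw [if_neg (fun h3 => h1 ⟨h2, h3⟩), mul_zero]
        · rw [if_neg h2, zero_mul]
      rw [e2, EM_const]

end

end Pool.Agent.U309.ED
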