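import Pool.Agent.U309.ED.Ten2
import Pool.Agent.U309.ED.PowEdge2
import Pool.Agent.N534.HC.Bad

/-!
# The distribution at the edge for tensor products of random elliptic curves
-/

set_option autoImplicit false
set_option linter.unusedSectionVars false
set_option linter.unusedVariables false
set_option linter.deprecated false

namespace Pool.Agent.U309.ED

open NumberField IsDedekindDomain Finset
open Pool.Agent.H921R2.TatePole (nm two_le_nm below deg nm_eq below_le_nm fiber_card_le below_eq_of_mem)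
open Pool.Agent.H341R2.EC (trc csum mk_ne)
open Pool.Agent.Y722.HS (EM red EM_mono EM_const)
open Pool.Agent.Y722.LS (EM_mul)
open Pool.Agent.N534.EC
open Pool.Agent.N534.AS
open Pool.Agent.N534.LL (liftp red_liftp)
open Pool.Agent.N534.PS (Pow p_two lamT trm)

variable {K : Type} [Field K] [NumberField K] {R : Type} [Fintype R] [DecidableEq R]
variable {ι : Type} [Fintype ι] [DecidableEq ι]

/-- a nonzero polynomial is rarely divisible by a place above a large prime -/
theorem zero_small (P : MvPolynomial ι (𝓞 K)) (hP : P ≠ 0) {ε : ℝ} (hε : 0 < ε) : ∃ N : ℕ, ∀ p : Nat.Primes,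
    N ≤ (p : ℕ) → ∀ v : {v : HeightOneSpectrum (𝓞 K) // below v = p},
      EM (p : ℕ) (fun r : ι → ZMod (p : ℕ) => open Classical in
        if MvPolynomial.eval (fun j => ((liftp r j : ℤ) : 𝓞 K)) P ∈ v.1.asIdeal then (1 : ℝ) else 0) ≤ ε := by
  classical
  obtain ⟨m0, hm0⟩ := MvPolynomial.ne_zero_iff.1 hP
  refine ⟨Ideal.absNorm (Ideal.span {P.coeff m0}) + 1 + ⌈(P.totalDegree : ℝ) / ε⌉₊, fun p hp v => ?_⟩
  have : Fact (p : ℕ).Prime := ⟨p.2⟩
  have hp0 : (0 : ℝ) < ((p : ℕ) : ℝ) := by exact_mod_cast p.2.pos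
  have h1 := Pool.Agent.N534.HC.exists_not_mem (P.coeff m0) hm0 p v.1 v.2 (by omega)
  have h2 := Pool.Agent.N534.HC.bad_one P m0 p v.1 v.2 h1
  simp only [Ideal.Quotient.eq_zero_iff_mem] at h2
  refine h2.trans ?_
  rw [div_le_iff₀ hp0]
  have h3 : (P.totalDegree : ℝ) / ε ≤ (p : ℕ) := by
    refine (Nat.le_ceil _).trans ?_
    have : ⌈(P.totalDegree : ℝ) / ε⌉₊ ≤ (p : ℕ) := by omega
    exact_mod_cast this
  rw [div_le_iff₀ hε] at h3
  linarith

/-- **The distribution at the edge for tensor products.** -/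
theorem ten_edge [Nonempty R] {a b : R → (ι → ℤ) → 𝓞 K} (h : ShiftR a b)
    (hz : ∃ P : ℕ, ∀ p : Nat.Primes, P ≤ (p : ℕ) → ∀ v : {v : HeightOneSpectrum (𝓞 K) // below v = p},
      ∑ i : R, EM (p : ℕ) (fun r : ι → ZMod (p : ℕ) => 1 - nz a p v i r) ≤ 1 / 2)
    {X : (ι → ℤ) → ℂ → ℂ} (hX : ∀ (c : ι → ℤ) (s : ℂ), 1 + (Fintype.card R : ℝ) / 2 < s.re →
      X c s = Complex.exp (∑' p : Nat.Primes, lamT (Fintype.card R) 5 (TR a b) (BR a b) c (p : ℕ)
        (s - (1 + (Fintype.card R : ℂ) / 2)))) :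
    EdgeLaw (Fintype.card R) (dK K * 2 ^ Fintype.card R) X := by
  classical
  obtain ⟨P, hP⟩ := hz
  obtain ⟨M, hM, hd⟩ := dens K
  have hdK := one_le_dK (K := K)
  refine powEdge' (powR h) (b := dK K * 2 ^ Fintype.card R) (by positivity) ?_
    (c := 1 / 2 * (2 / 5 : ℝ) ^ Fintype.card R) (by positivity) (Q := QK K) (max 5 P) ?_ ?_
    (η := 1 / dK K) (by positivity) hM hd hX
  · intro p h5 r
    rw [TR_prime]
    have h1 := tt_le (fun i => a i (liftp r)) (fun i => b i (liftp r)) p h5 1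
    rw [Nat.cast_one, one_mul] at h1
    exact h1
  · intro p hp hpP
    have : Fact (p : ℕ).Prime := ⟨p.2⟩
    exact second_TR h p ((le_max_left _ _).trans hpP) hp (hP p ((le_max_right _ _).trans hpP))
  · intro p hp _ r
    rw [TR_prime, tt_one]
    refine Finset.sum_eq_zero fun v _ => ?_
    rw [if_neg]
    intro hd1
    exact hp ⟨v.1, v.2, hd1⟩

end Pool.Agent.U309.ED
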