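import Pool.Agent.U309.ED.Abs

/-!
# Sums of independent random variables over the primes: two-sided bounds for the tails, support and atoms
-/

set_option autoImplicit false
set_option linter.unusedSectionVars false
set_option linter.unusedVariables false
set_option linter.deprecated false

namespace Pool.Agent.U309.ED

open Finset MeasureTheory Filter Topology ProbabilityTheory
open Pool.Agent.N534.LL (PP PS mem_PS unif)

variable {ι : Type} [Fintype ι] [DecidableEq ι]

variable {β A : ℝ} {x : ∀ p : Nat.Primes, (ι → ZMod (p : ℕ)) → ℝ}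
variable {Z : (∀ p : Nat.Primes, ι → ZMod (p : ℕ)) → ℝ}

theorem sum_PS' {M : Type*} [AddCommMonoid M] (z : ℕ) (f : ℕ → M) :
    ∑ p ∈ PS z, f (p : ℕ) = ∑ p ∈ (Finset.Icc 1 z).filter Nat.Prime, f p := by
  refine Finset.sum_bij (fun (p : Nat.Primes) _ => (p : ℕ)) ?_ ?_ ?_ ?_
  · intro p hp
    rw [Finset.mem_filter, Finset.mem_Icc]
    exact ⟨⟨p.2.one_lt.le, mem_PS.mp hp⟩, p.2⟩
  · intro a _ b _ h
    exact Subtype.ext h
  · intro n hn
    rw [Finset.mem_filter, Finset.mem_Icc] at hn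
    exact ⟨⟨n, hn.2⟩, mem_PS.mpr hn.1.2, rfl⟩
  · intro p _
    rfl

theorem mertens : ∃ C : ℝ, 0 ≤ C ∧ ∀ y : ℕ, 3 ≤ y →
    |∑ p ∈ PS y, 1 / ((p : ℕ) : ℝ) - Real.log (Real.log y)| ≤ C := by
  obtain ⟨C, hC⟩ := Pool.Agent.Helper256.KM.mertens_inv
  refine ⟨C, (abs_nonneg _).trans (hC 3 le_rfl), fun y hy => ?_⟩
  rw [sum_PS' y (fun p => 1 / (p : ℝ))]
  exact hC y hy

/-- a convergent sum -/
noncomputable def S0 : ℝ := ∑' n : ℕ, 1 / (n : ℝ) ^ ((3 : ℝ) / 2)

theorem S0_nonneg : 0 ≤ S0 := tsum_nonneg fun n => by positivity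

theorem sum_32 (T : Finset Nat.Primes) : ∑ p ∈ T, 1 / ((p : ℕ) : ℝ) ^ ((3 : ℝ) / 2) ≤ S0 := by
  have h1 : Summable fun n : ℕ => 1 / (n : ℝ) ^ ((3 : ℝ) / 2) := Real.summable_one_div_nat_rpow.mpr (by norm_num)
  have h2 : ∑ p ∈ T, 1 / ((p : ℕ) : ℝ) ^ ((3 : ℝ) / 2) =
      ∑ n ∈ T.image (fun p : Nat.Primes => (p : ℕ)), 1 / (n : ℝ) ^ ((3 : ℝ) / 2) := by
    rw [Finset.sum_image]
    intro a _ b _ h
    exact Subtype.ext h
  rw [h2]
  exact h1.sum_le_tsum _ fun n _ => by positivity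

/-- **The upper bound for the tails.** -/
theorem upper (h : Bd β A x) (hZ : Lim x Z) {b1 C2 : ℝ} (hb1 : 0 ≤ b1) (hC2 : 0 ≤ C2)
    (hx : ∀ p r, |x p r| ≤ b1 / (p : ℕ) + C2 / ((p : ℕ) : ℝ) ^ ((3 : ℝ) / 2)) :
    ∃ C κ : ℝ, 1 ≤ C ∧ 0 < κ ∧ ∀ y : ℕ, 3 ≤ y →
      (PP ι).real {ω | b1 * Real.log (Real.log y) + C ≤ |Z ω|} ≤ C * Real.exp (-(κ * y)) := by
  obtain ⟨M, hM0, hM⟩ := mertens
  obtain ⟨y0, hy0, h1⟩ := hZ.tail h one_pos
  have hβ := h.beta
  set κ : ℝ := 1 / (8 * β ^ 2) with hκ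
  have hκ0 : 0 < κ := by positivity
  set C : ℝ := 2 * Real.exp (κ * y0) + (b1 * M + C2 * S0 + 2) with hC
  have hCS : 0 ≤ C2 * S0 := mul_nonneg hC2 S0_nonneg
  have hC1 : 2 ≤ 2 * Real.exp (κ * y0) := by
    have := Real.one_le_exp (x := κ * y0) (by positivity)
    linarith
  have hbM : 0 ≤ b1 * M := by positivity
  refine ⟨C, κ, by rw [hC]; linarith, hκ0, fun y hy => ?_⟩
  by_cases hyy : y0 ≤ y
  · have h2 := h1 y hyy
    have e1 : (1 : ℝ) ^ 2 * y / (8 * β ^ 2) = κ * y := by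
      rw [hκ]
      ring
    rw [e1] at h2
    have hsub : {ω : ∀ p : Nat.Primes, ι → ZMod (p : ℕ) | b1 * Real.log (Real.log y) + C ≤ |Z ω|} ⊆
        {ω | 2 * 1 ≤ |Z ω - S x (PS y) ω|} := by
      intro ω hω
      simp only [Set.mem_setOf_eq] at hω ⊢
      have h3 : |S x (PS y) ω| ≤ b1 * (Real.log (Real.log y) + M) + C2 * S0 := by
        unfold S
        refine (Finset.abs_sum_le_sum_abs _ _).trans ((Finset.sum_le_sum fun p _ => hx p (ω p)).trans ?_)
        rw [Finset.sum_add_distrib]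
        have e2 : ∑ p ∈ PS y, b1 / ((p : ℕ) : ℝ) = b1 * ∑ p ∈ PS y, 1 / ((p : ℕ) : ℝ) := by
          rw [Finset.mul_sum]
          exact Finset.sum_congr rfl fun p _ => by ring
        have e3 : ∑ p ∈ PS y, C2 / ((p : ℕ) : ℝ) ^ ((3 : ℝ) / 2) = C2 * ∑ p ∈ PS y, 1 / ((p : ℕ) : ℝ) ^ ((3 : ℝ) / 2) := by
          rw [Finset.mul_sum]
          exact Finset.sum_congr rfl fun p _ => by ring
        rw [e2, e3]
        have h4 := (abs_le.mp (hM y hy)).2
        have h5 := mul_le_mul_of_nonneg_left (sum_32 (PS y)) hC2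
        have h6 := mul_le_mul_of_nonneg_left (by linarith : ∑ p ∈ PS y, 1 / ((p : ℕ) : ℝ) ≤ Real.log (Real.log y) + M) hb1
        linarith
      have h4 := abs_sub_abs_le_abs_sub (Z ω) (S x (PS y) ω)
      rw [mul_add] at h3
      linarith
    refine (measureReal_mono hsub).trans (h2.trans ?_)
    have : 0 < Real.exp (-(κ * y)) := Real.exp_pos _
    have h7 : 2 ≤ C := by rw [hC]; linarith
    nlinarith
  · rw [not_le] at hyy
    have h2 : (PP ι).real {ω | b1 * Real.log (Real.log y) + C ≤ |Z ω|} ≤ 1 := measureReal_le_one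
    refine h2.trans ?_
    have h3 : Real.exp (κ * y) ≤ C := by
      have h4 : Real.exp (κ * y) ≤ Real.exp (κ * y0) := by
        apply Real.exp_le_exp.mpr
        have : (y : ℝ) ≤ y0 := by exact_mod_cast hyy.le
        nlinarith
      have h5 := Real.exp_pos (κ * y0)
      rw [hC]
      linarith
    have h4 : Real.exp (κ * y) * Real.exp (-(κ * y)) = 1 := by
      rw [← Real.exp_add, add_neg_cancel, Real.exp_zero]
    rw [← h4]
    exact mul_le_mul_of_nonneg_right h3 (Real.exp_pos _).le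

/-! ### Independence of blocks -/

theorem coord : iIndepFun (fun (p : Nat.Primes) (ω : ∀ p : Nat.Primes, ι → ZMod (p : ℕ)) => ω p) (PP ι) :=
  iIndepFun_infinitePi (P := fun p => unif ι p) (X := fun p r => r) fun p => measurable_id

theorem law_coord (p : Nat.Primes) (G : Set (ι → ZMod (p : ℕ))) :
    (PP ι) {ω | ω p ∈ G} = unif ι p G := by
  have h := measurePreserving_eval_infinitePi (fun p : Nat.Primes => unif ι p) p
  exact h.measure_preimage (MeasurableSet.of_discrete (s := G)).nullMeasurableSet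

theorem box_prob (T : Finset Nat.Primes) (G : ∀ p : Nat.Primes, Set (ι → ZMod (p : ℕ))) :
    (PP ι).real {ω | ∀ p ∈ T, ω p ∈ G p} = ∏ p ∈ T, (unif ι p).real (G p) := by
  have h1 := (coord (ι := ι)).measure_inter_preimage_eq_mul T (sets := fun p => G p)
    (fun p _ => MeasurableSet.of_discrete)
  have e1 : {ω : ∀ p : Nat.Primes, ι → ZMod (p : ℕ) | ∀ p ∈ T, ω p ∈ G p} =
      ⋂ p ∈ T, (fun ω : ∀ p : Nat.Primes, ι → ZMod (p : ℕ) => ω p) ⁻¹' G p := by
    ext ω
    simp
  rw [e1, measureReal_def, h1, ENNReal.toReal_prod]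
  refine Finset.prod_congr rfl fun p _ => ?_
  rw [measureReal_def]
  congr 1
  exact law_coord p (G p)

theorem block (T1 T2 : Finset Nat.Primes) (hd : Disjoint T1 T2) (G : ∀ p : Nat.Primes, Set (ι → ZMod (p : ℕ)))
    (B : Set ℝ) (hB : MeasurableSet B) :
    (PP ι).real ({ω | ∀ p ∈ T1, ω p ∈ G p} ∩ {ω | S x T2 ω ∈ B}) =
      (∏ p ∈ T1, (unif ι p).real (G p)) * (PP ι).real {ω | S x T2 ω ∈ B} := by
  have h1 := (coord (ι := ι)).indepFun_finset T1 T2 hd (fun p => measurable_pi_apply p)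
  have h2 := h1.measure_inter_preimage_eq_mul {r | ∀ p : T1, r p ∈ G p}
    {r | ∑ p : T2, x p (r p) ∈ B} (by
      exact MeasurableSet.of_discrete) (by
      exact MeasurableSet.of_discrete)
  have e1 : {ω : ∀ p : Nat.Primes, ι → ZMod (p : ℕ) | ∀ p ∈ T1, ω p ∈ G p} =
      (fun (ω : ∀ p : Nat.Primes, ι → ZMod (p : ℕ)) (p : T1) => ω p) ⁻¹' {r | ∀ p : T1, r p ∈ G p} := by
    ext ω
    simp
  have e2 : {ω : ∀ p : Nat.Primes, ι → ZMod (p : ℕ) | S x T2 ω ∈ B} =
      (fun (ω : ∀ p : Nat.Primes, ι → ZMod (p : ℕ)) (p : T2) => ω p) ⁻¹' {r | ∑ p : T2, x p (r p) ∈ B} := by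
    ext ω
    simp only [Set.mem_setOf_eq, Set.mem_preimage]
    unfold S
    rw [Finset.sum_coe_sort T2 (fun p => x p (ω p))]
  rw [← box_prob, e2, e1, measureReal_def, measureReal_def, measureReal_def, ← ENNReal.toReal_mul]
  exact congrArg ENNReal.toReal h2

/-- **Blocks and the limit.** -/
theorem reach (h : Bd β A x) (hZ : Lim x Z) {ε : ℝ} (hε : 0 < ε) : ∃ y0 : ℕ, 1 ≤ y0 ∧ ∀ y : ℕ, y0 ≤ y →
    ∀ G : ∀ p : Nat.Primes, Set (ι → ZMod (p : ℕ)),
    (∏ p ∈ PS y, (unif ι p).real (G p)) * (1 / 2) ≤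
      (PP ι).real {ω | (∀ p ∈ PS y, ω p ∈ G p) ∧ |Z ω - S x (PS y) ω| < 2 * ε} := by
  obtain ⟨y0, hy0, h1⟩ := ED.tail h hε
  have hβ := h.beta
  have h2 : Tendsto (fun y : ℕ => 2 * Real.exp (-(ε ^ 2 * (y : ℝ) / (8 * β ^ 2)))) atTop (𝓝 0) := by
    have h3 : Tendsto (fun y : ℕ => ε ^ 2 * (y : ℝ) / (8 * β ^ 2)) atTop atTop := by
      apply Filter.Tendsto.atTop_div_const (by positivity)
      exact tendsto_natCast_atTop_atTop.const_mul_atTop (by positivity)
    have h4 := (Real.tendsto_exp_neg_atTop_nhds_zero.comp h3).const_mul 2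
    simpa using h4
  obtain ⟨y1, hy1⟩ := eventually_atTop.mp (h2.eventually_le_const (by norm_num : (0 : ℝ) < 1 / 2))
  refine ⟨max y0 y1, le_trans hy0 (le_max_left _ _), fun y hy G => ?_⟩
  have hy0' := (le_max_left y0 y1).trans hy
  have h3 := hy1 y ((le_max_right y0 y1).trans hy)
  have h5 : Tendsto (fun z : ℕ => (∏ p ∈ PS y, (unif ι p).real (G p)) * (1 / 2) -
      (PP ι).real {ω | ε ≤ |S x (PS z) ω - Z ω|}) atTop
      (𝓝 ((∏ p ∈ PS y, (unif ι p).real (G p)) * (1 / 2) - 0)) := (hZ.close hε).const_sub _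
  rw [sub_zero] at h5
  refine le_of_tendsto h5 ?_
  filter_upwards [eventually_ge_atTop y] with z hz
  set T : Finset Nat.Primes := (PS z).filter fun p : Nat.Primes => y < (p : ℕ) with hT
  have hd : Disjoint (PS y) T := by
    rw [Finset.disjoint_left]
    intro p hp hpT
    have h6 := (Finset.mem_filter.mp hpT).2
    have h7 := mem_PS.mp hp
    omega
  have h6 := block (x := x) (PS y) T hd G {t : ℝ | |t| < ε} (measurableSet_lt measurable_id.abs measurable_const)
  have h7 : (1 / 2 : ℝ) ≤ (PP ι).real {ω | S x T ω ∈ {t : ℝ | |t| < ε}} := by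
    have h8 := h1 y hy0' T (fun p hp => (Finset.mem_filter.mp hp).2)
    have e1 : {ω : ∀ p : Nat.Primes, ι → ZMod (p : ℕ) | S x T ω ∈ {t : ℝ | |t| < ε}} =
        {ω | ε ≤ |S x T ω|}ᶜ := by
      ext ω
      simp
    rw [e1, probReal_compl_eq_one_sub (measurableSet_le measurable_const (meas_S T).abs)]
    linarith
  have h8 : (∏ p ∈ PS y, (unif ι p).real (G p)) * (1 / 2) ≤
      (PP ι).real ({ω | ∀ p ∈ PS y, ω p ∈ G p} ∩ {ω | S x T ω ∈ {t : ℝ | |t| < ε}}) := by
    rw [h6]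
    exact mul_le_mul_of_nonneg_left h7 (Finset.prod_nonneg fun _ _ => measureReal_nonneg)
  have hsub : ({ω : ∀ p : Nat.Primes, ι → ZMod (p : ℕ) | ∀ p ∈ PS y, ω p ∈ G p} ∩ {ω | S x T ω ∈ {t : ℝ | |t| < ε}}) ⊆
      {ω | (∀ p ∈ PS y, ω p ∈ G p) ∧ |Z ω - S x (PS y) ω| < 2 * ε} ∪ {ω | ε ≤ |S x (PS z) ω - Z ω|} := by
    rintro ω ⟨hω1, hω2⟩
    simp only [Set.mem_setOf_eq] at hω1 hω2
    by_cases hc : ε ≤ |S x (PS z) ω - Z ω|
    · exact Or.inr hc
    · left
      rw [not_le] at hc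
      refine ⟨hω1, ?_⟩
      have e1 := S_sub (x := x) z y hz ω
      have e2 : Z ω - S x (PS y) ω = S x T ω - (S x (PS z) ω - Z ω) := by
        rw [e1]
        ring
      have h4 := abs_sub (S x T ω) (S x (PS z) ω - Z ω)
      rw [← e2] at h4
      linarith
  have h9 := (measureReal_mono (μ := PP ι) hsub).trans (measureReal_union_le _ _)
  linarith

/-- The variables take large values of both signs, for a set of primes of positive density; the other variables are small. -/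
structure Sp (a δ η M C2 : ℝ) (Q : Set Nat.Primes) (x : ∀ p : Nat.Primes, (ι → ZMod (p : ℕ)) → ℝ) : Prop where
  a0 : 0 < a
  d0 : 0 < δ
  e0 : 0 < η
  M0 : 0 ≤ M
  c0 : 0 ≤ C2
  up : ∀ p ∈ Q, δ ≤ (unif ι p).real {r | a / (p : ℕ) ≤ x p r}
  dn : ∀ p ∈ Q, δ ≤ (unif ι p).real {r | x p r ≤ -(a / (p : ℕ))}
  off : ∀ p, p ∉ Q → ∀ r, |x p r| ≤ C2 / ((p : ℕ) : ℝ) ^ ((3 : ℝ) / 2)
  dens : ∀ y : ℕ, 3 ≤ y → η * Real.log (Real.log y) - M ≤
    ∑ p ∈ PS y, (open Classical in if p ∈ Q then 1 / ((p : ℕ) : ℝ) else 0)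

variable {a δ η M C2 : ℝ} {Q : Set Nat.Primes}

theorem Sp.neg (hs : Sp a δ η M C2 Q x) : Sp a δ η M C2 Q (fun p r => -x p r) where
  a0 := hs.a0
  d0 := hs.d0
  e0 := hs.e0
  M0 := hs.M0
  c0 := hs.c0
  up := fun p hp => by
    have h1 := hs.dn p hp
    have e1 : {r : ι → ZMod (p : ℕ) | a / (p : ℕ) ≤ -x p r} = {r | x p r ≤ -(a / (p : ℕ))} := by
      ext r
      simp only [Set.mem_setOf_eq]
      constructor <;> intro h <;> linarith
    rw [e1]
    exact h1
  dn := fun p hp => by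
    have h1 := hs.up p hp
    have e1 : {r : ι → ZMod (p : ℕ) | -x p r ≤ -(a / (p : ℕ))} = {r | a / (p : ℕ) ≤ x p r} := by
      ext r
      simp only [Set.mem_setOf_eq]
      constructor <;> intro h <;> linarith
    rw [e1]
    exact h1
  off := fun p hp r => by rw [abs_neg]; exact hs.off p hp r
  dens := hs.dens

theorem Lim.neg (hZ : Lim x Z) : Lim (fun p r => -x p r) (fun ω => -Z ω) where
  meas := hZ.meas.neg
  int := hZ.int.neg
  lim := by
    have h := hZ.lim
    refine h.congr fun z => ?_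
    congr 1
    funext ω
    have : S (fun p r => -x p r) (PS z) ω = -S x (PS z) ω := by
      unfold S
      rw [Finset.sum_neg_distrib]
    rw [this, ← abs_neg]
    congr 1
    ring

/-- the set of primes is infinite -/
theorem Sp.inf (hs : Sp a δ η M C2 Q x) (n : ℕ) : ∃ p ∈ Q, n ≤ (p : ℕ) := by
  classical
  by_contra hcon
  push Not at hcon
  have h1 : Tendsto (fun y : ℕ => η * Real.log (Real.log y) - M) atTop atTop := by
    have h2 : Tendsto (fun n : ℕ => Real.log (Real.log n)) atTop atTop :=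
      Real.tendsto_log_atTop.comp (Real.tendsto_log_atTop.comp tendsto_natCast_atTop_atTop)
    exact tendsto_atTop_add_const_right _ _ (h2.const_mul_atTop hs.e0)
  obtain ⟨y, hy1, hy2⟩ := ((h1.eventually_gt_atTop (n : ℝ)).and (eventually_ge_atTop 3)).exists
  have h2 := hs.dens y hy2
  have h3 : ∑ p ∈ PS y, (if p ∈ Q then 1 / ((p : ℕ) : ℝ) else 0) ≤ n := by
    rw [← Finset.sum_filter]
    have h4 : ∑ p ∈ (PS y).filter (· ∈ Q), 1 / ((p : ℕ) : ℝ) ≤ ∑ p ∈ (PS y).filter (· ∈ Q), (1 : ℝ) := by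
      refine Finset.sum_le_sum fun p _ => ?_
      rw [div_le_one (p_pos p)]
      exact_mod_cast p.2.one_lt.le
    refine h4.trans ?_
    rw [Finset.sum_const, nsmul_eq_mul, mul_one]
    have h5 : ((PS y).filter (· ∈ Q)).card ≤ (Finset.range n).card := by
      refine Finset.card_le_card_of_injOn (fun p : Nat.Primes => (p : ℕ)) ?_ ?_
      · intro p hp
        rw [Finset.mem_coe, Finset.mem_range]
        exact hcon p (Finset.mem_filter.mp hp).2
      · intro u _ v _ huv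
        exact Subtype.ext huv
    rw [Finset.card_range] at h5
    exact_mod_cast h5
  linarith

theorem Sp.d1 (hs : Sp a δ η M C2 Q x) : δ ≤ 1 := by
  obtain ⟨p, hp, _⟩ := hs.inf 0
  exact (hs.up p hp).trans measureReal_le_one

theorem lower1 (h : Bd β A x) (hZ : Lim x Z) (hs : Sp a δ η M C2 Q x) :
    ∃ C κ : ℝ, 1 ≤ C ∧ 0 < κ ∧ ∀ y : ℕ, 3 ≤ y →
      Real.exp (-(κ * y)) / C ≤ (PP ι).real {ω | a * η * Real.log (Real.log y) - C ≤ Z ω} := by
  classical
  obtain ⟨y0, hy0, h1⟩ := reach h hZ one_pos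
  have hβ := h.beta
  have ha := hs.a0
  have hd := hs.d0
  have he := hs.e0
  have hM0 := hs.M0
  have hc0 := hs.c0
  have hd1 := hs.d1
  set κ : ℝ := -Real.log δ + 1 with hκ
  have hκ0 : 0 < κ := by
    have := Real.log_nonpos hd.le hd1
    rw [hκ]; linarith
  have hS0 := S0_nonneg
  set C1 : ℝ := a * M + C2 * S0 + 2 with hC1
  have hC10 : 0 ≤ a * M + C2 * S0 := by positivity
  -- the bound for large `y`
  have hbig : ∀ y : ℕ, 3 ≤ y → y0 ≤ y →
      Real.exp (-(κ * y)) / 2 ≤ (PP ι).real {ω | a * η * Real.log (Real.log y) - C1 ≤ Z ω} := by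
    intro y hy hyy
    set G : ∀ p : Nat.Primes, Set (ι → ZMod (p : ℕ)) := fun p =>
      if p ∈ Q then {r | a / (p : ℕ) ≤ x p r} else Set.univ with hG
    have h2 := h1 y hyy G
    have h3 : Real.exp (-(κ * y)) ≤ ∏ p ∈ PS y, (unif ι p).real (G p) := by
      have h4 : ∀ p ∈ PS y, δ ≤ (unif ι p).real (G p) := by
        intro p _
        rw [hG]
        simp only
        split_ifs with hp
        · exact hs.up p hp
        · rw [probReal_univ]
          exact hd1
      have h5 : δ ^ (PS y).card ≤ ∏ p ∈ PS y, (unif ι p).real (G p) := by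
        rw [← Finset.prod_const]
        exact Finset.prod_le_prod (fun _ _ => hd.le) h4
      refine le_trans ?_ h5
      have h6 : (PS y).card ≤ y := by
        have h7 : (PS y).card ≤ (Finset.Icc 1 y).card := by
          refine Finset.card_le_card_of_injOn (fun p : Nat.Primes => (p : ℕ)) ?_ ?_
          · intro p hp
            rw [Finset.mem_coe, Finset.mem_Icc]
            exact ⟨p.2.one_lt.le, mem_PS.mp hp⟩
          · intro u _ v _ huv
            exact Subtype.ext huv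
        simpa using h7
      have h7 : δ ^ y ≤ δ ^ (PS y).card := pow_le_pow_of_le_one hd.le hd1 h6
      refine le_trans ?_ h7
      have h8 : δ ^ y = Real.exp (Real.log δ * y) := by
        rw [mul_comm, ← Real.rpow_natCast, Real.rpow_def_of_pos hd, mul_comm]
      rw [h8]
      apply Real.exp_le_exp.mpr
      have hy' : (0 : ℝ) ≤ y := by positivity
      rw [hκ]
      nlinarith
    have hsub : {ω : ∀ p : Nat.Primes, ι → ZMod (p : ℕ) | (∀ p ∈ PS y, ω p ∈ G p) ∧ |Z ω - S x (PS y) ω| < 2 * 1} ⊆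
        {ω | a * η * Real.log (Real.log y) - C1 ≤ Z ω} := by
      rintro ω ⟨hω1, hω2⟩
      simp only [Set.mem_setOf_eq]
      have h4 : a * (η * Real.log (Real.log y) - M) - C2 * S0 ≤ S x (PS y) ω := by
        have h5 : ∀ p ∈ PS y, a * (if p ∈ Q then 1 / ((p : ℕ) : ℝ) else 0) - C2 * (1 / ((p : ℕ) : ℝ) ^ ((3 : ℝ) / 2)) ≤ x p (ω p) := by
          intro p hp
          have hpp := p_pos p
          have h6 := hω1 p hp
          have h7 : 0 ≤ C2 * (1 / ((p : ℕ) : ℝ) ^ ((3 : ℝ) / 2)) := by positivity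
          by_cases hc : p ∈ Q
          · rw [if_pos hc, mul_one_div]
            rw [hG] at h6
            simp only [if_pos hc] at h6
            have h8 : a / ((p : ℕ) : ℝ) ≤ x p (ω p) := h6
            linarith
          · rw [if_neg hc, mul_zero]
            have h8 := (abs_le.mp (hs.off p hc (ω p))).1
            have h9 : C2 * (1 / ((p : ℕ) : ℝ) ^ ((3 : ℝ) / 2)) = C2 / ((p : ℕ) : ℝ) ^ ((3 : ℝ) / 2) := by ring
            linarith
        have h6 := Finset.sum_le_sum h5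
        rw [Finset.sum_sub_distrib, ← Finset.mul_sum, ← Finset.mul_sum] at h6
        have h7 := hs.dens y hy
        have h8 := mul_le_mul_of_nonneg_left (sum_32 (PS y)) hc0
        have h9 := mul_le_mul_of_nonneg_left h7 ha.le
        unfold S
        linarith
      have h5 := (abs_lt.mp hω2).1
      rw [mul_sub] at h4
      rw [hC1]
      nlinarith
    refine le_trans ?_ (measureReal_mono hsub)
    refine le_trans ?_ h2
    linarith
  -- all `y`
  set y2 := max y0 3 with hy2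
  set C : ℝ := C1 + 2 * Real.exp (κ * y2) with hC
  have he1 : 1 ≤ Real.exp (κ * y2) := Real.one_le_exp (by positivity)
  have hCpos : 0 < C := by rw [hC, hC1]; linarith
  refine ⟨C, κ, by rw [hC, hC1]; linarith, hκ0, fun y hy => ?_⟩
  by_cases hyy : y2 ≤ y
  · have h2 := hbig y hy ((le_max_left _ _).trans hyy)
    have hmono : {ω : ∀ p : Nat.Primes, ι → ZMod (p : ℕ) | a * η * Real.log (Real.log y) - C1 ≤ Z ω} ⊆
        {ω | a * η * Real.log (Real.log y) - C ≤ Z ω} := by
      intro ω hω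
      simp only [Set.mem_setOf_eq] at hω ⊢
      rw [hC]
      linarith
    refine le_trans ?_ (h2.trans (measureReal_mono hmono))
    apply div_le_div_of_nonneg_left (Real.exp_pos _).le (by norm_num)
    rw [hC, hC1]
    linarith
  · rw [not_le] at hyy
    have h2 := hbig y2 (le_max_right _ _) (le_max_left _ _)
    have hmono : {ω : ∀ p : Nat.Primes, ι → ZMod (p : ℕ) | a * η * Real.log (Real.log y2) - C1 ≤ Z ω} ⊆
        {ω | a * η * Real.log (Real.log y) - C ≤ Z ω} := by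
      intro ω hω
      simp only [Set.mem_setOf_eq] at hω ⊢
      have h3 : Real.log (Real.log y) ≤ Real.log (Real.log y2) := by
        have hy3 : (3 : ℝ) ≤ y := by exact_mod_cast hy
        apply Real.log_le_log (Real.log_pos (by linarith))
        apply Real.log_le_log (by linarith)
        exact_mod_cast hyy.le
      have h4 := mul_le_mul_of_nonneg_left h3 (by positivity : 0 ≤ a * η)
      rw [hC]
      linarith
    refine le_trans ?_ (h2.trans (measureReal_mono hmono))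
    have h5 : Real.exp (-(κ * y)) ≤ 1 := Real.exp_le_one_iff.mpr (by
      have : (0 : ℝ) ≤ y := by positivity
      nlinarith)
    rw [div_le_div_iff₀ hCpos (by norm_num)]
    have h6 : Real.exp (-(κ * y2)) * C ≥ Real.exp (-(κ * y2)) * (2 * Real.exp (κ * y2)) := by
      apply mul_le_mul_of_nonneg_left _ (Real.exp_pos _).le
      rw [hC, hC1]
      linarith
    have h7 : Real.exp (-(κ * y2)) * (2 * Real.exp (κ * y2)) = 2 := by
      have : Real.exp (-(κ * y2)) * Real.exp (κ * y2) = 1 := by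
        rw [← Real.exp_add, neg_add_cancel, Real.exp_zero]
      linear_combination 2 * this
    linarith

end Pool.Agent.U309.ED
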